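import Pool.Agent.Lib.FacC.Defs

/-!
ALGEBRAIC FUNCTIONS on a set U (only Mathlib).

`algOn_mono`: trivial.
`algOn_sum`: let S = (U → ℂ) (functions on the subtype), with the ℂ[X]-algebra structure given by the ring
  homomorphism P |-> (z |-> P.eval z) (`Pi.ringHom`/`RingHom.toAlgebra`, a local instance in the proof).
  AlgOn U f <-> IsAlgebraic ℂ[X] (f restricted to U) (`Polynomial.aeval_def`, `eval₂`, evaluate at z:
  (P.map (evalRingHom z)).eval (f z) = P.eval₂ (evalRingHom z) (f z)).  Then `IsAlgebraic.add`,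
  `IsAlgebraic.mul` (they hold in every commutative algebra over a domain), constants are algebraic
  (X - C (C c)).
`algOn_extend`: V ⊆ U open nonempty, U open preconnected, f holomorphic on U, AlgOn V f => AlgOn U f:
  z |-> (P.map (evalRingHom z)).eval (f z) is analytic on U (finite sum of (coefficient polynomial)(z) f(z)^j)
  and vanishes on V: `AnalyticOnNhd.eqOn_zero_of_preconnected_of_eventuallyEq_zero`.
`algOn_series`: p != 0, aux p f = 0 as a power series, and g(z) = sum coeff m f (z-ρ)^m for z in the ball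
  of radius 1 about ρ, ‖coeff m f‖ <= C b^m.  Then AlgOn (ball ρ (1/(2b))) g :
  by `ev_aux`-like evaluation (given here as a hypothesis `hev`) sum_ij p_ij (z-ρ)^i g(z)^j = 0.
  P = sum_j (sum_i p_ij (X - C ρ)^i) Y^j != 0: if all inner sums vanish, then all p_ij = 0
  ((X - C ρ)^i are linearly independent: compose with X + C ρ, `Polynomial.comp`, and compare coefficients).
-/

open Polynomial Filter Topology

namespace FacC

theorem algOn_mono {U V : Set ℂ} {f g : ℂ → ℂ} (hVU : V ⊆ U) (h : AlgOn U f)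
    (hfg : ∀ z ∈ V, g z = f z) : AlgOn V g := by
  obtain ⟨P, hP, h⟩ := h
  refine ⟨P, hP, fun z hz => ?_⟩
  rw [hfg z hz]
  exact h z (hVU hz)

/-- functions on `U` as an algebra over the polynomials -/
private noncomputable def algfHom (U : Set ℂ) : ℂ[X] →+* (U → ℂ) :=
  RingHom.pi fun z : U => evalRingHom (z : ℂ)

private lemma algf_iff (U : Set ℂ) (f : ℂ → ℂ) :
    AlgOn U f ↔ @IsAlgebraic ℂ[X] (U → ℂ) _ _ (algfHom U).toAlgebra (fun z => f z) := by
  let : Algebra ℂ[X] (U → ℂ) := (algfHom U).toAlgebra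
  constructor
  · rintro ⟨P, hP, h⟩
    refine ⟨P, hP, ?_⟩
    funext z
    have h1 : (Pi.evalRingHom (fun _ : U => ℂ) z) (aeval (fun z : U => f z) P) =
        P.eval₂ (evalRingHom (z : ℂ)) (f z) := by
      rw [Polynomial.aeval_def, Polynomial.hom_eval₂]
      rfl
    have h2 := h z z.2
    rw [Polynomial.eval_map] at h2
    exact h1.trans h2
  · rintro ⟨P, hP, h⟩
    refine ⟨P, hP, fun z hz => ?_⟩
    have h1 : (Pi.evalRingHom (fun _ : U => ℂ) ⟨z, hz⟩) (aeval (fun z : U => f z) P) =
        P.eval₂ (evalRingHom (z : ℂ)) (f z) := by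
      rw [Polynomial.aeval_def, Polynomial.hom_eval₂]
      rfl
    rw [Polynomial.eval_map, ← h1, h]
    rfl

theorem algOn_sum {ι : Type*} (U : Set ℂ) (s : Finset ι) (f : ι → ℂ → ℂ) (c : ι → ℂ)
    (h : ∀ i ∈ s, AlgOn U (f i)) : AlgOn U (fun z => ∑ i ∈ s, f i z * c i) := by
  classical
  let : Algebra ℂ[X] (U → ℂ) := (algfHom U).toAlgebra
  rw [algf_iff]
  induction s using Finset.induction_on with
  | empty =>
    have h1 : (fun z : U => ∑ i ∈ (∅ : Finset ι), f i z * c i) = 0 := by
      funext z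
      simp
    rw [h1]
    exact isAlgebraic_zero
  | insert i s hi ih =>
    have h1 : (fun z : U => ∑ j ∈ insert i s, f j z * c j) =
        (fun z : U => f i z) * algebraMap ℂ[X] (U → ℂ) (C (c i)) +
          (fun z : U => ∑ j ∈ s, f j z * c j) := by
      funext z
      rw [Finset.sum_insert hi, Pi.add_apply, Pi.mul_apply]
      congr 2
      change c i = eval (z : ℂ) (C (c i))
      rw [eval_C]
    rw [h1]
    have h2 := (algf_iff U (f i)).1 (h i (Finset.mem_insert_self i s))
    exact (h2.mul (isAlgebraic_algebraMap _)).add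
      (ih fun j hj => h j (Finset.mem_insert_of_mem hj))

theorem algOn_extend {U V : Set ℂ} (hU : IsOpen U) (hUc : IsPreconnected U) (hV : IsOpen V)
    (hVn : V.Nonempty) (hVU : V ⊆ U) (f : ℂ → ℂ) (hf : DifferentiableOn ℂ f U)
    (h : AlgOn V f) : AlgOn U f := by
  obtain ⟨P, hP, h⟩ := h
  refine ⟨P, hP, ?_⟩
  have h1 : ∀ z, (P.map (evalRingHom z)).eval (f z) =
      ∑ i ∈ Finset.range (P.natDegree + 1), (P.coeff i).eval z * f z ^ i := by
    intro z
    rw [Polynomial.eval_map, Polynomial.eval₂_eq_sum_range]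
    rfl
  have h2 : DifferentiableOn ℂ (fun z => (P.map (evalRingHom z)).eval (f z)) U := by
    have h3 : (fun z => (P.map (evalRingHom z)).eval (f z)) = fun z =>
        ∑ i ∈ Finset.range (P.natDegree + 1), (P.coeff i).eval z * f z ^ i := funext h1
    rw [h3]
    apply DifferentiableOn.fun_sum
    intro i _
    exact (Polynomial.differentiable (P.coeff i)).differentiableOn.mul (hf.pow i)
  have h3 : AnalyticOnNhd ℂ (fun z => (P.map (evalRingHom z)).eval (f z)) U :=
    h2.analyticOnNhd hU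
  obtain ⟨z₀, hz₀⟩ := hVn
  have h4 : (fun z => (P.map (evalRingHom z)).eval (f z)) =ᶠ[𝓝 z₀] 0 := by
    filter_upwards [hV.mem_nhds hz₀] with z hz
    exact h z hz
  intro z hz
  exact h3.eqOn_zero_of_preconnected_of_eventuallyEq_zero hUc (hVU hz₀) h4 hz

theorem algOn_series {L d : ℕ} (p : Fin L → Fin (d + 1) → ℤ) (hp : p ≠ 0) (U : Set ℂ) (ρ : ℂ)
    (g : ℂ → ℂ) (hev : ∀ z ∈ U, ∑ i : Fin L, ∑ j : Fin (d + 1),
      (p i j : ℂ) * (z - ρ) ^ (i : ℕ) * g z ^ (j : ℕ) = 0) : AlgOn U g := by
  set P : ℂ[X][X] := ∑ i : Fin L, ∑ j : Fin (d + 1),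
    C (C (p i j : ℂ) * (X - C ρ) ^ (i : ℕ)) * X ^ (j : ℕ) with hPdef
  refine ⟨P, ?_, ?_⟩
  · intro hP0
    apply hp
    funext i j
    have h1 : P.coeff (j : ℕ) = ∑ i : Fin L, C (p i j : ℂ) * (X - C ρ) ^ (i : ℕ) := by
      rw [hPdef, Polynomial.finsetSum_coeff]
      apply Finset.sum_congr rfl
      intro i _
      rw [Polynomial.finsetSum_coeff]
      rw [Finset.sum_eq_single j]
      · rw [Polynomial.coeff_C_mul, Polynomial.coeff_X_pow, if_pos rfl, mul_one]
      · intro k _ hk
        rw [Polynomial.coeff_C_mul, Polynomial.coeff_X_pow, if_neg, mul_zero]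
        intro h
        exact hk (Fin.ext h.symm)
      · intro h
        exact absurd (Finset.mem_univ j) h
    rw [hP0, Polynomial.coeff_zero] at h1
    have h2 := congrArg (fun q : ℂ[X] => (q.comp (X + C ρ)).coeff (i : ℕ)) h1
    simp only [Polynomial.zero_comp, Polynomial.coeff_zero] at h2
    have h3 : (∑ i : Fin L, C (p i j : ℂ) * (X - C ρ) ^ (i : ℕ)).comp (X + C ρ) =
        ∑ i : Fin L, C (p i j : ℂ) * X ^ (i : ℕ) := by
      rw [Polynomial.sum_comp]
      apply Finset.sum_congr rfl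
      intro i _
      simp
    rw [h3, Polynomial.finsetSum_coeff, Finset.sum_eq_single i] at h2
    · rw [Polynomial.coeff_C_mul, Polynomial.coeff_X_pow, if_pos rfl, mul_one] at h2
      have h4 : ((p i j : ℤ) : ℂ) = 0 := h2.symm
      rw [Pi.zero_apply, Pi.zero_apply]
      exact_mod_cast h4
    · intro k _ hk
      rw [Polynomial.coeff_C_mul, Polynomial.coeff_X_pow, if_neg, mul_zero]
      intro h
      exact hk (Fin.ext h.symm)
    · intro h
      exact absurd (Finset.mem_univ i) h
  · intro z hz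
    rw [← hev z hz, hPdef]
    simp [Polynomial.map_sum, Polynomial.eval_finsetSum]

end FacC
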