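import Pool.Agent.Lib.FacC.Defs

/-!
BRIDGE between the functions A_m of the problem and the polynomial matrices G_m.

PROOF. Induction on m for ALL z with D(z) != 0 (an open set: `D.continuous`, `IsOpen.preimage`).
m = 0: both sides are 1.  Step: on the open set V = {D != 0} the entry (i,j) of A_m is
x |-> D(x)^(-m) G_m(x)_ij, so (use `Filter.EventuallyEq.deriv_eq`, `Polynomial.hasDerivAt`)
its derivative at z is  -m D'(z) D(z)^(-m-1) G_m(z)_ij + D(z)^(-m) G_m'(z)_ij ; multiply by D(z)^(m+1):
D(z) G_m'(z)_ij - m D'(z) G_m(z)_ij = eval z (th D m (G_m)_ij).  And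
D(z)^(m+1) A_m(z) A(z) = (D(z)^m A_m(z)) (D(z) A(z)) = G_m(z) B(z).
(`Matrix.map_mul` for `evalRingHom z`.)
-/

open Polynomial

namespace FacC

theorem bridge {ι : Type*} [Fintype ι] [DecidableEq ι] (D : ℂ[X]) (B : Matrix ι ι ℂ[X])
    (A : ℂ → Matrix ι ι ℂ) (hA : ∀ z, D.eval z ≠ 0 → D.eval z • A z = B.map (eval z))
    (m : ℕ) (z : ℂ) (hz : D.eval z ≠ 0) :
    (D.eval z) ^ m • Aseq A m z = (Gm D B m).map (eval z) := by
  induction m generalizing z with
  | zero =>
    show (D.eval z) ^ 0 • (1 : Matrix ι ι ℂ) = (1 : Matrix ι ι ℂ[X]).map (eval z)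
    rw [pow_zero, one_smul]
    exact (Matrix.map_one _ eval_zero eval_one).symm
  | succ m ih =>
    have hopen : IsOpen {x : ℂ | D.eval x ≠ 0} :=
      isOpen_ne_fun D.continuous continuous_const
    ext1 i j
    have hent : ∀ x, D.eval x ≠ 0 → Aseq A m x i j = ((D.eval x) ^ m)⁻¹ * (Gm D B m i j).eval x := by
      intro x hx
      have h1 := congrFun (congrFun (ih x hx) i) j
      rw [Matrix.smul_apply, smul_eq_mul, Matrix.map_apply] at h1
      rw [← h1]
      field_simp
    have hder : deriv (fun x => Aseq A m x i j) z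
        = -(((m : ℂ) * D.eval z ^ (m - 1) * (derivative D).eval z) / ((D.eval z) ^ m) ^ 2)
          * (Gm D B m i j).eval z
          + ((D.eval z) ^ m)⁻¹ * (derivative (Gm D B m i j)).eval z := by
      have h1 : (fun x => Aseq A m x i j) =ᶠ[nhds z]
          fun x => ((D.eval x) ^ m)⁻¹ * (Gm D B m i j).eval x := by
        filter_upwards [hopen.mem_nhds hz] with x hx
        exact hent x hx
      rw [h1.deriv_eq]
      have h2 : HasDerivAt (fun x => (D.eval x) ^ m)
          ((m : ℂ) * D.eval z ^ (m - 1) * (derivative D).eval z) z := (D.hasDerivAt z).fun_pow m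
      have h3 := h2.fun_inv (pow_ne_zero m hz)
      have h4 := h3.fun_mul ((Gm D B m i j).hasDerivAt z)
      rw [h4.deriv, neg_div]
    show (D.eval z) ^ (m + 1) * ((Matrix.of (fun i j => deriv (fun x => Aseq A m x i j) z)
        + Aseq A m z * A z) i j)
      = ((Gm D B m).map (th D m) + Gm D B m * B).map (eval z) i j
    have hmul : (D.eval z) ^ (m + 1) * ((Aseq A m z * A z) i j)
        = ((Gm D B m * B) i j).eval z := by
      have h1 : (D.eval z) ^ (m + 1) * ((Aseq A m z * A z) i j)
          = (((D.eval z) ^ m • Aseq A m z) * (D.eval z • A z)) i j := by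
        rw [Matrix.smul_mul, Matrix.mul_smul, smul_smul, Matrix.smul_apply, smul_eq_mul, pow_succ]
      rw [h1, ih z hz, hA z hz, Matrix.mul_apply, Matrix.mul_apply, eval_finsetSum]
      simp only [Matrix.map_apply, eval_mul]
    rw [Matrix.add_apply, mul_add, hmul, Matrix.map_apply, Matrix.add_apply, eval_add,
      Matrix.map_apply, Matrix.of_apply, hder]
    congr 1
    unfold th
    simp only [eval_sub, eval_mul, eval_natCast]
    rcases m with _ | m
    · simp
    · have hne : D.eval z ≠ 0 := hz
      rw [Nat.add_sub_cancel]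
      field_simp
      ring

end FacC
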