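import Pool.Agent.Lib.FacC.OdeU
import Pool.Agent.Lib.FacC.AlgF

/-!
CONTINUATION: if the fundamental matrix at one point c with D(z) != 0 near c has algebraic entries, then all
local holomorphic solutions everywhere are algebraic.  (Mathlib, OdeU, AlgF.)

Let W = {z : D(z) != 0} (open; preconnected as the complement of a finite set:
 `Set.Countable.isConnected_compl_of_one_lt_rank`, `Complex.rank_real_complex`),
A(z) = (D z)^(-1) B(z), holomorphic on W.
Let Good be the set of u in W such that for some r > 0, ball u r ⊆ W and every y which solves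
y' = A y on ball u r has AlgOn (ball u r) (y_i) for all i.
(a) For every u in W and every r with ball u r ⊆ W: if ball u r contains a point u' of Good then u is Good
 with radius r:  take r' <= the radius of u' with ball u' r' ⊆ ball u r.  A solution y
 on ball u r restricts to ball u' r'; by ode_exists/ode_repr (for the ball of u' : fundamental matrix Y',
 columns are solutions on it, hence algebraic; y = Y' v on ball u' r') y_i is algebraic on ball u' r'
 (algOn_sum, algOn_mono), and by `algOn_extend` on ball u r.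
(b) So Good is open and relatively closed in W.  Closed: u in W in the closure of Good, r with ball u r ⊆ W,
 ball u r contains a point u' of Good; (a).  Openness: u in Good with r, u' in ball u r: ball u' r' with
 r' := r - |u'-u| is contained in ball u r; a solution on ball u' r' is Y_u v there (ode_repr with the centre
 u, V = ball u' r'), and the columns of Y_u are algebraic on ball u r.
 The point c is in Good (radius r; ode_repr with V = ball c r).
 `IsPreconnected.subset_of_closure_inter_subset` or `isPreconnected_iff_subset_of_disjoint`: Good = W.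
(c) Let U be open preconnected, y a holomorphic solution of D y' = B y on U.  If U is empty: P = 1.
 Otherwise U contains a point u with D(u) != 0 (an open nonempty set is infinite), and a ball
 ball u r ⊆ U ∩ W; by the above every entry is algebraic on a smaller ball (restrict the ball of Good:
 for a solution on ball u r' with r' smaller than the radius of Good use ode_repr as in (b)), then
 `algOn_extend` to U.
-/

open Polynomial Filter Topology

namespace FacC

/-- The matrix `D⁻¹ B` as a function. -/
private noncomputable def contA {ι : Type*} [Fintype ι] (D : ℂ[X]) (B : Matrix ι ι ℂ[X])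
    (z : ℂ) : Matrix ι ι ℂ := (D.eval z)⁻¹ • B.map (eval z)

private theorem contA_diff {ι : Type*} [Fintype ι] (D : ℂ[X]) (B : Matrix ι ι ℂ[X])
    (V : Set ℂ) (hV : ∀ z ∈ V, D.eval z ≠ 0) (i j : ι) :
    DifferentiableOn ℂ (fun z => contA D B z i j) V := by
  have : (fun z => contA D B z i j) = fun z => (D.eval z)⁻¹ * (B i j).eval z := by
    funext z; simp [contA, Matrix.smul_apply]
  rw [this]
  exact (D.differentiable.differentiableOn.inv hV).mul (B i j).differentiable.differentiableOn

/-- Solutions in the `HasDerivAt` form. -/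
private def contS {ι : Type*} [Fintype ι] (D : ℂ[X]) (B : Matrix ι ι ℂ[X]) (V : Set ℂ)
    (y : ℂ → ι → ℂ) : Prop :=
  ∀ z ∈ V, ∀ i, HasDerivAt (fun x => y x i) (∑ j, contA D B z i j * y z j) z

private def contP {ι : Type*} [Fintype ι] (D : ℂ[X]) (B : Matrix ι ι ℂ[X]) (u : ℂ) (r : ℝ) :
    Prop :=
  0 < r ∧ (∀ z ∈ Metric.ball u r, D.eval z ≠ 0) ∧
    ∀ y, contS D B (Metric.ball u r) y → ∀ i, AlgOn (Metric.ball u r) (fun z => y z i)

private theorem cont_restrict {ι : Type*} [Fintype ι] [DecidableEq ι] (D : ℂ[X])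
    (B : Matrix ι ι ℂ[X]) (u : ℂ) (r : ℝ) (hP : contP D B u r) (V : Set ℂ) (hV : IsOpen V)
    (hVc : IsPreconnected V) (hVr : V ⊆ Metric.ball u r) (y : ℂ → ι → ℂ) (hy : contS D B V y)
    (i : ι) : AlgOn V (fun z => y z i) := by
  obtain ⟨hr, hD, hall⟩ := hP
  have hA := contA_diff D B (Metric.ball u r) hD
  obtain ⟨Y, hY0, hY⟩ := ode_exists u r hr (contA D B) hA
  obtain ⟨v, hv⟩ := ode_repr u r hr (contA D B) hA Y hY0 hY V hV hVc hVr y hy
  have hcol : ∀ i j, AlgOn (Metric.ball u r) (fun z => Y z i j) := by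
    intro i j
    refine hall (fun z i => Y z i j) ?_ i
    intro z hz k
    have := hY z hz k j
    simpa [Matrix.mul_apply] using this
  refine algOn_mono hVr (algOn_sum (Metric.ball u r) Finset.univ (fun j z => Y z i j) v
    (fun j _ => hcol i j)) ?_
  intro z hz
  exact hv z hz i

private theorem cont_mono_S {ι : Type*} [Fintype ι] (D : ℂ[X]) (B : Matrix ι ι ℂ[X])
    {U V : Set ℂ} (h : V ⊆ U) (y : ℂ → ι → ℂ) (hy : contS D B U y) : contS D B V y :=
  fun z hz i => hy z (h hz) i

private theorem contS_diff {ι : Type*} [Fintype ι] (D : ℂ[X]) (B : Matrix ι ι ℂ[X])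
    {U : Set ℂ} (y : ℂ → ι → ℂ) (hy : contS D B U y) (i : ι) :
    DifferentiableOn ℂ (fun z => y z i) U :=
  fun z hz => (hy z hz i).differentiableAt.differentiableWithinAt

private theorem cont_step {ι : Type*} [Fintype ι] [DecidableEq ι] (D : ℂ[X])
    (B : Matrix ι ι ℂ[X]) (u : ℂ) (r : ℝ) (hr : 0 < r)
    (hD : ∀ z ∈ Metric.ball u r, D.eval z ≠ 0) (u' : ℂ) (hu' : u' ∈ Metric.ball u r) (r' : ℝ)
    (hP : contP D B u' r') : contP D B u r := by
  refine ⟨hr, hD, fun y hy i => ?_⟩
  have hd : dist u' u < r := hu'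
  have hs : 0 < min r' (r - dist u' u) := lt_min hP.1 (by linarith)
  have h1 : Metric.ball u' (min r' (r - dist u' u)) ⊆ Metric.ball u' r' :=
    Metric.ball_subset_ball (min_le_left _ _)
  have h2 : Metric.ball u' (min r' (r - dist u' u)) ⊆ Metric.ball u r := by
    apply Metric.ball_subset_ball'
    have := min_le_right r' (r - dist u' u)
    linarith
  have h3 := cont_restrict D B u' r' hP (Metric.ball u' (min r' (r - dist u' u)))
    Metric.isOpen_ball (convex_ball _ _).isPreconnected h1 y (cont_mono_S D B h2 y hy) i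
  exact algOn_extend Metric.isOpen_ball (convex_ball _ _).isPreconnected Metric.isOpen_ball
    ⟨u', Metric.mem_ball_self hs⟩ h2 _ (contS_diff D B y hy i) h3

private theorem cont_open_pt {ι : Type*} [Fintype ι] [DecidableEq ι] (D : ℂ[X])
    (B : Matrix ι ι ℂ[X]) (u : ℂ) (r : ℝ) (hP : contP D B u r) (u' : ℂ)
    (hu' : u' ∈ Metric.ball u r) : ∃ r', contP D B u' r' := by
  have hd : dist u' u < r := hu'
  have h2 : Metric.ball u' (r - dist u' u) ⊆ Metric.ball u r := by
    apply Metric.ball_subset_ball'
    linarith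
  refine ⟨r - dist u' u, by linarith, fun z hz => hP.2.1 z (h2 hz), fun y hy i => ?_⟩
  exact cont_restrict D B u r hP _ Metric.isOpen_ball (convex_ball _ _).isPreconnected h2 y hy i

private theorem cont_W_preconn (D : ℂ[X]) (hD : D ≠ 0) :
    IsPreconnected {z : ℂ | D.eval z ≠ 0} := by
  have hfin : {z : ℂ | D.IsRoot z}.Finite := Polynomial.finite_setOfPred_isRoot hD
  have h1 : {z : ℂ | D.eval z ≠ 0} = {z : ℂ | D.IsRoot z}ᶜ := by
    ext z; simp [Polynomial.IsRoot]
  rw [h1]
  refine (Set.Countable.isConnected_compl_of_one_lt_rank ?_ hfin.countable).isPreconnected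
  rw [Complex.rank_real_complex]
  exact_mod_cast Nat.one_lt_two

theorem cont {ι : Type*} [Fintype ι] [DecidableEq ι] (D : ℂ[X]) (hD : D ≠ 0)
    (B : Matrix ι ι ℂ[X]) (c : ℂ) (r : ℝ) (hr : 0 < r)
    (hcr : ∀ z ∈ Metric.ball c r, D.eval z ≠ 0) (Y : ℂ → Matrix ι ι ℂ) (hY0 : Y c = 1)
    (hY : ∀ z ∈ Metric.ball c r, ∀ i j, HasDerivAt (fun x => Y x i j)
      ((((D.eval z)⁻¹ • B.map (eval z)) * Y z) i j) z)
    (halg : ∀ i j, AlgOn (Metric.ball c r) (fun z => Y z i j)) :
    AllAlg D B := by
  have hA := contA_diff D B (Metric.ball c r) hcr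
  have hPc : contP D B c r := by
    refine ⟨hr, hcr, fun y hy i => ?_⟩
    obtain ⟨v, hv⟩ := ode_repr c r hr (contA D B) hA Y hY0 hY (Metric.ball c r)
      Metric.isOpen_ball (convex_ball _ _).isPreconnected subset_rfl y hy
    exact algOn_mono subset_rfl (algOn_sum (Metric.ball c r) Finset.univ (fun j z => Y z i j) v
      (fun j _ => halg i j)) (fun z hz => hv z hz i)
  have hWo : IsOpen {z : ℂ | D.eval z ≠ 0} :=
    isOpen_ne_fun D.continuous continuous_const
  have hGo : IsOpen {u : ℂ | ∃ r', contP D B u r'} := by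
    rw [Metric.isOpen_iff]
    rintro u ⟨r', hP⟩
    exact ⟨r', hP.1, fun u' hu' => cont_open_pt D B u r' hP u' hu'⟩
  have hGW : {z : ℂ | D.eval z ≠ 0} ⊆ {u : ℂ | ∃ r', contP D B u r'} := by
    refine (cont_W_preconn D hD).subset_of_closure_inter_subset hGo
      ⟨c, hcr c (Metric.mem_ball_self hr), r, hPc⟩ ?_
    rintro u ⟨hu1, hu2⟩
    obtain ⟨ρ, hρ, hball⟩ := Metric.isOpen_iff.1 hWo u hu2
    obtain ⟨u', ⟨r', hP'⟩, hd⟩ := Metric.mem_closure_iff.1 hu1 ρ hρ
    refine ⟨ρ, cont_step D B u ρ hρ (fun z hz => hball hz) u' ?_ r' hP'⟩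
    rwa [Metric.mem_ball, dist_comm]
  intro U hU hUc y hy i
  rcases U.eq_empty_or_nonempty with hE | hne
  · subst hE
    exact ⟨1, one_ne_zero, fun z hz => absurd hz (Set.notMem_empty z)⟩
  · have hex : ∃ u ∈ U, D.eval u ≠ 0 := by
      by_contra hcon
      push Not at hcon
      obtain ⟨a, ha⟩ := hne
      have hinf : U.Infinite := infinite_of_mem_nhds a (hU.mem_nhds ha)
      exact hinf ((Polynomial.finite_setOfPred_isRoot hD).subset (fun z hz => hcon z hz))
    obtain ⟨u, huU, huD⟩ := hex
    obtain ⟨r0, hP0⟩ := hGW huD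
    obtain ⟨ρ, hρ, hball⟩ := Metric.isOpen_iff.1 hU u huU
    have hs : 0 < min r0 ρ := lt_min hP0.1 hρ
    have h1 : Metric.ball u (min r0 ρ) ⊆ Metric.ball u r0 :=
      Metric.ball_subset_ball (min_le_left _ _)
    have h2 : Metric.ball u (min r0 ρ) ⊆ U :=
      (Metric.ball_subset_ball (min_le_right _ _)).trans hball
    have hS : contS D B (Metric.ball u (min r0 ρ)) y := by
      intro z hz k
      have hzD : D.eval z ≠ 0 := hP0.2.1 z (h1 hz)
      have hd : DifferentiableAt ℂ (fun x => y x k) z :=
        (hy.1 k).differentiableAt (hU.mem_nhds (h2 hz))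
      have he := hy.2 z (h2 hz) k
      have he' : deriv (fun x => y x k) z = ∑ j, contA D B z k j * y z j := by
        have : deriv (fun x => y x k) z = (D.eval z)⁻¹ * ∑ j, (B k j).eval z * y z j := by
          rw [← he]; field_simp
        rw [this, Finset.mul_sum]
        refine Finset.sum_congr rfl fun j _ => ?_
        simp [contA, Matrix.smul_apply, mul_assoc]
      rw [← he']
      exact hd.hasDerivAt
    have h3 := cont_restrict D B u r0 hP0 (Metric.ball u (min r0 ρ)) Metric.isOpen_ball
      (convex_ball _ _).isPreconnected h1 y hS i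
    exact algOn_extend hU hUc Metric.isOpen_ball ⟨u, Metric.mem_ball_self hs⟩ h2 _ (hy.1 i) h3

end FacC
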