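import Pool.Agent.Lib.FacC.Defs

/-!
WEIGHTS and the sequence D_m (only Mathlib).

`wt_triv`: v_p(m!) <= m/(p-1).  Mathlib: `sub_one_mul_padicValNat_factorial`
  ((p-1) v_p(m!) = m - digit sum); `Nat.le_floor`.
`wt_curv`: v_p(m!) <= ⌊m/(p(p-1))⌋ + ⌊m/p⌋ : v_p(m!) = ⌊m/p⌋ + v_p(⌊m/p⌋!)
  (Mathlib: `padicValNat_mul_div_factorial` and `padicValNat_factorial_mul`, or `Nat.Prime.multiplicity_factorial`),
  then wt_triv for ⌊m/p⌋ : v_p(⌊m/p⌋!) <= (m/p)/(p-1).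
`Dm_pos`: product of positive numbers.
`Dm_mul_dvd`: ∏_(p<=a) p^⌊w a⌋ ∏_(p<=b) p^⌊w b⌋ | ∏_(p<=a+b) p^⌊w(a+b)⌋: enlarge both products to
  range (a+b+1) (`Finset.prod_dvd_prod_of_subset`), `Finset.prod_mul_distrib`, `Finset.prod_dvd_prod_of_dvd`,
  p^x p^y = p^(x+y), ⌊x⌋+⌊y⌋ <= ⌊x+y⌋ (`Nat.le_floor`, `Nat.floor_le`).
`Dm_le`: log D_m = sum ⌊w_p m⌋ log p <= m sum w_p log p <= κ m  (`Real.log_prod`, or
  p^⌊x⌋ <= exp(x log p) and `Real.exp_sum`).
`Dm_fac`: if p^(v_p(m!)) | p^⌊w_p m⌋ * G in ℤ[X] for all primes p then m! | D_m * G.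
  PROOF: m! = ∏_(p <= m) p^(v_p(m!)) (`Nat.factorization_prod_pow_eq_self`, support of (m!).factorization
  in range (m+1) ∩ primes); pairwise coprime prime powers each dividing D_m G (as p^⌊w_p m⌋ | D_m for p <= m;
  for p > m the valuation is 0): `Finset.prod_dvd_of_coprime` / work with the coefficients
  (`Polynomial.C_dvd_iff_dvd_coeff`, Int, `Nat.Coprime`) .
-/

open Polynomial Nat

namespace FacC

private theorem wt_triv' (p m : ℕ) (hp : p.Prime) :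
    (padicValNat p m ! : ℝ) ≤ (1 / ((p : ℝ) - 1)) * m := by
  haveI := Fact.mk hp
  have h1 := sub_one_mul_padicValNat_factorial (p := p) m
  have h2 : (p - 1) * padicValNat p m ! ≤ m := by
    rw [h1]
    exact Nat.sub_le _ _
  have h3 : (0 : ℝ) < (p : ℝ) - 1 := by
    have h : (1 : ℝ) < p := by exact_mod_cast hp.one_lt
    linarith
  have h4 : ((p : ℝ) - 1) * padicValNat p m ! ≤ m := by
    have h : ((p - 1 : ℕ) : ℝ) = (p : ℝ) - 1 := by
      rw [Nat.cast_sub hp.one_lt.le]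
      simp
    rw [← h]
    exact_mod_cast h2
  rw [one_div, inv_mul_eq_div, le_div_iff₀ h3]
  linarith

theorem wt_triv (p m : ℕ) (hp : p.Prime) :
    padicValNat p m ! ≤ ⌊(1 / ((p : ℝ) - 1)) * m⌋₊ :=
  Nat.le_floor (wt_triv' p m hp)

theorem wt_curv (p m : ℕ) (hp : p.Prime) :
    padicValNat p m ! ≤ ⌊(1 / ((p : ℝ) * ((p : ℝ) - 1))) * m⌋₊ + m / p := by
  haveI := Fact.mk hp
  have h1 : padicValNat p m ! = padicValNat p (m / p)! + m / p := by
    rw [← padicValNat_mul_div_factorial m, padicValNat_factorial_mul]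
  rw [h1]
  refine Nat.add_le_add_right (Nat.le_floor ?_) _
  refine (wt_triv' p (m / p) hp).trans ?_
  have hp1 : (1 : ℝ) < p := by exact_mod_cast hp.one_lt
  have h3 : (0 : ℝ) < (p : ℝ) - 1 := by linarith
  have h5 : (0 : ℝ) < (p : ℝ) := by linarith
  have h6 : ((m / p : ℕ) : ℝ) ≤ (m : ℝ) / p := Nat.cast_div_le
  calc (1 / ((p : ℝ) - 1)) * ((m / p : ℕ) : ℝ) ≤ (1 / ((p : ℝ) - 1)) * ((m : ℝ) / p) := by
        apply mul_le_mul_of_nonneg_left h6
        positivity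
    _ = (1 / ((p : ℝ) * ((p : ℝ) - 1))) * m := by
        field_simp

theorem Dm_pos (w : ℕ → ℝ) (m : ℕ) : 0 < Dm w m := by
  unfold Dm
  apply Finset.prod_pos
  intro p hp
  exact Nat.pow_pos (Finset.mem_filter.1 hp).2.pos

theorem Dm_mul_dvd (w : ℕ → ℝ) (hw : ∀ p, 0 ≤ w p) (a b : ℕ) :
    Dm w a * Dm w b ∣ Dm w (a + b) := by
  unfold Dm
  have hA : ∀ c : ℕ, c ≤ a + b →
      (∏ p ∈ (Finset.range (c + 1)).filter Nat.Prime, p ^ ⌊w p * c⌋₊) ∣
        ∏ p ∈ (Finset.range (a + b + 1)).filter Nat.Prime, p ^ ⌊w p * c⌋₊ := by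
    intro c hc
    apply Finset.prod_dvd_prod_of_subset
    intro x hx
    rw [Finset.mem_filter, Finset.mem_range] at hx ⊢
    exact ⟨by omega, hx.2⟩
  refine (Nat.mul_dvd_mul (hA a (by omega)) (hA b (by omega))).trans ?_
  rw [← Finset.prod_mul_distrib]
  apply Finset.prod_dvd_prod_of_dvd
  intro p _
  rw [← pow_add]
  apply pow_dvd_pow
  apply Nat.le_floor
  push_cast
  have h1 := Nat.floor_le (mul_nonneg (hw p) (Nat.cast_nonneg (α := ℝ) a))
  have h2 := Nat.floor_le (mul_nonneg (hw p) (Nat.cast_nonneg (α := ℝ) b))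
  nlinarith

theorem Dm_le (w : ℕ → ℝ) (hw : ∀ p, 0 ≤ w p) (κ : ℝ)
    (hs : ∀ F : Finset ℕ, (∀ p ∈ F, p.Prime) → ∑ p ∈ F, w p * Real.log p ≤ κ) (m : ℕ) :
    (Dm w m : ℝ) ≤ Real.exp (κ * m) := by
  unfold Dm
  push_cast
  have h1 : ∀ p ∈ (Finset.range (m + 1)).filter Nat.Prime,
      ((p : ℝ) ^ ⌊w p * m⌋₊) ≤ Real.exp ((w p * Real.log p) * m) := by
    intro p hp
    have hpp := (Finset.mem_filter.1 hp).2
    have hp0 : (0 : ℝ) < p := by exact_mod_cast hpp.pos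
    have hl : 0 ≤ Real.log p := Real.log_nonneg (by exact_mod_cast hpp.one_lt.le)
    have h2 := Nat.floor_le (mul_nonneg (hw p) (Nat.cast_nonneg (α := ℝ) m))
    calc ((p : ℝ) ^ ⌊w p * m⌋₊) = Real.exp (Real.log p * (⌊w p * m⌋₊ : ℝ)) := by
          rw [Real.exp_mul, Real.exp_log hp0, Real.rpow_natCast]
      _ ≤ Real.exp (Real.log p * (w p * m)) := by
          apply Real.exp_le_exp.2
          exact mul_le_mul_of_nonneg_left h2 hl
      _ = Real.exp ((w p * Real.log p) * m) := by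
          congr 1
          ring
  refine (Finset.prod_le_prod (fun p _ => by positivity) h1).trans ?_
  rw [← Real.exp_sum, ← Finset.sum_mul]
  apply Real.exp_le_exp.2
  apply mul_le_mul_of_nonneg_right _ (Nat.cast_nonneg m)
  apply hs
  intro p hp
  exact (Finset.mem_filter.1 hp).2

theorem Dm_fac (w : ℕ → ℝ) (m : ℕ) (G : ℤ[X])
    (h : ∀ p : ℕ, p.Prime → ((p ^ padicValNat p m ! : ℕ) : ℤ[X]) ∣
      ((p ^ ⌊w p * m⌋₊ : ℕ) : ℤ[X]) * G) :
    ((m ! : ℕ) : ℤ[X]) ∣ (Dm w m : ℤ[X]) * G := by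
  have key : ∀ (a b : ℕ), ((a : ℤ[X]) ∣ (b : ℤ[X]) * G) ↔
      ∀ i, a ∣ b * (G.coeff i).natAbs := by
    intro a b
    have ha : (a : ℤ[X]) = C (a : ℤ) := by simp
    have hb : (b : ℤ[X]) = C (b : ℤ) := by simp
    rw [ha, hb, C_dvd_iff_dvd_coeff]
    apply forall_congr'
    intro i
    rw [coeff_C_mul, ← Int.natCast_dvd_natCast (m := a), Nat.cast_mul, Int.natCast_natAbs]
    constructor
    · intro h1
      have h2 : (b : ℤ) * |G.coeff i| = |(b : ℤ) * G.coeff i| := by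
        rw [abs_mul, Nat.abs_cast]
      rw [h2]
      exact (dvd_abs _ _).2 h1
    · intro h1
      have h2 : (b : ℤ) * |G.coeff i| = |(b : ℤ) * G.coeff i| := by
        rw [abs_mul, Nat.abs_cast]
      rw [h2] at h1
      exact (dvd_abs _ _).1 h1
  rw [key]
  intro i
  rw [Nat.dvd_iff_prime_pow_dvd_dvd]
  intro p k hp hk
  rcases Nat.eq_zero_or_pos k with hk0 | hk0
  · subst hk0
    simp
  haveI := Fact.mk hp
  have hpm : p ≤ m := by
    have h1 : p ∣ m ! := (dvd_pow_self p hk0.ne').trans hk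
    exact (hp.dvd_factorial).1 h1
  have hk1 : k ≤ padicValNat p m ! :=
    (padicValNat_dvd_iff_le (Nat.factorial_ne_zero m)).1 hk
  have h2 := (key _ _).1 (h p hp) i
  refine (pow_dvd_pow p hk1).trans (h2.trans (Nat.mul_dvd_mul_right ?_ _))
  unfold Dm
  apply Finset.dvd_prod_of_mem (fun p => p ^ ⌊w p * m⌋₊)
  rw [Finset.mem_filter, Finset.mem_range]
  exact ⟨by omega, hp⟩

end FacC
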