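import Pool.Agent.Lib.FacC.LocK
import Pool.Agent.Lib.FacC.Cont
import Pool.Agent.Lib.FacC.Wt

/-!
THE THEOREM OVER ℤ with weights, base points σ(a), a an algebraic integer of a number field
(assembly; compare CoreZ.lean).
-/

open Polynomial Filter Topology NumberField

namespace FacC

theorem coreK {K : Type*} [Field K] [NumberField K] (a v : 𝓞 K)
    {ι : Type*} [Fintype ι] [DecidableEq ι] (E : ℤ[X])
    (hE0 : ∀ σ : K →+* ℂ, (toC E).eval (σ (a : K)) * σ (v : K) = 1)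
    (B : Matrix ι ι ℤ[X]) (w : ℕ → ℝ) (hw : ∀ p, 0 ≤ w p) (κ : ℝ)
    (hs : ∀ F : Finset ℕ, (∀ p ∈ F, p.Prime) → ∑ p ∈ F, w p * Real.log p ≤ κ)
    (c : ℕ) (hc : c ≠ 0)
    (hdiv : ∀ p : ℕ, p.Prime → ∀ (m : ℕ) (i j : ι),
      ((p ^ padicValNat p m.factorial : ℕ) : ℤ[X]) ∣
        ((p ^ ⌊w p * m⌋₊ : ℕ) : ℤ[X]) * ((c : ℤ[X]) * Gm E B m i j))
    (g : (K →+* ℂ) → ℂ → ℂ) (hg : ∀ σ, DifferentiableOn ℂ (g σ) (Metric.ball 0 1))
    (hg0 : ∀ σ, g σ 0 = 0) (M : ℝ) (hM : Real.exp κ < M) (hg1 : ∀ σ, M ≤ ‖deriv (g σ) 0‖)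
    (hgE : ∀ σ, ∀ x ∈ Metric.ball (0 : ℂ) 1, (toC E).eval (σ (a : K) + g σ x) ≠ 0) :
    AllAlg (toC E) (B.map (Polynomial.map (Int.castRingHom ℂ))) := by
  set BC : Matrix ι ι ℂ[X] := B.map (Polynomial.map (Int.castRingHom ℂ)) with hBC
  have hEC0 : ∀ σ : K →+* ℂ, (toC E).eval (σ (a : K)) ≠ 0 := by
    intro σ h
    have h1 := hE0 σ
    rw [h, zero_mul] at h1
    exact zero_ne_one h1
  obtain ⟨σ0⟩ : Nonempty (K →+* ℂ) := inferInstance
  have hEne : toC E ≠ 0 := by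
    intro h
    have h1 := hEC0 σ0
    rw [h] at h1
    simp at h1
  have hrex : ∀ σ : K →+* ℂ, ∃ r : ℝ, 0 < r ∧
      ∀ z ∈ Metric.ball (σ (a : K)) r, (toC E).eval z ≠ 0 := fun σ =>
    Metric.eventually_nhds_iff_ball.mp
      ((toC E).continuous.continuousAt.eventually_ne (hEC0 σ))
  choose r hr hEr using hrex
  have hAd : ∀ (σ : K →+* ℂ) i j, DifferentiableOn ℂ
      (fun z => (((toC E).eval z)⁻¹ • BC.map (eval z)) i j) (Metric.ball (σ (a : K)) (r σ)) := by
    intro σ i j z hz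
    have h3 : DifferentiableAt ℂ (fun z => (toC E).eval z) z :=
      (toC E).differentiable.differentiableAt
    have h4 : DifferentiableAt ℂ (fun z => (BC i j).eval z) z :=
      (BC i j).differentiable.differentiableAt
    have h2 : DifferentiableAt ℂ (fun z => ((toC E).eval z)⁻¹ * (BC i j).eval z) z :=
      (h3.fun_inv (hEr σ z hz)).fun_mul h4
    exact h2.differentiableWithinAt
  have hYex := fun σ : K →+* ℂ => ode_exists (σ (a : K)) (r σ) (hr σ)
    (fun z => ((toC E).eval z)⁻¹ • BC.map (eval z)) (hAd σ)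
  choose Y hY0 hY using hYex
  refine cont (toC E) hEne BC (σ0 (a : K)) (r σ0) (hr σ0) (hEr σ0) (Y σ0) (hY0 σ0) (hY σ0)
    fun i j => ?_
  have hκ0 : 0 ≤ κ := by simpa using hs ∅ (by simp)
  have hA1d : ∀ (σ : K →+* ℂ) i j, DifferentiableOn ℂ (fun w => (deriv (g σ) w •
      (((toC E).eval (σ (a : K) + g σ w))⁻¹ • BC.map (eval (σ (a : K) + g σ w)))) i j)
        (Metric.ball 0 1) := by
    intro σ i j
    have hφ : DifferentiableOn ℂ (fun w => σ (a : K) + g σ w) (Metric.ball 0 1) :=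
      (differentiableOn_const (σ (a : K))).fun_add (hg σ)
    have h1 : DifferentiableOn ℂ (deriv (g σ)) (Metric.ball 0 1) := (hg σ).deriv Metric.isOpen_ball
    have h2 : DifferentiableOn ℂ (fun w => ((toC E).eval (σ (a : K) + g σ w))⁻¹)
        (Metric.ball 0 1) := by
      have h3 : DifferentiableOn ℂ (fun w => (toC E).eval (σ (a : K) + g σ w))
          (Metric.ball 0 1) :=
        fun w hw => ((toC E).differentiable.differentiableAt.comp w
          (hφ.differentiableAt (Metric.isOpen_ball.mem_nhds hw))).differentiableWithinAt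
      exact h3.fun_inv (hgE σ)
    have h4 : DifferentiableOn ℂ (fun w => (BC i j).eval (σ (a : K) + g σ w))
        (Metric.ball 0 1) :=
      fun w hw => ((BC i j).differentiable.differentiableAt.comp w
        (hφ.differentiableAt (Metric.isOpen_ball.mem_nhds hw))).differentiableWithinAt
    exact h1.fun_mul (h2.fun_mul h4)
  exact locK a v E hE0 B (Dm w) (Dm_pos w) (Dm_mul_dvd w hw) κ hκ0 (Dm_le w hw κ hs) c hc
    (fun m i j => Dm_fac w m ((c : ℤ[X]) * Gm E B m i j) fun p hp => hdiv p hp m i j)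
    (fun z => ((toC E).eval z)⁻¹ • BC.map (eval z)) (fun z => rfl) g hg hg0 M hM hg1
    (fun σ w => deriv (g σ) w •
      (((toC E).eval (σ (a : K) + g σ w))⁻¹ • BC.map (eval (σ (a : K) + g σ w)))) hA1d
    (fun σ => Filter.Eventually.of_forall fun w => rfl) r hr hEr Y hY0 hY i j σ0

end FacC
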