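import Pool.Agent.Lib.FacC.Loc
import Pool.Agent.Lib.FacC.Cont
import Pool.Agent.Lib.FacC.Wt

/-!
THE THEOREM OVER ℤ with weights (assembly).
-/

open Polynomial Filter Topology

namespace FacC

theorem coreZ {ι : Type*} [Fintype ι] [DecidableEq ι] (E : ℤ[X]) (hE0 : E.eval 0 ≠ 0)
    (B : Matrix ι ι ℤ[X]) (w : ℕ → ℝ) (hw : ∀ p, 0 ≤ w p) (κ : ℝ)
    (hs : ∀ F : Finset ℕ, (∀ p ∈ F, p.Prime) → ∑ p ∈ F, w p * Real.log p ≤ κ)
    (c : ℕ) (hc : c ≠ 0)
    (hdiv : ∀ p : ℕ, p.Prime → ∀ (m : ℕ) (i j : ι),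
      ((p ^ padicValNat p m.factorial : ℕ) : ℤ[X]) ∣
        ((p ^ ⌊w p * m⌋₊ : ℕ) : ℤ[X]) * ((c : ℤ[X]) * Gm E B m i j))
    (g h : ℂ → ℂ) (hg : DifferentiableOn ℂ g (Metric.ball 0 1))
    (hh : DifferentiableOn ℂ h (Metric.ball 0 1)) (hg0 : g 0 = 0) (hh0 : h 0 = 1)
    (hg1 : Real.exp κ * |((E.eval 0 : ℤ) : ℝ)| < ‖deriv g 0‖)
    (A1 : ℂ → Matrix ι ι ℂ) (hA1d : ∀ i j, DifferentiableOn ℂ (fun w => A1 w i j) (Metric.ball 0 1))
    (hA1e : ∀ᶠ w in 𝓝 (0 : ℂ), A1 w = deriv (fun x => g x / h x) w •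
      (((toC E).eval (g w / h w))⁻¹ •
        (B.map (Polynomial.map (Int.castRingHom ℂ))).map (eval (g w / h w)))) :
    AllAlg (toC E) (B.map (Polynomial.map (Int.castRingHom ℂ))) := by
  set BC : Matrix ι ι ℂ[X] := B.map (Polynomial.map (Int.castRingHom ℂ)) with hBC
  have hE0' : (toC E).eval 0 = ((E.eval 0 : ℤ) : ℂ) := by
    unfold toC
    rw [eval_map, eval₂_at_zero, ← coeff_zero_eq_eval_zero]
    simp
  have hEC0 : (toC E).eval 0 ≠ 0 := by rw [hE0']; exact_mod_cast hE0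
  have hEne : toC E ≠ 0 := by
    intro h
    rw [h] at hEC0
    simp at hEC0
  obtain ⟨r, hr, hEr⟩ : ∃ r : ℝ, 0 < r ∧ ∀ z ∈ Metric.ball (0 : ℂ) r, (toC E).eval z ≠ 0 :=
    Metric.eventually_nhds_iff_ball.mp ((toC E).continuous.continuousAt.eventually_ne hEC0)
  have hAd : ∀ i j, DifferentiableOn ℂ
      (fun z => (((toC E).eval z)⁻¹ • BC.map (eval z)) i j) (Metric.ball 0 r) := by
    intro i j z hz
    have h3 : DifferentiableAt ℂ (fun z => (toC E).eval z) z :=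
      (toC E).differentiable.differentiableAt
    have h4 : DifferentiableAt ℂ (fun z => (BC i j).eval z) z :=
      (BC i j).differentiable.differentiableAt
    have h2 : DifferentiableAt ℂ (fun z => ((toC E).eval z)⁻¹ * (BC i j).eval z) z :=
      (h3.fun_inv (hEr z hz)).fun_mul h4
    exact h2.differentiableWithinAt
  obtain ⟨Y, hY0, hY⟩ := ode_exists 0 r hr
    (fun z => ((toC E).eval z)⁻¹ • BC.map (eval z)) hAd
  refine cont (toC E) hEne BC 0 r hr hEr Y hY0 hY fun i j => ?_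
  have hκ0 : 0 ≤ κ := by simpa using hs ∅ (by simp)
  set M : ℕ := (E.eval 0).natAbs with hM
  have hM1 : 1 ≤ M := Nat.one_le_iff_ne_zero.mpr (Int.natAbs_ne_zero.mpr hE0)
  have hMr : (M : ℝ) = |((E.eval 0 : ℤ) : ℝ)| := by
    rw [hM, Nat.cast_natAbs, Int.cast_abs]
  have hM0 : (0 : ℝ) < M := by exact_mod_cast hM1
  have hlogM : 0 ≤ Real.log M := Real.log_nonneg (by exact_mod_cast hM1)
  refine loc E hE0 B (fun m => M ^ m * Dm w m) (fun m => Nat.mul_pos (pow_pos hM1 m) (Dm_pos w m))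
    (fun a b => ?_) (κ + Real.log M) (by linarith) (fun m => ?_) c hc (fun m i j => ?_)
    (fun z => ((toC E).eval z)⁻¹ • BC.map (eval z)) (fun z => rfl) g h hg hh hg0 hh0 ?_ A1 hA1d hA1e
    r hr hEr Y hY0 hY i j
  · show M ^ a * Dm w a * (M ^ b * Dm w b) ∣ M ^ (a + b) * Dm w (a + b)
    have h1 : M ^ a * Dm w a * (M ^ b * Dm w b) = M ^ (a + b) * (Dm w a * Dm w b) := by
      rw [pow_add]; ring
    rw [h1]
    exact Nat.mul_dvd_mul_left _ (Dm_mul_dvd w hw a b)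
  · show (((M ^ m * Dm w m : ℕ)) : ℝ) ≤ _
    push_cast
    have h1 := Dm_le w hw κ hs m
    have h2 : Real.exp ((κ + Real.log M) * m) = (M : ℝ) ^ m * Real.exp (κ * m) := by
      rw [add_mul, Real.exp_add, mul_comm (Real.log M) (m : ℝ), Real.exp_nat_mul,
        Real.exp_log hM0]
      ring
    rw [h2]
    gcongr
  · show ((m.factorial : ℕ) : ℤ[X]) * C ((E.eval 0) ^ m) ∣
      ((M ^ m * Dm w m : ℕ) : ℤ[X]) * ((c : ℤ[X]) * Gm E B m i j)
    have h1 := Dm_fac w m ((c : ℤ[X]) * Gm E B m i j) fun p hp => hdiv p hp m i j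
    have h2 : C ((E.eval 0) ^ m) ∣ ((M ^ m : ℕ) : ℤ[X]) := by
      have h3 : ((M ^ m : ℕ) : ℤ[X]) = C ((M ^ m : ℕ) : ℤ) := by simp
      rw [h3, C_dvd_iff_dvd_coeff]
      intro i
      rw [coeff_C]
      split_ifs
      · push_cast
        exact pow_dvd_pow_of_dvd (Int.dvd_natAbs_self) m
      · exact dvd_zero _
    have h3 := mul_dvd_mul h1 h2
    refine h3.trans (dvd_of_eq ?_)
    push_cast
    ring
  · rw [Real.exp_add, Real.exp_log hM0, hMr]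
    exact hg1

end FacC
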