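import Pool.Agent.Lib.FacC.Pow

/-!
EVALUATION of the auxiliary series near 0 (Mathlib and `pow_bd`).

`ev_pow`: for ‖x‖ < 1/(2b) and y = sum coeff m f x^m : sum coeff m (f^j) x^m = y^j.
  Induction on j: the families are absolutely summable (bound (2C)^j (2b‖x‖)^m, geometric), Cauchy product
  (`summable_norm_sum_mul_antidiagonal_of_summable_norm`,
   `tsum_mul_tsum_eq_tsum_sum_antidiagonal_of_summable_norm`, `PowerSeries.coeff_mul`,
   x^a x^b = x^(a+b)).
`ev_aux`: aux = finite sum of constants * X^i * f^j ; X^i shifts: coeff m (X^i g) x^m, `hasSum_nat_add_iff`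
  or again a Cauchy product with the polynomial X^i; `HasSum.mul_left`, `hasSum_sum`.
`aux_bd`: ‖coeff m (aux p f)‖ <= C' (2b)^m for some C' (finite sum; coeff m (X^i g) = coeff (m-i) g or 0,
  (2b)^(m-i) <= (2b)^m since 2b >= 1).
-/

open Polynomial

namespace FacC

private lemma norm_summable (g : ℕ → ℂ) (C b : ℝ) (hC : 0 ≤ C) (hb : 0 < b)
    (hg : ∀ m, ‖g m‖ ≤ C * b ^ m) (x : ℂ) (hx : ‖x‖ < 1 / b) :
    Summable (fun m : ℕ => ‖g m * x ^ m‖) := by
  have h1 : b * ‖x‖ < 1 := by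
    rw [lt_div_iff₀ hb] at hx
    linarith
  refine Summable.of_nonneg_of_le (fun m => norm_nonneg _) (fun m => ?_)
    ((summable_geometric_of_lt_one (by positivity) h1).mul_left C)
  rw [norm_mul, norm_pow, mul_pow, ← mul_assoc]
  gcongr
  exact hg m

private lemma cauchy (g h : PowerSeries ℂ) (x u v : ℂ)
    (hg : Summable (fun m : ℕ => ‖PowerSeries.coeff m g * x ^ m‖))
    (hh : Summable (fun m : ℕ => ‖PowerSeries.coeff m h * x ^ m‖))
    (hu : HasSum (fun m : ℕ => PowerSeries.coeff m g * x ^ m) u)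
    (hv : HasSum (fun m : ℕ => PowerSeries.coeff m h * x ^ m) v) :
    HasSum (fun m : ℕ => PowerSeries.coeff m (g * h) * x ^ m) (u * v) := by
  have h1 := tsum_mul_tsum_eq_tsum_sum_antidiagonal_of_summable_norm hg hh
  have h2 := summable_norm_sum_mul_antidiagonal_of_summable_norm hg hh
  have h3 : ∀ m : ℕ, ∑ kl ∈ Finset.HasAntidiagonal.antidiagonal m,
      (PowerSeries.coeff kl.1 g * x ^ kl.1) * (PowerSeries.coeff kl.2 h * x ^ kl.2)
        = PowerSeries.coeff m (g * h) * x ^ m := by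
    intro m
    rw [PowerSeries.coeff_mul, Finset.sum_mul]
    refine Finset.sum_congr rfl fun kl hkl => ?_
    rw [Finset.HasAntidiagonal.mem_antidiagonal] at hkl
    rw [← hkl, pow_add]
    ring
  simp only [h3] at h1 h2
  rw [hu.tsum_eq, hv.tsum_eq] at h1
  rw [h1]
  exact h2.of_norm.hasSum

theorem ev_pow (f : PowerSeries ℂ) (C b : ℝ) (hC : 1 ≤ C) (hb : 1 ≤ b)
    (hf : ∀ m, ‖PowerSeries.coeff m f‖ ≤ C * b ^ m) (x y : ℂ) (hx : ‖x‖ < 1 / (2 * b))
    (hy : HasSum (fun m : ℕ => PowerSeries.coeff m f * x ^ m) y) (j : ℕ) :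
    HasSum (fun m : ℕ => PowerSeries.coeff m (f ^ j) * x ^ m) (y ^ j) := by
  have hb0 : 0 < b := by linarith
  induction j with
  | zero =>
    have h1 : (fun m : ℕ => PowerSeries.coeff m (f ^ 0) * x ^ m) = fun m => if m = 0 then 1 else 0 := by
      funext m
      rw [pow_zero, PowerSeries.coeff_one]
      split_ifs with h
      · rw [h]; simp
      · simp
    rw [h1, pow_zero]
    exact hasSum_ite_eq 0 1
  | succ j ih =>
    rw [pow_succ, pow_succ]
    refine cauchy (f ^ j) f x _ _ ?_ ?_ ih hy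
    · exact norm_summable _ ((2 * C) ^ j) (2 * b) (by positivity) (by positivity)
        (pow_bd f C b hC hb0 hf j) x hx
    · refine norm_summable _ C (2 * b) (by positivity) (by positivity) (fun m => ?_) x hx
      refine (hf m).trans ?_
      gcongr
      linarith

private lemma X_bd (f : PowerSeries ℂ) (C b : ℝ) (hC : 1 ≤ C) (hb : 1 ≤ b)
    (hf : ∀ m, ‖PowerSeries.coeff m f‖ ≤ C * b ^ m) (i j m : ℕ) :
    ‖PowerSeries.coeff m (PowerSeries.X ^ i * f ^ j)‖ ≤ (2 * C) ^ j * (2 * b) ^ m := by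
  rw [PowerSeries.coeff_X_pow_mul']
  split_ifs with h
  · refine (pow_bd f C b hC (by linarith) hf j (m - i)).trans ?_
    gcongr
    · linarith
    · omega
  · simp; positivity

private lemma ev_Xpow (f : PowerSeries ℂ) (C b : ℝ) (hC : 1 ≤ C) (hb : 1 ≤ b)
    (hf : ∀ m, ‖PowerSeries.coeff m f‖ ≤ C * b ^ m) (x y : ℂ) (hx : ‖x‖ < 1 / (2 * b))
    (hy : HasSum (fun m : ℕ => PowerSeries.coeff m f * x ^ m) y) (i j : ℕ) :
    HasSum (fun m : ℕ => PowerSeries.coeff m (PowerSeries.X ^ i * f ^ j) * x ^ m)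
      (x ^ i * y ^ j) := by
  have h1 := ev_pow f C b hC hb hf x y hx hy j
  rw [← hasSum_nat_add_iff' i]
  have h2 : ∑ m ∈ Finset.range i, PowerSeries.coeff m (PowerSeries.X ^ i * f ^ j) * x ^ m = 0 := by
    refine Finset.sum_eq_zero fun m hm => ?_
    rw [PowerSeries.coeff_X_pow_mul', if_neg (by have := Finset.mem_range.mp hm; omega), zero_mul]
  rw [h2, sub_zero]
  have h3 : (fun m : ℕ => PowerSeries.coeff (m + i) (PowerSeries.X ^ i * f ^ j) * x ^ (m + i))
      = fun m : ℕ => x ^ i * (PowerSeries.coeff m (f ^ j) * x ^ m) := by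
    funext m
    rw [PowerSeries.coeff_X_pow_mul', if_pos (by omega), Nat.add_sub_cancel, pow_add]
    ring
  rw [h3]
  exact h1.mul_left _

private lemma coeff_aux {L d : ℕ} (p : Fin L → Fin (d + 1) → ℤ) (f : PowerSeries ℂ) (m : ℕ) :
    PowerSeries.coeff m (aux p f) = ∑ i : Fin L, ∑ j : Fin (d + 1), (p i j : ℂ) *
      PowerSeries.coeff m (PowerSeries.X ^ (i : ℕ) * f ^ (j : ℕ)) := by
  unfold aux
  rw [map_sum]
  refine Finset.sum_congr rfl fun i _ => ?_
  rw [map_sum]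
  refine Finset.sum_congr rfl fun j _ => ?_
  rw [mul_assoc (PowerSeries.C _), PowerSeries.coeff_C_mul]

theorem ev_aux {L d : ℕ} (p : Fin L → Fin (d + 1) → ℤ) (f : PowerSeries ℂ) (C b : ℝ)
    (hC : 1 ≤ C) (hb : 1 ≤ b)
    (hf : ∀ m, ‖PowerSeries.coeff m f‖ ≤ C * b ^ m) (x y : ℂ) (hx : ‖x‖ < 1 / (2 * b))
    (hy : HasSum (fun m : ℕ => PowerSeries.coeff m f * x ^ m) y) :
    HasSum (fun m : ℕ => PowerSeries.coeff m (aux p f) * x ^ m)
      (∑ i : Fin L, ∑ j : Fin (d + 1), (p i j : ℂ) * x ^ (i : ℕ) * y ^ (j : ℕ)) := by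
  have h1 : (fun m : ℕ => PowerSeries.coeff m (aux p f) * x ^ m) = fun m : ℕ =>
      ∑ i : Fin L, ∑ j : Fin (d + 1), (p i j : ℂ) *
        (PowerSeries.coeff m (PowerSeries.X ^ (i : ℕ) * f ^ (j : ℕ)) * x ^ m) := by
    funext m
    rw [coeff_aux, Finset.sum_mul]
    refine Finset.sum_congr rfl fun i _ => ?_
    rw [Finset.sum_mul]
    refine Finset.sum_congr rfl fun j _ => ?_
    ring
  rw [h1]
  refine hasSum_sum fun i _ => hasSum_sum fun j _ => ?_
  rw [mul_assoc]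
  exact (ev_Xpow f C b hC hb hf x y hx hy i j).mul_left _

theorem aux_bd {L d : ℕ} (p : Fin L → Fin (d + 1) → ℤ) (f : PowerSeries ℂ) (C b : ℝ)
    (hC : 1 ≤ C) (hb : 1 ≤ b)
    (hf : ∀ m, ‖PowerSeries.coeff m f‖ ≤ C * b ^ m) :
    ∃ C' : ℝ, 0 ≤ C' ∧ ∀ m, ‖PowerSeries.coeff m (aux p f)‖ ≤ C' * (2 * b) ^ m := by
  refine ⟨∑ i : Fin L, ∑ j : Fin (d + 1), ‖(p i j : ℂ)‖ * (2 * C) ^ (j : ℕ), by positivity, ?_⟩
  intro m
  rw [coeff_aux, Finset.sum_mul]
  refine norm_sum_le_of_le _ fun i _ => ?_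
  rw [Finset.sum_mul]
  refine norm_sum_le_of_le _ fun j _ => ?_
  rw [norm_mul, mul_assoc]
  gcongr
  exact X_bd f C b hC hb hf i j m

end FacC
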