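import Pool.Agent.Lib.FacC.Defs

/-!
LEADING TERM AND CAUCHY ESTIMATE (only Mathlib, complex analysis).

`lim_lead`: g_m = 0 for m < T, |g_m| <= C b^m, φ(0) = 0, φ'(0) = c, H(w) = sum g_m φ(w)^m near 0.
  Then H(w)/w^T -> g_T c^T (w -> 0, w != 0).
  PROOF. For ‖x‖ <= 1/(2b): ‖sum g_m x^m - g_T x^T‖ <= sum_(m>T) C (b‖x‖)^m <= 2 C b^(T+1) ‖x‖^(T+1)
  (geometric). With x = φ(w), φ(w) = w u(w), u(w) = φ(w)/w -> c (`hasDerivAt_iff_tendsto_slope`), we get
  H(w)/w^T = g_T u(w)^T + O(‖u(w)‖^(T+1) ‖w‖).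
`sch`: if H is holomorphic on the unit disc, H(w)/w^T -> a, 0 < r < 1, ‖H‖ <= M on ‖w‖ = r then
  ‖a‖ r^T <= M.
  PROOF. K(w) = H(w)/w^T for w != 0, K(0) = a is continuous at 0 and differentiable on the punctured disc,
  hence differentiable (`Complex.differentiableOn_update_limUnder_of_isLittleO`,
  `Complex.analyticAt_of_differentiable_on_punctured_nhds_of_continuousAt`), and the maximum principle
  (`Complex.norm_le_of_forall_mem_frontier_norm_le`) on the ball of radius r gives ‖a‖ <= M/r^T.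
-/

open Polynomial Filter Topology

namespace FacC

theorem lim_lead (g : ℕ → ℂ) (C b : ℝ) (hb : 0 < b) (hg : ∀ m, ‖g m‖ ≤ C * b ^ m) (T : ℕ)
    (hT : ∀ m < T, g m = 0) (φ : ℂ → ℂ) (c : ℂ) (hφ0 : φ 0 = 0) (hφ : HasDerivAt φ c 0)
    (H : ℂ → ℂ) (hH : ∀ᶠ w in 𝓝 (0 : ℂ), HasSum (fun m : ℕ => g m * φ w ^ m) (H w)) :
    Tendsto (fun w => H w / w ^ T) (𝓝[≠] 0) (𝓝 (g T * c ^ T)) := by
  have hC : 0 ≤ C := by
    have h := (norm_nonneg (g 0)).trans (hg 0)
    simpa using h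
  -- u w = φ w / w
  have hu : Tendsto (fun w => φ w / w) (𝓝[≠] 0) (𝓝 c) := by
    have h1 := hasDerivAt_iff_tendsto_slope.mp hφ
    refine h1.congr' ?_
    filter_upwards [self_mem_nhdsWithin] with w hw
    rw [slope_def_field, hφ0, sub_zero, sub_zero]
  have hφlim : Tendsto φ (𝓝[≠] 0) (𝓝 0) := by
    have h1 : Tendsto φ (𝓝 0) (𝓝 (φ 0)) := hφ.continuousAt
    rw [hφ0] at h1
    exact h1.mono_left nhdsWithin_le_nhds
  have hsmall : ∀ᶠ w in 𝓝[≠] (0 : ℂ), b * ‖φ w‖ ≤ 1 / 2 := by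
    have h1 : Tendsto (fun w => b * ‖φ w‖) (𝓝[≠] 0) (𝓝 (b * 0)) := by
      refine Tendsto.const_mul b ?_
      simpa using hφlim.norm
    rw [mul_zero] at h1
    exact (h1.eventually (gt_mem_nhds (by norm_num : (0 : ℝ) < 1 / 2))).mono fun w hw => hw.le
  -- the remainder
  have hrem : ∀ᶠ w in 𝓝[≠] (0 : ℂ),
      ‖H w / w ^ T - g T * (φ w / w) ^ T‖ ≤ 2 * C * b ^ (T + 1) * ‖φ w / w‖ ^ T * ‖φ w‖ := by
    filter_upwards [hsmall, hH.filter_mono nhdsWithin_le_nhds, self_mem_nhdsWithin] with w h1 h2 h3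
    have hw : w ≠ 0 := h3
    have hgeo : Summable (fun m : ℕ => C * (b * ‖φ w‖) ^ m) :=
      (summable_geometric_of_lt_one (by positivity) (by linarith)).mul_left C
    have h4 : HasSum (fun m : ℕ => g (m + (T + 1)) * φ w ^ (m + (T + 1))) (H w - g T * φ w ^ T) := by
      have h5 := (hasSum_nat_add_iff' (f := fun m : ℕ => g m * φ w ^ m) (T + 1)).mpr h2
      have h6 : ∑ i ∈ Finset.range (T + 1), g i * φ w ^ i = g T * φ w ^ T := by
        rw [Finset.sum_range_succ, Finset.sum_eq_zero, zero_add]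
        intro i hi
        rw [hT i (Finset.mem_range.mp hi), zero_mul]
      rw [h6] at h5
      exact h5
    have h7 : HasSum (fun m : ℕ => C * (b * ‖φ w‖) ^ (T + 1) * (1 / 2) ^ m)
        (C * (b * ‖φ w‖) ^ (T + 1) * 2) := by
      have h8 := hasSum_geometric_two
      exact h8.mul_left _
    have h9 : ‖H w - g T * φ w ^ T‖ ≤ C * (b * ‖φ w‖) ^ (T + 1) * 2 := by
      refine (h4.norm_le_of_bounded h7 fun m => ?_)
      rw [norm_mul, norm_pow]
      calc ‖g (m + (T + 1))‖ * ‖φ w‖ ^ (m + (T + 1))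
          ≤ (C * b ^ (m + (T + 1))) * ‖φ w‖ ^ (m + (T + 1)) := by
            gcongr
            exact hg _
        _ = C * (b * ‖φ w‖) ^ (T + 1) * (b * ‖φ w‖) ^ m := by
            rw [mul_assoc, ← mul_pow, pow_add]
            ring
        _ ≤ C * (b * ‖φ w‖) ^ (T + 1) * (1 / 2) ^ m := by gcongr
    have h10 : H w / w ^ T - g T * (φ w / w) ^ T = (H w - g T * φ w ^ T) / w ^ T := by
      rw [div_pow]; ring
    rw [h10, norm_div, norm_pow, norm_div, div_pow]
    have hw' : 0 < ‖w‖ ^ T := by positivity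
    rw [div_le_iff₀ hw']
    refine h9.trans (le_of_eq ?_)
    rw [mul_pow, pow_succ ‖φ w‖]
    field_simp
  have hlim1 : Tendsto (fun w => g T * (φ w / w) ^ T) (𝓝[≠] 0) (𝓝 (g T * c ^ T)) :=
    (hu.pow T).const_mul _
  have hlim2 : Tendsto (fun w => H w / w ^ T - g T * (φ w / w) ^ T) (𝓝[≠] 0) (𝓝 0) := by
    refine squeeze_zero_norm' hrem ?_
    have h1 : Tendsto (fun w => 2 * C * b ^ (T + 1) * ‖φ w / w‖ ^ T * ‖φ w‖) (𝓝[≠] 0)
        (𝓝 (2 * C * b ^ (T + 1) * ‖c‖ ^ T * ‖(0 : ℂ)‖)) :=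
      ((hu.norm.pow T).const_mul _).mul hφlim.norm
    simpa using h1
  have := hlim2.add hlim1
  simpa using this

theorem sch (H : ℂ → ℂ) (hH : DifferentiableOn ℂ H (Metric.ball 0 1)) (T : ℕ) (a : ℂ)
    (hlim : Tendsto (fun w => H w / w ^ T) (𝓝[≠] 0) (𝓝 a)) (r : ℝ) (hr0 : 0 < r) (hr1 : r < 1)
    (M : ℝ) (hM : ∀ w : ℂ, ‖w‖ = r → ‖H w‖ ≤ M) : ‖a‖ * r ^ T ≤ M := by
  classical
  set K : ℂ → ℂ := Function.update (fun w => H w / w ^ T) 0 a with hK
  have h0 : (0 : ℂ) ∈ Metric.ball (0 : ℂ) 1 := Metric.mem_ball_self one_pos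
  have hK0 : K 0 = a := by rw [hK]; simp
  have hKne : ∀ w, w ≠ 0 → K w = H w / w ^ T := fun w hw => by
    rw [hK, Function.update_of_ne hw]
  have hcont : ContinuousAt K 0 := by
    rw [hK, continuousAt_update_same]
    exact hlim
  have hdne : ∀ w ∈ Metric.ball (0 : ℂ) 1, w ≠ 0 → DifferentiableAt ℂ K w := by
    intro w hw hw0
    have h1 : DifferentiableAt ℂ (fun w => H w / w ^ T) w :=
      (hH.differentiableAt (Metric.isOpen_ball.mem_nhds hw)).fun_div
        (differentiableAt_id.fun_pow T) (pow_ne_zero _ hw0)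
    refine h1.congr_of_eventuallyEq ?_
    filter_upwards [isOpen_ne.mem_nhds hw0] with x hx
    exact hKne x hx
  have hd0 : AnalyticAt ℂ K 0 := by
    refine Complex.analyticAt_of_differentiable_on_punctured_nhds_of_continuousAt ?_ hcont
    have h1 : ∀ᶠ w in 𝓝[≠] (0 : ℂ), w ∈ Metric.ball (0 : ℂ) 1 :=
      nhdsWithin_le_nhds (Metric.isOpen_ball.mem_nhds h0)
    filter_upwards [h1, self_mem_nhdsWithin] with w h2 h3
    exact hdne w h2 h3
  have hd : DifferentiableOn ℂ K (Metric.ball 0 1) := by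
    intro w hw
    by_cases hw0 : w = 0
    · rw [hw0]; exact hd0.differentiableAt.differentiableWithinAt
    · exact (hdne w hw hw0).differentiableWithinAt
  have hb : Bornology.IsBounded (Metric.ball (0 : ℂ) r) := Metric.isBounded_ball
  have hdc : DiffContOnCl ℂ K (Metric.ball 0 r) := by
    refine DifferentiableOn.diffContOnCl ?_
    refine hd.mono ?_
    exact (Metric.closure_ball_subset_closedBall).trans (Metric.closedBall_subset_ball hr1)
  have hfr : ∀ z ∈ frontier (Metric.ball (0 : ℂ) r), ‖K z‖ ≤ M / r ^ T := by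
    intro z hz
    rw [frontier_ball _ hr0.ne'] at hz
    have hz1 : ‖z‖ = r := by simpa using hz
    have hz0 : z ≠ 0 := by
      rintro rfl
      rw [norm_zero] at hz1
      exact hr0.ne hz1
    rw [hKne z hz0, norm_div, norm_pow, hz1]
    gcongr
    exact hM z hz1
  have h1 := Complex.norm_le_of_forall_mem_frontier_norm_le hb hdc hfr
    (subset_closure (Metric.mem_ball_self hr0))
  rw [hK0, le_div_iff₀ (by positivity)] at h1
  exact h1

end FacC
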