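import Pool.Agent.Lib.FacC.Defs

open Polynomial

namespace FacC

private lemma ev_log (δ c : ℝ) (hδ : 0 < δ) :
    ∀ᶠ x : ℝ in Filter.atTop, 2 * Real.log x + c < δ / 2 * x := by
  have h1 : (fun x : ℝ => 2 * Real.log x + c) =o[Filter.atTop] (id : ℝ → ℝ) := by
    refine (Real.isLittleO_log_id_atTop.const_mul_left 2).add ?_
    exact Asymptotics.isLittleO_const_id_atTop c
  have h2 := h1.bound (c := δ / 4) (by positivity)
  filter_upwards [h2, Filter.eventually_gt_atTop (0 : ℝ)] with x h3 h4
  rw [Real.norm_eq_abs, Real.norm_eq_abs, id, abs_of_pos h4] at h3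
  have h5 := le_abs_self (2 * Real.log x + c)
  nlinarith

theorem params (κ δ C b K : ℝ) (hκ : 0 ≤ κ) (hδ : 0 < δ) (hC : 1 ≤ C) (hb : 1 ≤ b)
    (hK : 1 ≤ K) :
    ∃ L d T : ℕ, 1 ≤ T ∧ 2 * T < L * (d + 1) ∧
      ∀ T' : ℕ, T ≤ T' →
        ((L * (d + 1) : ℝ) * (2 * Real.exp (κ * T) * (2 * C) ^ d * (2 * b) ^ T)) ^
            ((2 * T : ℝ) / (L * (d + 1) - 2 * T)) * (L * (d + 1)) * K ^ (L + d)
          < Real.exp (δ * T') := by
  have hlb : 0 ≤ Real.log (2 * b) := Real.log_nonneg (by linarith)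
  have hlC : 0 ≤ Real.log (2 * C) := Real.log_nonneg (by linarith)
  have hlK : 0 ≤ Real.log K := Real.log_nonneg hK
  obtain ⟨ν0, hν0⟩ := exists_nat_ge ((κ + Real.log (2 * b)) / (δ / 4))
  set ν : ℕ := ν0 + 2 with hν
  have hν1 : (1 : ℝ) ≤ (ν : ℝ) - 1 := by
    rw [hν]; push_cast; linarith [(Nat.cast_nonneg ν0 : (0 : ℝ) ≤ (ν0 : ℝ))]
  have hνpos : (0 : ℝ) < (ν : ℝ) - 1 := by linarith
  have hν2 : (κ + Real.log (2 * b)) / ((ν : ℝ) - 1) ≤ δ / 4 := by
    rw [div_le_iff₀ (by positivity)] at hν0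
    rw [div_le_iff₀ hνpos, hν]
    push_cast
    nlinarith
  obtain ⟨d, hd⟩ := exists_nat_ge ((2 * ν * Real.log K) / (δ / 4))
  have hd1 : 2 * ν * Real.log K ≤ δ / 4 * (d + 1) := by
    rw [div_le_iff₀ (by positivity)] at hd
    nlinarith
  set c : ℝ := 2 * Real.log (2 * ν) + Real.log 2 + d * Real.log (2 * C) + d * Real.log K with hc
  have hev := ev_log δ c hδ
  have htend : Filter.Tendsto (fun s : ℕ => (s : ℝ) * ((d : ℝ) + 1)) Filter.atTop Filter.atTop :=
    (tendsto_natCast_atTop_atTop).atTop_mul_const (by positivity)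
  obtain ⟨s, hs1, hs2⟩ := ((htend.eventually hev).and (Filter.eventually_ge_atTop 1)).exists
  refine ⟨2 * ν * s, d, s * (d + 1), ?_, ?_, ?_⟩
  · exact Nat.mul_pos hs2 (Nat.succ_pos d)
  · have h1 : 0 < s * (d + 1) := Nat.mul_pos hs2 (Nat.succ_pos d)
    have h2 : 2 * ν * s * (d + 1) = 2 * ν * (s * (d + 1)) := by ring
    rw [h2]
    have h3 : 2 < 2 * ν := by omega
    exact Nat.mul_lt_mul_of_pos_right h3 h1
  · intro T' hT'
    have hsR : (1 : ℝ) ≤ s := by exact_mod_cast hs2
    set T : ℝ := (s : ℝ) * ((d : ℝ) + 1) with hT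
    have hTpos : 0 < T := by positivity
    have hTcast : ((s * (d + 1) : ℕ) : ℝ) = T := by push_cast; rfl
    have hT'R : T ≤ T' := by
      rw [← hTcast]; exact_mod_cast hT'
    have hLd : (((2 * ν * s : ℕ) : ℝ) * ((d : ℝ) + 1)) = 2 * ν * T := by
      push_cast; rw [hT]; ring
    have hνR : (0 : ℝ) < ν := by linarith
    rw [hTcast, hLd]
    have hexpo : (2 * T) / (2 * ν * T - 2 * T) = 1 / ((ν : ℝ) - 1) := by
      have h1 : 2 * ν * T - 2 * T = 2 * T * ((ν : ℝ) - 1) := by ring
      rw [h1, div_mul_eq_div_div, div_self (by positivity)]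
    rw [hexpo]
    have hbase : 0 < 2 * ν * T * (2 * Real.exp (κ * T) * (2 * C) ^ d * (2 * b) ^ (s * (d + 1))) := by
      have : 0 < 2 * C := by linarith
      have : 0 < 2 * b := by linarith
      positivity
    have hlog : Real.log (2 * ν * T * (2 * Real.exp (κ * T) * (2 * C) ^ d *
        (2 * b) ^ (s * (d + 1))))
        = Real.log (2 * ν) + Real.log T + (Real.log 2 + κ * T + d * Real.log (2 * C)
          + T * Real.log (2 * b)) := by
      have h2C : (2 * C) ^ d ≠ 0 := by have : 0 < 2 * C := by linarith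
                                       positivity
      have h2b : (2 * b) ^ (s * (d + 1)) ≠ 0 := by have : 0 < 2 * b := by linarith
                                                   positivity
      rw [Real.log_mul (by positivity) (by positivity), Real.log_mul (by positivity) hTpos.ne',
        Real.log_mul (by positivity) h2b, Real.log_mul (by positivity) h2C,
        Real.log_mul (by norm_num) (Real.exp_pos _).ne', Real.log_exp, Real.log_pow, Real.log_pow,
        hTcast]
    rw [Real.rpow_def_of_pos hbase, hlog]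
    have hK' : K ^ (2 * ν * s + d) = Real.exp ((2 * ν * s + d) * Real.log K) := by
      have h1 : (2 * (ν : ℝ) * s + d) * Real.log K = ((2 * ν * s + d : ℕ) : ℝ) * Real.log K := by
        push_cast; ring
      rw [h1, Real.exp_nat_mul, Real.exp_log (by linarith)]
    have h2νT : 2 * ν * T = Real.exp (Real.log (2 * ν) + Real.log T) := by
      rw [Real.exp_add, Real.exp_log (by positivity), Real.exp_log hTpos]
    rw [hK', h2νT, ← Real.exp_add, ← Real.exp_add]
    apply Real.exp_lt_exp.mpr
    -- the main inequality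
    have hpos1 : 0 ≤ Real.log (2 * ν) + Real.log T + Real.log 2 + d * Real.log (2 * C) := by
      have h1 : 0 ≤ Real.log (2 * ν) := Real.log_nonneg (by linarith)
      have h2 : 0 ≤ Real.log T := Real.log_nonneg (by
        rw [hT]; nlinarith [(Nat.cast_nonneg d : (0 : ℝ) ≤ (d : ℝ))])
      have h3 : 0 ≤ Real.log 2 := Real.log_nonneg (by norm_num)
      positivity
    have h1 : (Real.log (2 * ν) + Real.log T + (Real.log 2 + κ * T + d * Real.log (2 * C)
          + T * Real.log (2 * b))) * (1 / ((ν : ℝ) - 1))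
        ≤ δ / 4 * T + (Real.log (2 * ν) + Real.log T + Real.log 2 + d * Real.log (2 * C)) := by
      have h2 : (Real.log (2 * ν) + Real.log T + (Real.log 2 + κ * T + d * Real.log (2 * C)
          + T * Real.log (2 * b))) * (1 / ((ν : ℝ) - 1))
          = (κ + Real.log (2 * b)) / ((ν : ℝ) - 1) * T
            + (Real.log (2 * ν) + Real.log T + Real.log 2 + d * Real.log (2 * C))
              * (1 / ((ν : ℝ) - 1)) := by
        field_simp
        ring
      rw [h2]
      have h3 : 1 / ((ν : ℝ) - 1) ≤ 1 := by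
        rw [div_le_one hνpos]; exact hν1
      have h4 := mul_le_mul_of_nonneg_left h3 hpos1
      have h5 := mul_le_mul_of_nonneg_right hν2 hTpos.le
      linarith
    have h6 : (2 * (ν : ℝ) * s + d) * Real.log K ≤ δ / 4 * T + d * Real.log K := by
      have h7 : 2 * (ν : ℝ) * s * Real.log K ≤ δ / 4 * T := by
        have h8 := mul_le_mul_of_nonneg_left hd1 (by positivity : (0 : ℝ) ≤ s)
        rw [hT]
        nlinarith
      nlinarith
    have h7 : 2 * Real.log T + c < δ / 2 * T := hs1
    have h8 : δ * T ≤ δ * T' := by gcongr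
    rw [hc] at h7
    linarith

end FacC
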