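import Pool.Agent.Lib.FacC.Sieg
import Pool.Agent.Lib.FacC.Par
import Pool.Agent.Lib.FacC.Ev
import Pool.Agent.Lib.FacC.Lim

/-!
THE ALGEBRAICITY CRITERION (assembly), for a meromorphic map φ = g/h of the disc, h(0) = 1.
-/

open Polynomial Filter Topology

namespace FacC

private lemma aux_int {ρ : ℂ} (hρ : ρ ^ 2 - ρ + 1 = 0) (f : PowerSeries ℂ) (D : ℕ → ℕ)
    (hD1 : ∀ m, 0 < D m) (hDm : ∀ a b, D a * D b ∣ D (a + b))
    (hint : ∀ m, InZ ρ ((D m : ℂ) * PowerSeries.coeff m f)) {L d : ℕ}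
    (p : Fin L → Fin (d + 1) → ℤ) (m : ℕ) :
    InZ ρ ((D m : ℂ) * PowerSeries.coeff m (aux p f)) := by
  have h1 : (D m : ℂ) * PowerSeries.coeff m (aux p f)
      = ∑ i : Fin L, ∑ j : Fin (d + 1), ((p i j : ℤ) : ℂ) *
        ((D m : ℂ) * PowerSeries.coeff m (PowerSeries.X ^ (i : ℕ) * f ^ (j : ℕ))) := by
    unfold aux
    rw [map_sum, Finset.mul_sum]
    refine Finset.sum_congr rfl fun i _ => ?_
    rw [map_sum, Finset.mul_sum]
    refine Finset.sum_congr rfl fun j _ => ?_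
    rw [mul_assoc (PowerSeries.C _), PowerSeries.coeff_C_mul]
    ring
  rw [h1]
  refine inZ_sum _ _ fun i _ => inZ_sum _ _ fun j _ => ?_
  exact inZ_mul hρ (inZ_int _) (pow_int' hρ f D hD1 hDm hint _ _ _)

theorem crit {ρ : ℂ} (hρ : ρ ^ 2 - ρ + 1 = 0) (f : PowerSeries ℂ) (D : ℕ → ℕ)
    (hD1 : ∀ m, 0 < D m) (hDm : ∀ a b, D a * D b ∣ D (a + b)) (κ : ℝ) (hκ : 0 ≤ κ)
    (hDk : ∀ m, (D m : ℝ) ≤ Real.exp (κ * m))
    (hint : ∀ m, InZ ρ ((D m : ℂ) * PowerSeries.coeff m f)) (C b : ℝ) (hC : 1 ≤ C) (hb : 1 ≤ b)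
    (hf : ∀ m, ‖PowerSeries.coeff m f‖ ≤ C * b ^ m) (g h F : ℂ → ℂ)
    (hg : DifferentiableOn ℂ g (Metric.ball 0 1)) (hh : DifferentiableOn ℂ h (Metric.ball 0 1))
    (hF : DifferentiableOn ℂ F (Metric.ball 0 1))
    (hg0 : g 0 = 0) (hh0 : h 0 = 1) (hg1 : Real.exp κ < ‖deriv g 0‖)
    (hloc : ∀ᶠ w in 𝓝 (0 : ℂ),
      HasSum (fun m : ℕ => PowerSeries.coeff m f * (g w / h w) ^ m) (F w)) :
    ∃ (L d : ℕ) (p : Fin L → Fin (d + 1) → ℤ), p ≠ 0 ∧ aux p f = 0 := by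
  by_contra hcon
  push Not at hcon
  have h0mem : (0 : ℂ) ∈ Metric.ball (0 : ℂ) 1 := by simp
  have hgda : DifferentiableAt ℂ g 0 := hg.differentiableAt (Metric.isOpen_ball.mem_nhds h0mem)
  have hhda : DifferentiableAt ℂ h 0 := hh.differentiableAt (Metric.isOpen_ball.mem_nhds h0mem)
  set φ : ℂ → ℂ := fun w => g w / h w with hφdef
  have hφd : HasDerivAt φ (deriv g 0) 0 := by
    have h1 := hgda.hasDerivAt.fun_div hhda.hasDerivAt (by rw [hh0]; exact one_ne_zero)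
    rw [hg0, hh0] at h1
    simpa using h1
  have hφ0 : φ 0 = 0 := by rw [hφdef]; simp [hg0]
  have hφ1 : Real.exp κ < ‖deriv g 0‖ := hg1
  set c := deriv g 0 with hc
  have hEpos : 0 < Real.exp κ := Real.exp_pos κ
  have hcpos : 0 < ‖c‖ := lt_trans hEpos hφ1
  obtain ⟨r, hr0, hr1, hr2⟩ : ∃ r : ℝ, 0 < r ∧ r < 1 ∧ Real.exp κ < ‖c‖ * r := by
    refine ⟨(1 + Real.exp κ / ‖c‖) / 2, by positivity, ?_, ?_⟩
    · have : Real.exp κ / ‖c‖ < 1 := by rw [div_lt_one hcpos]; exact hφ1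
      linarith
    · have h3 : ‖c‖ * ((1 + Real.exp κ / ‖c‖) / 2) = (‖c‖ + Real.exp κ) / 2 := by
        field_simp
      rw [h3]; linarith
  set δ := Real.log (‖c‖ * r) - κ with hδdef
  have hcr : 0 < ‖c‖ * r := by positivity
  have hδ : 0 < δ := by
    have := Real.log_lt_log hEpos hr2
    rw [Real.log_exp] at this
    linarith
  have hexp : Real.exp (κ + δ) = ‖c‖ * r := by
    rw [hδdef, add_sub_cancel, Real.exp_log hcr]
  -- the bound K
  have hsub : Metric.sphere (0 : ℂ) r ⊆ Metric.ball 0 1 := by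
    intro w hw
    simp only [mem_sphere_iff_norm, sub_zero] at hw
    simp only [Metric.mem_ball, dist_zero_right]
    linarith
  have hcomp : IsCompact (Metric.sphere (0 : ℂ) r) := isCompact_sphere 0 r
  obtain ⟨K1, hK1⟩ := hcomp.exists_bound_of_continuousOn (hg.continuousOn.mono hsub)
  obtain ⟨K3, hK3⟩ := hcomp.exists_bound_of_continuousOn (hh.continuousOn.mono hsub)
  obtain ⟨K2, hK2⟩ := hcomp.exists_bound_of_continuousOn (hF.continuousOn.mono hsub)
  set K := max 1 (max K1 (max K2 K3)) with hKdef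
  have hK : 1 ≤ K := le_max_left _ _
  obtain ⟨L, d, T, hT, hLT, hpar⟩ := params κ δ C b K hκ hδ hC hb hK
  obtain ⟨p, hp0, hpz, hpb⟩ := siegel hρ f D hD1 hDm κ hκ hDk hint C b hC hb hf L d T hT hLT
  have hne := hcon L d p hp0
  obtain ⟨n0, hn0⟩ : ∃ n, PowerSeries.coeff n (aux p f) ≠ 0 := by
    by_contra h
    push Not at h
    exact hne (by ext n; rw [h n]; simp)
  classical
  have hex : ∃ n, PowerSeries.coeff n (aux p f) ≠ 0 := ⟨n0, hn0⟩
  set T' := Nat.find hex with hT'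
  have hT'1 : PowerSeries.coeff T' (aux p f) ≠ 0 := Nat.find_spec hex
  have hT'2 : ∀ m < T', PowerSeries.coeff m (aux p f) = 0 := by
    intro m hm
    have := Nat.find_min hex hm
    push Not at this
    exact this
  have hTT' : T ≤ T' := by
    by_contra h
    push Not at h
    exact hT'1 (hpz T' h)
  have hpar' := hpar T' hTT'
  set X := ((L * (d + 1) : ℝ) * (2 * Real.exp (κ * T) * (2 * C) ^ d * (2 * b) ^ T)) ^
            ((2 * T : ℝ) / (L * (d + 1) - 2 * T)) with hX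
  have hX0 : 0 ≤ X := by
    rw [hX]; positivity
  -- the lower bound of the leading coefficient
  set α := PowerSeries.coeff T' (aux p f) with hα
  have hα1 : 1 ≤ (D T' : ℝ) * ‖α‖ := by
    have h1 := inZ_norm hρ (aux_int hρ f D hD1 hDm hint p T')
      (mul_ne_zero (by exact_mod_cast (hD1 T').ne') hT'1)
    rw [norm_mul] at h1
    simpa using h1
  have hα2 : 1 ≤ Real.exp (κ * T') * ‖α‖ :=
    le_trans hα1 (mul_le_mul_of_nonneg_right (hDk T') (norm_nonneg _))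
  -- the function H
  set H : ℂ → ℂ := fun w => ∑ i : Fin L, ∑ j : Fin (d + 1),
    (p i j : ℂ) * (g w ^ (i : ℕ) * h w ^ (L - 1 - (i : ℕ))) * F w ^ (j : ℕ) with hH
  have hHd : DifferentiableOn ℂ H (Metric.ball 0 1) := by
    rw [hH]
    refine DifferentiableOn.fun_sum fun i _ => DifferentiableOn.fun_sum fun j _ => ?_
    exact (((hg.pow _).mul (hh.pow _)).const_mul _).mul (hF.pow _)
  have hφda : DifferentiableAt ℂ φ 0 := hφd.differentiableAt
  have hφsmall : ∀ᶠ w in 𝓝 (0 : ℂ), ‖φ w‖ < 1 / (2 * b) := by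
    have hcont : ContinuousAt (fun w => ‖φ w‖) 0 := hφda.continuousAt.norm
    have : (fun w => ‖φ w‖) 0 < 1 / (2 * b) := by
      simp only [hφ0, norm_zero]; positivity
    exact hcont.eventually (gt_mem_nhds this)
  set H0 : ℂ → ℂ := fun w => ∑ i : Fin L, ∑ j : Fin (d + 1),
    (p i j : ℂ) * φ w ^ (i : ℕ) * F w ^ (j : ℕ) with hH0
  have hH0sum : ∀ᶠ w in 𝓝 (0 : ℂ),
      HasSum (fun m : ℕ => PowerSeries.coeff m (aux p f) * φ w ^ m) (H0 w) := by
    filter_upwards [hloc, hφsmall] with w h1 h2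
    exact ev_aux p f C b hC hb hf (φ w) (F w) h2 h1
  obtain ⟨C', hC'0, hC'⟩ := aux_bd p f C b hC hb hf
  have hlim0 := lim_lead (fun m => PowerSeries.coeff m (aux p f)) C' (2 * b) (by positivity) hC' T'
    hT'2 φ c hφ0 hφd H0 hH0sum
  have hhne : ∀ᶠ w in 𝓝 (0 : ℂ), h w ≠ 0 := by
    have := hhda.continuousAt.eventually_ne (y := (0 : ℂ)) (by rw [hh0]; exact one_ne_zero)
    exact this
  have hHH0 : ∀ᶠ w in 𝓝 (0 : ℂ), H w = h w ^ (L - 1) * H0 w := by
    filter_upwards [hhne] with w hw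
    rw [hH, hH0]
    simp only [Finset.mul_sum]
    refine Finset.sum_congr rfl fun i _ => Finset.sum_congr rfl fun j _ => ?_
    have h1 : h w ^ (L - 1) = h w ^ (i : ℕ) * h w ^ (L - 1 - (i : ℕ)) := by
      rw [← pow_add]
      congr 1
      have := i.2
      omega
    have h2 : φ w ^ (i : ℕ) * h w ^ (i : ℕ) = g w ^ (i : ℕ) := by
      rw [← mul_pow, hφdef]
      simp only
      rw [div_mul_cancel₀ _ hw]
    rw [h1, ← h2]
    ring
  have hlim : Tendsto (fun w => H w / w ^ T') (𝓝[≠] 0)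
      (𝓝 (PowerSeries.coeff T' (aux p f) * c ^ T')) := by
    have h1 : Tendsto (fun w => h w ^ (L - 1)) (𝓝[≠] 0) (𝓝 1) := by
      have h2 : Tendsto (fun w => h w ^ (L - 1)) (𝓝 0) (𝓝 (h 0 ^ (L - 1))) :=
        (hhda.continuousAt.pow (L - 1))
      rw [hh0, one_pow] at h2
      exact h2.mono_left nhdsWithin_le_nhds
    have h3 := h1.mul hlim0
    rw [one_mul] at h3
    refine h3.congr' ?_
    have h4 := (eventually_nhdsWithin_of_eventually_nhds hHH0 : ∀ᶠ w in 𝓝[≠] (0 : ℂ),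
      H w = h w ^ (L - 1) * H0 w)
    filter_upwards [h4] with w hw
    rw [hw, mul_div_assoc]
  have hM : ∀ w : ℂ, ‖w‖ = r → ‖H w‖ ≤ X * (L * (d + 1)) * K ^ (L + d) := by
    intro w hw
    have hws : w ∈ Metric.sphere (0 : ℂ) r := by simpa using hw
    have h1 : ‖g w‖ ≤ K := le_trans (hK1 w hws) (le_trans (le_max_left _ _) (le_max_right _ _))
    have h2 : ‖F w‖ ≤ K := le_trans (hK2 w hws) (le_trans (le_max_left _ _)
      (le_trans (le_max_right _ _) (le_max_right _ _)))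
    have h2' : ‖h w‖ ≤ K := le_trans (hK3 w hws) (le_trans (le_max_right _ _)
      (le_trans (le_max_right _ _) (le_max_right _ _)))
    have h3 : ∀ i : Fin L, ∀ j : Fin (d + 1),
        ‖(p i j : ℂ) * (g w ^ (i : ℕ) * h w ^ (L - 1 - (i : ℕ))) * F w ^ (j : ℕ)‖
          ≤ X * K ^ (L + d) := by
      intro i j
      rw [norm_mul, norm_mul, norm_mul, norm_pow, norm_pow, norm_pow]
      have hpn : ‖(p i j : ℂ)‖ ≤ X := by
        have := hpb i j
        rw [Complex.norm_intCast]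
        exact this
      have h4 : (‖g w‖ ^ (i : ℕ) * ‖h w‖ ^ (L - 1 - (i : ℕ))) * ‖F w‖ ^ (j : ℕ)
          ≤ K ^ (L + d) := by
        calc (‖g w‖ ^ (i : ℕ) * ‖h w‖ ^ (L - 1 - (i : ℕ))) * ‖F w‖ ^ (j : ℕ)
            ≤ (K ^ (i : ℕ) * K ^ (L - 1 - (i : ℕ))) * K ^ (j : ℕ) := by gcongr
          _ = K ^ ((i : ℕ) + (L - 1 - (i : ℕ)) + j) := by rw [pow_add, pow_add]
          _ ≤ K ^ (L + d) := pow_le_pow_right₀ hK (by have := i.2; have := j.2; omega)
      rw [mul_assoc]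
      exact mul_le_mul hpn h4 (by positivity) hX0
    calc ‖H w‖ ≤ ∑ i : Fin L, ∑ j : Fin (d + 1), X * K ^ (L + d) := by
          rw [hH]
          exact norm_sum_le_of_le _ fun i _ => norm_sum_le_of_le _ fun j _ => h3 i j
      _ = X * (L * (d + 1)) * K ^ (L + d) := by
          simp only [Finset.sum_const, Finset.card_univ, Fintype.card_fin, nsmul_eq_mul]
          push_cast
          ring
  have hfin := sch H hHd T' _ hlim r hr0 hr1 _ hM
  have h5 : Real.exp (δ * T') ≤ ‖α * c ^ T'‖ * r ^ T' := by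
    have h6 : ‖α * c ^ T'‖ * r ^ T' = ‖α‖ * Real.exp ((κ + δ) * T') := by
      rw [norm_mul, norm_pow, mul_assoc, ← mul_pow, ← hexp, ← Real.exp_nat_mul]
      ring_nf
    rw [h6]
    have h7 : Real.exp ((κ + δ) * T') = Real.exp (κ * T') * Real.exp (δ * T') := by
      rw [← Real.exp_add]; ring_nf
    rw [h7]
    calc Real.exp (δ * T') = 1 * Real.exp (δ * T') := (one_mul _).symm
      _ ≤ (Real.exp (κ * T') * ‖α‖) * Real.exp (δ * T') := by gcongr
      _ = _ := by ring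
  have h8 := le_trans h5 hfin
  exact absurd hpar' (not_lt.mpr h8)

end FacC
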