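import Pool.Agent.Lib.FacC.SiegK
import Pool.Agent.Lib.FacC.ParK
import Pool.Agent.Lib.FacC.Ev
import Pool.Agent.Lib.FacC.Lim

/-!
THE ALGEBRAICITY CRITERION OVER A NUMBER FIELD (assembly; compare Crit.lean): a family of power
series f_σ, σ : K → ℂ, conjugate to each other, holomorphic maps g_σ of the disc, g_σ(0) = 0.
-/

open Polynomial Filter Topology NumberField

namespace FacC

variable {K : Type*} [Field K]

private lemma aux_intK (f : (K →+* ℂ) → PowerSeries ℂ) (D : ℕ → ℕ)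
    (hDm : ∀ a b, D a * D b ∣ D (a + b))
    (hint : ∀ m, IntK fun σ => (D m : ℂ) * PowerSeries.coeff m (f σ)) {L d : ℕ}
    (p : Fin L → Fin (d + 1) → ℤ) (m : ℕ) :
    IntK fun σ => (D m : ℂ) * PowerSeries.coeff m (aux p (f σ)) := by
  have h1 : (fun σ : K →+* ℂ => (D m : ℂ) * PowerSeries.coeff m (aux p (f σ)))
      = fun σ => ∑ i : Fin L, ∑ j : Fin (d + 1), ((p i j : ℤ) : ℂ) *
        ((D m : ℂ) * PowerSeries.coeff m (PowerSeries.X ^ (i : ℕ) * f σ ^ (j : ℕ))) := by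
    funext σ
    unfold aux
    rw [map_sum, Finset.mul_sum]
    refine Finset.sum_congr rfl fun i _ => ?_
    rw [map_sum, Finset.mul_sum]
    refine Finset.sum_congr rfl fun j _ => ?_
    rw [mul_assoc (PowerSeries.C _), PowerSeries.coeff_C_mul]
    ring
  rw [h1]
  refine intK_sum _ _ fun i _ => intK_sum _ _ fun j _ => ?_
  exact intK_mul (intK_int _) (pow_intK' f D hDm hint _ _ _)

theorem critK [NumberField K] (f : (K →+* ℂ) → PowerSeries ℂ) (D : ℕ → ℕ)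
    (hD1 : ∀ m, 0 < D m) (hDm : ∀ a b, D a * D b ∣ D (a + b)) (κ : ℝ) (hκ : 0 ≤ κ)
    (hDk : ∀ m, (D m : ℝ) ≤ Real.exp (κ * m))
    (hint : ∀ m, IntK fun σ => (D m : ℂ) * PowerSeries.coeff m (f σ)) (C b : ℝ)
    (hC : 1 ≤ C) (hb : 1 ≤ b)
    (hf : ∀ σ m, ‖PowerSeries.coeff m (f σ)‖ ≤ C * b ^ m) (g F : (K →+* ℂ) → ℂ → ℂ)
    (hg : ∀ σ, DifferentiableOn ℂ (g σ) (Metric.ball 0 1))
    (hF : ∀ σ, DifferentiableOn ℂ (F σ) (Metric.ball 0 1))
    (hg0 : ∀ σ, g σ 0 = 0) (M : ℝ) (hM : Real.exp κ < M) (hg1 : ∀ σ, M ≤ ‖deriv (g σ) 0‖)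
    (hloc : ∀ σ, ∀ᶠ w in 𝓝 (0 : ℂ),
      HasSum (fun m : ℕ => PowerSeries.coeff m (f σ) * (g σ w) ^ m) (F σ w)) :
    ∃ (L d : ℕ) (p : Fin L → Fin (d + 1) → ℤ), p ≠ 0 ∧ ∀ σ, aux p (f σ) = 0 := by
  classical
  by_contra hcon
  push Not at hcon
  have h0mem : (0 : ℂ) ∈ Metric.ball (0 : ℂ) 1 := by simp
  have hEpos : 0 < Real.exp κ := Real.exp_pos κ
  have hMpos : 0 < M := lt_trans hEpos hM
  obtain ⟨r, hr0, hr1, hr2⟩ : ∃ r : ℝ, 0 < r ∧ r < 1 ∧ Real.exp κ < M * r := by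
    refine ⟨(1 + Real.exp κ / M) / 2, by positivity, ?_, ?_⟩
    · have : Real.exp κ / M < 1 := by rw [div_lt_one hMpos]; exact hM
      linarith
    · have h3 : M * ((1 + Real.exp κ / M) / 2) = (M + Real.exp κ) / 2 := by
        field_simp
      rw [h3]; linarith
  set δ := Real.log (M * r) - κ with hδdef
  have hcr : 0 < M * r := by positivity
  have hδ : 0 < δ := by
    have := Real.log_lt_log hEpos hr2
    rw [Real.log_exp] at this
    linarith
  have hexp : Real.exp (κ + δ) = M * r := by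
    rw [hδdef, add_sub_cancel, Real.exp_log hcr]
  -- the bound K
  have hsub : Metric.sphere (0 : ℂ) r ⊆ Metric.ball 0 1 := by
    intro w hw
    simp only [mem_sphere_iff_norm, sub_zero] at hw
    simp only [Metric.mem_ball, dist_zero_right]
    linarith
  have hcomp : IsCompact (Metric.sphere (0 : ℂ) r) := isCompact_sphere 0 r
  have hK1 := fun σ => hcomp.exists_bound_of_continuousOn ((hg σ).continuousOn.mono hsub)
  have hK2 := fun σ => hcomp.exists_bound_of_continuousOn ((hF σ).continuousOn.mono hsub)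
  choose K1 hK1 using hK1
  choose K2 hK2 using hK2
  obtain ⟨K0, hK, hKg, hKF⟩ : ∃ K0 : ℝ, 1 ≤ K0 ∧
      (∀ σ, ∀ w ∈ Metric.sphere (0 : ℂ) r, ‖g σ w‖ ≤ K0) ∧
      (∀ σ, ∀ w ∈ Metric.sphere (0 : ℂ) r, ‖F σ w‖ ≤ K0) := by
    refine ⟨1 + ∑ σ : K →+* ℂ, (|K1 σ| + |K2 σ|), ?_, ?_, ?_⟩
    · have : 0 ≤ ∑ σ : K →+* ℂ, (|K1 σ| + |K2 σ|) := Finset.sum_nonneg fun σ _ => by positivity
      linarith
    · intro σ w hw
      have h1 := Finset.single_le_sum (f := fun σ : K →+* ℂ => |K1 σ| + |K2 σ|)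
        (fun σ _ => by positivity) (Finset.mem_univ σ)
      have h2 := hK1 σ w hw
      have h3 := le_abs_self (K1 σ)
      have h4 := abs_nonneg (K2 σ)
      linarith
    · intro σ w hw
      have h1 := Finset.single_le_sum (f := fun σ : K →+* ℂ => |K1 σ| + |K2 σ|)
        (fun σ _ => by positivity) (Finset.mem_univ σ)
      have h2 := hK2 σ w hw
      have h3 := le_abs_self (K2 σ)
      have h4 := abs_nonneg (K1 σ)
      linarith
  obtain ⟨cK, hcK, hsieg⟩ := siegelK K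
  set n : ℕ := Fintype.card (K →+* ℂ) with hn
  have hn1 : 1 ≤ n := Fintype.card_pos
  obtain ⟨L, d, T, hT, hLT, hpar⟩ := paramsK n hn1 cK hcK κ δ C b K0 hδ hC hb hK
  obtain ⟨p, hp0, hpz, hpb⟩ := hsieg f D hD1 hDm κ hκ hDk hint C b hC hb hf L d T hT hLT
  obtain ⟨σ0, hne⟩ := hcon L d p hp0
  have hex : ∃ m, ∃ σ, PowerSeries.coeff m (aux p (f σ)) ≠ 0 := by
    by_contra h
    push Not at h
    exact hne (by ext m; rw [h m σ0]; simp)
  set T' := Nat.find hex with hT'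
  have hT'1 : ∃ σ, PowerSeries.coeff T' (aux p (f σ)) ≠ 0 := Nat.find_spec hex
  have hT'2 : ∀ σ, ∀ m < T', PowerSeries.coeff m (aux p (f σ)) = 0 := by
    intro σ m hm
    have := Nat.find_min hex hm
    push Not at this
    exact this σ
  have hTT' : T ≤ T' := by
    by_contra h
    push Not at h
    obtain ⟨σ, hσ⟩ := hT'1
    exact hσ (hpz σ T' h)
  have hpar' := hpar T' hTT'
  -- the good embedding
  obtain ⟨σ, hσ⟩ := intK_norm (aux_intK f D hDm hint p T') (by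
    obtain ⟨σ, hσ⟩ := hT'1
    exact ⟨σ, mul_ne_zero (by exact_mod_cast (hD1 T').ne') hσ⟩)
  set X := ((L * (d + 1) : ℝ) * (cK * Real.exp (κ * T) * (2 * C) ^ d * (2 * b) ^ T)) ^
            ((n * T : ℝ) / (L * (d + 1) - n * T)) with hX
  have hX0 : 0 ≤ X := by
    rw [hX]; positivity
  -- the lower bound of the leading coefficient
  set α := PowerSeries.coeff T' (aux p (f σ)) with hα
  have hα1 : 1 ≤ (D T' : ℝ) * ‖α‖ := by
    rw [norm_mul] at hσ
    simpa using hσ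
  have hα2 : 1 ≤ Real.exp (κ * T') * ‖α‖ :=
    le_trans hα1 (mul_le_mul_of_nonneg_right (hDk T') (norm_nonneg _))
  -- the function H
  set c := deriv (g σ) 0 with hc
  have hgda : DifferentiableAt ℂ (g σ) 0 :=
    (hg σ).differentiableAt (Metric.isOpen_ball.mem_nhds h0mem)
  have hφd : HasDerivAt (g σ) c 0 := hgda.hasDerivAt
  set H : ℂ → ℂ := fun w => ∑ i : Fin L, ∑ j : Fin (d + 1),
    (p i j : ℂ) * g σ w ^ (i : ℕ) * F σ w ^ (j : ℕ) with hH
  have hHd : DifferentiableOn ℂ H (Metric.ball 0 1) := by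
    rw [hH]
    refine DifferentiableOn.fun_sum fun i _ => DifferentiableOn.fun_sum fun j _ => ?_
    exact (((hg σ).pow _).const_mul _).mul ((hF σ).pow _)
  have hφsmall : ∀ᶠ w in 𝓝 (0 : ℂ), ‖g σ w‖ < 1 / (2 * b) := by
    have hcont : ContinuousAt (fun w => ‖g σ w‖) 0 := hgda.continuousAt.norm
    have : (fun w => ‖g σ w‖) 0 < 1 / (2 * b) := by
      simp only [hg0, norm_zero]; positivity
    exact hcont.eventually (gt_mem_nhds this)
  have hH0sum : ∀ᶠ w in 𝓝 (0 : ℂ),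
      HasSum (fun m : ℕ => PowerSeries.coeff m (aux p (f σ)) * g σ w ^ m) (H w) := by
    filter_upwards [hloc σ, hφsmall] with w h1 h2
    exact ev_aux p (f σ) C b hC hb (hf σ) (g σ w) (F σ w) h2 h1
  obtain ⟨C', hC'0, hC'⟩ := aux_bd p (f σ) C b hC hb (hf σ)
  have hlim := lim_lead (fun m => PowerSeries.coeff m (aux p (f σ))) C' (2 * b) (by positivity) hC'
    T' (hT'2 σ) (g σ) c (hg0 σ) hφd H hH0sum
  have hMb : ∀ w : ℂ, ‖w‖ = r → ‖H w‖ ≤ X * (L * (d + 1)) * K0 ^ (L + d) := by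
    intro w hw
    have hws : w ∈ Metric.sphere (0 : ℂ) r := by simpa using hw
    have h1 : ‖g σ w‖ ≤ K0 := hKg σ w hws
    have h2 : ‖F σ w‖ ≤ K0 := hKF σ w hws
    have h3 : ∀ i : Fin L, ∀ j : Fin (d + 1),
        ‖(p i j : ℂ) * g σ w ^ (i : ℕ) * F σ w ^ (j : ℕ)‖ ≤ X * K0 ^ (L + d) := by
      intro i j
      rw [norm_mul, norm_mul, norm_pow, norm_pow]
      have hpn : ‖(p i j : ℂ)‖ ≤ X := by
        have := hpb i j
        rw [Complex.norm_intCast]
        exact this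
      have h4 : ‖g σ w‖ ^ (i : ℕ) * ‖F σ w‖ ^ (j : ℕ) ≤ K0 ^ (L + d) := by
        calc ‖g σ w‖ ^ (i : ℕ) * ‖F σ w‖ ^ (j : ℕ)
            ≤ K0 ^ (i : ℕ) * K0 ^ (j : ℕ) := by gcongr
          _ = K0 ^ ((i : ℕ) + j) := by rw [pow_add]
          _ ≤ K0 ^ (L + d) := pow_le_pow_right₀ hK (by have := i.2; have := j.2; omega)
      rw [mul_assoc]
      exact mul_le_mul hpn h4 (by positivity) hX0
    calc ‖H w‖ ≤ ∑ i : Fin L, ∑ j : Fin (d + 1), X * K0 ^ (L + d) := by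
          rw [hH]
          exact norm_sum_le_of_le _ fun i _ => norm_sum_le_of_le _ fun j _ => h3 i j
      _ = X * (L * (d + 1)) * K0 ^ (L + d) := by
          simp only [Finset.sum_const, Finset.card_univ, Fintype.card_fin, nsmul_eq_mul]
          push_cast
          ring
  have hfin := sch H hHd T' _ hlim r hr0 hr1 _ hMb
  have h5 : Real.exp (δ * T') ≤ ‖α * c ^ T'‖ * r ^ T' := by
    have h6 : ‖α‖ * Real.exp ((κ + δ) * T') ≤ ‖α * c ^ T'‖ * r ^ T' := by
      rw [norm_mul, norm_pow, mul_assoc, ← mul_pow]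
      have h7 : Real.exp ((κ + δ) * T') = (M * r) ^ T' := by
        rw [← hexp, ← Real.exp_nat_mul]
        ring_nf
      rw [h7]
      have h8 : M * r ≤ ‖c‖ * r := mul_le_mul_of_nonneg_right (hg1 σ) hr0.le
      exact mul_le_mul_of_nonneg_left (pow_le_pow_left₀ hcr.le h8 T') (norm_nonneg _)
    have h7 : Real.exp ((κ + δ) * T') = Real.exp (κ * T') * Real.exp (δ * T') := by
      rw [← Real.exp_add]; ring_nf
    rw [h7] at h6
    calc Real.exp (δ * T') = 1 * Real.exp (δ * T') := (one_mul _).symm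
      _ ≤ (Real.exp (κ * T') * ‖α‖) * Real.exp (δ * T') := by gcongr
      _ = ‖α‖ * (Real.exp (κ * T') * Real.exp (δ * T')) := by ring
      _ ≤ _ := h6
  have h8 := le_trans h5 hfin
  exact absurd hpar' (not_lt.mpr h8)

end FacC
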