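import Mathlib

/-!
Definitions for MP_c83bfd_ag (factorial cancellation and algebraic solutions).
Everything is about systems  D y' = B y,  D a polynomial,  B a matrix of polynomials.
-/

open Polynomial

namespace FacC

/-- `g ↦ D g' - s D' g`, that is `D^(s+1)` times the derivative of `g / D^s`. -/
noncomputable def th {R : Type*} [CommRing R] (D : R[X]) (s : ℕ) (g : R[X]) : R[X] :=
  D * derivative g - (s : R[X]) * derivative D * g

/-- The polynomial matrices `G_m = D^m A_m` for `A = B / D`. -/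
noncomputable def Gm {R : Type*} [CommRing R] {ι : Type*} [Fintype ι] [DecidableEq ι]
    (D : R[X]) (B : Matrix ι ι R[X]) : ℕ → Matrix ι ι R[X]
  | 0 => 1
  | m + 1 => (Gm D B m).map (th D m) + Gm D B m * B

/-- The matrices `A_m` of the problem: `A_1 = A`, `A_(m+1) = A_m' + A_m A` (and `A_0 = 1`). -/
noncomputable def Aseq {ι : Type*} [Fintype ι] [DecidableEq ι]
    (A : ℂ → Matrix ι ι ℂ) : ℕ → ℂ → Matrix ι ι ℂ
  | 0 => fun _ => 1
  | m + 1 => fun z =>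
      Matrix.of (fun i j => deriv (fun x => Aseq A m x i j) z) + Aseq A m z * A z

/-- `f` is algebraic over `ℂ(z)` on `U`. -/
def AlgOn (U : Set ℂ) (f : ℂ → ℂ) : Prop :=
  ∃ P : ℂ[X][X], P ≠ 0 ∧ ∀ z ∈ U, (P.map (evalRingHom z)).eval (f z) = 0

/-- `y` is a holomorphic solution of `D y' = B y` on `U`. -/
def Sol {ι : Type*} [Fintype ι] (D : ℂ[X]) (B : Matrix ι ι ℂ[X]) (U : Set ℂ)
    (y : ℂ → ι → ℂ) : Prop :=
  (∀ i, DifferentiableOn ℂ (fun z => y z i) U) ∧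
    ∀ z ∈ U, ∀ i, D.eval z * deriv (fun x => y x i) z = ∑ j, (B i j).eval z * y z j

/-- All local holomorphic solutions of `D y' = B y` are algebraic. -/
def AllAlg {ι : Type*} [Fintype ι] (D : ℂ[X]) (B : Matrix ι ι ℂ[X]) : Prop :=
  ∀ U : Set ℂ, IsOpen U → IsPreconnected U → ∀ y : ℂ → ι → ℂ, Sol D B U y →
    ∀ i, AlgOn U (fun z => y z i)

/-- `x` lies in `ℤ + ℤ ρ`. -/
def InZ (ρ x : ℂ) : Prop := ∃ a b : ℤ, x = a + b * ρ

/-- `D_m = ∏_(p ≤ m) p^⌊w_p m⌋`. -/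
noncomputable def Dm (w : ℕ → ℝ) (m : ℕ) : ℕ :=
  ∏ p ∈ (Finset.range (m + 1)).filter Nat.Prime, p ^ ⌊w p * m⌋₊

/-- `θ_3(q) = ∑_(n ∈ ℤ) q^(n^2)`; `θ_4(q) = θ_3(-q)`. -/
noncomputable def t3 (q : ℂ) : ℂ := ∑' n : ℤ, q ^ (n.natAbs ^ 2)

/-- `ψ(q) = ∑_(n ≥ 0) q^(n(n+1))`; `θ_2(q) = 2 q^(1/4) ψ(q)`. -/
noncomputable def ps (q : ℂ) : ℂ := ∑' n : ℕ, q ^ (n * (n + 1))

/-- the modular function `λ` as a function of `q`. -/
noncomputable def lam (q : ℂ) : ℂ := 16 * q * ps q ^ 4 / t3 q ^ 4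

/-- the auxiliary series `∑ p_ij X^i f^j`. -/
noncomputable def aux {L d : ℕ} (p : Fin L → Fin (d + 1) → ℤ) (f : PowerSeries ℂ) :
    PowerSeries ℂ :=
  ∑ i : Fin L, ∑ j : Fin (d + 1),
    PowerSeries.C ((p i j : ℤ) : ℂ) * PowerSeries.X ^ (i : ℕ) * f ^ (j : ℕ)

/-- The complex image of an integral polynomial. -/
noncomputable def toC (P : ℤ[X]) : ℂ[X] := P.map (Int.castRingHom ℂ)

open Classical in
/-- The cost of a prime `p`: `1/(p-1)` in `S0`, `1/(p(p-1))` in `S1 \ S0`, otherwise 0. -/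
noncomputable def wt (S0 S1 : Set ℕ) (p : ℕ) : ℝ :=
  if ¬ p.Prime then 0 else if p ∈ S0 then 1 / ((p : ℝ) - 1)
    else if p ∈ S1 then 1 / ((p : ℝ) * ((p : ℝ) - 1)) else 0

/-- The meromorphic map `g/h` of the disc pulls back every system `E y' = B y` with entries of
degree at most `β` to a holomorphic system. -/
def PullOK (E : ℤ[X]) (β : ℕ∞) (g h : ℂ → ℂ) : Prop :=
  ∀ (n d : ℕ) (B : Matrix (Fin n × Fin d) (Fin n × Fin d) ℤ[X]),
    (∀ i j, ((B i j).natDegree : ℕ∞) ≤ β) →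
    ∃ A1 : ℂ → Matrix (Fin n × Fin d) (Fin n × Fin d) ℂ,
      (∀ i j, DifferentiableOn ℂ (fun w => A1 w i j) (Metric.ball 0 1)) ∧
      ∀ᶠ w in nhds (0 : ℂ), A1 w = deriv (fun x => g x / h x) w •
        (((toC E).eval (g w / h w))⁻¹ •
          (B.map (Polynomial.map (Int.castRingHom ℂ))).map (eval (g w / h w)))

end FacC
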