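import Pool.Agent.Lib.FacC.GLeib

/-!
VANISHING p-CURVATURE: if p | G_p then p^⌊m/p⌋ | G_m for all m (only Mathlib and GLeib).

Here D mod p != 0 (so D mod p is a non zero divisor of (ZMod p)[X], a domain).
PROOF. (1) `HH_zmod`: over ZMod p, D != 0: HH D s p g = 0.  Let M be a natural number with
p | s + M.  Claim (induction on r):  D^r * derivative^[r] (g * D^M) = D^M * HH D s r g in (ZMod p)[X].
Step: D^(r+1) derivative^[r+1](g D^M) = D * ( derivative (D^r derivative^[r](g D^M))
  - r D^(r-1) D' derivative^[r](g D^M) ) ; by induction this is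
  D * derivative(D^M HH_r) - r D' D^M HH_r = D^M (D HH_r' + (M - r) D' HH_r)
  = D^M (D HH_r' - (s + r) D' HH_r)   because M = -s in ZMod p.
For r = p: derivative^[p] = 0 in (ZMod p)[X] (derivative^[p] f = p! * hasseDeriv:
`Polynomial.factorial_smul_hasseDeriv`, `Nat.cast` p! = 0), so D^M HH D s p g = 0 and D^M != 0.
(2) `HH_dvd`: over ℤ: p^(e+1) | HH D s p g if p^e | g; p^e | HH D s r g if p^e | g:
HH is ℤ-linear (HH (c*g) = c*HH g for an integer constant c), and by (1) with
`Polynomial.map (Int.castRingHom (ZMod p))` (HH commutes with map) p | HH D s p g for all g: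
coefficients divisible by p (`ZMod.intCast_zmod_eq_zero_iff_dvd` / `(ZMod.intCast_zmod_eq_zero_iff_dvd ..)`).
(3) Induction m -> m+p with `leib` (j = p): the term i = p is G_m G_p (HH _ _ 0 = id), divisible by
p^e * p; the terms 0 < i < p have p | C(p,i) (`Nat.Prime.dvd_choose_self`); the term i = 0 is HH_p(G_m),
divisible by p^(e+1). For m < p: m/p = 0.  Write m = p*q + r, r < p and induct on q
(base case q = 0 trivial), always with G_((p q + r) + p).
-/

/-!
VANISHING p-CURVATURE: if p | G_p then p^⌊m/p⌋ | G_m for all m (only Mathlib and GLeib).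

Here D mod p != 0 (so D mod p is a non zero divisor of (ZMod p)[X], a domain).
PROOF. (1) `HH_zmod`: over ZMod p, D != 0: HH D s p g = 0.  Let M be a natural number with
p | s + M.  Claim (induction on r):  D^r * derivative^[r] (g * D^M) = D^M * HH D s r g in (ZMod p)[X].
Step: D^(r+1) derivative^[r+1](g D^M) = D * ( derivative (D^r derivative^[r](g D^M))
  - r D^(r-1) D' derivative^[r](g D^M) ) ; by induction this is
  D * derivative(D^M HH_r) - r D' D^M HH_r = D^M (D HH_r' + (M - r) D' HH_r)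
  = D^M (D HH_r' - (s + r) D' HH_r)   because M = -s in ZMod p.
For r = p: derivative^[p] = 0 in (ZMod p)[X] (derivative^[p] f = p! * hasseDeriv:
`Polynomial.factorial_smul_hasseDeriv`, `Nat.cast` p! = 0), so D^M HH D s p g = 0 and D^M != 0.
(2) `HH_dvd`: over ℤ: p^(e+1) | HH D s p g if p^e | g; p^e | HH D s r g if p^e | g:
HH is ℤ-linear (HH (c*g) = c*HH g for an integer constant c), and by (1) with
`Polynomial.map (Int.castRingHom (ZMod p))` (HH commutes with map) p | HH D s p g for all g:
coefficients divisible by p (`ZMod.intCast_zmod_eq_zero_iff_dvd` / `(ZMod.intCast_zmod_eq_zero_iff_dvd ..)`).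
(3) Induction m -> m+p with `leib` (j = p): the term i = p is G_m G_p (HH _ _ 0 = id), divisible by
p^e * p; the terms 0 < i < p have p | C(p,i) (`Nat.Prime.dvd_choose_self`); the term i = 0 is HH_p(G_m),
divisible by p^(e+1). For m < p: m/p = 0.  Write m = p*q + r, r < p and induct on q
(base case q = 0 trivial), always with G_((p q + r) + p).
-/

open Polynomial

namespace FacC

private lemma gint_th_map {R S : Type*} [CommRing R] [CommRing S] (φ : R →+* S) (D : R[X]) (s : ℕ)
    (g : R[X]) : (th D s g).map φ = th (D.map φ) s (g.map φ) := by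
  simp [th, derivative_map]

private lemma gint_HH_map {R S : Type*} [CommRing R] [CommRing S] (φ : R →+* S) (D : R[X]) (s r : ℕ)
    (g : R[X]) : (HH D s r g).map φ = HH (D.map φ) s r (g.map φ) := by
  induction r with
  | zero => rfl
  | succ r ih => rw [HH, HH, gint_th_map, ih]

private lemma gint_HH_nat_mul {R : Type*} [CommRing R] (D : R[X]) (s r c : ℕ)
    (g : R[X]) : HH D s r ((c : R[X]) * g) = (c : R[X]) * HH D s r g := by
  induction r with
  | zero => rfl
  | succ r ih =>
    rw [HH, HH, ih, th, th, derivative_mul, derivative_natCast]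
    ring

private lemma gint_D_mul_deriv {R : Type*} [CommRing R] (D : R[X]) (r : ℕ) :
    D * derivative (D ^ r) = (r : R[X]) * D ^ r * derivative D := by
  cases r with
  | zero => simp
  | succ r =>
    rw [derivative_pow_succ]
    push_cast
    simp only [map_add, map_natCast, map_one]
    ring

private lemma gint_claim {R : Type*} [CommRing R] (D : R[X]) (s M : ℕ)
    (hM : ((s : R[X]) + (M : R[X])) = 0) (g : R[X]) (r : ℕ) :
    D ^ r * derivative^[r] (g * D ^ M) = D ^ M * HH D s r g := by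
  induction r with
  | zero => simp [HH, mul_comm]
  | succ r ih =>
    rw [Function.iterate_succ_apply', HH, th]
    set T := derivative^[r] (g * D ^ M) with hT
    have h1 : derivative (D ^ r * T) = derivative (D ^ M * HH D s r g) := by rw [ih]
    rw [derivative_mul, derivative_mul] at h1
    have h2 := gint_D_mul_deriv D r
    have h3 := gint_D_mul_deriv D M
    have hMM : (M : R[X]) = - (s : R[X]) := by linear_combination hM
    push_cast
    linear_combination D * h1 - T * h2 + (HH D s r g) * h3 - (r : R[X]) * derivative D * ih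
      + D ^ M * derivative D * HH D s r g * hMM

private lemma gint_iter_deriv_zero (p : ℕ) (hp : p.Prime) (f : (ZMod p)[X]) :
    derivative^[p] f = 0 := by
  have h := congrArg (fun φ => φ f) (Polynomial.factorial_smul_hasseDeriv (R := ZMod p) p)
  simp only [LinearMap.smul_apply] at h
  rw [← h]
  have h0 : ((p.factorial : ℕ) : ZMod p) = 0 := by
    rw [ZMod.natCast_eq_zero_iff]
    exact Nat.dvd_factorial hp.pos le_rfl
  ext n
  simp [h0]

private lemma gint_HH_zmod (p : ℕ) (hp : p.Prime) (D : (ZMod p)[X]) (hD : D ≠ 0) (s : ℕ)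
    (g : (ZMod p)[X]) : HH D s p g = 0 := by
  have : Fact p.Prime := ⟨hp⟩
  have hM : ((s : (ZMod p)[X]) + ((p - 1) * s : ℕ)) = 0 := by
    have : (s + (p - 1) * s : ℕ) = p * s := by
      obtain ⟨k, hk⟩ : ∃ k, p = k + 1 := ⟨p - 1, (Nat.succ_pred_eq_of_pos hp.pos).symm⟩
      rw [hk]; simp; ring
    rw [← Nat.cast_add, this, Nat.cast_mul]
    have : ((p : ℕ) : (ZMod p)[X]) = 0 := by
      exact CharP.cast_eq_zero _ p
    rw [this, zero_mul]
  have h := gint_claim D s ((p - 1) * s) hM g p
  rw [gint_iter_deriv_zero p hp, mul_zero] at h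
  exact (mul_eq_zero.mp h.symm).resolve_left (pow_ne_zero _ hD)

private lemma gint_dvd_of_map_zero (p : ℕ) (f : ℤ[X])
    (h : f.map (Int.castRingHom (ZMod p)) = 0) : (p : ℤ[X]) ∣ f := by
  have h1 : (C (p : ℤ) : ℤ[X]) ∣ f := by
    rw [Polynomial.C_dvd_iff_dvd_coeff]
    intro i
    have h2 := congrArg (fun q => q.coeff i) h
    simp only [coeff_map, coeff_zero, eq_intCast] at h2
    exact (ZMod.intCast_zmod_eq_zero_iff_dvd _ _).mp h2
  simpa using h1

private lemma gint_HH_dvd (p : ℕ) (hp : p.Prime) (D : ℤ[X])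
    (hD : D.map (Int.castRingHom (ZMod p)) ≠ 0) (s e : ℕ) (g : ℤ[X])
    (hg : ((p ^ e : ℕ) : ℤ[X]) ∣ g) : ((p ^ (e + 1) : ℕ) : ℤ[X]) ∣ HH D s p g := by
  obtain ⟨k, rfl⟩ := hg
  rw [gint_HH_nat_mul, pow_succ, Nat.cast_mul]
  apply mul_dvd_mul_left
  apply gint_dvd_of_map_zero
  rw [gint_HH_map]
  exact gint_HH_zmod p hp _ hD s _

private lemma gint_HH_dvd' (D : ℤ[X]) (s r c : ℕ) (g : ℤ[X])
    (hg : (c : ℤ[X]) ∣ g) : (c : ℤ[X]) ∣ HH D s r g := by
  obtain ⟨k, rfl⟩ := hg
  rw [gint_HH_nat_mul]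
  exact dvd_mul_right _ _

private lemma gint_step {ι : Type*} [Fintype ι] [DecidableEq ι] (D : ℤ[X])
    (B : Matrix ι ι ℤ[X]) (p : ℕ) (hp : p.Prime)
    (hD : D.map (Int.castRingHom (ZMod p)) ≠ 0) (h : ∀ i j, (p : ℤ[X]) ∣ Gm D B p i j)
    (m e : ℕ) (hm : ∀ i j, ((p ^ e : ℕ) : ℤ[X]) ∣ Gm D B m i j) (i j : ι) :
    ((p ^ (e + 1) : ℕ) : ℤ[X]) ∣ Gm D B (m + p) i j := by
  rw [leib]
  rw [Matrix.sum_apply]
  apply Finset.dvd_sum
  intro k hk
  rw [Finset.mem_range] at hk
  rw [Matrix.smul_apply, smul_eq_mul, Matrix.mul_apply]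
  rcases Nat.eq_zero_or_pos k with rfl | hk0
  · apply Dvd.dvd.mul_left
    apply Finset.dvd_sum
    intro l _
    apply Dvd.dvd.mul_right
    rw [Matrix.map_apply, Nat.sub_zero]
    exact gint_HH_dvd p hp D hD m e _ (hm _ _)
  · rcases Nat.lt_or_ge k p with hkp | hkp
    · have hc : p ∣ p.choose k := hp.dvd_choose_self hk0.ne' hkp
      obtain ⟨c, hc⟩ := hc
      rw [hc, pow_succ, Nat.cast_mul, Nat.cast_mul, mul_comm ((p ^ e : ℕ) : ℤ[X]), mul_assoc]
      apply mul_dvd_mul_left
      apply Dvd.dvd.mul_left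
      apply Finset.dvd_sum
      intro l _
      apply Dvd.dvd.mul_right
      rw [Matrix.map_apply]
      exact gint_HH_dvd' D m _ _ _ (hm _ _)
    · obtain rfl : k = p := by omega
      apply Dvd.dvd.mul_left
      apply Finset.dvd_sum
      intro l _
      rw [pow_succ, Nat.cast_mul]
      apply mul_dvd_mul
      · rw [Matrix.map_apply]
        exact gint_HH_dvd' D m _ _ _ (hm _ _)
      · exact h _ _

theorem gint {ι : Type*} [Fintype ι] [DecidableEq ι] (D : ℤ[X])
    (B : Matrix ι ι ℤ[X]) (p : ℕ) (hp : p.Prime)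
    (hD : D.map (Int.castRingHom (ZMod p)) ≠ 0) (h : ∀ i j, (p : ℤ[X]) ∣ Gm D B p i j)
    (m : ℕ) (i j : ι) : ((p ^ (m / p) : ℕ) : ℤ[X]) ∣ Gm D B m i j := by
  have key : ∀ q r : ℕ, ∀ i j, ((p ^ q : ℕ) : ℤ[X]) ∣ Gm D B (r + p * q) i j := by
    intro q
    induction q with
    | zero => intro r i j; simp
    | succ q ih =>
      intro r i j
      have := gint_step D B p hp hD h (r + p * q) q (ih r) i j
      have he : r + p * (q + 1) = r + p * q + p := by ring
      rw [he]
      exact this
  have h2 := key (m / p) (m % p) i j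
  rwa [Nat.mod_add_div] at h2

end FacC
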