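import Pool.Agent.Lib.FacC.Defs

/-!
LEIBNIZ FORMULA for the matrices G_m (only Mathlib).

`HH D s r g` is the r-fold application  th D (s+r-1) (... (th D s g)) , i.e. D^(s+r) (g/D^s)^(r).
`leib`:  G_(m+j) = sum_(i <= j) C(j,i) (HH D m (j-i) applied entrywise to G_m) * G_i.
PROOF. Product rule: th D (s+t) (g*h) = th D s g * h + g * th D t h  (`derivative_mul`, ring),
for matrices: (M*N).map (th D (s+t)) = M.map (th D s) * N + M * N.map (th D t)
(`Finset.sum` of products; th is additive).  Induction on j: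
G_(m+j+1) = th_(m+j)(G_(m+j)) + G_(m+j) B; apply the product rule to every term of the sum with
s = m+j-i (HH D m (j-i) G_m has weight m+(j-i)), t = i:
 = sum C(j,i) [ HH_(j-i+1)(G_m) G_i + HH_(j-i)(G_m) (th_i(G_i) + G_i B) ]
 = sum C(j,i) [ HH_(j+1-i)(G_m) G_i + HH_(j-i)(G_m) G_(i+1) ],  and Pascal's rule.
It is convenient to state the sum over `Finset.antidiagonal j` (pairs (a,i), a = j-i) and to copy the
proof of a binomial theorem (`Finset.sum_antidiagonal_choose_succ_nsmul`/`Finset.Nat.antidiagonal_succ`),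
or to use any other method.
-/

open Polynomial

namespace FacC

/-- `D^(s+r) (g/D^s)^(r)`. -/
noncomputable def HH {R : Type*} [CommRing R] (D : R[X]) (s : ℕ) : ℕ → R[X] → R[X]
  | 0, g => g
  | r + 1, g => th D (s + r) (HH D s r g)

/-- `th D s` as an additive map -/
private noncomputable def GLeib_th {R : Type*} [CommRing R] (D : R[X]) (s : ℕ) : R[X] →+ R[X] where
  toFun := th D s
  map_zero' := by simp [th]
  map_add' g h := by
    simp only [th, derivative_add]
    ring

private lemma GLeib_th_apply {R : Type*} [CommRing R] (D : R[X]) (s : ℕ) (g : R[X]) :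
    GLeib_th D s g = th D s g := rfl

private lemma GLeib_mul {R : Type*} [CommRing R] (D g h : R[X]) (s t : ℕ) :
    th D (s + t) (g * h) = th D s g * h + g * th D t h := by
  simp only [th, derivative_mul, Nat.cast_add]
  ring

private lemma GLeib_map {R : Type*} [CommRing R] {ι : Type*} [Fintype ι] (D : R[X]) (s : ℕ)
    (M : Matrix ι ι R[X]) : (GLeib_th D s).mapMatrix M = M.map (th D s) := rfl

private lemma GLeib_mmul {R : Type*} [CommRing R] {ι : Type*} [Fintype ι] (D : R[X])
    (M N : Matrix ι ι R[X]) (s t : ℕ) :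
    (M * N).map (th D (s + t)) = M.map (th D s) * N + M * N.map (th D t) := by
  ext1 i j
  rw [Matrix.map_apply, Matrix.add_apply, Matrix.mul_apply, Matrix.mul_apply, Matrix.mul_apply,
    ← GLeib_th_apply, map_sum, ← Finset.sum_add_distrib]
  refine Finset.sum_congr rfl fun k _ => ?_
  rw [GLeib_th_apply, GLeib_mul, Matrix.map_apply, Matrix.map_apply]

private lemma GLeib_HH {R : Type*} [CommRing R] {ι : Type*} [Fintype ι] (D : R[X])
    (M : Matrix ι ι R[X]) (s r : ℕ) :
    (M.map (HH D s r)).map (th D (s + r)) = M.map (HH D s (r + 1)) := by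
  ext1 i j
  rw [Matrix.map_apply, Matrix.map_apply, Matrix.map_apply, HH]

private lemma GLeib_anti {R : Type*} [CommRing R] {ι : Type*} [Fintype ι] [DecidableEq ι]
    (D : R[X]) (B : Matrix ι ι R[X]) (m j : ℕ) :
    Gm D B (m + j) = ∑ x ∈ Finset.HasAntidiagonal.antidiagonal j,
      j.choose x.1 • ((Gm D B m).map (HH D m x.2) * Gm D B x.1) := by
  induction j with
  | zero =>
    rw [Finset.Nat.antidiagonal_zero, Finset.sum_singleton, Nat.choose_self, one_smul, Nat.add_zero]
    have h1 : (Gm D B m).map (HH D m 0) = Gm D B m := by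
      ext1 i j
      rw [Matrix.map_apply, HH]
    have h2 : Gm D B 0 = 1 := by rw [Gm]
    rw [h1, h2, mul_one]
  | succ j ih =>
    rw [Finset.sum_antidiagonal_choose_succ_nsmul
      (fun a b => (Gm D B m).map (HH D m b) * Gm D B a) j]
    have h0 : Gm D B (m + (j + 1)) = (Gm D B (m + j)).map (th D (m + j)) + Gm D B (m + j) * B := by
      rw [← Nat.add_assoc, Gm]
    rw [h0, ← GLeib_map, ih, map_sum, Finset.sum_mul, ← Finset.sum_add_distrib,
      ← Finset.sum_add_distrib]
    refine Finset.sum_congr rfl fun x hx => ?_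
    rw [Finset.HasAntidiagonal.mem_antidiagonal] at hx
    have h3 : j.choose x.2 = j.choose x.1 := by
      rw [← hx]
      exact (Nat.choose_symm_add).symm
    have h4 : m + j = (m + x.2) + x.1 := by omega
    have h5 : Gm D B (x.1 + 1) = (Gm D B x.1).map (th D x.1) + Gm D B x.1 * B := by
      rw [Gm]
    rw [map_nsmul, GLeib_map, h4, GLeib_mmul, GLeib_HH, h3, h5, smul_mul_assoc, ← smul_add,
      ← smul_add, mul_add, add_assoc, mul_assoc]

theorem leib {R : Type*} [CommRing R] {ι : Type*} [Fintype ι] [DecidableEq ι]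
    (D : R[X]) (B : Matrix ι ι R[X]) (m j : ℕ) :
    Gm D B (m + j) = ∑ i ∈ Finset.range (j + 1),
      (j.choose i : R[X]) • ((Gm D B m).map (HH D m (j - i)) * Gm D B i) := by
  rw [GLeib_anti, Finset.Nat.sum_antidiagonal_eq_sum_range_succ
    (fun a b => j.choose a • ((Gm D B m).map (HH D m b) * Gm D B a)) j]
  refine Finset.sum_congr rfl fun i _ => ?_
  rw [Nat.cast_smul_eq_nsmul]

end FacC
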