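import Pool.Agent.Lib.FacC.Defs

/-!
Small algebraic lemmas on `Gm`, divisibility in R[X].

`poly_of_fun`: two polynomials over a subring of ℂ which agree (as functions) outside the zeros of a
  nonzero D are equal.  PROOF: `Polynomial.eq_of_infinite_eval_eq` for the images in ℂ[X] (the set of
  z with D(z) != 0 is infinite: complement of the finite root set, `Set.Finite.infinite_compl`), and
  `Polynomial.map_injective` for `R.subtype`.
`Gm_map`: for a ring homomorphism φ, Gm commutes with `Polynomial.map φ` (induction on m;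
  `Polynomial.derivative_map`, `Matrix.map_mul`).
`cop`: IsCoprime N p in R implies IsCoprime (C (N^m)) (p^e) in R[X]
  (`IsCoprime.pow`, `IsCoprime.map` with `Polynomial.C`), then `IsCoprime.dvd_of_dvd_mul_left`.
-/

open Polynomial

namespace FacC

theorem poly_of_fun (R : Subring ℂ) (D : ℂ[X]) (hD : D ≠ 0) (P Q : R[X])
    (h : ∀ z, D.eval z ≠ 0 → (P.map R.subtype).eval z = (Q.map R.subtype).eval z) : P = Q := by
  have h1 : P.map R.subtype = Q.map R.subtype := by
    refine Polynomial.eq_of_infinite_eval_eq _ _ ?_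
    have h2 : Set.Finite {z : ℂ | D.eval z = 0} := by
      refine (D.roots.toFinset.finite_toSet).subset ?_
      intro z hz
      simp only [Finset.mem_coe, Multiset.mem_toFinset]
      exact (mem_roots hD).mpr hz
    refine (h2.infinite_compl).mono ?_
    intro z hz
    exact h z hz
  exact Polynomial.map_injective R.subtype (Subring.subtype_injective R) h1

private lemma th_map {R S : Type*} [CommRing R] [CommRing S] (φ : R →+* S) (D : R[X]) (m : ℕ)
    (g : R[X]) : (th D m g).map φ = th (D.map φ) m (g.map φ) := by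
  unfold th
  simp [Polynomial.derivative_map]

theorem Gm_map {R S : Type*} [CommRing R] [CommRing S] (φ : R →+* S) {ι : Type*} [Fintype ι]
    [DecidableEq ι] (D : R[X]) (B : Matrix ι ι R[X]) (m : ℕ) :
    (Gm D B m).map (Polynomial.map φ) = Gm (D.map φ) (B.map (Polynomial.map φ)) m := by
  induction m with
  | zero =>
    show (1 : Matrix ι ι R[X]).map (Polynomial.map φ) = 1
    exact Matrix.map_one _ (Polynomial.map_zero _) (Polynomial.map_one _)
  | succ m ih =>
    show ((Gm D B m).map (th D m) + Gm D B m * B).map (Polynomial.map φ)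
      = (Gm (D.map φ) (B.map (Polynomial.map φ)) m).map (th (D.map φ) m)
        + Gm (D.map φ) (B.map (Polynomial.map φ)) m * B.map (Polynomial.map φ)
    rw [← ih]
    ext1 i j
    simp only [Matrix.map_apply, Matrix.add_apply, Matrix.mul_apply, Polynomial.map_add,
      Polynomial.map_sum, Polynomial.map_mul, th_map]

theorem cop {R : Type*} [CommRing R] (N : R) (p : ℕ) (hc : IsCoprime N (p : R)) (m e : ℕ)
    (G Q : R[X]) (h : C (N ^ m) * G = ((p ^ e : ℕ) : R[X]) * Q) :
    ((p ^ e : ℕ) : R[X]) ∣ G := by
  have h1 : IsCoprime (C (N ^ m)) ((p ^ e : ℕ) : R[X]) := by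
    have h2 := (hc.pow (m := m) (n := e)).map (C : R →+* R[X])
    have h3 : (C : R →+* R[X]) ((p : R) ^ e) = ((p ^ e : ℕ) : R[X]) := by
      simp
    rwa [h3] at h2
  exact (h1.symm).dvd_of_dvd_mul_left ⟨Q, h⟩

end FacC
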