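import Pool.Agent.Lib.FacC.Pow
import Mathlib.NumberTheory.NumberField.House

/-!
FAMILIES OF COMPLEX NUMBERS (x_σ), σ : K → ℂ, which come from one algebraic integer of K
(the place of ℤ + ℤρ in Zr.lean), and powers of families of power series.
-/

open Polynomial NumberField

namespace FacC

variable {K : Type*} [Field K]

/-- `x_σ = σ(y)` for one algebraic integer `y` of `K`. -/
def IntK (x : (K →+* ℂ) → ℂ) : Prop := ∃ y : 𝓞 K, ∀ σ : K →+* ℂ, x σ = σ (y : K)

theorem intK_int (n : ℤ) : IntK (K := K) (fun _ => (n : ℂ)) :=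
  ⟨(n : 𝓞 K), fun σ => by simp⟩

theorem intK_add {x y : (K →+* ℂ) → ℂ} (hx : IntK x) (hy : IntK y) :
    IntK (fun σ => x σ + y σ) := by
  obtain ⟨a, ha⟩ := hx
  obtain ⟨b, hb⟩ := hy
  exact ⟨a + b, fun σ => by show x σ + y σ = _; rw [ha, hb]; simp⟩

theorem intK_mul {x y : (K →+* ℂ) → ℂ} (hx : IntK x) (hy : IntK y) :
    IntK (fun σ => x σ * y σ) := by
  obtain ⟨a, ha⟩ := hx
  obtain ⟨b, hb⟩ := hy
  exact ⟨a * b, fun σ => by show x σ * y σ = _; rw [ha, hb]; simp⟩

theorem intK_sum {α : Type*} (s : Finset α) (f : α → (K →+* ℂ) → ℂ) (h : ∀ i ∈ s, IntK (f i)) :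
    IntK (fun σ => ∑ i ∈ s, f i σ) := by
  classical
  induction s using Finset.induction_on with
  | empty => exact ⟨0, fun σ => by simp⟩
  | insert a s ha ih =>
    have h1 := intK_add (h a (Finset.mem_insert_self a s))
      (ih fun i hi => h i (Finset.mem_insert_of_mem hi))
    obtain ⟨y, hy⟩ := h1
    exact ⟨y, fun σ => by
      show ∑ i ∈ insert a s, f i σ = _
      rw [Finset.sum_insert ha]; exact hy σ⟩

theorem intK_eval (a : 𝓞 K) (P : ℤ[X]) :
    IntK (fun σ : K →+* ℂ => (P.map (Int.castRingHom ℂ)).eval (σ (a : K))) := by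
  refine ⟨aeval a P, fun σ => ?_⟩
  have h1 : ((aeval a P : 𝓞 K) : K) = aeval (a : K) P := by
    have := aeval_algebraMap_apply K a P
    exact this.symm
  show (P.map (Int.castRingHom ℂ)).eval (σ (a : K)) = _
  rw [h1, eval_map, aeval_def, hom_eval₂]
  congr 1
  exact RingHom.ext_int _ _

theorem intK_norm [NumberField K] {x : (K →+* ℂ) → ℂ} (hx : IntK x) (h0 : ∃ σ, x σ ≠ 0) :
    ∃ σ, 1 ≤ ‖x σ‖ := by
  obtain ⟨y, hy⟩ := hx
  obtain ⟨τ, hτ⟩ := h0
  have hy0 : y ≠ 0 := by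
    rintro rfl
    apply hτ
    rw [hy]
    simp
  obtain ⟨σ, hσ⟩ := exists_conjugate_one_le_norm hy0
  exact ⟨σ, by rw [hy]; exact hσ⟩

/-- all members of the family vanish if one does -/
theorem intK_zero {x : (K →+* ℂ) → ℂ} (hx : IntK x) {τ : K →+* ℂ} (h : x τ = 0) (σ : K →+* ℂ) :
    x σ = 0 := by
  obtain ⟨y, hy⟩ := hx
  rw [hy] at h
  have h1 : (y : K) = 0 := by
    rw [← map_zero τ] at h
    exact τ.injective h
  rw [hy, h1, map_zero]

theorem pow_intK (f : (K →+* ℂ) → PowerSeries ℂ) (D : ℕ → ℕ)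
    (hDm : ∀ a b, D a * D b ∣ D (a + b))
    (hint : ∀ m, IntK fun σ => (D m : ℂ) * PowerSeries.coeff m (f σ)) (j m : ℕ) :
    IntK fun σ => (D m : ℂ) * PowerSeries.coeff m (f σ ^ j) := by
  induction j generalizing m with
  | zero =>
    simp only [pow_zero, PowerSeries.coeff_one]
    split_ifs
    · simpa using intK_int (K := K) (D m)
    · simpa using intK_int (K := K) 0
  | succ j ih =>
    have key : (fun σ : K →+* ℂ => (D m : ℂ) * PowerSeries.coeff m (f σ ^ (j + 1)))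
        = fun σ => ∑ x ∈ Finset.HasAntidiagonal.antidiagonal m, (D m : ℂ) *
          (PowerSeries.coeff x.1 (f σ ^ j) * PowerSeries.coeff x.2 (f σ)) := by
      funext σ
      rw [pow_succ, PowerSeries.coeff_mul, Finset.mul_sum]
    rw [key]
    refine intK_sum _ _ fun x hx => ?_
    rw [Finset.HasAntidiagonal.mem_antidiagonal] at hx
    obtain ⟨c, hc⟩ := hDm x.1 x.2
    rw [hx] at hc
    have h1 : (fun σ : K →+* ℂ => (D m : ℂ) *
          (PowerSeries.coeff x.1 (f σ ^ j) * PowerSeries.coeff x.2 (f σ)))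
        = fun σ => ((c : ℤ) : ℂ) * (((D x.1 : ℂ) * PowerSeries.coeff x.1 (f σ ^ j)) *
          ((D x.2 : ℂ) * PowerSeries.coeff x.2 (f σ))) := by
      funext σ
      rw [hc]; push_cast; ring
    rw [h1]
    exact intK_mul (intK_int _) (intK_mul (ih x.1) (hint x.2))

theorem pow_intK' (f : (K →+* ℂ) → PowerSeries ℂ) (D : ℕ → ℕ)
    (hDm : ∀ a b, D a * D b ∣ D (a + b))
    (hint : ∀ m, IntK fun σ => (D m : ℂ) * PowerSeries.coeff m (f σ)) (i j m : ℕ) :
    IntK fun σ => (D m : ℂ) * PowerSeries.coeff m (PowerSeries.X ^ i * f σ ^ j) := by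
  simp only [PowerSeries.coeff_X_pow_mul']
  split_ifs with h
  · obtain ⟨c, hc⟩ := hDm (m - i) i
    rw [Nat.sub_add_cancel h] at hc
    have h1 : (fun σ : K →+* ℂ => (D m : ℂ) * PowerSeries.coeff (m - i) (f σ ^ j))
        = fun σ => ((D i * c : ℕ) : ℤ) * ((D (m - i) : ℂ) *
          PowerSeries.coeff (m - i) (f σ ^ j)) := by
      funext σ
      rw [hc]; push_cast; ring
    rw [h1]
    exact intK_mul (intK_int _) (pow_intK f D hDm hint j (m - i))
  · simpa using intK_int (K := K) 0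

theorem coef_intK (f : (K →+* ℂ) → PowerSeries ℂ) (D : ℕ → ℕ)
    (hDm : ∀ a b, D a * D b ∣ D (a + b))
    (hint : ∀ m, IntK fun σ => (D m : ℂ) * PowerSeries.coeff m (f σ)) (T i j m : ℕ) (hm : m < T) :
    IntK fun σ => (D T : ℂ) * PowerSeries.coeff m (PowerSeries.X ^ i * f σ ^ j) := by
  obtain ⟨c, hc⟩ := hDm m (T - m)
  have e : m + (T - m) = T := by omega
  rw [e] at hc
  have h1 : (fun σ : K →+* ℂ => (D T : ℂ) * PowerSeries.coeff m (PowerSeries.X ^ i * f σ ^ j))
      = fun σ => ((D (T - m) * c : ℕ) : ℤ) * ((D m : ℂ) *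
        PowerSeries.coeff m (PowerSeries.X ^ i * f σ ^ j)) := by
    funext σ
    rw [hc]; push_cast; ring
  rw [h1]
  exact intK_mul (intK_int _) (pow_intK' f D hDm hint i j m)

end FacC
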