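import Pool.Agent.Lib.FacC.GInt
import Pool.Agent.Lib.FacC.Wt

/-!
LEVELS: factorial cancellation at `p` for `m ≤ q = p^j` only.

`gintP`: if `p^(v(m!)) | G_m` for `m = p^i`, `i ≤ j`, then for all `m ≤ p^j`.
`gintJ`: if `p^(v(m!)) | G_m` for `m ≤ q` then `p^((m/q) v(q!) + v((m%q)!)) | G_m` for all `m`.
`wt_lev`: `v(m!) ≤ ⌊m/(p^j(p-1))⌋ + (m/q) v(q!) + v((m%q)!)`, `q = p^j`.
-/

open Polynomial

namespace FacC

/-- The cost of a prime `p` of level `j`: `1/(p^j (p-1))`, and `0` for the level `⊤`. -/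
noncomputable def wl (lev : ℕ → ℕ∞) (p : ℕ) : ℝ :=
  if p.Prime ∧ lev p ≠ ⊤ then 1 / ((p : ℝ) ^ (lev p).toNat * ((p : ℝ) - 1)) else 0

theorem wl_nonneg (lev : ℕ → ℕ∞) (p : ℕ) : 0 ≤ wl lev p := by
  unfold wl
  split_ifs with h
  · have h2 : (1 : ℝ) ≤ p := by exact_mod_cast h.1.one_le
    exact div_nonneg zero_le_one (mul_nonneg (by positivity) (by linarith))
  · exact le_rfl

private lemma gj_th_map {R S : Type*} [CommRing R] [CommRing S] (φ : R →+* S) (D : R[X]) (s : ℕ)
    (g : R[X]) : (th D s g).map φ = th (D.map φ) s (g.map φ) := by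
  simp [th, derivative_map]

private lemma gj_HH_map {R S : Type*} [CommRing R] [CommRing S] (φ : R →+* S) (D : R[X]) (s r : ℕ)
    (g : R[X]) : (HH D s r g).map φ = HH (D.map φ) s r (g.map φ) := by
  induction r with
  | zero => rfl
  | succ r ih => rw [HH, HH, gj_th_map, ih]

private lemma gj_HH_nat_mul {R : Type*} [CommRing R] (D : R[X]) (s r c : ℕ)
    (g : R[X]) : HH D s r ((c : R[X]) * g) = (c : R[X]) * HH D s r g := by
  induction r with
  | zero => rfl
  | succ r ih =>
    rw [HH, HH, ih, th, th, derivative_mul, derivative_natCast]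
    ring

private lemma gj_D_mul_deriv {R : Type*} [CommRing R] (D : R[X]) (r : ℕ) :
    D * derivative (D ^ r) = (r : R[X]) * D ^ r * derivative D := by
  cases r with
  | zero => simp
  | succ r =>
    rw [derivative_pow_succ]
    push_cast
    simp only [map_add, map_natCast, map_one]
    ring

private lemma gj_claim {R : Type*} [CommRing R] (D : R[X]) (s M : ℕ)
    (hM : ((s : R[X]) + (M : R[X])) = 0) (g : R[X]) (r : ℕ) :
    D ^ r * derivative^[r] (g * D ^ M) = D ^ M * HH D s r g := by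
  induction r with
  | zero => simp [HH, mul_comm]
  | succ r ih =>
    rw [Function.iterate_succ_apply', HH, th]
    set T := derivative^[r] (g * D ^ M) with hT
    have h1 : derivative (D ^ r * T) = derivative (D ^ M * HH D s r g) := by rw [ih]
    rw [derivative_mul, derivative_mul] at h1
    have h2 := gj_D_mul_deriv D r
    have h3 := gj_D_mul_deriv D M
    have hMM : (M : R[X]) = - (s : R[X]) := by linear_combination hM
    push_cast
    linear_combination D * h1 - T * h2 + (HH D s r g) * h3 - (r : R[X]) * derivative D * ih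
      + D ^ M * derivative D * HH D s r g * hMM

private lemma gj_iter_deriv_zero (n t : ℕ) (hn : n ∣ t.factorial) (f : (ZMod n)[X]) :
    derivative^[t] f = 0 := by
  have h := congrArg (fun φ => φ f) (Polynomial.factorial_smul_hasseDeriv (R := ZMod n) t)
  simp only [LinearMap.smul_apply] at h
  rw [← h]
  have h0 : ((t.factorial : ℕ) : ZMod n) = 0 := by
    rw [ZMod.natCast_eq_zero_iff]
    exact hn
  ext i
  simp [h0]

private lemma gj_dvd_of_map_zero (n : ℕ) (f : ℤ[X])
    (h : f.map (Int.castRingHom (ZMod n)) = 0) : (n : ℤ[X]) ∣ f := by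
  have h1 : (C (n : ℤ) : ℤ[X]) ∣ f := by
    rw [Polynomial.C_dvd_iff_dvd_coeff]
    intro i
    have h2 := congrArg (fun q => q.coeff i) h
    simp only [coeff_map, coeff_zero, eq_intCast] at h2
    exact (ZMod.intCast_zmod_eq_zero_iff_dvd _ _).mp h2
  simpa using h1

private lemma gj_HH0 (p : ℕ) (hp : p.Prime) (D : ℤ[X])
    (hD : D.map (Int.castRingHom (ZMod p)) ≠ 0) (s t : ℕ) (g : ℤ[X]) :
    ((p ^ padicValNat p t.factorial : ℕ) : ℤ[X]) ∣ HH D s t g := by
  set v := padicValNat p t.factorial with hv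
  set n := p ^ v with hn
  have hn0 : 0 < n := Nat.pow_pos hp.pos
  have hnt : n ∣ t.factorial := pow_padicValNat_dvd
  have h1 : ((n : ℕ) : ℤ[X]) ∣ D ^ ((n - 1) * s) * HH D s t g := by
    apply gj_dvd_of_map_zero
    rw [Polynomial.map_mul, Polynomial.map_pow, gj_HH_map]
    have hM : ((s : (ZMod n)[X]) + (((n - 1) * s : ℕ) : (ZMod n)[X])) = 0 := by
      have h2 : (s + (n - 1) * s : ℕ) = n * s := by
        obtain ⟨k, hk⟩ : ∃ k, n = k + 1 := ⟨n - 1, (Nat.succ_pred_eq_of_pos hn0).symm⟩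
        rw [hk]; simp; ring
      rw [← Nat.cast_add, h2, Nat.cast_mul]
      have h3 : ((n : ℕ) : (ZMod n)[X]) = 0 := by
        have h4 : ((n : ℕ) : (ZMod n)[X]) = C ((n : ℕ) : ZMod n) := by simp
        rw [h4, ZMod.natCast_self, C_0]
      rw [h3, zero_mul]
    have h := gj_claim (D.map (Int.castRingHom (ZMod n))) s ((n - 1) * s) hM
      (g.map (Int.castRingHom (ZMod n))) t
    rw [gj_iter_deriv_zero n t hnt, mul_zero] at h
    exact h.symm
  have hpr : Prime (C (p : ℤ) : ℤ[X]) := by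
    rw [Polynomial.prime_C_iff]
    exact Nat.prime_iff_prime_int.mp hp
  have hcast : ((n : ℕ) : ℤ[X]) = (C (p : ℤ)) ^ v := by
    rw [hn]
    simp
  rw [hcast] at h1 ⊢
  refine hpr.pow_dvd_of_dvd_mul_left v ?_ h1
  intro h2
  have h3 := hpr.dvd_of_dvd_pow h2
  apply hD
  rw [Polynomial.C_dvd_iff_dvd_coeff] at h3
  ext i
  rw [coeff_map, coeff_zero, eq_intCast]
  exact (ZMod.intCast_zmod_eq_zero_iff_dvd _ _).mpr (h3 i)

private lemma gj_HH (p : ℕ) (hp : p.Prime) (D : ℤ[X])
    (hD : D.map (Int.castRingHom (ZMod p)) ≠ 0) (s t e : ℕ) (g : ℤ[X])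
    (hg : ((p ^ e : ℕ) : ℤ[X]) ∣ g) :
    ((p ^ (e + padicValNat p t.factorial) : ℕ) : ℤ[X]) ∣ HH D s t g := by
  obtain ⟨k, rfl⟩ := hg
  rw [gj_HH_nat_mul, pow_add, Nat.cast_mul]
  exact mul_dvd_mul_left _ (gj_HH0 p hp D hD s t k)

private lemma gj_val (p : ℕ) (hp : p.Prime) (t i : ℕ) (hi : i ≤ t) :
    padicValNat p t.factorial = padicValNat p (t.choose i) +
      (padicValNat p (t - i).factorial + padicValNat p i.factorial) := by
  haveI := Fact.mk hp
  rw [← Nat.choose_mul_factorial_mul_factorial hi,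
    padicValNat.mul (mul_ne_zero (Nat.choose_pos hi).ne' (Nat.factorial_ne_zero i))
      (Nat.factorial_ne_zero _),
    padicValNat.mul (Nat.choose_pos hi).ne' (Nat.factorial_ne_zero i)]
  ring

private lemma gj_step {ι : Type*} [Fintype ι] [DecidableEq ι] (D : ℤ[X])
    (B : Matrix ι ι ℤ[X]) (p : ℕ) (hp : p.Prime)
    (hD : D.map (Int.castRingHom (ZMod p)) ≠ 0) (q : ℕ)
    (h : ∀ m ≤ q, ∀ i j, ((p ^ padicValNat p m.factorial : ℕ) : ℤ[X]) ∣ Gm D B m i j)
    (m e t : ℕ) (ht : t ≤ q) (hm : ∀ i j, ((p ^ e : ℕ) : ℤ[X]) ∣ Gm D B m i j) (i j : ι) :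
    ((p ^ (e + padicValNat p t.factorial) : ℕ) : ℤ[X]) ∣ Gm D B (m + t) i j := by
  rw [leib, Matrix.sum_apply]
  apply Finset.dvd_sum
  intro k hk
  rw [Finset.mem_range] at hk
  rw [Matrix.smul_apply, smul_eq_mul, Matrix.mul_apply]
  have hk' : k ≤ t := by omega
  have he : e + padicValNat p t.factorial = padicValNat p (t.choose k) +
      ((e + padicValNat p (t - k).factorial) + padicValNat p k.factorial) := by
    rw [gj_val p hp t k hk']
    ring
  rw [he, pow_add, Nat.cast_mul]
  apply mul_dvd_mul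
  · exact Nat.cast_dvd_cast pow_padicValNat_dvd
  · apply Finset.dvd_sum
    intro l _
    rw [pow_add, Nat.cast_mul, Matrix.map_apply]
    exact mul_dvd_mul (gj_HH p hp D hD m (t - k) e _ (hm _ _)) (h k (hk'.trans ht) _ _)

theorem gintJ {ι : Type*} [Fintype ι] [DecidableEq ι] (D : ℤ[X])
    (B : Matrix ι ι ℤ[X]) (p : ℕ) (hp : p.Prime)
    (hD : D.map (Int.castRingHom (ZMod p)) ≠ 0) (q : ℕ) (hq : 0 < q)
    (h : ∀ m ≤ q, ∀ i j, ((p ^ padicValNat p m.factorial : ℕ) : ℤ[X]) ∣ Gm D B m i j)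
    (m : ℕ) (i j : ι) : ((p ^ ((m / q) * padicValNat p q.factorial +
      padicValNat p (m % q).factorial) : ℕ) : ℤ[X]) ∣ Gm D B m i j := by
  have key : ∀ a : ℕ, ∀ i j, ((p ^ (a * padicValNat p q.factorial) : ℕ) : ℤ[X]) ∣
      Gm D B (q * a) i j := by
    intro a
    induction a with
    | zero => intro i j; simp
    | succ a ih =>
      intro i j
      have h1 := gj_step D B p hp hD q h (q * a) (a * padicValNat p q.factorial) q le_rfl ih i j
      have h2 : (a + 1) * padicValNat p q.factorial =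
          a * padicValNat p q.factorial + padicValNat p q.factorial := by ring
      have h3 : q * (a + 1) = q * a + q := by ring
      rw [h2, h3]
      exact h1
  have h2 := gj_step D B p hp hD q h (q * (m / q)) _ (m % q) (Nat.mod_lt _ hq).le
    (key (m / q)) i j
  rwa [Nat.div_add_mod] at h2

theorem wt_lev (p : ℕ) (hp : p.Prime) (j m : ℕ) :
    padicValNat p m.factorial ≤ ⌊(1 / ((p : ℝ) ^ j * ((p : ℝ) - 1))) * m⌋₊ +
      ((m / p ^ j) * padicValNat p (p ^ j).factorial +
        padicValNat p (m % p ^ j).factorial) := by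
  haveI := Fact.mk hp
  have hp1 : (1 : ℝ) < p := by exact_mod_cast hp.one_lt
  have hfac : ∀ a : ℕ, padicValNat p a.factorial = padicValNat p (a / p).factorial + a / p := by
    intro a
    rw [← padicValNat_mul_div_factorial a, padicValNat_factorial_mul]
  induction j generalizing m with
  | zero =>
    have h := wt_triv p m hp
    rw [pow_zero, one_mul, pow_zero, Nat.mod_one]
    exact h.trans (Nat.le_add_right _ _)
  | succ j ih =>
    have h1 := ih (m / p)
    have h2 := hfac m
    have h3 := hfac (p ^ (j + 1))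
    have h4 := hfac (m % p ^ (j + 1))
    have h5 : p ^ (j + 1) / p = p ^ j := by
      rw [pow_succ, Nat.mul_div_cancel _ hp.pos]
    have h6 : m % p ^ (j + 1) / p = m / p % p ^ j := by
      rw [pow_succ, mul_comm, Nat.mod_mul_right_div_self]
    have h7 : m / p ^ (j + 1) = m / p / p ^ j := by
      rw [pow_succ, mul_comm, Nat.div_div_eq_div_mul]
    rw [h5] at h3
    rw [h6] at h4
    rw [h2, h3, h4, h7]
    have h8 : ⌊(1 / ((p : ℝ) ^ j * ((p : ℝ) - 1))) * ((m / p : ℕ) : ℝ)⌋₊ ≤
        ⌊(1 / ((p : ℝ) ^ (j + 1) * ((p : ℝ) - 1))) * m⌋₊ := by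
      apply Nat.floor_le_floor
      have h9 : ((m / p : ℕ) : ℝ) ≤ (m : ℝ) / p := Nat.cast_div_le
      have h10 : (0 : ℝ) < (p : ℝ) - 1 := by linarith
      calc (1 / ((p : ℝ) ^ j * ((p : ℝ) - 1))) * ((m / p : ℕ) : ℝ)
          ≤ (1 / ((p : ℝ) ^ j * ((p : ℝ) - 1))) * ((m : ℝ) / p) := by
            apply mul_le_mul_of_nonneg_left h9
            positivity
        _ = (1 / ((p : ℝ) ^ (j + 1) * ((p : ℝ) - 1))) * m := by
            rw [pow_succ]
            field_simp
    have h11 : p ^ j * (m / p / p ^ j) + m / p % p ^ j = m / p := Nat.div_add_mod _ _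
    have h12 : m / p / p ^ j * (padicValNat p (p ^ j).factorial + p ^ j) =
        m / p / p ^ j * padicValNat p (p ^ j).factorial + p ^ j * (m / p / p ^ j) := by ring
    rw [h12]
    omega

theorem val_split (p : ℕ) (hp : p.Prime) (j m : ℕ) :
    padicValNat p m.factorial = (m / p ^ j) * padicValNat p (p ^ j).factorial +
      padicValNat p (m % p ^ j).factorial + padicValNat p (m / p ^ j).factorial := by
  haveI := Fact.mk hp
  have hfac : ∀ a : ℕ, padicValNat p a.factorial = padicValNat p (a / p).factorial + a / p := by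
    intro a
    rw [← padicValNat_mul_div_factorial a, padicValNat_factorial_mul]
  induction j generalizing m with
  | zero => simp [Nat.mod_one]
  | succ j ih =>
    have h1 := ih (m / p)
    have h2 := hfac m
    have h3 := hfac (p ^ (j + 1))
    have h4 := hfac (m % p ^ (j + 1))
    have h5 : p ^ (j + 1) / p = p ^ j := by
      rw [pow_succ, Nat.mul_div_cancel _ hp.pos]
    have h6 : m % p ^ (j + 1) / p = m / p % p ^ j := by
      rw [pow_succ, mul_comm, Nat.mod_mul_right_div_self]
    have h7 : m / p ^ (j + 1) = m / p / p ^ j := by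
      rw [pow_succ, mul_comm, Nat.div_div_eq_div_mul]
    rw [h5] at h3
    rw [h6] at h4
    rw [h2, h3, h4, h7]
    have h11 : p ^ j * (m / p / p ^ j) + m / p % p ^ j = m / p := Nat.div_add_mod _ _
    have h12 : m / p / p ^ j * (padicValNat p (p ^ j).factorial + p ^ j) =
        m / p / p ^ j * padicValNat p (p ^ j).factorial + p ^ j * (m / p / p ^ j) := by ring
    rw [h12]
    omega

/-- The divisibility for `m = p^i`, `i ≤ j`, gives the one for all `m ≤ p^j`. -/
theorem gintP {ι : Type*} [Fintype ι] [DecidableEq ι] (D : ℤ[X])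
    (B : Matrix ι ι ℤ[X]) (p : ℕ) (hp : p.Prime)
    (hD : D.map (Int.castRingHom (ZMod p)) ≠ 0) (J : ℕ)
    (h : ∀ i ≤ J, ∀ a b,
      ((p ^ padicValNat p (p ^ i).factorial : ℕ) : ℤ[X]) ∣ Gm D B (p ^ i) a b) :
    ∀ m ≤ p ^ J, ∀ a b, ((p ^ padicValNat p m.factorial : ℕ) : ℤ[X]) ∣ Gm D B m a b := by
  induction J with
  | zero =>
    intro m hm a b
    have h0 : padicValNat p m.factorial = 0 := by
      rw [pow_zero] at hm
      interval_cases m <;> simp
    rw [h0]
    simp
  | succ J ih =>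
    intro m hm a b
    rcases Nat.lt_or_ge m (p ^ (J + 1)) with hlt | hge
    · have h1 := gintJ D B p hp hD (p ^ J) (Nat.pow_pos hp.pos)
        (ih (fun i hi => h i (hi.trans (Nat.le_succ J)))) m a b
      have h2 : m / p ^ J < p := by
        rw [Nat.div_lt_iff_lt_mul (Nat.pow_pos hp.pos)]
        rw [pow_succ, mul_comm] at hlt
        exact hlt
      have h3 : padicValNat p (m / p ^ J).factorial = 0 := by
        apply padicValNat.eq_zero_of_not_dvd
        rw [hp.dvd_factorial]
        exact not_le.mpr h2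
      rw [val_split p hp J m, h3, Nat.add_zero]
      exact h1
    · obtain rfl : m = p ^ (J + 1) := le_antisymm hm hge
      exact h (J + 1) le_rfl a b

end FacC
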