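import Pool.Agent.Lib.FacC.MainJ

/-!
The theorem with levels for `A = B / Δ`, `Δ` a divisor of `E` in `R[z]` (assembly).
-/

open Polynomial

namespace FacC

/-- The complex matrix `M(z)` for a matrix `M` of polynomials over `R`. -/
noncomputable def valR {R : Subring ℂ} {n : ℕ} (M : Matrix (Fin n) (Fin n) R[X]) (z : ℂ) :
    Matrix (Fin n) (Fin n) ℂ :=
  M.map (fun P => P.eval₂ R.subtype z)

private lemma valR_eq {R : Subring ℂ} {n : ℕ} (M : Matrix (Fin n) (Fin n) R[X]) (z : ℂ) :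
    valR M z = (M.map (Polynomial.map R.subtype)).map (eval z) := by
  ext1 i j
  show (M i j).eval₂ R.subtype z = ((M i j).map R.subtype).eval z
  rw [eval_map]

private lemma valR_mul {R : Subring ℂ} {n : ℕ} (Q : Matrix (Fin n) (Fin n) R[X]) (C0 : R[X])
    (z : ℂ) : valR (Q.map (fun P => C0 * P)) z = (C0.eval₂ R.subtype z) • valR Q z := by
  ext1 a b
  show (C0 * Q a b).eval₂ R.subtype z = (C0.eval₂ R.subtype z) * (Q a b).eval₂ R.subtype z
  rw [eval₂_mul]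

theorem levRes (R : Subring ℂ) [Module.Finite ℤ R] (n : ℕ) (E : ℤ[X])
    (hE0 : |((E.eval 0 : ℤ) : ℝ)| = 1)
    (hEp : ∀ p : ℕ, p.Prime → E.map (Int.castRingHom (ZMod p)) ≠ 0)
    (D C0 : R[X]) (hD : E.map (Int.castRingHom R) = D * C0)
    (B : Matrix (Fin n) (Fin n) R[X]) (A : ℂ → Matrix (Fin n) (Fin n) ℂ)
    (hA : ∀ z : ℂ, D.eval₂ R.subtype z ≠ 0 → D.eval₂ R.subtype z • A z = valR B z)
    (β : ℕ∞) (hβ : ∀ i j, ((C0 * B i j).natDegree : ℕ∞) ≤ β)
    (g h : ℂ → ℂ) (hg : DifferentiableOn ℂ g (Metric.ball 0 1))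
    (hh : DifferentiableOn ℂ h (Metric.ball 0 1)) (hg0 : g 0 = 0) (hh0 : h 0 = 1)
    (hpull : PullOK E β g h) (κ : ℝ) (hκ : Real.exp κ < ‖deriv g 0‖) (lev : ℕ → ℕ∞)
    (hS : ∀ F : Finset ℕ, (∀ p ∈ F, p.Prime) → ∑ p ∈ F, wl lev p * Real.log p ≤ κ)
    (c : ℕ) (hc : c ≠ 0)
    (hfac : ∀ p : ℕ, p.Prime → ∃ N : R, IsCoprime N (p : R) ∧
      ∀ m : ℕ, 1 ≤ m → (∀ j : ℕ, lev p = j → ∃ i ≤ j, m = p ^ i) →
        ∃ Q : Matrix (Fin n) (Fin n) R[X], ∀ z : ℂ, D.eval₂ R.subtype z ≠ 0 →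
          ((if lev p = ⊤ then (c : ℂ) else 1) * ((N : ℂ) * D.eval₂ R.subtype z) ^ m) •
            Aseq A m z = ((p ^ padicValNat p m.factorial : ℕ) : ℂ) • valR Q z)
    (U : Set ℂ) (hU : IsOpen U) (hUc : IsPreconnected U)
    (hUD : ∀ z ∈ U, D.eval₂ R.subtype z ≠ 0)
    (y : ℂ → Fin n → ℂ) (hy : ∀ i, DifferentiableOn ℂ (fun z => y z i) U)
    (hsol : ∀ z ∈ U, ∀ i, deriv (fun x => y x i) z = ∑ j, A z i j * y z j) (i : Fin n) :
    ∃ P : ℂ[X][X], P ≠ 0 ∧ ∀ z ∈ U, (P.map (evalRingHom z)).eval (y z i) = 0 := by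
  classical
  have hsplit : ∀ z : ℂ, (toC E).eval z = D.eval₂ R.subtype z * C0.eval₂ R.subtype z := by
    intro z
    have h1 : toC E = (E.map (Int.castRingHom R)).map R.subtype := by
      unfold toC
      rw [Polynomial.map_map]
      congr 1
    rw [h1, hD, eval_map, eval₂_mul]
  set B' : Matrix (Fin n) (Fin n) R[X] := B.map (fun P => C0 * P) with hB'
  have main := mainJ R n E (by
      intro h0
      rw [h0] at hE0
      simp at hE0) hEp B' A ?_ β hβ g h hg hh hg0 hh0 hpull κ ?_ lev hS c hc ?_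
  · refine main U hU hUc y ⟨hy, ?_⟩ i
    intro z hz a
    rw [hsol z hz a, hsplit, Finset.mul_sum]
    refine Finset.sum_congr rfl fun b _ => ?_
    have h1 := congrFun (congrFun (hA z (hUD z hz)) a) b
    rw [Matrix.smul_apply, smul_eq_mul] at h1
    have h2 := congrFun (congrFun (valR_eq B' z) a) b
    rw [hB', valR_mul] at h2
    have h3 : (((B'.map (Polynomial.map R.subtype)) a b).eval z) =
        C0.eval₂ R.subtype z * valR B z a b := h2.symm
    rw [h3, ← h1]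
    ring
  · intro z hz
    rw [hsplit] at hz ⊢
    have hDz : D.eval₂ R.subtype z ≠ 0 := fun h => hz (by rw [h, zero_mul])
    rw [← valR_eq, hB', valR_mul, ← hA z hDz, smul_smul, mul_comm]
  · rw [hE0, mul_one]
    exact hκ
  · intro p hp
    obtain ⟨N, hN, hf⟩ := hfac p hp
    refine ⟨N, hN, fun m hm hj => ?_⟩
    obtain ⟨Q, hQ⟩ := hf m hm hj
    refine ⟨Q.map (fun P => C0 ^ m * P), fun z hz => ?_⟩
    rw [hsplit] at hz
    have hDz : D.eval₂ R.subtype z ≠ 0 := fun h => hz (by rw [h, zero_mul])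
    rw [hsplit, ← valR_eq, valR_mul, eval₂_pow]
    have h2 : ((if lev p = ⊤ then (c : ℂ) else 1) *
          ((N : ℂ) * (D.eval₂ R.subtype z * C0.eval₂ R.subtype z)) ^ m) =
        (C0.eval₂ R.subtype z) ^ m * ((if lev p = ⊤ then (c : ℂ) else 1) *
          ((N : ℂ) * D.eval₂ R.subtype z) ^ m) := by
      ring
    rw [h2, ← smul_smul, hQ z hDz, smul_smul, smul_smul, mul_comm]

theorem sum_le_log (F : Finset ℕ) (hF : ∀ p ∈ F, p.Prime) (w : ℕ → ℝ) (c : ℝ)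
    (h : ∏ p ∈ F, (p : ℝ) ^ (w p) ≤ c) : ∑ p ∈ F, w p * Real.log p ≤ Real.log c := by
  rw [← Real.log_exp (∑ p ∈ F, w p * Real.log p)]
  refine Real.log_le_log (Real.exp_pos _) (le_trans (le_of_eq ?_) h)
  rw [Real.exp_sum]
  refine Finset.prod_congr rfl fun p hp => ?_
  have h2 : (0 : ℝ) < p := by exact_mod_cast (hF p hp).pos
  rw [Real.rpow_def_of_pos h2, mul_comm]

end FacC
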