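import Pool.Agent.Lib.FacC.Ode

/-!
LINEAR ODE: uniqueness, invertibility, representation of solutions (Mathlib and `ode_exists`).

`ode_unique`: U open preconnected, y' = A y on U, A holomorphic, y(z0) = 0 => y = 0 on U.
  PROOF. y : ℂ → (ι → ℂ) is analytic at every point of U.  S = {z in U : y = 0 near z}; identity theorem
  `AnalyticOnNhd.eqOn_zero_of_preconnected_of_eventuallyEq_zero`: it is enough that y = 0 near z0.
  If not, `AnalyticAt.exists_eventuallyEq_pow_smul_nonzero_iff` gives y = (z-z0)^n v(z) near z0 with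
  v(z0) != 0, n >= 1 (since y(z0) = 0).  Differentiate: n (z-z0)^(n-1) v + (z-z0)^n v' = (z-z0)^n A v for
  z near z0, z != z0; divide by (z-z0)^(n-1) and let z -> z0: n v(z0) = 0, contradiction.
  (Alternatively Gronwall `ODE_solution_unique` along segments.)
`ode_inv`: Y from ode_exists for A; let W be the solution of W' = - A^T W (ode_exists with the matrix
  -(A z)ᵀ), W(c) = 1, Z = Wᵀ: Z' = -Z A.  Then (Z Y)' = -Z A Y + Z A Y = 0 on the ball, Z Y = 1 at c,
  so Z Y = 1 on the ball (`IsOpen.is_const_of_deriv_eq_zero` for the entries, ball preconnected), hence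
  Y Z = 1 (`Matrix.mul_eq_one_comm`).
`ode_repr`: y a solution on the open preconnected V ⊆ ball, z1 in V, v := Z(z1) y(z1):
  y - Y v is a solution on V vanishing at z1, so it is 0 on V.
-/

open Polynomial Filter Topology

namespace FacC

private lemma OdeU_local {ι : Type*} [Fintype ι] (U : Set ℂ) (hU : IsOpen U)
    (A : ℂ → Matrix ι ι ℂ) (hA : ∀ i j, DifferentiableOn ℂ (fun z => A z i j) U)
    (y : ℂ → ι → ℂ) (hyan : AnalyticOnNhd ℂ y U)
    (hyd : ∀ z ∈ U, HasDerivAt y (fun i => ∑ j, A z i j * y z j) z)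
    (z0 : ℂ) (hz0 : z0 ∈ U) (h0 : y z0 = 0) : ∀ᶠ z in nhds z0, y z = 0 := by
  by_contra hne
  obtain ⟨n, g, hg, hg0, hgn⟩ := (hyan z0 hz0).exists_eventuallyEq_pow_smul_nonzero_iff.mpr hne
  rcases n with _ | m
  · have h1 := hgn.self_of_nhds
    rw [h0, pow_zero, one_smul] at h1
    exact hg0 h1.symm
  · have hU' : ∀ᶠ z in nhds z0, z ∈ U := hU.mem_nhds hz0
    have hgan : ∀ᶠ z in nhds z0, AnalyticAt ℂ g z := hg.eventually_analyticAt
    have hkey : ∀ᶠ z in nhds z0, (z - z0) ^ m • (((m : ℂ) + 1) • g z +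
        (z - z0) • (deriv g z - fun i => ∑ j, A z i j * g z j)) = 0 := by
      filter_upwards [hgn.eventually_nhds, hU', hgan] with z h1 h2 h3
      have h4 : HasDerivAt (fun x => (x - z0) ^ (m + 1) • g x)
          ((z - z0) ^ (m + 1) • deriv g z + (((m : ℂ) + 1) * (z - z0) ^ m) • g z) z := by
        have h5 : HasDerivAt (fun x : ℂ => (x - z0) ^ (m + 1)) (((m : ℂ) + 1) * (z - z0) ^ m) z := by
          have h6 : HasDerivAt (fun x : ℂ => (x - z0) ^ (m + 1))
              (((m + 1 : ℕ) : ℂ) * (z - z0) ^ (m + 1 - 1) * 1) z :=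
            ((hasDerivAt_id z).sub_const z0).fun_pow (m + 1)
          rw [mul_one, Nat.add_sub_cancel, Nat.cast_succ] at h6
          exact h6
        exact h5.smul h3.differentiableAt.hasDerivAt
      have h5 : HasDerivAt (fun x => (x - z0) ^ (m + 1) • g x)
          (fun i => ∑ j, A z i j * y z j) z := by
        refine (hyd z h2).congr_of_eventuallyEq ?_
        filter_upwards [h1] with x hx
        exact hx.symm
      have h6 := h4.unique h5
      have h7 : y z = (z - z0) ^ (m + 1) • g z := h1.self_of_nhds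
      have h8 : (fun i => ∑ j, A z i j * y z j) =
          (z - z0) ^ (m + 1) • (fun i => ∑ j, A z i j * g z j) := by
        funext i
        rw [h7]
        simp only [Pi.smul_apply, smul_eq_mul]
        rw [Finset.mul_sum]
        apply Finset.sum_congr rfl
        intro j _
        ring
      rw [h8] at h6
      rw [smul_add, smul_smul, smul_smul, smul_sub, ← pow_succ]
      have h9 : (z - z0) ^ m * ((m : ℂ) + 1) = ((m : ℂ) + 1) * (z - z0) ^ m := by ring
      rw [h9, ← h6]
      abel
    have hlim : Tendsto (fun z => ((m : ℂ) + 1) • g z +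
        (z - z0) • (deriv g z - fun i => ∑ j, A z i j * g z j)) (nhds z0)
        (nhds (((m : ℂ) + 1) • g z0 + (z0 - z0) •
          (deriv g z0 - fun i => ∑ j, A z0 i j * g z0 j))) := by
      have hgc : ContinuousAt g z0 := hg.continuousAt
      have hgd : ContinuousAt (deriv g) z0 := hg.deriv.continuousAt
      have hAc : ContinuousAt (fun z => (fun i => ∑ j, A z i j * g z j : ι → ℂ)) z0 := by
        apply continuousAt_pi.mpr
        intro i
        have hAi : ∀ j, ContinuousAt (fun z => A z i j) z0 := fun j =>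
          ((hA i j).differentiableAt (hU.mem_nhds hz0)).continuousAt
        have hgi : ∀ j, ContinuousAt (fun z => g z j) z0 := fun j =>
          (continuousAt_pi.mp hgc) j
        exact tendsto_finsetSum _ (fun j _ => (hAi j).mul (hgi j))
      exact (hgc.tendsto.const_smul _).add
        (((continuous_id.sub continuous_const).tendsto z0).smul (hgd.tendsto.sub hAc.tendsto))
    have hlim2 := hlim.mono_left (nhdsWithin_le_nhds (s := {z0}ᶜ))
    have hzero : (fun z => ((m : ℂ) + 1) • g z +
        (z - z0) • (deriv g z - fun i => ∑ j, A z i j * g z j)) =ᶠ[nhdsWithin z0 {z0}ᶜ]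
        fun _ => 0 := by
      have h1 : ∀ᶠ z in nhdsWithin z0 {z0}ᶜ, (z - z0) ^ m • (((m : ℂ) + 1) • g z +
        (z - z0) • (deriv g z - fun i => ∑ j, A z i j * g z j)) = 0 :=
        hkey.filter_mono nhdsWithin_le_nhds
      filter_upwards [h1, self_mem_nhdsWithin] with z h2 h3
      have h4 : z - z0 ≠ 0 := sub_ne_zero.mpr h3
      exact (smul_eq_zero.mp h2).resolve_left (pow_ne_zero _ h4)
    have h1 := tendsto_nhds_unique (hlim2.congr' hzero) tendsto_const_nhds
    rw [sub_self, zero_smul, add_zero] at h1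
    have hm : ((m : ℂ) + 1) ≠ 0 := by
      exact_mod_cast Nat.succ_ne_zero m
    exact hg0 ((smul_eq_zero.mp h1).resolve_left hm)

theorem ode_unique {ι : Type*} [Fintype ι] (U : Set ℂ) (hU : IsOpen U) (hc : IsPreconnected U)
    (A : ℂ → Matrix ι ι ℂ) (hA : ∀ i j, DifferentiableOn ℂ (fun z => A z i j) U)
    (y : ℂ → ι → ℂ)
    (hy : ∀ z ∈ U, ∀ i, HasDerivAt (fun x => y x i) (∑ j, A z i j * y z j) z)
    (z0 : ℂ) (hz0 : z0 ∈ U) (h0 : y z0 = 0) : ∀ z ∈ U, y z = 0 := by
  have hyd : ∀ z ∈ U, HasDerivAt y (fun i => ∑ j, A z i j * y z j) z := by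
    intro z hz
    rw [hasDerivAt_pi]
    exact hy z hz
  have hyan : AnalyticOnNhd ℂ y U := by
    apply DifferentiableOn.analyticOnNhd _ hU
    intro z hz
    exact (hyd z hz).differentiableAt.differentiableWithinAt
  have hev := OdeU_local U hU A hA y hyan hyd z0 hz0 h0
  intro z hz
  exact hyan.eqOn_zero_of_preconnected_of_eventuallyEq_zero hc hz0 hev hz

theorem ode_inv {ι : Type*} [Fintype ι] [DecidableEq ι] (c : ℂ) (r : ℝ) (hr : 0 < r)
    (A : ℂ → Matrix ι ι ℂ) (hA : ∀ i j, DifferentiableOn ℂ (fun z => A z i j) (Metric.ball c r))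
    (Y : ℂ → Matrix ι ι ℂ) (hY0 : Y c = 1)
    (hY : ∀ z ∈ Metric.ball c r, ∀ i j, HasDerivAt (fun x => Y x i j) ((A z * Y z) i j) z) :
    ∃ Z : ℂ → Matrix ι ι ℂ, ∀ z ∈ Metric.ball c r, Z z * Y z = 1 ∧ Y z * Z z = 1 := by
  obtain ⟨W, hW0, hW⟩ := ode_exists c r hr (fun z => -(A z).transpose) (by
    intro i j
    exact (hA j i).neg)
  have hd : ∀ i j, ∀ z ∈ Metric.ball c r,
      HasDerivAt (fun x => ∑ k, W x k i * Y x k j) 0 z := by
    intro i j z hz
    have h1 : HasDerivAt (fun x => ∑ k, W x k i * Y x k j)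
        (∑ k, ((-(A z).transpose * W z) k i * Y z k j + W z k i * (A z * Y z) k j)) z := by
      apply HasDerivAt.fun_sum
      intro k _
      exact (hW z hz k i).fun_mul (hY z hz k j)
    have h2 : (∑ k, ((-(A z).transpose * W z) k i * Y z k j + W z k i * (A z * Y z) k j)) = 0 := by
      rw [Finset.sum_add_distrib]
      have h3 : ∑ k, (-(A z).transpose * W z) k i * Y z k j =
          -∑ k, ∑ l, A z l k * W z l i * Y z k j := by
        rw [← Finset.sum_neg_distrib]
        apply Finset.sum_congr rfl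
        intro k _
        rw [Matrix.neg_mul, Matrix.neg_apply, Matrix.mul_apply, neg_mul, Finset.sum_mul]
        rfl
      have h4 : ∑ k, W z k i * (A z * Y z) k j = ∑ k, ∑ l, A z l k * W z l i * Y z k j := by
        rw [Finset.sum_comm]
        apply Finset.sum_congr rfl
        intro l _
        rw [Matrix.mul_apply, Finset.mul_sum]
        apply Finset.sum_congr rfl
        intro k _
        ring
      rw [h3, h4]
      ring
    rw [h2] at h1
    exact h1
  refine ⟨fun z => (W z).transpose, ?_⟩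
  intro z hz
  have hcc : c ∈ Metric.ball c r := Metric.mem_ball_self hr
  have h1 : (W z).transpose * Y z = 1 := by
    ext i j
    have h2 : (fun x => ∑ k, W x k i * Y x k j) z = (fun x => ∑ k, W x k i * Y x k j) c := by
      refine IsOpen.is_const_of_deriv_eq_zero (𝕜 := ℂ) (f := fun x => ∑ k, W x k i * Y x k j)
        Metric.isOpen_ball (convex_ball c r).isPreconnected ?_ ?_ hz hcc
      · intro x hx
        exact (hd i j x hx).differentiableAt.differentiableWithinAt
      · intro x hx
        exact (hd i j x hx).deriv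
    have h3 : ((W z).transpose * Y z) i j = ((W c).transpose * Y c) i j := by
      rw [Matrix.mul_apply, Matrix.mul_apply]
      exact h2
    rw [h3, hW0, hY0, Matrix.transpose_one, Matrix.mul_one]
  exact ⟨h1, mul_eq_one_comm.mp h1⟩

theorem ode_repr {ι : Type*} [Fintype ι] [DecidableEq ι] (c : ℂ) (r : ℝ) (hr : 0 < r)
    (A : ℂ → Matrix ι ι ℂ) (hA : ∀ i j, DifferentiableOn ℂ (fun z => A z i j) (Metric.ball c r))
    (Y : ℂ → Matrix ι ι ℂ) (hY0 : Y c = 1)
    (hY : ∀ z ∈ Metric.ball c r, ∀ i j, HasDerivAt (fun x => Y x i j) ((A z * Y z) i j) z)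
    (V : Set ℂ) (hV : IsOpen V) (hVc : IsPreconnected V) (hVr : V ⊆ Metric.ball c r)
    (y : ℂ → ι → ℂ)
    (hy : ∀ z ∈ V, ∀ i, HasDerivAt (fun x => y x i) (∑ j, A z i j * y z j) z) :
    ∃ v : ι → ℂ, ∀ z ∈ V, ∀ i, y z i = ∑ j, Y z i j * v j := by
  rcases Set.eq_empty_or_nonempty V with hVe | ⟨z1, hz1⟩
  · refine ⟨0, ?_⟩
    intro z hz
    rw [hVe] at hz
    exact absurd hz (Set.notMem_empty z)
  · obtain ⟨Z, hZ⟩ := ode_inv c r hr A hA Y hY0 hY
    refine ⟨Matrix.mulVec (Z z1) (y z1), ?_⟩
    set v := Matrix.mulVec (Z z1) (y z1) with hv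
    have hu : ∀ z ∈ V, ∀ i, HasDerivAt (fun x => y x i - ∑ j, Y x i j * v j)
        (∑ k, A z i k * (y z k - ∑ j, Y z k j * v j)) z := by
      intro z hz i
      have h1 : HasDerivAt (fun x => ∑ j, Y x i j * v j) (∑ j, (A z * Y z) i j * v j) z := by
        apply HasDerivAt.fun_sum
        intro j _
        exact (hY z (hVr hz) i j).mul_const (v j)
      have h2 := (hy z hz i).fun_sub h1
      have h3 : ∑ k, A z i k * (y z k - ∑ j, Y z k j * v j) =
          ∑ j, A z i j * y z j - ∑ j, (A z * Y z) i j * v j := by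
        simp only [mul_sub, Finset.sum_sub_distrib]
        congr 1
        simp only [Matrix.mul_apply, Finset.mul_sum, Finset.sum_mul]
        rw [Finset.sum_comm]
        apply Finset.sum_congr rfl
        intro j _
        apply Finset.sum_congr rfl
        intro k _
        ring
      rw [h3]
      exact h2
    have h4 := ode_unique V hV hVc A (fun i j => (hA i j).mono hVr)
      (fun x i => y x i - ∑ j, Y x i j * v j) hu z1 hz1 (by
        have h5 : Matrix.mulVec (Y z1) v = y z1 := by
          rw [hv, Matrix.mulVec_mulVec, (hZ z1 (hVr hz1)).2, Matrix.one_mulVec]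
        funext i
        have h6 := congrFun h5 i
        change y z1 i - Matrix.mulVec (Y z1) v i = 0
        rw [h6, sub_self])
    intro z hz i
    have h5 := congrFun (h4 z hz) i
    exact sub_eq_zero.mp h5

end FacC
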