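import Pool.Agent.Lib.FacC.Defs

/-!
TAYLOR COEFFICIENTS of a fundamental matrix (only Mathlib).

On an open set U where D(z) != 0:  if Y' = (B/D) Y then the m-th derivative of Y is D^(-m) G_m Y.
PROOF. Induction on m for all z in U (open): `iteratedDeriv_succ`, the function
x |-> iteratedDeriv m (Y_ij) x agrees near z with x |-> sum_k D(x)^(-m) (G_m)_ik(x) Y_kj(x)
(`Filter.EventuallyEq.deriv_eq`), whose derivative at z is (product rule)
sum_k [ -m D' D^(-m-1) (G_m)_ik + D^(-m) (G_m)_ik' ] Y_kj + sum_k D^(-m) (G_m)_ik D^(-1) (B Y)_kj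
= D^(-m-1) ( (th D m applied to G_m + G_m B) Y )_ij.
-/

open Polynomial Filter Topology

namespace FacC

theorem tay {ι : Type*} [Fintype ι] [DecidableEq ι] (D : ℂ[X]) (B : Matrix ι ι ℂ[X])
    (U : Set ℂ) (hU : IsOpen U) (hD : ∀ z ∈ U, D.eval z ≠ 0) (Y : ℂ → Matrix ι ι ℂ)
    (hY : ∀ z ∈ U, ∀ i j,
      HasDerivAt (fun x => Y x i j) ((((D.eval z)⁻¹ • B.map (eval z)) * Y z) i j) z)
    (m : ℕ) : ∀ z ∈ U, ∀ i j, iteratedDeriv m (fun x => Y x i j) z
      = ((((D.eval z) ^ m)⁻¹ • (Gm D B m).map (eval z)) * Y z) i j := by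
  induction m with
  | zero =>
    intro z hz i j
    have h1 : (Gm D B 0).map (eval z) = (1 : Matrix ι ι ℂ) := by
      change (1 : Matrix ι ι ℂ[X]).map (eval z) = 1
      exact Matrix.map_one _ (by simp) (by simp)
    rw [h1]
    simp
  | succ m ih =>
    intro z hz i j
    rw [iteratedDeriv_succ]
    have hev : iteratedDeriv m (fun x => Y x i j) =ᶠ[𝓝 z]
        fun x => ∑ k, ((D.eval x) ^ m)⁻¹ * (Gm D B m i k).eval x * Y x k j := by
      filter_upwards [hU.mem_nhds hz] with x hx
      rw [ih x hx i j]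
      simp [Matrix.mul_apply, Matrix.smul_apply, Matrix.map_apply]
    rw [hev.deriv_eq]
    have hDz := hD z hz
    have hinv : HasDerivAt (fun x => ((D.eval x) ^ m)⁻¹)
        (-((m : ℂ) * (derivative D).eval z) * ((D.eval z) ^ (m + 1))⁻¹) z := by
      have h1 : HasDerivAt (fun x => (D.eval x) ^ m)
          ((m : ℂ) * (D.eval z) ^ (m - 1) * (derivative D).eval z) z :=
        (D.hasDerivAt z).pow m
      have h2 := h1.inv (pow_ne_zero m hDz)
      have h3 : HasDerivAt (fun x => ((D.eval x) ^ m)⁻¹)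
          (-(↑m * eval z D ^ (m - 1) * eval z (derivative D)) / (eval z D ^ m) ^ 2) z := h2
      have h4 : -((m : ℂ) * (derivative D).eval z) * ((D.eval z) ^ (m + 1))⁻¹
          = -(↑m * eval z D ^ (m - 1) * eval z (derivative D)) / (eval z D ^ m) ^ 2 := ?_
      · rw [h4]; exact h3
      rcases Nat.eq_zero_or_pos m with h0 | h0
      · subst h0; simp
      · obtain ⟨k, rfl⟩ := Nat.exists_eq_succ_of_ne_zero h0.ne'
        simp only [Nat.succ_eq_add_one, Nat.add_sub_cancel]
        field_simp
        ring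
    have hd : HasDerivAt
        (fun x => ∑ k, ((D.eval x) ^ m)⁻¹ * (Gm D B m i k).eval x * Y x k j)
        (∑ k, (((-((m : ℂ) * (derivative D).eval z) * ((D.eval z) ^ (m + 1))⁻¹)
              * (Gm D B m i k).eval z
            + ((D.eval z) ^ m)⁻¹ * (derivative (Gm D B m i k)).eval z) * Y z k j
          + ((D.eval z) ^ m)⁻¹ * (Gm D B m i k).eval z
            * ((((D.eval z)⁻¹ • B.map (eval z)) * Y z) k j))) z := by
      apply HasDerivAt.fun_sum
      intro k _
      exact (hinv.mul ((Gm D B m i k).hasDerivAt z)).mul (hY z hz k j)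
    rw [hd.deriv]
    have hG : ∀ k, (Gm D B (m + 1) i k).eval z
        = D.eval z * (derivative (Gm D B m i k)).eval z
          - (m : ℂ) * (derivative D).eval z * (Gm D B m i k).eval z
          + ∑ l, (Gm D B m i l).eval z * (B l k).eval z := by
      intro k
      change (((Gm D B m).map (th D m) + Gm D B m * B) i k).eval z = _
      rw [Matrix.add_apply, Matrix.map_apply, Matrix.mul_apply, eval_add, eval_finsetSum]
      simp only [th, eval_sub, eval_mul, eval_natCast]
    rw [Matrix.mul_apply]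
    simp only [Matrix.smul_apply, Matrix.map_apply, smul_eq_mul, hG]
    simp only [Matrix.mul_apply, Matrix.smul_apply, Matrix.map_apply, smul_eq_mul]
    have hsw : ∑ k, ((D.eval z) ^ m)⁻¹ * (Gm D B m i k).eval z
          * ∑ l, (D.eval z)⁻¹ * (B k l).eval z * Y z l j
        = ∑ k, ((D.eval z) ^ (m + 1))⁻¹ * (∑ l, (Gm D B m i l).eval z * (B l k).eval z)
            * Y z k j := by
      simp only [Finset.mul_sum, Finset.sum_mul]
      rw [Finset.sum_comm]
      refine Finset.sum_congr rfl fun k _ => Finset.sum_congr rfl fun l _ => ?_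
      rw [pow_succ, mul_inv]
      ring
    rw [Finset.sum_add_distrib, hsw, ← Finset.sum_add_distrib]
    refine Finset.sum_congr rfl fun k _ => ?_
    have hp : ((D.eval z) ^ m)⁻¹ = ((D.eval z) ^ (m + 1))⁻¹ * D.eval z := by
      rw [pow_succ]
      field_simp
    rw [hp]
    ring

end FacC
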