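import Pool.Agent.Lib.FacC.Crit
import Pool.Agent.Lib.FacC.OdeU
import Pool.Agent.Lib.FacC.Tay
import Pool.Agent.Lib.FacC.AlgF
import Pool.Agent.Lib.FacC.GMap

/-!
THE FUNDAMENTAL MATRIX AT 0 IS ALGEBRAIC (assembly).
Δ in ℤ[X] (here `E`), base point 0, uniformising meromorphic map φ = g/h of the disc, h(0) = 1; the
hypothesis on φ is only that the pulled back connection matrix φ' A(φ) extends holomorphically (A1).
-/

open Polynomial Filter Topology

namespace FacC

theorem loc {ι : Type*} [Fintype ι] [DecidableEq ι] (E : ℤ[X]) (hE0 : E.eval 0 ≠ 0)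
    (B : Matrix ι ι ℤ[X])
    (D : ℕ → ℕ) (hD1 : ∀ m, 0 < D m) (hDm : ∀ a b, D a * D b ∣ D (a + b)) (κ : ℝ) (hκ : 0 ≤ κ)
    (hDk : ∀ m, (D m : ℝ) ≤ Real.exp (κ * m)) (c : ℕ) (hc : c ≠ 0)
    (hfac : ∀ m i j, ((m.factorial : ℕ) : ℤ[X]) * C ((E.eval 0) ^ m) ∣
      (D m : ℤ[X]) * ((c : ℤ[X]) * Gm E B m i j))
    (A : ℂ → Matrix ι ι ℂ)
    (hA : ∀ z, A z = ((toC E).eval z)⁻¹ • (B.map (Polynomial.map (Int.castRingHom ℂ))).map (eval z))
    (g h : ℂ → ℂ) (hg : DifferentiableOn ℂ g (Metric.ball 0 1))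
    (hh : DifferentiableOn ℂ h (Metric.ball 0 1)) (hg0 : g 0 = 0) (hh0 : h 0 = 1)
    (hg1 : Real.exp κ < ‖deriv g 0‖)
    (A1 : ℂ → Matrix ι ι ℂ) (hA1d : ∀ i j, DifferentiableOn ℂ (fun w => A1 w i j) (Metric.ball 0 1))
    (hA1e : ∀ᶠ w in 𝓝 (0 : ℂ), A1 w = deriv (fun x => g x / h x) w • A (g w / h w))
    (r : ℝ) (hr : 0 < r) (hEr : ∀ z ∈ Metric.ball (0 : ℂ) r, (toC E).eval z ≠ 0)
    (Y : ℂ → Matrix ι ι ℂ) (hY0 : Y 0 = 1)
    (hY : ∀ z ∈ Metric.ball (0 : ℂ) r, ∀ i j, HasDerivAt (fun x => Y x i j) ((A z * Y z) i j) z)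
    (i j : ι) :
    AlgOn (Metric.ball (0 : ℂ) r) (fun z => Y z i j) := by
  obtain ⟨ρ, hρ⟩ : ∃ ρ : ℂ, ρ ^ 2 - ρ + 1 = 0 := by
    refine ⟨⟨1 / 2, Real.sqrt 3 / 2⟩, ?_⟩
    have h3 : Real.sqrt 3 * Real.sqrt 3 = 3 := Real.mul_self_sqrt (by norm_num)
    apply Complex.ext
    · simp [pow_two]
      nlinarith
    · simp [pow_two]
      ring
  set BC : Matrix ι ι ℂ[X] := B.map (Polynomial.map (Int.castRingHom ℂ)) with hBC
  have h0r : (0 : ℂ) ∈ Metric.ball (0 : ℂ) r := Metric.mem_ball_self hr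
  have h0mem : (0 : ℂ) ∈ Metric.ball (0 : ℂ) 1 := Metric.mem_ball_self one_pos
  -- holomorphy of the entry
  have hYd : ∀ i j, DifferentiableOn ℂ (fun x => Y x i j) (Metric.ball 0 r) :=
    fun i j z hz => (hY z hz i j).differentiableAt.differentiableWithinAt
  -- the power series (multiplied by c)
  set f : PowerSeries ℂ := PowerSeries.mk fun m =>
    (c : ℂ) * (((m.factorial : ℕ) : ℂ)⁻¹ * iteratedDeriv m (fun x => Y x i j) 0) with hf
  have hfsum : ∀ z ∈ Metric.ball (0 : ℂ) r,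
      HasSum (fun m : ℕ => PowerSeries.coeff m f * z ^ m) ((c : ℂ) * Y z i j) := by
    intro z hz
    have h := (Complex.hasSum_taylorSeries_on_ball (hYd i j) hz).mul_left (c : ℂ)
    have hh : (fun m : ℕ => PowerSeries.coeff m f * z ^ m) = fun m : ℕ =>
        (c : ℂ) * (((m.factorial : ℕ) : ℂ)⁻¹ • (z - 0) ^ m •
          iteratedDeriv m (fun x => Y x i j) 0) := by
      funext m
      rw [hf, PowerSeries.coeff_mk]
      simp only [smul_eq_mul, sub_zero]
      ring
    rw [hh]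
    exact h
  -- the bound
  obtain ⟨C0, hC0⟩ : ∃ C0 : ℝ, ∀ z ∈ Metric.closedBall (0 : ℂ) (r / 2), ‖Y z i j‖ ≤ C0 := by
    refine (isCompact_closedBall (0 : ℂ) (r / 2)).exists_bound_of_continuousOn ?_
    exact (hYd i j).continuousOn.mono (Metric.closedBall_subset_ball (by linarith))
  set b : ℝ := max 1 (2 / r) with hb
  have hb1 : 1 ≤ b := le_max_left _ _
  have hfb : ∀ m, ‖PowerSeries.coeff m f‖ ≤ max 1 ((c : ℝ) * C0) * b ^ m := by
    intro m
    have h1 : DiffContOnCl ℂ (fun x => Y x i j) (Metric.ball (0 : ℂ) (r / 2)) := by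
      refine DifferentiableOn.diffContOnCl ?_
      refine (hYd i j).mono ?_
      refine (Metric.closure_ball_subset_closedBall).trans
        (Metric.closedBall_subset_ball (by linarith))
    have h2 := Complex.norm_iteratedDeriv_le_of_forall_mem_sphere_norm_le m
      (by linarith : (0 : ℝ) < r / 2) h1
      (fun z hz => hC0 z (Metric.sphere_subset_closedBall hz))
    rw [hf, PowerSeries.coeff_mk, norm_mul, norm_mul, norm_inv, Complex.norm_natCast,
      Complex.norm_natCast]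
    have h3 : (0 : ℝ) < (m.factorial : ℕ) := by exact_mod_cast Nat.factorial_pos m
    have h4 : (c : ℝ) * (((m.factorial : ℕ) : ℝ)⁻¹ * ‖iteratedDeriv m (fun x => Y x i j) 0‖)
        ≤ (c : ℝ) * (((m.factorial : ℕ) : ℝ)⁻¹ * ((m.factorial : ℕ) * C0 / (r / 2) ^ m)) := by
      gcongr
    refine h4.trans ?_
    have h5 : (c : ℝ) * (((m.factorial : ℕ) : ℝ)⁻¹ * ((m.factorial : ℕ) * C0 / (r / 2) ^ m))
        = ((c : ℝ) * C0) * (2 / r) ^ m := by
      have h6 : (2 / r) ^ m = ((r / 2) ^ m)⁻¹ := by rw [← inv_pow, inv_div]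
      rw [h6]
      field_simp
    rw [h5]
    have hC00 : 0 ≤ C0 := le_trans (norm_nonneg _) (hC0 0 (Metric.mem_closedBall_self (by linarith)))
    have h7 : (2 / r) ^ m ≤ b ^ m := pow_le_pow_left₀ (by positivity) (le_max_right _ _) m
    exact mul_le_mul (le_max_right _ _) h7 (by positivity) (by positivity)
  -- the coefficients in terms of G_m
  have hE0' : (toC E).eval 0 = ((E.eval 0 : ℤ) : ℂ) := by
    unfold toC
    rw [eval_map, eval₂_at_zero, ← coeff_zero_eq_eval_zero]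
    simp
  have hE0ne : ((E.eval 0 : ℤ) : ℂ) ≠ 0 := by exact_mod_cast hE0
  have hcoef : ∀ m, PowerSeries.coeff m f = (c : ℂ) * (((m.factorial : ℕ) : ℂ)⁻¹ *
      (((toC E).eval 0 ^ m)⁻¹ * (Gm (toC E) BC m i j).eval 0)) := by
    intro m
    rw [hf, PowerSeries.coeff_mk]
    have hY' : ∀ z ∈ Metric.ball (0 : ℂ) r, ∀ i j, HasDerivAt (fun x => Y x i j)
        (((((toC E).eval z)⁻¹ • BC.map (eval z)) * Y z) i j) z := by
      intro z hz i j
      rw [← hA z]
      exact hY z hz i j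
    have h := tay (toC E) BC (Metric.ball 0 r) Metric.isOpen_ball hEr Y hY' m 0 h0r i j
    rw [h, hY0, mul_one]
    simp [Matrix.smul_apply]
  have hint : ∀ m, InZ ρ ((D m : ℂ) * PowerSeries.coeff m f) := by
    intro m
    obtain ⟨Q, hQ⟩ := hfac m i j
    have hG : Gm (toC E) BC m i j = (Gm E B m i j).map (Int.castRingHom ℂ) := by
      have h := Gm_map (Int.castRingHom ℂ) E B m
      have h2 := congrFun (congrFun h i) j
      rw [Matrix.map_apply] at h2
      rw [hBC]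
      exact h2.symm
    have hE : (D m : ℂ) * ((c : ℂ) * ((Gm E B m i j).map (Int.castRingHom ℂ)).eval 0)
        = ((m.factorial : ℕ) : ℂ) * ((E.eval 0 : ℤ) : ℂ) ^ m *
          (Q.map (Int.castRingHom ℂ)).eval 0 := by
      have h := congrArg (fun P : ℤ[X] => (P.map (Int.castRingHom ℂ)).eval 0) hQ
      simpa using h
    have h3 : ((m.factorial : ℕ) : ℂ) ≠ 0 := by exact_mod_cast (Nat.factorial_pos m).ne'
    have hval : (D m : ℂ) * PowerSeries.coeff m f = (Q.map (Int.castRingHom ℂ)).eval 0 := by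
      rw [hcoef m, hG, hE0']
      have h4 : (((E.eval 0 : ℤ) : ℂ) ^ m) ≠ 0 := pow_ne_zero _ hE0ne
      calc (D m : ℂ) * ((c : ℂ) * (((m.factorial : ℕ) : ℂ)⁻¹ *
            ((((E.eval 0 : ℤ) : ℂ) ^ m)⁻¹ * ((Gm E B m i j).map (Int.castRingHom ℂ)).eval 0)))
          = ((m.factorial : ℕ) : ℂ)⁻¹ * (((E.eval 0 : ℤ) : ℂ) ^ m)⁻¹ * ((D m : ℂ) *
            ((c : ℂ) * ((Gm E B m i j).map (Int.castRingHom ℂ)).eval 0)) := by ring
        _ = _ := by rw [hE]; field_simp
    rw [hval]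
    have h5 : (Q.map (Int.castRingHom ℂ)).eval 0 = ((Q.eval 0 : ℤ) : ℂ) := by
      rw [eval_map, eval₂_at_zero, ← coeff_zero_eq_eval_zero]
      simp
    rw [h5]
    exact inZ_int _
  -- the ODE on the disc
  obtain ⟨W, hW0, hW⟩ := ode_exists (0 : ℂ) 1 one_pos A1 hA1d
  set φ : ℂ → ℂ := fun x => g x / h x with hφ
  have hgda : DifferentiableAt ℂ g 0 := hg.differentiableAt (Metric.isOpen_ball.mem_nhds h0mem)
  have hhda : DifferentiableAt ℂ h 0 := hh.differentiableAt (Metric.isOpen_ball.mem_nhds h0mem)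
  have hhne : ∀ᶠ w in 𝓝 (0 : ℂ), h w ≠ 0 := by
    have := hhda.continuousAt.eventually_ne (y := (0 : ℂ)) (by rw [hh0]; exact one_ne_zero)
    exact this
  have hφc : ContinuousAt φ 0 := hgda.continuousAt.div hhda.continuousAt (by rw [hh0]; simp)
  have hφ0 : φ 0 = 0 := by simp [hφ, hg0]
  have hnear : ∀ᶠ w in 𝓝 (0 : ℂ), φ w ∈ Metric.ball (0 : ℂ) r := by
    refine hφc.eventually (Metric.isOpen_ball.mem_nhds ?_)
    rw [hφ0]; exact h0r
  obtain ⟨ε, hε, hεb⟩ := Metric.eventually_nhds_iff_ball.mp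
    (((hnear.and hhne).and hA1e).and
      (Metric.isOpen_ball.mem_nhds h0mem : ∀ᶠ w in 𝓝 (0 : ℂ), w ∈ Metric.ball (0:ℂ) 1))
  have hεsub : Metric.ball (0 : ℂ) ε ⊆ Metric.ball 0 1 := fun w hw => (hεb w hw).2
  have heq : ∀ w ∈ Metric.ball (0 : ℂ) ε, ∀ a, Y (φ w) a j = W w a j := by
    have hu := ode_unique (Metric.ball (0 : ℂ) ε) Metric.isOpen_ball
      (convex_ball (0 : ℂ) ε).isPreconnected A1 (fun i j => (hA1d i j).mono hεsub)
      (fun w a => Y (φ w) a j - W w a j) (by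
        intro w hw a
        have h1 : HasDerivAt (fun x => Y (φ x) a j) ((A (φ w) * Y (φ w)) a j * deriv φ w) w := by
          have h2 := hY (φ w) (hεb w hw).1.1.1 a j
          have h3 : HasDerivAt φ (deriv φ w) w := by
            have hgw : DifferentiableAt ℂ g w :=
              hg.differentiableAt (Metric.isOpen_ball.mem_nhds (hεsub hw))
            have hhw : DifferentiableAt ℂ h w :=
              hh.differentiableAt (Metric.isOpen_ball.mem_nhds (hεsub hw))
            exact (hgw.div hhw (hεb w hw).1.1.2).hasDerivAt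
          exact h2.comp w h3
        have h4 := hW w (hεsub hw) a j
        have h5 := h1.fun_sub h4
        have h6 : ∑ b, A1 w a b * (Y (φ w) b j - W w b j)
            = (A (φ w) * Y (φ w)) a j * deriv φ w - (A1 w * W w) a j := by
          rw [(hεb w hw).1.2]
          simp only [Matrix.mul_apply, Matrix.smul_apply, smul_eq_mul, Finset.sum_mul]
          rw [← Finset.sum_sub_distrib]
          refine Finset.sum_congr rfl fun b _ => ?_
          ring
        rw [h6]
        exact h5) 0 (Metric.mem_ball_self hε) (by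
        funext a
        simp only [Pi.zero_apply]
        rw [hφ0, hY0, hW0, sub_self])
    intro w hw a
    have := congrFun (hu w hw) a
    exact sub_eq_zero.mp this
  have hloc : ∀ᶠ w in 𝓝 (0 : ℂ),
      HasSum (fun m : ℕ => PowerSeries.coeff m f * (g w / h w) ^ m) ((c : ℂ) * W w i j) := by
    filter_upwards [Metric.ball_mem_nhds (0 : ℂ) hε] with w hw
    rw [← heq w hw i]
    exact hfsum (φ w) (hεb w hw).1.1.1
  -- the criterion
  obtain ⟨L, d, p, hp, haux⟩ := crit hρ f D hD1 hDm κ hκ hDk hint (max 1 ((c : ℝ) * C0)) b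
    (le_max_left _ _) hb1 hfb g h (fun w => (c : ℂ) * W w i j) hg hh
    (fun w hw => ((hW w hw i j).differentiableAt.const_mul _).differentiableWithinAt) hg0 hh0 hg1
    hloc
  -- conclusion
  have hbpos : 0 < b := lt_of_lt_of_le one_pos hb1
  set r1 : ℝ := min r (1 / (2 * b)) with hr1
  have hr1pos : 0 < r1 := lt_min hr (by positivity)
  have hsmall : AlgOn (Metric.ball (0 : ℂ) r1) (fun z => (c : ℂ) * Y z i j) := by
    refine algOn_series p hp _ 0 _ ?_
    intro z hz
    have hz1 : z ∈ Metric.ball (0 : ℂ) r := Metric.ball_subset_ball (min_le_left _ _) hz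
    have h := ev_aux p f (max 1 ((c : ℝ) * C0)) b (le_max_left _ _) hb1 hfb z ((c : ℂ) * Y z i j)
      (by
        rw [mem_ball_iff_norm, sub_zero] at hz
        exact lt_of_lt_of_le hz (min_le_right _ _)) (hfsum z hz1)
    rw [haux] at h
    simp only [map_zero, zero_mul] at h
    have h2 := h.unique hasSum_zero
    simpa using h2
  have hsmall2 : AlgOn (Metric.ball (0 : ℂ) r1) (fun z => Y z i j) := by
    have h := algOn_sum (Metric.ball (0 : ℂ) r1) {()} (fun _ z => (c : ℂ) * Y z i j)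
      (fun _ => ((c : ℂ))⁻¹) (fun _ _ => hsmall)
    refine algOn_mono (le_refl _) h fun z _ => ?_
    have hc' : (c : ℂ) ≠ 0 := by exact_mod_cast hc
    simp only [Finset.sum_singleton]
    field_simp
  exact algOn_extend Metric.isOpen_ball (convex_ball (0 : ℂ) r).isPreconnected Metric.isOpen_ball
    ⟨0, Metric.mem_ball_self hr1pos⟩ (Metric.ball_subset_ball (min_le_left _ _)) _
    (hYd i j) hsmall2

end FacC
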