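import Pool.Agent.Lib.FacC.CritK
import Pool.Agent.Lib.FacC.OdeU
import Pool.Agent.Lib.FacC.Tay
import Pool.Agent.Lib.FacC.AlgF
import Pool.Agent.Lib.FacC.GMap

/-!
THE FUNDAMENTAL MATRIX AT AN ALGEBRAIC POINT IS ALGEBRAIC (assembly; compare Loc.lean).
K a number field, a an algebraic integer of K with E(a) a unit, base points σ(a) for all
embeddings σ, holomorphic maps w ↦ σ(a) + g_σ(w) of the disc, g_σ(0) = 0.
-/

open Polynomial Filter Topology NumberField

namespace FacC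

theorem locK {K : Type*} [Field K] [NumberField K] (a v : 𝓞 K)
    {ι : Type*} [Fintype ι] [DecidableEq ι] (E : ℤ[X])
    (hE0 : ∀ σ : K →+* ℂ, (toC E).eval (σ (a : K)) * σ (v : K) = 1) (B : Matrix ι ι ℤ[X])
    (D : ℕ → ℕ) (hD1 : ∀ m, 0 < D m) (hDm : ∀ a b, D a * D b ∣ D (a + b)) (κ : ℝ) (hκ : 0 ≤ κ)
    (hDk : ∀ m, (D m : ℝ) ≤ Real.exp (κ * m)) (c : ℕ) (hc : c ≠ 0)
    (hfac : ∀ m i j, ((m.factorial : ℕ) : ℤ[X]) ∣
      (D m : ℤ[X]) * ((c : ℤ[X]) * Gm E B m i j))
    (A : ℂ → Matrix ι ι ℂ)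
    (hA : ∀ z, A z = ((toC E).eval z)⁻¹ • (B.map (Polynomial.map (Int.castRingHom ℂ))).map (eval z))
    (g : (K →+* ℂ) → ℂ → ℂ) (hg : ∀ σ, DifferentiableOn ℂ (g σ) (Metric.ball 0 1))
    (hg0 : ∀ σ, g σ 0 = 0) (M : ℝ) (hM : Real.exp κ < M) (hg1 : ∀ σ, M ≤ ‖deriv (g σ) 0‖)
    (A1 : (K →+* ℂ) → ℂ → Matrix ι ι ℂ)
    (hA1d : ∀ σ i j, DifferentiableOn ℂ (fun w => A1 σ w i j) (Metric.ball 0 1))
    (hA1e : ∀ σ, ∀ᶠ w in 𝓝 (0 : ℂ), A1 σ w = deriv (g σ) w • A (σ (a : K) + g σ w))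
    (r : (K →+* ℂ) → ℝ) (hr : ∀ σ, 0 < r σ)
    (hEr : ∀ σ, ∀ z ∈ Metric.ball (σ (a : K)) (r σ), (toC E).eval z ≠ 0)
    (Y : (K →+* ℂ) → ℂ → Matrix ι ι ℂ) (hY0 : ∀ σ, Y σ (σ (a : K)) = 1)
    (hY : ∀ σ, ∀ z ∈ Metric.ball (σ (a : K)) (r σ), ∀ i j,
      HasDerivAt (fun x => Y σ x i j) ((A z * Y σ z) i j) z)
    (i j : ι) (σ : K →+* ℂ) :
    AlgOn (Metric.ball (σ (a : K)) (r σ)) (fun z => Y σ z i j) := by
  classical
  set BC : Matrix ι ι ℂ[X] := B.map (Polynomial.map (Int.castRingHom ℂ)) with hBC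
  have h0r : ∀ σ : K →+* ℂ, σ (a : K) ∈ Metric.ball (σ (a : K)) (r σ) :=
    fun σ => Metric.mem_ball_self (hr σ)
  have h0mem : (0 : ℂ) ∈ Metric.ball (0 : ℂ) 1 := Metric.mem_ball_self one_pos
  -- holomorphy of the entry
  have hYd : ∀ σ i j, DifferentiableOn ℂ (fun x => Y σ x i j) (Metric.ball (σ (a : K)) (r σ)) :=
    fun σ i j z hz => (hY σ z hz i j).differentiableAt.differentiableWithinAt
  -- the power series (multiplied by c)
  set f : (K →+* ℂ) → PowerSeries ℂ := fun σ => PowerSeries.mk fun m =>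
    (c : ℂ) * (((m.factorial : ℕ) : ℂ)⁻¹ * iteratedDeriv m (fun x => Y σ x i j) (σ (a : K))) with hf
  have hfsum : ∀ σ, ∀ z ∈ Metric.ball (σ (a : K)) (r σ),
      HasSum (fun m : ℕ => PowerSeries.coeff m (f σ) * (z - σ (a : K)) ^ m)
        ((c : ℂ) * Y σ z i j) := by
    intro σ z hz
    have h := (Complex.hasSum_taylorSeries_on_ball (hYd σ i j) hz).mul_left (c : ℂ)
    have hh : (fun m : ℕ => PowerSeries.coeff m (f σ) * (z - σ (a : K)) ^ m) = fun m : ℕ =>
        (c : ℂ) * (((m.factorial : ℕ) : ℂ)⁻¹ • (z - σ (a : K)) ^ m •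
          iteratedDeriv m (fun x => Y σ x i j) (σ (a : K))) := by
      funext m
      rw [hf, PowerSeries.coeff_mk]
      simp only [smul_eq_mul]
      ring
    rw [hh]
    exact h
  -- the bound, for one embedding
  have hbd1 : ∀ σ : K →+* ℂ, ∃ C0 b0 : ℝ, 1 ≤ C0 ∧ 1 ≤ b0 ∧
      ∀ m, ‖PowerSeries.coeff m (f σ)‖ ≤ C0 * b0 ^ m := by
    intro σ
    obtain ⟨C0, hC0⟩ : ∃ C0 : ℝ, ∀ z ∈ Metric.closedBall (σ (a : K)) (r σ / 2),
        ‖Y σ z i j‖ ≤ C0 := by
      refine (isCompact_closedBall (σ (a : K)) (r σ / 2)).exists_bound_of_continuousOn ?_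
      exact (hYd σ i j).continuousOn.mono (Metric.closedBall_subset_ball (by linarith [hr σ]))
    set b : ℝ := max 1 (2 / r σ) with hb
    have hrs := hr σ
    refine ⟨max 1 ((c : ℝ) * C0), b, le_max_left _ _, le_max_left _ _, ?_⟩
    intro m
    have h1 : DiffContOnCl ℂ (fun x => Y σ x i j) (Metric.ball (σ (a : K)) (r σ / 2)) := by
      refine DifferentiableOn.diffContOnCl ?_
      refine (hYd σ i j).mono ?_
      refine (Metric.closure_ball_subset_closedBall).trans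
        (Metric.closedBall_subset_ball (by linarith))
    have h2 := Complex.norm_iteratedDeriv_le_of_forall_mem_sphere_norm_le m
      (by linarith : (0 : ℝ) < r σ / 2) h1
      (fun z hz => hC0 z (Metric.sphere_subset_closedBall hz))
    rw [hf, PowerSeries.coeff_mk, norm_mul, norm_mul, norm_inv, Complex.norm_natCast,
      Complex.norm_natCast]
    have h3 : (0 : ℝ) < (m.factorial : ℕ) := by exact_mod_cast Nat.factorial_pos m
    have h4 : (c : ℝ) * (((m.factorial : ℕ) : ℝ)⁻¹ *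
          ‖iteratedDeriv m (fun x => Y σ x i j) (σ (a : K))‖)
        ≤ (c : ℝ) * (((m.factorial : ℕ) : ℝ)⁻¹ * ((m.factorial : ℕ) * C0 / (r σ / 2) ^ m)) := by
      gcongr
    refine h4.trans ?_
    have h5 : (c : ℝ) * (((m.factorial : ℕ) : ℝ)⁻¹ * ((m.factorial : ℕ) * C0 / (r σ / 2) ^ m))
        = ((c : ℝ) * C0) * (2 / r σ) ^ m := by
      have h6 : (2 / r σ) ^ m = ((r σ / 2) ^ m)⁻¹ := by rw [← inv_pow, inv_div]
      rw [h6]
      field_simp
    rw [h5]
    have hC00 : 0 ≤ C0 := le_trans (norm_nonneg _)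
      (hC0 (σ (a : K)) (Metric.mem_closedBall_self (by linarith)))
    have h7 : (2 / r σ) ^ m ≤ b ^ m := pow_le_pow_left₀ (by positivity) (le_max_right _ _) m
    exact mul_le_mul (le_max_right _ _) h7 (by positivity) (by positivity)
  choose C0 b0 hC01 hb01 hbd0 using hbd1
  obtain ⟨C, b, hC, hb1, hfb⟩ : ∃ C b : ℝ, 1 ≤ C ∧ 1 ≤ b ∧
      ∀ σ m, ‖PowerSeries.coeff m (f σ)‖ ≤ C * b ^ m := by
    refine ⟨1 + ∑ σ : K →+* ℂ, C0 σ, 1 + ∑ σ : K →+* ℂ, b0 σ, ?_, ?_, ?_⟩
    · have : 0 ≤ ∑ σ : K →+* ℂ, C0 σ := Finset.sum_nonneg fun σ _ => by linarith [hC01 σ]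
      linarith
    · have : 0 ≤ ∑ σ : K →+* ℂ, b0 σ := Finset.sum_nonneg fun σ _ => by linarith [hb01 σ]
      linarith
    · intro σ m
      have h1 := Finset.single_le_sum (f := fun σ : K →+* ℂ => C0 σ)
        (fun σ _ => by linarith [hC01 σ]) (Finset.mem_univ σ)
      have h2 := Finset.single_le_sum (f := fun σ : K →+* ℂ => b0 σ)
        (fun σ _ => by linarith [hb01 σ]) (Finset.mem_univ σ)
      have h3 := hC01 σ
      have h4 := hb01 σ
      refine (hbd0 σ m).trans ?_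
      have h5 : b0 σ ^ m ≤ (1 + ∑ σ : K →+* ℂ, b0 σ) ^ m :=
        pow_le_pow_left₀ (by linarith) (by linarith) m
      exact mul_le_mul (by linarith) h5 (pow_nonneg (by linarith) m) (by linarith)
  -- the coefficients in terms of G_m
  have hcoef : ∀ σ m, PowerSeries.coeff m (f σ) = (c : ℂ) * (((m.factorial : ℕ) : ℂ)⁻¹ *
      (σ (v : K) ^ m * (Gm (toC E) BC m i j).eval (σ (a : K)))) := by
    intro σ m
    rw [hf, PowerSeries.coeff_mk]
    have hY' : ∀ z ∈ Metric.ball (σ (a : K)) (r σ), ∀ i j, HasDerivAt (fun x => Y σ x i j)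
        (((((toC E).eval z)⁻¹ • BC.map (eval z)) * Y σ z) i j) z := by
      intro z hz i j
      rw [← hA z]
      exact hY σ z hz i j
    have h := tay (toC E) BC (Metric.ball (σ (a : K)) (r σ)) Metric.isOpen_ball (hEr σ) (Y σ) hY'
      m (σ (a : K)) (h0r σ) i j
    have hui : (((toC E).eval (σ (a : K))) ^ m)⁻¹ = σ (v : K) ^ m := by
      refine inv_eq_of_mul_eq_one_right ?_
      rw [← mul_pow, hE0 σ, one_pow]
    rw [h, hY0, mul_one]
    simp only [Matrix.smul_apply, Matrix.map_apply, smul_eq_mul]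
    rw [hui]
  have hint : ∀ m, IntK fun σ : K →+* ℂ => (D m : ℂ) * PowerSeries.coeff m (f σ) := by
    intro m
    obtain ⟨Q, hQ⟩ := hfac m i j
    have hG : Gm (toC E) BC m i j = (Gm E B m i j).map (Int.castRingHom ℂ) := by
      have h := Gm_map (Int.castRingHom ℂ) E B m
      have h2 := congrFun (congrFun h i) j
      rw [Matrix.map_apply] at h2
      rw [hBC]
      exact h2.symm
    have hE : ∀ x : ℂ, (D m : ℂ) * ((c : ℂ) * ((Gm E B m i j).map (Int.castRingHom ℂ)).eval x)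
        = ((m.factorial : ℕ) : ℂ) * (Q.map (Int.castRingHom ℂ)).eval x := by
      intro x
      have h := congrArg (fun P : ℤ[X] => (P.map (Int.castRingHom ℂ)).eval x) hQ
      simpa using h
    have h3 : ((m.factorial : ℕ) : ℂ) ≠ 0 := by exact_mod_cast (Nat.factorial_pos m).ne'
    have hval : (fun σ : K →+* ℂ => (D m : ℂ) * PowerSeries.coeff m (f σ)) =
        fun σ => σ ((v ^ m : 𝓞 K) : K) * (Q.map (Int.castRingHom ℂ)).eval (σ (a : K)) := by
      funext σ
      rw [hcoef σ m, hG]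
      have h4 : σ ((v ^ m : 𝓞 K) : K) = σ (v : K) ^ m := by simp
      rw [h4]
      calc (D m : ℂ) * ((c : ℂ) * (((m.factorial : ℕ) : ℂ)⁻¹ *
            (σ (v : K) ^ m * ((Gm E B m i j).map (Int.castRingHom ℂ)).eval (σ (a : K)))))
          = ((m.factorial : ℕ) : ℂ)⁻¹ * σ (v : K) ^ m * ((D m : ℂ) *
            ((c : ℂ) * ((Gm E B m i j).map (Int.castRingHom ℂ)).eval (σ (a : K)))) := by ring
        _ = _ := by rw [hE]; field_simp
    rw [hval]
    exact intK_mul ⟨v ^ m, fun σ => rfl⟩ (intK_eval a Q)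
  -- the ODE on the disc
  have hWex := fun σ => ode_exists (0 : ℂ) 1 one_pos (A1 σ) (hA1d σ)
  choose W hW0 hW using hWex
  have hloc : ∀ σ, ∀ᶠ w in 𝓝 (0 : ℂ),
      HasSum (fun m : ℕ => PowerSeries.coeff m (f σ) * (g σ w) ^ m) ((c : ℂ) * W σ w i j) := by
    intro σ
    set φ : ℂ → ℂ := fun x => σ (a : K) + g σ x with hφ
    have hgda : DifferentiableAt ℂ (g σ) 0 :=
      (hg σ).differentiableAt (Metric.isOpen_ball.mem_nhds h0mem)
    have hφc : ContinuousAt φ 0 := continuousAt_const.add hgda.continuousAt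
    have hφ0 : φ 0 = σ (a : K) := by simp [hφ, hg0]
    have hnear : ∀ᶠ w in 𝓝 (0 : ℂ), φ w ∈ Metric.ball (σ (a : K)) (r σ) := by
      refine hφc.eventually (Metric.isOpen_ball.mem_nhds ?_)
      rw [hφ0]; exact h0r σ
    obtain ⟨ε, hε, hεb⟩ := Metric.eventually_nhds_iff_ball.mp
      ((hnear.and (hA1e σ)).and
        (Metric.isOpen_ball.mem_nhds h0mem : ∀ᶠ w in 𝓝 (0 : ℂ), w ∈ Metric.ball (0:ℂ) 1))
    have hεsub : Metric.ball (0 : ℂ) ε ⊆ Metric.ball 0 1 := fun w hw => (hεb w hw).2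
    have heq : ∀ w ∈ Metric.ball (0 : ℂ) ε, ∀ a', Y σ (φ w) a' j = W σ w a' j := by
      have hu := ode_unique (Metric.ball (0 : ℂ) ε) Metric.isOpen_ball
        (convex_ball (0 : ℂ) ε).isPreconnected (A1 σ) (fun i j => (hA1d σ i j).mono hεsub)
        (fun w a' => Y σ (φ w) a' j - W σ w a' j) (by
          intro w hw a'
          have h1 : HasDerivAt (fun x => Y σ (φ x) a' j)
              ((A (φ w) * Y σ (φ w)) a' j * deriv (g σ) w) w := by
            have h2 := hY σ (φ w) (hεb w hw).1.1 a' j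
            have h3 : HasDerivAt φ (deriv (g σ) w) w := by
              have hgw : DifferentiableAt ℂ (g σ) w :=
                (hg σ).differentiableAt (Metric.isOpen_ball.mem_nhds (hεsub hw))
              exact hgw.hasDerivAt.const_add (σ (a : K))
            exact h2.comp w h3
          have h4 := hW σ w (hεsub hw) a' j
          have h5 := h1.fun_sub h4
          have h6 : ∑ b, A1 σ w a' b * (Y σ (φ w) b j - W σ w b j)
              = (A (φ w) * Y σ (φ w)) a' j * deriv (g σ) w - (A1 σ w * W σ w) a' j := by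
            rw [(hεb w hw).1.2]
            simp only [Matrix.mul_apply, Matrix.smul_apply, smul_eq_mul, Finset.sum_mul]
            rw [← Finset.sum_sub_distrib]
            refine Finset.sum_congr rfl fun b _ => ?_
            ring
          rw [h6]
          exact h5) 0 (Metric.mem_ball_self hε) (by
          funext a'
          simp only [Pi.zero_apply]
          rw [hφ0, hY0, hW0, sub_self])
      intro w hw a'
      have := congrFun (hu w hw) a'
      exact sub_eq_zero.mp this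
    filter_upwards [Metric.ball_mem_nhds (0 : ℂ) hε] with w hw
    rw [← heq w hw i]
    have h1 := hfsum σ (φ w) (hεb w hw).1.1
    have h2 : φ w - σ (a : K) = g σ w := by rw [hφ]; simp
    rw [h2] at h1
    exact h1
  -- the criterion
  obtain ⟨L, d, p, hp, haux0⟩ := critK f D hD1 hDm κ hκ hDk hint C b hC hb1 hfb g
    (fun σ w => (c : ℂ) * W σ w i j) hg
    (fun σ w hw => ((hW σ w hw i j).differentiableAt.const_mul _).differentiableWithinAt) hg0 M hM
    hg1 hloc
  have haux := haux0 σ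
  -- conclusion
  have hbpos : 0 < b := lt_of_lt_of_le one_pos hb1
  set r1 : ℝ := min (r σ) (1 / (2 * b)) with hr1
  have hr1pos : 0 < r1 := lt_min (hr σ) (by positivity)
  have hsmall : AlgOn (Metric.ball (σ (a : K)) r1) (fun z => (c : ℂ) * Y σ z i j) := by
    refine algOn_series p hp _ (σ (a : K)) _ ?_
    intro z hz
    have hz1 : z ∈ Metric.ball (σ (a : K)) (r σ) := Metric.ball_subset_ball (min_le_left _ _) hz
    have h := ev_aux p (f σ) C b hC hb1 (hfb σ) (z - σ (a : K))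
      ((c : ℂ) * Y σ z i j)
      (by
        rw [mem_ball_iff_norm] at hz
        exact lt_of_lt_of_le hz (min_le_right _ _)) (hfsum σ z hz1)
    rw [haux] at h
    simp only [map_zero, zero_mul] at h
    exact h.unique hasSum_zero
  have hsmall2 : AlgOn (Metric.ball (σ (a : K)) r1) (fun z => Y σ z i j) := by
    have h := algOn_sum (Metric.ball (σ (a : K)) r1) {()} (fun _ z => (c : ℂ) * Y σ z i j)
      (fun _ => ((c : ℂ))⁻¹) (fun _ _ => hsmall)
    refine algOn_mono (le_refl _) h fun z _ => ?_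
    have hc' : (c : ℂ) ≠ 0 := by exact_mod_cast hc
    simp only [Finset.sum_singleton]
    field_simp
  exact algOn_extend Metric.isOpen_ball (convex_ball (σ (a : K)) (r σ)).isPreconnected
    Metric.isOpen_ball
    ⟨σ (a : K), Metric.mem_ball_self hr1pos⟩ (Metric.ball_subset_ball (min_le_left _ _)) _
    (hYd σ i j) hsmall2

end FacC
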