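import Pool.Agent.Lib.FacC.GMap
import Pool.Agent.Lib.FacC.AlgF

/-!
RESTRICTION OF SCALARS from a subring R of ℂ, finite over ℤ, to ℤ (Mathlib, `algOn_sum`, `algOn_mono`).

R is torsion free and finite over ℤ, hence free: basis b : Basis (Fin d) ℤ R (`Module.finBasis`, or
`Module.Free.chooseBasis` reindexed).
For x in R let M(x)_(s,t) = b.repr (x * b s) t, so  ∑_t M(x)_(s,t) b_t = x b_s  and, R being commutative,
M(xy) = M(x) M(y), M(x+y) = M(x) + M(y), M(n) = n.  (M(x) = (Algebra.leftMulMatrix b x)ᵀ.)
For P in R[X] let ψ_(s,t)(P) = ∑_e M(coeff P e)_(s,t) X^e in ℤ[X]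
(e.g. `∑ e ∈ P.support, monomial e (M (P.coeff e) s t)`, coefficient lemma first:
 coeff (ψ_(s,t) P) e = M(coeff P e)_(s,t) for all e).  Then
 ψ_(s,t)(P+Q) = sum, ψ_(s,t)(PQ) = ∑_u ψ_(s,u)(P) ψ_(u,t)(Q), ψ_(s,t)(P') = ψ_(s,t)(P)',
 ψ_(s,t)(H P) = H ψ_(s,t)(P) for H in ℤ[X] (mapped to R[X]), in particular for E and its derivative and for
 natural constants,  ψ_(s,t)(1) = 1 if s = t, else 0;  natDegree (ψ_(s,t) P) <= natDegree P.
B'_((i,s),(j,t)) = ψ_(s,t)(B_ij).  Induction: (G_m for B')_((i,s),(j,t)) = ψ_(s,t)((G_m for B)_ij).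
This gives the divisibility statement (c G_m = q Q gives c ψ(G_m) = ψ(c G_m) = q ψ(Q)).
Solutions: if E y' = B y on U then ỹ_(i,s)(z) = y_i(z) b_s satisfies
E ỹ' = B' ỹ because ∑_t ψ_(s,t)(P)(z) b_t = P(z) b_s for complex z (coefficientwise, `eval_eq_sum_range`).
By AllAlg for B', y_i b_s is algebraic on U; b_s != 0 (some s exists: R contains 1), multiply by b_s^(-1)
(`algOn_sum` with a one element index set and `algOn_mono`).
-/

open Polynomial

namespace FacC

section ScalAux

variable {R : Type*} [CommRing R] {d : ℕ} (b : Module.Basis (Fin d) ℤ R)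

/-- the matrix of multiplication applied coefficientwise -/
private noncomputable def scalPsi : R[X] →+* Matrix (Fin d) (Fin d) ℤ[X] :=
  (matPolyEquiv.symm : (Matrix (Fin d) (Fin d) ℤ)[X] ≃ₐ[ℤ] _).toRingEquiv.toRingHom.comp
    (Polynomial.mapRingHom (Algebra.leftMulMatrix b).toRingHom)

private lemma scal_coeff (P : R[X]) (s t : Fin d) (k : ℕ) :
    ((scalPsi b P) s t).coeff k = Algebra.leftMulMatrix b (P.coeff k) s t := by
  have h := matPolyEquiv_symm_apply_coeff (R := ℤ)
    (P.map (Algebra.leftMulMatrix b).toRingHom) s t k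
  rw [Polynomial.coeff_map] at h
  exact h

private lemma scal_map (H : ℤ[X]) (P : R[X]) (s t : Fin d) :
    scalPsi b (H.map (Int.castRingHom R) * P) s t = H * scalPsi b P s t := by
  have h1 : scalPsi b (H.map (Int.castRingHom R)) = Matrix.diagonal (fun _ => H) := by
    ext i j k
    rw [scal_coeff, Polynomial.coeff_map]
    have h2 : Algebra.leftMulMatrix b ((Int.castRingHom R) (H.coeff k))
        = Matrix.diagonal (fun _ => H.coeff k) := by
      rw [eq_intCast, map_intCast, ← Matrix.diagonal_intCast]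
      rfl
    rw [h2]
    by_cases hij : i = j
    · subst hij
      simp
    · simp [Matrix.diagonal_apply_ne _ hij]
  rw [map_mul, h1, Matrix.diagonal_mul]

private lemma scal_deriv (P : R[X]) (s t : Fin d) :
    scalPsi b (derivative P) s t = derivative (scalPsi b P s t) := by
  ext k
  rw [scal_coeff, Polynomial.coeff_derivative, Polynomial.coeff_derivative, scal_coeff]
  have h2 : Algebra.leftMulMatrix b (P.coeff (k + 1) * ((k : R) + 1))
      = (k + 1 : ℕ) • Algebra.leftMulMatrix b (P.coeff (k + 1)) := by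
    rw [← map_nsmul]
    congr 1
    rw [nsmul_eq_mul]
    push_cast
    ring
  rw [h2]
  simp only [Matrix.smul_apply, nsmul_eq_mul]
  push_cast
  ring

private lemma scal_th (E : ℤ[X]) (m : ℕ) (P : R[X]) (s t : Fin d) :
    scalPsi b (th (E.map (Int.castRingHom R)) m P) s t = th E m (scalPsi b P s t) := by
  unfold th
  have h1 : ((m : R[X]) * derivative (E.map (Int.castRingHom R)))
      = ((m : ℤ[X]) * derivative E).map (Int.castRingHom R) := by
    rw [Polynomial.map_mul, Polynomial.derivative_map]
    simp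
  rw [map_sub, Matrix.sub_apply, h1, scal_map, scal_map, scal_deriv]

private lemma scal_natDegree (P : R[X]) (s t : Fin d) (n : ℕ) (h : P.natDegree ≤ n) :
    (scalPsi b P s t).natDegree ≤ n := by
  rw [Polynomial.natDegree_le_iff_coeff_eq_zero]
  intro k hk
  rw [scal_coeff, Polynomial.coeff_eq_zero_of_natDegree_lt (lt_of_le_of_lt h hk)]
  simp

/-- the matrix over `ℤ[X]` -/
private noncomputable def scalB {n : ℕ} (B : Matrix (Fin n) (Fin n) R[X]) :
    Matrix (Fin n × Fin d) (Fin n × Fin d) ℤ[X] :=
  fun p q => scalPsi b (B p.1 q.1) q.2 p.2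

private lemma scal_Gm {n : ℕ} (E : ℤ[X]) (B : Matrix (Fin n) (Fin n) R[X]) (m : ℕ)
    (p q : Fin n × Fin d) :
    Gm E (scalB b B) m p q
      = scalPsi b (Gm (E.map (Int.castRingHom R)) B m p.1 q.1) q.2 p.2 := by
  induction m generalizing p q with
  | zero =>
    show (1 : Matrix (Fin n × Fin d) (Fin n × Fin d) ℤ[X]) p q
      = scalPsi b ((1 : Matrix (Fin n) (Fin n) R[X]) p.1 q.1) q.2 p.2
    rcases p with ⟨i, s⟩
    rcases q with ⟨j, t⟩
    by_cases hij : i = j
    · subst hij
      by_cases hst : s = t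
      · subst hst
        simp
      · have h1 : ((i, s) : Fin n × Fin d) ≠ (i, t) := by
          intro h
          exact hst (Prod.mk.inj h).2
        have h2 : t ≠ s := fun h => hst h.symm
        simp [Matrix.one_apply_ne h1, Matrix.one_apply_ne h2]
    · have h1 : ((i, s) : Fin n × Fin d) ≠ (j, t) := by
        intro h
        exact hij (Prod.mk.inj h).1
      simp [Matrix.one_apply_ne h1, Matrix.one_apply_ne hij]
  | succ m ih =>
    show th E m (Gm E (scalB b B) m p q) + (Gm E (scalB b B) m * scalB b B) p q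
      = scalPsi b (th (E.map (Int.castRingHom R)) m (Gm (E.map (Int.castRingHom R)) B m p.1 q.1)
        + (Gm (E.map (Int.castRingHom R)) B m * B) p.1 q.1) q.2 p.2
    rw [map_add, Matrix.add_apply, scal_th, ih p q, Matrix.mul_apply, Matrix.mul_apply,
      map_sum, Matrix.sum_apply, Fintype.sum_prod_type]
    congr 1
    refine Finset.sum_congr rfl fun k _ => ?_
    rw [mul_comm (Gm (E.map (Int.castRingHom R)) B m p.1 k) (B k q.1), map_mul, Matrix.mul_apply]
    refine Finset.sum_congr rfl fun u _ => ?_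
    rw [ih p (k, u)]
    show _ * scalPsi b (B k q.1) q.2 u = _
    ring

end ScalAux


theorem scal (R : Subring ℂ) [Module.Finite ℤ R] (n : ℕ) (E : ℤ[X])
    (B : Matrix (Fin n) (Fin n) R[X]) :
    ∃ (d : ℕ) (B' : Matrix (Fin n × Fin d) (Fin n × Fin d) ℤ[X]),
      (∀ b : ℕ, (∀ i j, (B i j).natDegree ≤ b) → ∀ i j, (B' i j).natDegree ≤ b) ∧
      (∀ m c q : ℕ, (∀ i j, (q : R[X]) ∣ (c : R[X]) * Gm (E.map (Int.castRingHom R)) B m i j) →
        ∀ i j, (q : ℤ[X]) ∣ (c : ℤ[X]) * Gm E B' m i j) ∧
      (AllAlg (toC E) (B'.map (Polynomial.map (Int.castRingHom ℂ))) →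
        AllAlg (toC E) (B.map (Polynomial.map R.subtype))) := by
  classical
  let d := Module.finrank ℤ R
  let b : Module.Basis (Fin d) ℤ R := Module.finBasis ℤ R
  refine ⟨d, scalB b B, ?_, ?_, ?_⟩
  · intro β hβ p q
    exact scal_natDegree b _ _ _ _ (hβ p.1 q.1)
  · intro m c q h x y
    rw [scal_Gm]
    obtain ⟨Q, hQ⟩ := h x.1 y.1
    refine ⟨scalPsi b Q y.2 x.2, ?_⟩
    have h1 : ∀ k : ℕ, (k : R[X]) = ((k : ℤ[X])).map (Int.castRingHom R) := by
      intro k
      simp
    calc (c : ℤ[X]) * scalPsi b (Gm (E.map (Int.castRingHom R)) B m x.1 y.1) y.2 x.2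
        = scalPsi b ((c : R[X]) * Gm (E.map (Int.castRingHom R)) B m x.1 y.1) y.2 x.2 := by
          rw [h1 c, scal_map]
      _ = scalPsi b ((q : R[X]) * Q) y.2 x.2 := by rw [hQ]
      _ = _ := by rw [h1 q, scal_map]
  · intro hA U hU hUc y hy i
    have hsum : ∀ (P : R[X]) (s : Fin d) (z : ℂ),
        ∑ t : Fin d, ((scalPsi b P t s).map (Int.castRingHom ℂ)).eval z * ((b t : R) : ℂ)
          = (P.map R.subtype).eval z * ((b s : R) : ℂ) := by
      intro P s z
      have h1 : ∀ t, ((scalPsi b P t s).map (Int.castRingHom ℂ)).eval z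
          = ∑ k ∈ Finset.range (P.natDegree + 1),
            ((Algebra.leftMulMatrix b (P.coeff k) t s : ℤ) : ℂ) * z ^ k := by
        intro t
        rw [Polynomial.eval_eq_sum_range' (n := P.natDegree + 1)]
        · refine Finset.sum_congr rfl fun k _ => ?_
          rw [Polynomial.coeff_map, scal_coeff]
          rfl
        · refine lt_of_le_of_lt Polynomial.natDegree_map_le ?_
          exact Nat.lt_succ_of_le (scal_natDegree b P t s _ le_rfl)
      have h2 : (P.map R.subtype).eval z = ∑ k ∈ Finset.range (P.natDegree + 1),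
          ((P.coeff k : R) : ℂ) * z ^ k := by
        rw [Polynomial.eval_eq_sum_range' (n := P.natDegree + 1)]
        · refine Finset.sum_congr rfl fun k _ => ?_
          rw [Polynomial.coeff_map]
          rfl
        · exact Nat.lt_succ_of_le Polynomial.natDegree_map_le
      have h3 : ∀ x : R, ∑ t : Fin d, ((Algebra.leftMulMatrix b x t s : ℤ) : ℂ) * ((b t : R) : ℂ)
          = (x : ℂ) * ((b s : R) : ℂ) := by
        intro x
        have h4 := b.sum_repr (x * b s)
        have h5 : ((x * b s : R) : ℂ) = (x : ℂ) * ((b s : R) : ℂ) := rfl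
        rw [← h5, ← h4]
        push_cast
        refine Finset.sum_congr rfl fun t _ => ?_
        rw [Algebra.leftMulMatrix_eq_repr_mul]
        simp
      simp only [h1]
      rw [h2, Finset.sum_mul]
      simp only [Finset.sum_mul]
      rw [Finset.sum_comm]
      refine Finset.sum_congr rfl fun k _ => ?_
      calc ∑ t : Fin d, ((Algebra.leftMulMatrix b (P.coeff k) t s : ℤ) : ℂ) * z ^ k
            * ((b t : R) : ℂ)
          = z ^ k * ∑ t : Fin d, ((Algebra.leftMulMatrix b (P.coeff k) t s : ℤ) : ℂ)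
            * ((b t : R) : ℂ) := by
            rw [Finset.mul_sum]
            refine Finset.sum_congr rfl fun t _ => ?_
            ring
        _ = _ := by
            rw [h3]
            ring
    have hSol : Sol (toC E) ((scalB b B).map (Polynomial.map (Int.castRingHom ℂ))) U
        (fun z p => y z p.1 * ((b p.2 : R) : ℂ)) := by
      constructor
      · intro p
        exact (hy.1 p.1).mul_const _
      · intro z hz p
        have h1 := hy.2 z hz p.1
        have h2 : deriv (fun x => y x p.1 * ((b p.2 : R) : ℂ)) z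
            = deriv (fun x => y x p.1) z * ((b p.2 : R) : ℂ) := deriv_mul_const_field _
        rw [h2, ← mul_assoc, h1, Finset.sum_mul, Fintype.sum_prod_type]
        refine Finset.sum_congr rfl fun j _ => ?_
        have h3 := hsum (B p.1 j) p.2 z
        calc eval z (B.map (Polynomial.map R.subtype) p.1 j) * y z j * ((b p.2 : R) : ℂ)
            = ((B p.1 j).map R.subtype).eval z * ((b p.2 : R) : ℂ) * y z j := by
              rw [Matrix.map_apply]
              ring
          _ = _ := by
              rw [← h3, Finset.sum_mul]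
              refine Finset.sum_congr rfl fun t _ => ?_
              show ((scalPsi b (B p.1 j) t p.2).map (Int.castRingHom ℂ)).eval z
                  * ((b t : R) : ℂ) * y z j
                = ((scalPsi b (B p.1 j) t p.2).map (Int.castRingHom ℂ)).eval z
                  * (y z j * ((b t : R) : ℂ))
              ring
    obtain ⟨s⟩ := b.index_nonempty
    have hs : ((b s : R) : ℂ) ≠ 0 := by
      intro h
      exact b.ne_zero s (Subtype.ext h)
    have h1 := hA U hU hUc _ hSol (i, s)
    have h2 := algOn_sum U ({()} : Finset Unit) (fun _ z => y z i * ((b s : R) : ℂ))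
      (fun _ => ((b s : R) : ℂ)⁻¹) (fun _ _ => h1)
    refine algOn_mono (Set.Subset.refl U) h2 ?_
    intro z _
    simp only [Finset.sum_singleton]
    field_simp

end FacC
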