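import Pool.Agent.Lib.FacC.CoreZ
import Pool.Agent.Lib.FacC.Scal
import Pool.Agent.Lib.FacC.GInt
import Pool.Agent.Lib.FacC.Bridge

/-!
THE GENERAL THEOREM OVER A SUBRING R OF ℂ, FINITE OVER ℤ (assembly).
-/

open Polynomial Filter Topology

namespace FacC

private lemma toR_C (R : Subring ℂ) (E : ℤ[X]) :
    (E.map (Int.castRingHom R)).map R.subtype = toC E := by
  unfold toC
  rw [Polynomial.map_map]
  congr 1

private lemma bridgeR (R : Subring ℂ) (n : ℕ) (E : ℤ[X]) (B : Matrix (Fin n) (Fin n) R[X])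
    (A : ℂ → Matrix (Fin n) (Fin n) ℂ)
    (hA : ∀ z, (toC E).eval z ≠ 0 →
      (toC E).eval z • A z = (B.map (Polynomial.map R.subtype)).map (eval z))
    (m : ℕ) (z : ℂ) (hz : (toC E).eval z ≠ 0) (i j : Fin n) :
    ((toC E).eval z) ^ m * Aseq A m z i j
      = ((Gm (E.map (Int.castRingHom R)) B m i j).map R.subtype).eval z := by
  have h1 := bridge (toC E) (B.map (Polynomial.map R.subtype)) A hA m z hz
  have h2 := congrFun (congrFun h1 i) j
  rw [Matrix.smul_apply, smul_eq_mul] at h2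
  rw [h2]
  have h3 := Gm_map R.subtype (E.map (Int.castRingHom R)) B m
  rw [toR_C] at h3
  rw [← h3]
  rfl

/-- General form. `S0`: no hypothesis; `S1`: vanishing `p`-curvature; the other primes:
factorial cancellation. -/
theorem mainG (R : Subring ℂ) [Module.Finite ℤ R] (n : ℕ) (E : ℤ[X]) (hE0 : E.eval 0 ≠ 0)
    (B : Matrix (Fin n) (Fin n) R[X]) (A : ℂ → Matrix (Fin n) (Fin n) ℂ)
    (hA : ∀ z, (toC E).eval z ≠ 0 →
      (toC E).eval z • A z = (B.map (Polynomial.map R.subtype)).map (eval z))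
    (β : ℕ∞) (hβ : ∀ i j, ((B i j).natDegree : ℕ∞) ≤ β)
    (g h : ℂ → ℂ) (hg : DifferentiableOn ℂ g (Metric.ball 0 1))
    (hh : DifferentiableOn ℂ h (Metric.ball 0 1)) (hg0 : g 0 = 0) (hh0 : h 0 = 1)
    (hpull : PullOK E β g h) (κ : ℝ)
    (hκ : Real.exp κ * |((E.eval 0 : ℤ) : ℝ)| < ‖deriv g 0‖) (S0 S1 : Set ℕ)
    (hS : ∀ F : Finset ℕ, (∀ p ∈ F, p.Prime) → ∑ p ∈ F, wt S0 S1 p * Real.log p ≤ κ)
    (c : ℕ) (hc : c ≠ 0)
    (h1 : ∀ p : ℕ, p.Prime → p ∉ S0 → p ∈ S1 →
      E.map (Int.castRingHom (ZMod p)) ≠ 0 ∧ ∃ Q : Matrix (Fin n) (Fin n) R[X],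
        ∀ z, (toC E).eval z ≠ 0 → ((toC E).eval z) ^ p • Aseq A p z =
          (p : ℂ) • (Q.map (Polynomial.map R.subtype)).map (eval z))
    (h2 : ∀ p : ℕ, p.Prime → p ∉ S0 → p ∉ S1 → ∀ m : ℕ, 1 ≤ m →
      ∃ Q : Matrix (Fin n) (Fin n) R[X], ∀ z, (toC E).eval z ≠ 0 →
        ((c : ℂ) * ((toC E).eval z) ^ m) • Aseq A m z =
          ((p ^ padicValNat p m.factorial : ℕ) : ℂ) •
            (Q.map (Polynomial.map R.subtype)).map (eval z)) :
    AllAlg (toC E) (B.map (Polynomial.map R.subtype)) := by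
  classical
  have hEC : toC E ≠ 0 := by
    intro h
    have h3 : (toC E).eval 0 = ((E.eval 0 : ℤ) : ℂ) := by
      unfold toC
      rw [eval_map, eval₂_at_zero, ← coeff_zero_eq_eval_zero]
      simp
    rw [h, eval_zero] at h3
    exact hE0 (by exact_mod_cast h3.symm)
  obtain ⟨d, B', hdeg, hdvd, halg⟩ := scal R n E B
  apply halg
  have hβ' : ∀ i j, ((B' i j).natDegree : ℕ∞) ≤ β := by
    intro i j
    induction β using ENat.recTopCoe with
    | top => exact le_top
    | coe b =>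
      have h3 : ∀ i j, (B i j).natDegree ≤ b := fun i j => by
        have := hβ i j
        exact_mod_cast this
      have h4 := hdeg b h3 i j
      exact_mod_cast h4
  obtain ⟨A1, hA1d, hA1e⟩ := hpull n d B' hβ'
  refine coreZ E hE0 B' (wt S0 S1) ?_ κ hS c hc ?_ g h hg hh hg0 hh0 hκ A1 hA1d hA1e
  · intro p
    unfold wt
    split_ifs with hp hpS hpS1
    · have h2 : (1 : ℝ) ≤ p := by exact_mod_cast hp.one_le
      exact div_nonneg zero_le_one (by linarith)
    · have h2 : (1 : ℝ) ≤ p := by exact_mod_cast hp.one_le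
      exact div_nonneg zero_le_one (mul_nonneg (by linarith) (by linarith))
    · exact le_rfl
    · exact le_rfl
  · intro p hp m i j
    unfold wt
    rw [if_neg (not_not.mpr hp)]
    split_ifs with hpS hpS1
    · exact Dvd.dvd.mul_right (Nat.cast_dvd_cast (pow_dvd_pow p (wt_triv p m hp))) _
    · obtain ⟨hEp, Q, hQ⟩ := h1 p hp hpS hpS1
      have hG : ∀ i j, (p : ℤ[X]) ∣ Gm E B' p i j := by
        have h3 := hdvd p 1 p (by
          intro i j
          refine ⟨Q i j, ?_⟩
          refine poly_of_fun R (toC E) hEC _ _ ?_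
          intro z hz
          have h3 := congrFun (congrFun (hQ z hz) i) j
          rw [Matrix.smul_apply, Matrix.smul_apply, smul_eq_mul, smul_eq_mul,
            bridgeR R n E B A hA p z hz i j] at h3
          rw [Polynomial.map_mul, eval_mul, Polynomial.map_mul, eval_mul, Polynomial.map_natCast,
            eval_natCast, Polynomial.map_natCast, eval_natCast, Nat.cast_one, one_mul]
          exact h3)
        intro i j
        have h4 := h3 i j
        rwa [Nat.cast_one, one_mul] at h4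
      have h7 := gint E B' p hp hEp hG m i j
      obtain ⟨G', hG'⟩ := h7
      have h8 : ((p ^ ⌊(1 / ((p : ℝ) * ((p : ℝ) - 1))) * m⌋₊ : ℕ) : ℤ[X]) *
          ((c : ℤ[X]) * Gm E B' m i j)
          = ((p ^ (⌊(1 / ((p : ℝ) * ((p : ℝ) - 1))) * m⌋₊ + m / p) : ℕ) : ℤ[X]) *
            ((c : ℤ[X]) * G') := by
        rw [hG', pow_add]
        push_cast
        ring
      rw [h8]
      exact Dvd.dvd.mul_right (Nat.cast_dvd_cast (pow_dvd_pow p (wt_curv p m hp))) _
    · rw [zero_mul, Nat.floor_zero, pow_zero, Nat.cast_one, one_mul]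
      rcases Nat.eq_zero_or_pos m with rfl | hm
      · simp
      refine hdvd m c _ ?_ i j
      intro i j
      obtain ⟨Q, hQ⟩ := h2 p hp hpS hpS1 m hm
      refine ⟨Q i j, ?_⟩
      refine poly_of_fun R (toC E) hEC _ _ ?_
      intro z hz
      have h3 := congrFun (congrFun (hQ z hz) i) j
      rw [Matrix.smul_apply, Matrix.smul_apply, smul_eq_mul, smul_eq_mul, mul_assoc,
        bridgeR R n E B A hA m z hz i j] at h3
      rw [Polynomial.map_mul, eval_mul, Polynomial.map_mul, eval_mul, Polynomial.map_natCast,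
        eval_natCast, Polynomial.map_natCast, eval_natCast]
      exact h3

/-- The question itself: `(N E)^m A_m / m!` integral for all `m`; `S` contains the primes
which are not prime to `N`. -/
theorem mainN (R : Subring ℂ) [Module.Finite ℤ R] (n : ℕ) (E : ℤ[X]) (hE0 : E.eval 0 ≠ 0)
    (B : Matrix (Fin n) (Fin n) R[X]) (A : ℂ → Matrix (Fin n) (Fin n) ℂ)
    (hA : ∀ z, (toC E).eval z ≠ 0 →
      (toC E).eval z • A z = (B.map (Polynomial.map R.subtype)).map (eval z))
    (β : ℕ∞) (hβ : ∀ i j, ((B i j).natDegree : ℕ∞) ≤ β)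
    (g h : ℂ → ℂ) (hg : DifferentiableOn ℂ g (Metric.ball 0 1))
    (hh : DifferentiableOn ℂ h (Metric.ball 0 1)) (hg0 : g 0 = 0) (hh0 : h 0 = 1)
    (hpull : PullOK E β g h) (N : R) (S : Finset ℕ) (hSp : ∀ p ∈ S, p.Prime)
    (hκ : Real.exp (∑ p ∈ S, Real.log p / ((p : ℝ) - 1)) * |((E.eval 0 : ℤ) : ℝ)| < ‖deriv g 0‖)
    (hN : ∀ p : ℕ, p.Prime → p ∉ S → IsCoprime N (p : R))
    (hfac : ∀ m : ℕ, 1 ≤ m → ∃ Q : Matrix (Fin n) (Fin n) R[X], ∀ z, (toC E).eval z ≠ 0 →
      ((N : ℂ) * (toC E).eval z) ^ m • Aseq A m z =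
        ((m.factorial : ℕ) : ℂ) • (Q.map (Polynomial.map R.subtype)).map (eval z)) :
    AllAlg (toC E) (B.map (Polynomial.map R.subtype)) := by
  classical
  have hEC : toC E ≠ 0 := by
    intro h
    have h3 : (toC E).eval 0 = ((E.eval 0 : ℤ) : ℂ) := by
      unfold toC
      rw [eval_map, eval₂_at_zero, ← coeff_zero_eq_eval_zero]
      simp
    rw [h, eval_zero] at h3
    exact hE0 (by exact_mod_cast h3.symm)
  have hnn : ∀ p ∈ S, 0 ≤ Real.log p / ((p : ℝ) - 1) := by
    intro p hp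
    have h2 : (2 : ℝ) ≤ p := by exact_mod_cast (hSp p hp).two_le
    exact div_nonneg (Real.log_nonneg (by linarith)) (by linarith)
  refine mainG R n E hE0 B A hA β hβ g h hg hh hg0 hh0 hpull
    (∑ p ∈ S, Real.log p / ((p : ℝ) - 1)) hκ (S : Set ℕ) ∅ ?_ 1 one_ne_zero ?_ ?_
  · intro F hF
    have h1 : ∑ p ∈ F, wt (S : Set ℕ) ∅ p * Real.log p
        = ∑ p ∈ F ∩ S, Real.log p / ((p : ℝ) - 1) := by
      rw [← Finset.filter_mem_eq_inter, Finset.sum_filter]
      refine Finset.sum_congr rfl fun p hp => ?_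
      unfold wt
      rw [if_neg (not_not.mpr (hF p hp))]
      simp only [Finset.mem_coe, Set.mem_empty_iff_false, if_false]
      split_ifs
      · ring
      · ring
    rw [h1]
    refine Finset.sum_le_sum_of_subset_of_nonneg Finset.inter_subset_right ?_
    intro p hp _
    exact hnn p hp
  · intro p _ _ hp1
    exact absurd hp1 (Set.notMem_empty p)
  · intro p hp hpS _ m hm
    have hpS' : p ∉ S := fun h => hpS (Finset.mem_coe.mpr h)
    obtain ⟨Q, hQ⟩ := hfac m hm
    have hdv : ∀ i j, ((p ^ padicValNat p m.factorial : ℕ) : R[X]) ∣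
        Gm (E.map (Int.castRingHom R)) B m i j := by
      intro i j
      have hpoly : C (N ^ m) * Gm (E.map (Int.castRingHom R)) B m i j
          = ((m.factorial : ℕ) : R[X]) * Q i j := by
        refine poly_of_fun R (toC E) hEC _ _ ?_
        intro z hz
        have h3 := congrFun (congrFun (hQ z hz) i) j
        rw [Matrix.smul_apply, Matrix.smul_apply, smul_eq_mul, smul_eq_mul, mul_pow, mul_assoc,
          bridgeR R n E B A hA m z hz i j] at h3
        rw [Polynomial.map_mul, Polynomial.map_mul, Polynomial.map_C, eval_mul, eval_mul, eval_C,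
          Polynomial.map_natCast, eval_natCast]
        simpa using h3
      obtain ⟨e, he⟩ : p ^ padicValNat p m.factorial ∣ m.factorial := pow_padicValNat_dvd
      refine cop N p (hN p hp hpS') m _ _ ((e : R[X]) * Q i j) ?_
      rw [hpoly, ← mul_assoc, ← Nat.cast_mul, ← he]
    choose Q' hQ' using hdv
    refine ⟨Matrix.of Q', fun z hz => ?_⟩
    ext1 i j
    rw [Matrix.smul_apply, Matrix.smul_apply, smul_eq_mul, smul_eq_mul, Nat.cast_one, one_mul,
      bridgeR R n E B A hA m z hz i j, hQ' i j, Polynomial.map_mul, eval_mul,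
      Polynomial.map_natCast, eval_natCast]
    rfl

end FacC
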