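import Pool.Agent.Lib.FacC.ThS

/-!
THETA IDENTITIES, part B (ThS and Mathlib).  All for ‖q‖ < 1.
-/

open Polynomial Filter Topology

namespace FacC

private theorem thB_nonneg (a : ℤ) : 0 ≤ a * (a + 1) := by
  rcases le_or_gt 0 a with h | h
  · positivity
  · exact mul_nonneg_of_nonpos_of_nonpos h.le (by omega)

private def thB_e (a : ℤ) : ℕ := (a * (a + 1)).toNat

private theorem thB_ecast (a : ℤ) : ((thB_e a : ℕ) : ℤ) = a * (a + 1) :=
  Int.toNat_of_nonneg (thB_nonneg a)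

private theorem thB_e_nat (n : ℕ) : thB_e (n : ℤ) = n * (n + 1) := by
  zify
  rw [thB_ecast]

private theorem thB_e_neg (n : ℕ) : thB_e (-((n : ℤ) + 1)) = n * (n + 1) := by
  zify
  rw [thB_ecast]
  ring

private theorem thB_hasSum (q : ℂ) (hq : ‖q‖ < 1) :
    HasSum (fun a : ℤ => q ^ thB_e a) (2 * ps q) := by
  have h1 : HasSum (fun n : ℕ => q ^ (n * (n + 1))) (ps q) :=
    (ps_summable q hq).of_norm.hasSum
  have h := HasSum.of_nat_of_neg_add_one (f := fun a : ℤ => q ^ thB_e a) (m := ps q) (m' := ps q)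
    (by simpa only [thB_e_nat] using h1) (by simpa only [thB_e_neg] using h1)
  rw [two_mul]
  exact h

private theorem thB_norm (q : ℂ) (hq : ‖q‖ < 1) :
    Summable (fun a : ℤ => ‖q ^ thB_e a‖) := by
  have h1 := ps_summable q hq
  exact Summable.of_nat_of_neg_add_one (f := fun a : ℤ => ‖q ^ thB_e a‖)
    (by simpa only [thB_e_nat] using h1) (by simpa only [thB_e_neg] using h1)

private theorem thB_sq (q : ℂ) (hq : ‖q‖ < 1) : ‖q ^ 2‖ < 1 := by
  rw [norm_pow]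
  exact pow_lt_one₀ (norm_nonneg _) hq two_ne_zero

theorem thB1 (q : ℂ) (hq : ‖q‖ < 1) : t3 q ^ 2 - t3 (-q) ^ 2 = 8 * q * ps (q ^ 2) ^ 2 := by
  have hq' : ‖-q‖ < 1 := by rwa [norm_neg]
  have e1 : t3 q ^ 2 = ∑' z : ℤ × ℤ, q ^ (z.1.natAbs ^ 2) * q ^ (z.2.natAbs ^ 2) := by
    rw [pow_two, t3]
    exact tsum_mul_tsum_of_summable_norm (t3_summable q hq) (t3_summable q hq)
  have e2 : t3 (-q) ^ 2 = ∑' z : ℤ × ℤ, (-q) ^ (z.1.natAbs ^ 2) * (-q) ^ (z.2.natAbs ^ 2) := by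
    rw [pow_two, t3]
    exact tsum_mul_tsum_of_summable_norm (t3_summable (-q) hq') (t3_summable (-q) hq')
  have s1 := (summable_mul_of_summable_norm (t3_summable q hq) (t3_summable q hq))
  have s2 := (summable_mul_of_summable_norm (t3_summable (-q) hq') (t3_summable (-q) hq'))
  rw [e1, e2, ← s1.tsum_sub s2]
  have e3 : (2 * ps (q ^ 2)) ^ 2
      = ∑' z : ℤ × ℤ, (q ^ 2) ^ thB_e z.1 * (q ^ 2) ^ thB_e z.2 := by
    rw [pow_two, ← (thB_hasSum (q ^ 2) (thB_sq q hq)).tsum_eq]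
    exact tsum_mul_tsum_of_summable_norm (thB_norm _ (thB_sq q hq)) (thB_norm _ (thB_sq q hq))
  have e4 : 8 * q * ps (q ^ 2) ^ 2 = 2 * q * (2 * ps (q ^ 2)) ^ 2 := by ring
  rw [e4, e3, ← tsum_mul_left]
  let φ : ℤ × ℤ → ℤ × ℤ := fun z => (z.1 + z.2 + 1, z.1 - z.2)
  have hφ : Function.Injective φ := by
    rintro ⟨a, b⟩ ⟨c, d⟩ h
    simp only [φ, Prod.mk.injEq] at h
    obtain ⟨h1, h2⟩ := h
    ext <;> simp only <;> omega
  have hsupp : Function.support (fun z : ℤ × ℤ => q ^ (z.1.natAbs ^ 2) * q ^ (z.2.natAbs ^ 2)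
      - (-q) ^ (z.1.natAbs ^ 2) * (-q) ^ (z.2.natAbs ^ 2)) ⊆ Set.range φ := by
    rintro ⟨m, n⟩ h
    rw [Function.mem_support] at h
    have hodd : ¬ Even (m + n) := by
      intro hev
      apply h
      simp only
      rw [← pow_add, ← pow_add, Even.neg_pow, sub_self]
      rw [Nat.even_add, Nat.even_pow' two_ne_zero, Nat.even_pow' two_ne_zero, Int.natAbs_even,
        Int.natAbs_even]
      rwa [Int.even_add] at hev
    rw [Int.not_even_iff_odd] at hodd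
    obtain ⟨k, hk⟩ := hodd
    refine ⟨(k, k - n), ?_⟩
    simp only [φ, Prod.mk.injEq]
    constructor <;> omega
  rw [← hφ.tsum_eq hsupp]
  refine tsum_congr fun z => ?_
  obtain ⟨a, b⟩ := z
  simp only [φ]
  rw [← pow_add, ← pow_add, ← pow_add, ← pow_mul]
  have hexp : (a + b + 1).natAbs ^ 2 + (a - b).natAbs ^ 2 = 2 * (thB_e a + thB_e b) + 1 := by
    zify
    rw [sq_abs, sq_abs, thB_ecast, thB_ecast]
    ring
  rw [hexp, Odd.neg_pow ⟨_, rfl⟩, pow_succ]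
  ring

theorem thB2 (q : ℂ) (hq : ‖q‖ < 1) : ps q ^ 2 = ps (q ^ 2) * t3 (q ^ 2) := by
  have hq2 := thB_sq q hq
  have e1 : (2 * ps q) ^ 2 = ∑' z : ℤ × ℤ, q ^ thB_e z.1 * q ^ thB_e z.2 := by
    rw [pow_two, ← (thB_hasSum q hq).tsum_eq]
    exact tsum_mul_tsum_of_summable_norm (thB_norm _ hq) (thB_norm _ hq)
  have s1 := (summable_mul_of_summable_norm (thB_norm _ hq) (thB_norm _ hq))
  have e2 : t3 (q ^ 2) * (2 * ps (q ^ 2))
      = ∑' z : ℤ × ℤ, (q ^ 2) ^ (z.1.natAbs ^ 2) * (q ^ 2) ^ thB_e z.2 := by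
    rw [← (thB_hasSum (q ^ 2) hq2).tsum_eq, t3]
    exact tsum_mul_tsum_of_summable_norm (t3_summable _ hq2) (thB_norm _ hq2)
  let F : ℤ × ℤ → ℂ := fun z => q ^ thB_e z.1 * q ^ thB_e z.2
  let S : Set (ℤ × ℤ) := {z | Even (z.1 + z.2)}
  have hF : Summable F := s1
  have split : ∑' z, F z = ∑' z, S.indicator F z + ∑' z, Sᶜ.indicator F z := by
    rw [← (hF.indicator S).tsum_add (hF.indicator Sᶜ)]
    refine tsum_congr fun z => ?_
    rw [← Pi.add_apply, Set.indicator_self_add_compl]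
  let φ1 : ℤ × ℤ → ℤ × ℤ := fun z => (z.1 + z.2, z.2 - z.1)
  let φ2 : ℤ × ℤ → ℤ × ℤ := fun z => (z.1 + z.2, z.1 - z.2 - 1)
  have h1 : Function.Injective φ1 := by
    rintro ⟨a, b⟩ ⟨c, d⟩ h
    simp only [φ1, Prod.mk.injEq] at h
    obtain ⟨h1, h2⟩ := h
    ext <;> simp only <;> omega
  have h2 : Function.Injective φ2 := by
    rintro ⟨a, b⟩ ⟨c, d⟩ h
    simp only [φ2, Prod.mk.injEq] at h
    obtain ⟨h1, h2⟩ := h
    ext <;> simp only <;> omega
  have u1 : Function.support (S.indicator F) ⊆ Set.range φ1 := by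
    rintro ⟨m, n⟩ h
    have hm : (m, n) ∈ S := Set.mem_of_indicator_ne_zero h
    obtain ⟨k, hk⟩ := (hm : Even (m + n))
    refine ⟨(m - k, k), ?_⟩
    simp only [φ1, Prod.mk.injEq]
    constructor <;> omega
  have u2 : Function.support (Sᶜ.indicator F) ⊆ Set.range φ2 := by
    rintro ⟨m, n⟩ h
    have hm : (m, n) ∈ Sᶜ := Set.mem_of_indicator_ne_zero h
    have hm' : ¬ Even (m + n) := hm
    rw [Int.not_even_iff_odd] at hm'
    obtain ⟨k, hk⟩ := hm'
    refine ⟨(k + 1, m - k - 1), ?_⟩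
    simp only [φ2, Prod.mk.injEq]
    constructor <;> omega
  have v1 : ∑' z, S.indicator F z = t3 (q ^ 2) * (2 * ps (q ^ 2)) := by
    rw [e2, ← h1.tsum_eq u1]
    refine tsum_congr fun z => ?_
    obtain ⟨x, y⟩ := z
    have hmem : φ1 (x, y) ∈ S := ⟨y, by simp only [φ1]; ring⟩
    rw [Set.indicator_of_mem hmem]
    simp only [F, φ1]
    rw [← pow_add, ← pow_mul, ← pow_mul, ← pow_add]
    congr 1
    zify
    rw [sq_abs, thB_ecast, thB_ecast, thB_ecast]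
    ring
  have v2 : ∑' z, Sᶜ.indicator F z = t3 (q ^ 2) * (2 * ps (q ^ 2)) := by
    rw [e2, ← h2.tsum_eq u2]
    refine tsum_congr fun z => ?_
    obtain ⟨x, y⟩ := z
    have hmem : φ2 (x, y) ∈ Sᶜ := by
      intro hev
      have hev' : Even ((x + y) + (x - y - 1)) := hev
      obtain ⟨k, hk⟩ := hev'
      omega
    rw [Set.indicator_of_mem hmem]
    simp only [F, φ2]
    rw [← pow_add, ← pow_mul, ← pow_mul, ← pow_add]
    congr 1
    zify
    rw [sq_abs, thB_ecast, thB_ecast, thB_ecast]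
    ring
  have e3 : (2 * ps q) ^ 2 = ∑' z, F z := e1
  rw [split, v1, v2] at e3
  linear_combination (1 / 4 : ℂ) * e3

end FacC
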