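import Pool.Agent.Lib.FacC.ThA
import Pool.Agent.Lib.FacC.ThB

/-!
NONVANISHING and the function lam (ThS, ThA, ThB).

`t3_ne`: t3 q != 0 for ‖q‖ < 1.  If t3 q = 0, then by thA2 t3(-q^2) = 0; the sequence q_0 = q,
 q_(n+1) = -q_n^2 has t3(q_n) = 0 for all n and ‖q_n‖ = ‖q‖^(2^n) -> 0; continuity of t3 at 0 (t3_diff) and
 t3 0 = 1 give a contradiction.
`ps_ne`: the same with thB2: ps q = 0 => ps(q^2) = 0 (t3(q^2) != 0), q_n = q^(2^n), ps 0 = 1.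
`jacobi`: t3(q)^4 - t3(-q)^4 = (t3(q)^2+t3(-q)^2)(t3(q)^2-t3(-q)^2) = 2 t3(q^2)^2 * 8 q ps(q^2)^2
 = 16 q (ps(q)^2)^2.
`lam_ne`: 0 < ‖q‖ < 1: lam q != 0; lam q != 1 since 1 - lam q = t3(-q)^4/t3(q)^4.
`lam_diff`: lam is holomorphic on the unit disc.
-/

open Polynomial Filter Topology

namespace FacC

private theorem ThN_aux (f : ℂ → ℂ) (hd : DifferentiableOn ℂ f (Metric.ball 0 1)) (h0 : f 0 = 1)
    (step : ∀ z : ℂ, ‖z‖ < 1 → f z = 0 → ∃ w : ℂ, ‖w‖ ≤ ‖z‖ ^ 2 ∧ f w = 0)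
    (q : ℂ) (hq : ‖q‖ < 1) : f q ≠ 0 := by
  intro h
  have hlt : ∀ n : ℕ, ‖q‖ ^ (2 ^ n) < 1 := fun n =>
    pow_lt_one₀ (norm_nonneg q) hq (by positivity)
  have key : ∀ n : ℕ, ∃ w : ℂ, ‖w‖ ≤ ‖q‖ ^ (2 ^ n) ∧ f w = 0 := by
    intro n
    induction n with
    | zero => exact ⟨q, by simp, h⟩
    | succ n ih =>
      obtain ⟨w, hw, hfw⟩ := ih
      obtain ⟨v, hv, hfv⟩ := step w (lt_of_le_of_lt hw (hlt n)) hfw
      refine ⟨v, hv.trans ?_, hfv⟩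
      calc ‖w‖ ^ 2 ≤ (‖q‖ ^ (2 ^ n)) ^ 2 := pow_le_pow_left₀ (norm_nonneg w) hw 2
        _ = ‖q‖ ^ (2 ^ (n + 1)) := by rw [← pow_mul, pow_succ]
  have hc : ContinuousAt f 0 :=
    hd.continuousOn.continuousAt (Metric.ball_mem_nhds 0 one_pos)
  have hne : ∀ᶠ z in 𝓝 (0 : ℂ), f z ≠ 0 :=
    hc.eventually_ne (by rw [h0]; exact one_ne_zero)
  obtain ⟨ε, hε, hb⟩ := Metric.eventually_nhds_iff.mp hne
  obtain ⟨n, hn⟩ := exists_pow_lt_of_lt_one hε hq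
  obtain ⟨w, hw, hfw⟩ := key n
  refine hb (y := w) ?_ hfw
  rw [dist_zero_right]
  calc ‖w‖ ≤ ‖q‖ ^ (2 ^ n) := hw
    _ ≤ ‖q‖ ^ n := pow_le_pow_of_le_one (norm_nonneg q) hq.le (Nat.lt_two_pow_self).le
    _ < ε := hn

theorem t3_ne (q : ℂ) (hq : ‖q‖ < 1) : t3 q ≠ 0 := by
  refine ThN_aux t3 t3_diff t3_zero ?_ q hq
  intro z hz h
  refine ⟨-z ^ 2, by rw [norm_neg, norm_pow], ?_⟩
  have h2 := thA2 z hz
  rw [h, zero_mul] at h2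
  exact pow_eq_zero_iff (two_ne_zero) |>.mp h2.symm

theorem ps_ne (q : ℂ) (hq : ‖q‖ < 1) : ps q ≠ 0 := by
  refine ThN_aux ps ps_diff ps_zero ?_ q hq
  intro z hz h
  refine ⟨z ^ 2, by rw [norm_pow], ?_⟩
  have h2 := thB2 z hz
  have hz2 : ‖z ^ 2‖ < 1 := by
    rw [norm_pow]
    exact pow_lt_one₀ (norm_nonneg z) hz two_ne_zero
  rw [h, zero_pow two_ne_zero] at h2
  rcases mul_eq_zero.mp h2.symm with h3 | h3
  · exact h3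
  · exact absurd h3 (t3_ne (z ^ 2) hz2)

theorem jacobi (q : ℂ) (hq : ‖q‖ < 1) : t3 q ^ 4 - t3 (-q) ^ 4 = 16 * q * ps q ^ 4 := by
  have h1 := thA1 q hq
  have h2 := thB1 q hq
  have h3 := thB2 q hq
  have h4 : ps q ^ 4 = (ps (q ^ 2) * t3 (q ^ 2)) ^ 2 := by rw [← h3]; ring
  calc t3 q ^ 4 - t3 (-q) ^ 4 = (t3 q ^ 2 + t3 (-q) ^ 2) * (t3 q ^ 2 - t3 (-q) ^ 2) := by ring
    _ = 2 * t3 (q ^ 2) ^ 2 * (8 * q * ps (q ^ 2) ^ 2) := by rw [h1, h2]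
    _ = 16 * q * ps q ^ 4 := by rw [h4]; ring

theorem lam_ne (q : ℂ) (hq : ‖q‖ < 1) (h0 : q ≠ 0) : lam q ≠ 0 ∧ lam q ≠ 1 := by
  have ht := t3_ne q hq
  have hp := ps_ne q hq
  have hq' : ‖-q‖ < 1 := by rw [norm_neg]; exact hq
  have htn := t3_ne (-q) hq'
  have hj := jacobi q hq
  unfold lam
  constructor
  · exact div_ne_zero (mul_ne_zero (mul_ne_zero (by norm_num) h0) (pow_ne_zero 4 hp))
      (pow_ne_zero 4 ht)
  · intro h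
    rw [div_eq_one_iff_eq (pow_ne_zero 4 ht)] at h
    rw [← h] at hj
    have h5 : t3 (-q) ^ 4 = 0 := by linear_combination -hj
    exact pow_ne_zero 4 htn h5

theorem lam_diff : DifferentiableOn ℂ lam (Metric.ball 0 1) := by
  unfold lam
  refine DifferentiableOn.div ?_ (t3_diff.pow 4) ?_
  · exact ((differentiableOn_const 16).mul differentiableOn_id).mul (ps_diff.pow 4)
  · intro z hz
    have hz1 : ‖z‖ < 1 := by simpa [dist_zero_right] using hz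
    exact pow_ne_zero 4 (t3_ne z hz1)

end FacC
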