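import Pool.Agent.Lib.FacC.ThD
import Pool.Agent.Lib.FacC.ThN

/-!
THE MAP g/h : unit disc -> ℙ^1 minus the fourth roots of unity, g(0) = 0, h(0) = 1, |g'(0)| > 2.17.

τ(w) = (τ0 - conj τ0 w)/(1-w), τ0 = 1+i; Q(w) = exp(πi τ(w)/2); Q(0) = Q4, Q'(0) = -π Q4.
a = t3(Q)^2, b = t3(-Q)^2, G = -i (a - i b), H = a + i b;
G^4 - H^4 = -8 i a b (t3(Q)^4 - t3(-Q)^4) = -128 i a b Q ps(Q)^4 != 0.
At w = 0: b0 = -i a0, H(0) = 2 a0, G(0) = 0.
-/

open Polynomial Filter Topology

namespace FacC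

private noncomputable def tauM (w : ℂ) : ℂ := ((1 + Complex.I) - (1 - Complex.I) * w) / (1 - w)

private noncomputable def QM (w : ℂ) : ℂ := Complex.exp (Real.pi * Complex.I / 2 * tauM w)

private lemma one_sub_ne {w : ℂ} (hw : w ∈ Metric.ball (0 : ℂ) 1) : 1 - w ≠ 0 := by
  intro h
  have h1 : w = 1 := (sub_eq_zero.mp h).symm
  rw [h1] at hw
  simp at hw

private lemma tauM_im {w : ℂ} (hw : w ∈ Metric.ball (0 : ℂ) 1) : 0 < (tauM w).im := by
  have h1 : 1 - w ≠ 0 := one_sub_ne hw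
  have h2 : 0 < Complex.normSq (1 - w) := Complex.normSq_pos.mpr h1
  unfold tauM
  rw [Complex.div_im]
  have h3 : Complex.normSq w < 1 := by
    rw [Complex.normSq_eq_norm_sq]
    have h4 : ‖w‖ < 1 := by simpa using hw
    nlinarith [norm_nonneg w]
  rw [Complex.normSq_apply] at h3
  have h5 : (((1 + Complex.I) - (1 - Complex.I) * w).im * (1 - w).re / Complex.normSq (1 - w)
      - ((1 + Complex.I) - (1 - Complex.I) * w).re * (1 - w).im / Complex.normSq (1 - w))
      = (1 - (w.re * w.re + w.im * w.im)) / Complex.normSq (1 - w) := by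
    rw [← sub_div]
    congr 1
    simp
    ring
  rw [h5]
  exact div_pos (by linarith) h2

private lemma QM_norm {w : ℂ} (hw : w ∈ Metric.ball (0 : ℂ) 1) : ‖QM w‖ < 1 := by
  unfold QM
  rw [Complex.norm_exp, Real.exp_lt_one_iff]
  have h1 := tauM_im hw
  have h2 : (Real.pi * Complex.I / 2 * tauM w).re = -(Real.pi / 2 * (tauM w).im) := by
    simp [Complex.mul_re]
  rw [h2]
  have := Real.pi_pos
  have h3 : 0 < Real.pi / 2 * (tauM w).im := by positivity
  linarith

private lemma QM_ne (w : ℂ) : QM w ≠ 0 := Complex.exp_ne_zero _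

private lemma tauM_hd {w : ℂ} (hw : w ∈ Metric.ball (0 : ℂ) 1) :
    HasDerivAt tauM (2 * Complex.I / (1 - w) ^ 2) w := by
  have h1 : 1 - w ≠ 0 := one_sub_ne hw
  have h2 : HasDerivAt (fun w : ℂ => (1 + Complex.I) - (1 - Complex.I) * w) (-(1 - Complex.I)) w := by
    have := ((hasDerivAt_id w).const_mul (1 - Complex.I)).const_sub (1 + Complex.I)
    simpa using this
  have h3 : HasDerivAt (fun w : ℂ => 1 - w) (-1) w := by
    simpa using (hasDerivAt_id w).const_sub 1
  have h4 := h2.fun_div h3 h1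
  have h5 : (-(1 - Complex.I) * (1 - w) - ((1 + Complex.I) - (1 - Complex.I) * w) * -1)
      / (1 - w) ^ 2 = 2 * Complex.I / (1 - w) ^ 2 := by
    congr 1
    ring
  rw [h5] at h4
  exact h4

private lemma QM_hd {w : ℂ} (hw : w ∈ Metric.ball (0 : ℂ) 1) :
    HasDerivAt QM (QM w * (Real.pi * Complex.I / 2 * (2 * Complex.I / (1 - w) ^ 2))) w := by
  have h1 := (tauM_hd hw).const_mul (Real.pi * Complex.I / 2)
  exact h1.cexp

private lemma QM_zero : QM 0 = Q4 := by
  unfold QM Q4 tauM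
  have h1 : (Real.pi * Complex.I / 2 * (((1 + Complex.I) - (1 - Complex.I) * 0) / (1 - 0)) : ℂ)
      = Real.pi / 2 * Complex.I + ((-(Real.pi / 2) : ℝ) : ℂ) := by
    push_cast
    have := Complex.I_mul_I
    simp only [mul_zero, sub_zero, div_one]
    linear_combination (Real.pi / 2 : ℂ) * this
  rw [h1, Complex.exp_add, Complex.exp_pi_div_two_mul_I, Complex.ofReal_exp]

theorem phi4_exists : ∃ g h : ℂ → ℂ, DifferentiableOn ℂ g (Metric.ball 0 1) ∧
    DifferentiableOn ℂ h (Metric.ball 0 1) ∧ g 0 = 0 ∧ h 0 = 1 ∧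
    (∀ w ∈ Metric.ball (0 : ℂ) 1, g w ^ 4 ≠ h w ^ 4) ∧ 2.17 < ‖deriv g 0‖ := by
  obtain ⟨c, s, C, S, hc, hcs, hsS, hC0, hC, ht, ht', hd, hd'⟩ := thD
  have h0mem : (0 : ℂ) ∈ Metric.ball (0 : ℂ) 1 := Metric.mem_ball_self one_pos
  have hI : Complex.I * Complex.I = -1 := Complex.I_mul_I
  have hs : s = (Real.sqrt 2 - 1) * c := by linarith
  have h22 : Real.sqrt 2 * Real.sqrt 2 = 2 := Real.mul_self_sqrt (by norm_num)
  -- the functions
  have ht3d : ∀ q : ℂ, ‖q‖ < 1 → HasDerivAt t3 (deriv t3 q) q := fun q hq =>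
    (t3_diff.differentiableAt (Metric.isOpen_ball.mem_nhds (by simpa using hq))).hasDerivAt
  have hneg : ∀ w ∈ Metric.ball (0 : ℂ) 1, ‖-QM w‖ < 1 := fun w hw => by
    rw [norm_neg]; exact QM_norm hw
  have hAd : ∀ w ∈ Metric.ball (0 : ℂ) 1, HasDerivAt (fun w => t3 (QM w))
      (deriv t3 (QM w) * (QM w * (Real.pi * Complex.I / 2 * (2 * Complex.I / (1 - w) ^ 2)))) w :=
    fun w hw => (ht3d _ (QM_norm hw)).comp w (QM_hd hw)
  have hBd : ∀ w ∈ Metric.ball (0 : ℂ) 1, HasDerivAt (fun w => t3 (-QM w))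
      (deriv t3 (-QM w) *
        (-(QM w * (Real.pi * Complex.I / 2 * (2 * Complex.I / (1 - w) ^ 2))))) w :=
    fun w hw => HasDerivAt.comp (h₂ := t3) (h := fun w => -QM w) w (ht3d _ (hneg w hw))
      (QM_hd hw).fun_neg
  set a0 : ℂ := t3 Q4 ^ 2 with ha0
  have ha0ne : a0 ≠ 0 := by
    rw [ha0]
    refine pow_ne_zero _ (t3_ne _ ?_)
    rw [← QM_zero]
    exact QM_norm h0mem
  have hb0 : t3 (-Q4) ^ 2 = -Complex.I * a0 := by
    rw [ha0, ht, ht']
    have h1 : (s : ℂ) ^ 2 = c ^ 2 - 2 * c * s := by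
      have h2 : s ^ 2 = c ^ 2 - 2 * c * s := by
        rw [hs]
        have h3 : Real.sqrt 2 ^ 2 = 2 := by rw [pow_two]; exact h22
        ring_nf
        rw [h3]
        ring
      exact_mod_cast h2
    linear_combination (-(1 + Complex.I)) * h1 + ((s : ℂ) ^ 2 + 2 * c * s +
      (s : ℂ) ^ 2 * Complex.I) * hI
  refine ⟨fun w => (-Complex.I * (t3 (QM w) ^ 2 - Complex.I * t3 (-QM w) ^ 2)) / (2 * a0),
    fun w => (t3 (QM w) ^ 2 + Complex.I * t3 (-QM w) ^ 2) / (2 * a0), ?_, ?_, ?_, ?_, ?_, ?_⟩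
  · intro w hw
    have h1 := (((hAd w hw).fun_pow 2).fun_sub (((hBd w hw).fun_pow 2).const_mul
      Complex.I)).const_mul (-Complex.I)
    exact (h1.div_const (2 * a0)).differentiableAt.differentiableWithinAt
  · intro w hw
    have h1 := (((hAd w hw).fun_pow 2).fun_add (((hBd w hw).fun_pow 2).const_mul Complex.I))
    exact (h1.div_const (2 * a0)).differentiableAt.differentiableWithinAt
  · show (-Complex.I * (t3 (QM 0) ^ 2 - Complex.I * t3 (-QM 0) ^ 2)) / (2 * a0) = 0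
    rw [QM_zero, hb0, ← ha0]
    have : a0 - Complex.I * (-Complex.I * a0) = 0 := by linear_combination a0 * hI
    rw [this, mul_zero, zero_div]
  · show (t3 (QM 0) ^ 2 + Complex.I * t3 (-QM 0) ^ 2) / (2 * a0) = 1
    rw [QM_zero, hb0, ← ha0]
    rw [div_eq_one_iff_eq (mul_ne_zero two_ne_zero ha0ne)]
    linear_combination (-a0) * hI
  · intro w hw heq
    have hq := QM_norm hw
    have hj := jacobi (QM w) hq
    have h1 : t3 (QM w) ≠ 0 := t3_ne _ hq
    have h2 : t3 (-QM w) ≠ 0 := t3_ne _ (hneg w hw)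
    have h3 : ps (QM w) ≠ 0 := ps_ne _ hq
    have h4 := QM_ne w
    simp only [div_pow] at heq
    have h5 : (2 * a0) ^ 4 ≠ 0 := pow_ne_zero _ (mul_ne_zero two_ne_zero ha0ne)
    rw [div_left_inj' h5] at heq
    set x := t3 (QM w)
    set y := t3 (-QM w)
    have h6 : (-Complex.I * (x ^ 2 - Complex.I * y ^ 2)) ^ 4 - (x ^ 2 + Complex.I * y ^ 2) ^ 4
        = -8 * Complex.I * x ^ 2 * y ^ 2 * (x ^ 4 - y ^ 4) := by
      have hI2 : Complex.I ^ 2 = -1 := Complex.I_sq
      have hI4 : Complex.I ^ 4 = 1 := Complex.I_pow_four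
      have hI3 : Complex.I ^ 3 = -Complex.I := Complex.I_pow_three
      have e1 : (-Complex.I * (x ^ 2 - Complex.I * y ^ 2)) ^ 4
          = Complex.I ^ 4 * (x ^ 2 - Complex.I * y ^ 2) ^ 4 := by ring
      rw [e1, hI4, one_mul]
      ring_nf
      rw [hI3]
      ring
    rw [heq, sub_self] at h6
    have h7 : x ^ 4 - y ^ 4 ≠ 0 := by
      rw [hj]
      exact mul_ne_zero (mul_ne_zero (by norm_num) h4) (pow_ne_zero _ h3)
    have h8 : -8 * Complex.I * x ^ 2 * y ^ 2 * (x ^ 4 - y ^ 4) ≠ 0 := by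
      refine mul_ne_zero (mul_ne_zero (mul_ne_zero (mul_ne_zero (by norm_num) Complex.I_ne_zero)
        (pow_ne_zero _ h1)) (pow_ne_zero _ h2)) h7
    exact h8 h6.symm
  · have h1 := ((((hAd 0 h0mem).fun_pow 2).fun_sub (((hBd 0 h0mem).fun_pow 2).const_mul
      Complex.I)).const_mul (-Complex.I)).div_const (2 * a0)
    rw [h1.deriv]
    simp only [QM_zero]
    have e1 : (Q4 * (Real.pi * Complex.I / 2 * (2 * Complex.I / (1 - 0) ^ 2)) : ℂ)
        = -Real.pi * Q4 := by
      rw [sub_zero, one_pow, div_one]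
      linear_combination (Real.pi * Q4) * hI
    rw [e1]
    have e2 : deriv t3 Q4 * (-Real.pi * Q4) = -Real.pi * (C + S * Complex.I) := by
      rw [← hd]; ring
    have e3 : deriv t3 (-Q4) * (-(-Real.pi * Q4)) = -Real.pi * (C - S * Complex.I) := by
      rw [← hd']; ring
    rw [e2, e3, ht, ht']
    have e4 : (-Complex.I * (((2 : ℕ) : ℂ) * (c + s * Complex.I) ^ (2 - 1) *
          (-Real.pi * (C + S * Complex.I)) -
        Complex.I * (((2 : ℕ) : ℂ) * (c - s * Complex.I) ^ (2 - 1) *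
          (-Real.pi * (C - S * Complex.I))))) / (2 * a0)
        = ((Real.pi * (c * S + s * S + s * C - c * C) : ℝ) : ℂ) * (-(1 + Complex.I)) / a0 := by
      rw [div_eq_div_iff (mul_ne_zero two_ne_zero ha0ne) ha0ne]
      push_cast
      simp only [pow_one]
      linear_combination (2 * Real.pi * a0 * (Complex.I * (c * S + s * C + s * S)
        + (-(c * C) + c * S + s * C) + (1 - Complex.I ^ 2) * (s * S)) : ℂ) * hI
    rw [e4, norm_div, norm_mul, norm_neg]
    have e5 : ‖(1 : ℂ) + Complex.I‖ = Real.sqrt 2 := by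
      have h2 : ‖(1 : ℂ) + Complex.I‖ ^ 2 = 2 := by
        rw [← Complex.normSq_eq_norm_sq, Complex.normSq_apply]
        simp
        norm_num
      rw [← h2, Real.sqrt_sq (norm_nonneg _)]
    have e6 : ‖a0‖ = c ^ 2 + s ^ 2 := by
      rw [ha0, norm_pow, ht, ← Complex.normSq_eq_norm_sq, Complex.normSq_apply]
      simp
      ring
    rw [e5, e6, Complex.norm_real, Real.norm_eq_abs]
    have hpi : 3.1415 < Real.pi := by have := Real.pi_gt_d4; linarith
    have hsq1 : 1.41421 < Real.sqrt 2 := by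
      rw [Real.lt_sqrt (by norm_num)]; norm_num
    have hc0 : 0 < c := by linarith
    have hs0 : 0 < s := by rw [hs]; exact mul_pos (by linarith) hc0
    have k1 : (2 - Real.sqrt 2) * c * (c - C) ≤ c * S + s * S + s * C - c * C := by
      have k2 : c * s + s * s ≤ c * S + s * S := by nlinarith
      have k3 : c * s + s * s = (2 - Real.sqrt 2) * c ^ 2 := by
        rw [hs]; ring_nf; rw [show Real.sqrt 2 ^ 2 = 2 by rw [pow_two]; exact h22]; ring
      have k4 : s * C - c * C = -((2 - Real.sqrt 2) * c * C) := by rw [hs]; ring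
      have k5 : (2 - Real.sqrt 2) * c * (c - C) = (2 - Real.sqrt 2) * c ^ 2
        - (2 - Real.sqrt 2) * c * C := by ring
      linarith
    have k6 : c ^ 2 + s ^ 2 = 2 * (2 - Real.sqrt 2) * c ^ 2 := by
      rw [hs]; ring_nf; rw [show Real.sqrt 2 ^ 2 = 2 by rw [pow_two]; exact h22]; ring
    have hlt2 : Real.sqrt 2 < 1.41422 := by
      rw [Real.sqrt_lt' (by norm_num)]; norm_num
    have k7 : 0 < 2 - Real.sqrt 2 := by linarith
    have k8 : 0 < c ^ 2 + s ^ 2 := by positivity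
    have k9 : 0 < c - C := by linarith
    have k10 : 0 < (2 - Real.sqrt 2) * c * (c - C) := by positivity
    rw [abs_of_pos (mul_pos Real.pi_pos (lt_of_lt_of_le k10 k1)), lt_div_iff₀ k8, k6]
    have k11 : Real.pi * ((2 - Real.sqrt 2) * c * (c - C)) * Real.sqrt 2
        ≤ Real.pi * (c * S + s * S + s * C - c * C) * Real.sqrt 2 := by
      have := Real.pi_pos
      gcongr
    refine lt_of_lt_of_le ?_ k11
    have k12 : (2.17 : ℝ) * (2 * c) < Real.pi * (c - C) * Real.sqrt 2 := by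
      have k13 : 4.4427 * (c - C) ≤ Real.pi * (c - C) * Real.sqrt 2 := by
        have k14 : 4.4427 ≤ Real.pi * Real.sqrt 2 := by nlinarith
        have k15 : Real.pi * (c - C) * Real.sqrt 2 = (Real.pi * Real.sqrt 2) * (c - C) := by ring
        rw [k15]
        exact mul_le_mul_of_nonneg_right k14 k9.le
      have k16 : (2.17 : ℝ) * (2 * c) < 4.4427 * (c - C) := by nlinarith
      linarith
    have k17 := mul_lt_mul_of_pos_left k12 (mul_pos k7 hc0)
    have k18 : (2 - Real.sqrt 2) * c * (2.17 * (2 * c)) = 2.17 * (2 * (2 - Real.sqrt 2) * c ^ 2) := by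
      ring
    have k19 : (2 - Real.sqrt 2) * c * (Real.pi * (c - C) * Real.sqrt 2)
        = Real.pi * ((2 - Real.sqrt 2) * c * (c - C)) * Real.sqrt 2 := by ring
    rw [k18, k19] at k17
    exact k17

end FacC
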