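import Pool.Agent.Lib.FacC.Defs

/-!
PULL BACK by a meromorphic map g/h of the disc, when infinity is a regular point: the entries of B
have degree at most (deg E) - 2.

With N = deg E and hom_N(P)(x,y) = ∑_(i <= N) P_i x^i y^(N-i) the pulled back matrix is
(g' h - g h') hom_(N-2)(B)(g,h) / hom_N(E)(g,h).
-/

open Polynomial Filter Topology

namespace FacC

private noncomputable def hom (N : ℕ) (P : ℂ[X]) (x y : ℂ) : ℂ :=
  ∑ i ∈ Finset.range (N + 1), P.coeff i * x ^ i * y ^ (N - i)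

private lemma hom_ne (N : ℕ) (P : ℂ[X]) (hP : P.natDegree ≤ N) (x y : ℂ) (hy : y ≠ 0) :
    hom N P x y = y ^ N * P.eval (x / y) := by
  unfold hom
  rw [eval_eq_sum_range' (Nat.lt_succ_of_le hP), Finset.mul_sum]
  refine Finset.sum_congr rfl fun i hi => ?_
  have hi' : i ≤ N := Nat.lt_succ_iff.mp (Finset.mem_range.mp hi)
  have h1 : y ^ N = y ^ i * y ^ (N - i) := by rw [← pow_add]; congr 1; omega
  rw [h1, div_pow]
  have h2 : y ^ i ≠ 0 := pow_ne_zero _ hy
  field_simp

private lemma hom_zero (N : ℕ) (P : ℂ[X]) (x : ℂ) : hom N P x 0 = P.coeff N * x ^ N := by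
  unfold hom
  rw [Finset.sum_range_succ, Finset.sum_eq_zero, zero_add, Nat.sub_self, pow_zero, mul_one]
  intro i hi
  have h1 : N - i ≠ 0 := by have := Finset.mem_range.mp hi; omega
  rw [zero_pow h1, mul_zero]

private lemma hom_diff (N : ℕ) (P : ℂ[X]) (g h : ℂ → ℂ)
    (hg : DifferentiableOn ℂ g (Metric.ball 0 1)) (hh : DifferentiableOn ℂ h (Metric.ball 0 1)) :
    DifferentiableOn ℂ (fun w => hom N P (g w) (h w)) (Metric.ball 0 1) := by
  unfold hom
  refine DifferentiableOn.fun_sum fun i _ => ?_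
  exact ((hg.fun_pow i).const_mul _).fun_mul (hh.fun_pow _)

theorem pull2 (E : ℤ[X]) (hE : 2 ≤ E.natDegree) (g h : ℂ → ℂ)
    (hg : DifferentiableOn ℂ g (Metric.ball 0 1)) (hh : DifferentiableOn ℂ h (Metric.ball 0 1))
    (hh0 : h 0 = 1)
    (hne : ∀ w ∈ Metric.ball (0 : ℂ) 1, h w ≠ 0 → (toC E).eval (g w / h w) ≠ 0)
    (hne0 : ∀ w ∈ Metric.ball (0 : ℂ) 1, h w = 0 → g w ≠ 0) :
    PullOK E ((E.natDegree - 2 : ℕ) : ℕ∞) g h := by
  intro n d B hB
  set N := E.natDegree with hN
  have hNC : (toC E).natDegree = N := by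
    unfold toC
    rw [Polynomial.natDegree_map_eq_of_injective]
    exact (Int.castRingHom ℂ).injective_int
  have hlead : (toC E).coeff N ≠ 0 := by
    rw [← hNC]
    have h1 : toC E ≠ 0 := by
      intro h
      rw [h, natDegree_zero] at hNC
      omega
    exact leadingCoeff_ne_zero.mpr h1
  have hEne : ∀ w ∈ Metric.ball (0 : ℂ) 1, hom N (toC E) (g w) (h w) ≠ 0 := by
    intro w hw
    by_cases h0 : h w = 0
    · rw [h0, hom_zero]
      exact mul_ne_zero hlead (pow_ne_zero _ (hne0 w hw h0))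
    · rw [hom_ne N _ hNC.le _ _ h0]
      exact mul_ne_zero (pow_ne_zero _ h0) (hne w hw h0)
  set BC := B.map (Polynomial.map (Int.castRingHom ℂ)) with hBC
  have hBd : ∀ i j, (BC i j).natDegree ≤ N - 2 := by
    intro i j
    have h1 : (B i j).natDegree ≤ N - 2 := by
      have := hB i j
      exact_mod_cast this
    exact le_trans (natDegree_map_le) h1
  have h0mem : (0 : ℂ) ∈ Metric.ball (0 : ℂ) 1 := Metric.mem_ball_self one_pos
  refine ⟨fun w => Matrix.of fun i j => (deriv g w * h w - g w * deriv h w) *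
    hom (N - 2) (BC i j) (g w) (h w) / hom N (toC E) (g w) (h w), ?_, ?_⟩
  · intro i j
    have h1 : DifferentiableOn ℂ (deriv g) (Metric.ball 0 1) := hg.deriv Metric.isOpen_ball
    have h2 : DifferentiableOn ℂ (deriv h) (Metric.ball 0 1) := hh.deriv Metric.isOpen_ball
    exact (((h1.fun_mul hh).fun_sub (hg.fun_mul h2)).fun_mul
      (hom_diff (N - 2) (BC i j) g h hg hh)).fun_div (hom_diff N (toC E) g h hg hh) hEne
  · have hhne : ∀ᶠ w in 𝓝 (0 : ℂ), h w ≠ 0 := by
      have h1 : DifferentiableAt ℂ h 0 := hh.differentiableAt (Metric.isOpen_ball.mem_nhds h0mem)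
      exact h1.continuousAt.eventually_ne (by rw [hh0]; exact one_ne_zero)
    filter_upwards [hhne, Metric.isOpen_ball.mem_nhds h0mem] with w hw hwb
    have hgw : DifferentiableAt ℂ g w := hg.differentiableAt (Metric.isOpen_ball.mem_nhds hwb)
    have hhw : DifferentiableAt ℂ h w := hh.differentiableAt (Metric.isOpen_ball.mem_nhds hwb)
    have hd : deriv (fun x => g x / h x) w = (deriv g w * h w - g w * deriv h w) / h w ^ 2 :=
      deriv_fun_div hgw hhw hw
    ext1 i j
    rw [hd]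
    simp only [Matrix.of_apply, Matrix.smul_apply, smul_eq_mul, Matrix.map_apply]
    have hEw := hEne w hwb
    rw [hom_ne N _ hNC.le _ _ hw] at hEw ⊢
    rw [hom_ne (N - 2) _ (hBd i j) _ _ hw]
    have h3 : h w ^ N = h w ^ 2 * h w ^ (N - 2) := by rw [← pow_add]; congr 1; omega
    rw [h3] at hEw ⊢
    have h4 : (toC E).eval (g w / h w) ≠ 0 := by
      intro h5
      rw [h5, mul_zero] at hEw
      exact hEw rfl
    have h5 : h w ^ (N - 2) ≠ 0 := pow_ne_zero _ hw
    field_simp

end FacC
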