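import Pool.Agent.Lib.FacC.Main
import Pool.Agent.Lib.FacC.Pull2
import Pool.Agent.Lib.FacC.Phi4

/-!
The case E = (X^4 - 1)^k with infinity a regular point (assembly).
-/

open Polynomial Filter Topology

namespace FacC

private lemma E4_natDegree (k : ℕ) : ((X ^ 4 - 1 : ℤ[X]) ^ k).natDegree = 4 * k := by
  have h1 : (X ^ 4 - 1 : ℤ[X]).Monic := by
    have := monic_X_pow_sub_C (1 : ℤ) (n := 4) (by norm_num)
    simpa using this
  rw [h1.natDegree_pow]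
  have h2 : (X ^ 4 - 1 : ℤ[X]).natDegree = 4 := by
    have := natDegree_X_pow_sub_C (n := 4) (r := (1 : ℤ))
    simpa using this
  rw [h2]
  ring

private lemma toC_E4 (k : ℕ) (z : ℂ) : (toC ((X ^ 4 - 1 : ℤ[X]) ^ k)).eval z = (z ^ 4 - 1) ^ k := by
  unfold toC
  simp

theorem map4_exists (k : ℕ) (hk : 1 ≤ k) : ∃ g h : ℂ → ℂ,
    DifferentiableOn ℂ g (Metric.ball 0 1) ∧ DifferentiableOn ℂ h (Metric.ball 0 1) ∧
    g 0 = 0 ∧ h 0 = 1 ∧ PullOK ((X ^ 4 - 1 : ℤ[X]) ^ k) ((4 * k - 2 : ℕ) : ℕ∞) g h ∧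
    2.17 < ‖deriv g 0‖ := by
  obtain ⟨g, h, hg, hh, hg0, hh0, hgh, hd⟩ := phi4_exists
  refine ⟨g, h, hg, hh, hg0, hh0, ?_, hd⟩
  have h1 := pull2 ((X ^ 4 - 1 : ℤ[X]) ^ k) (by rw [E4_natDegree]; omega) g h hg hh hh0
    (fun w hw hhw => by
      rw [toC_E4]
      refine pow_ne_zero _ ?_
      rw [div_pow, sub_ne_zero]
      intro h5
      rw [div_eq_one_iff_eq (pow_ne_zero _ hhw)] at h5
      exact hgh w hw h5)
    (fun w hw hhw hgw => by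
      refine hgh w hw ?_
      rw [hhw, hgw])
  rwa [E4_natDegree] at h1

/-- The question for `(X^4-1)^k`, infinity a regular point, `S` = exceptional primes of `N`. -/
theorem main4N (R : Subring ℂ) [Module.Finite ℤ R] (n k : ℕ)
    (B : Matrix (Fin n) (Fin n) R[X]) (hB : ∀ i j, (B i j).natDegree + 2 ≤ 4 * k)
    (A : ℂ → Matrix (Fin n) (Fin n) ℂ)
    (hA : ∀ z, (toC ((X ^ 4 - 1 : ℤ[X]) ^ k)).eval z ≠ 0 →
      (toC ((X ^ 4 - 1 : ℤ[X]) ^ k)).eval z • A z = (B.map (Polynomial.map R.subtype)).map (eval z))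
    (N : R) (S : Finset ℕ) (hSp : ∀ p ∈ S, p.Prime)
    (hκ : Real.exp (∑ p ∈ S, Real.log p / ((p : ℝ) - 1)) ≤ 2.17)
    (hN : ∀ p : ℕ, p.Prime → p ∉ S → IsCoprime N (p : R))
    (hfac : ∀ m : ℕ, 1 ≤ m → ∃ Q : Matrix (Fin n) (Fin n) R[X],
      ∀ z, (toC ((X ^ 4 - 1 : ℤ[X]) ^ k)).eval z ≠ 0 →
      ((N : ℂ) * (toC ((X ^ 4 - 1 : ℤ[X]) ^ k)).eval z) ^ m • Aseq A m z =
        ((m.factorial : ℕ) : ℂ) • (Q.map (Polynomial.map R.subtype)).map (eval z)) :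
    AllAlg (toC ((X ^ 4 - 1 : ℤ[X]) ^ k)) (B.map (Polynomial.map R.subtype)) := by
  rcases Nat.eq_zero_or_pos n with rfl | hn
  · intro U _ _ y _ i
    exact i.elim0
  have hk : 1 ≤ k := by
    have := hB ⟨0, hn⟩ ⟨0, hn⟩
    omega
  obtain ⟨g, h, hg, hh, hg0, hh0, hpull, hd⟩ := map4_exists k hk
  have hE0 : ((X ^ 4 - 1 : ℤ[X]) ^ k).eval 0 = (-1) ^ k := by simp
  refine mainN R n ((X ^ 4 - 1 : ℤ[X]) ^ k) ?_ B A hA ((4 * k - 2 : ℕ) : ℕ∞) ?_ g h hg hh hg0 hh0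
    hpull N S hSp ?_ hN hfac
  · rw [hE0]
    exact pow_ne_zero _ (by norm_num)
  · intro i j
    have h1 : (B i j).natDegree ≤ 4 * k - 2 := by have := hB i j; omega
    exact_mod_cast h1
  · rw [hE0]
    have h2 : |(((-1) ^ k : ℤ) : ℝ)| = 1 := by
      push_cast
      rw [abs_pow, abs_neg, abs_one, one_pow]
    rw [h2, mul_one]
    exact lt_of_le_of_lt hκ hd

/-- The special case `N = 2^a` up to factors prime to everything. -/
theorem main4two (R : Subring ℂ) [Module.Finite ℤ R] (n k : ℕ)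
    (B : Matrix (Fin n) (Fin n) R[X]) (hB : ∀ i j, (B i j).natDegree + 2 ≤ 4 * k)
    (A : ℂ → Matrix (Fin n) (Fin n) ℂ)
    (hA : ∀ z, (toC ((X ^ 4 - 1 : ℤ[X]) ^ k)).eval z ≠ 0 →
      (toC ((X ^ 4 - 1 : ℤ[X]) ^ k)).eval z • A z = (B.map (Polynomial.map R.subtype)).map (eval z))
    (a : ℕ)
    (hfac : ∀ m : ℕ, 1 ≤ m → ∃ Q : Matrix (Fin n) (Fin n) R[X],
      ∀ z, (toC ((X ^ 4 - 1 : ℤ[X]) ^ k)).eval z ≠ 0 →
      ((2 : ℂ) ^ a * (toC ((X ^ 4 - 1 : ℤ[X]) ^ k)).eval z) ^ m • Aseq A m z =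
        ((m.factorial : ℕ) : ℂ) • (Q.map (Polynomial.map R.subtype)).map (eval z)) :
    AllAlg (toC ((X ^ 4 - 1 : ℤ[X]) ^ k)) (B.map (Polynomial.map R.subtype)) := by
  refine main4N R n k B hB A hA (2 ^ a) {2} (by simpa using Nat.prime_two) ?_ ?_ ?_
  · rw [Finset.sum_singleton]
    have h1 : Real.log ((2 : ℕ) : ℝ) / (((2 : ℕ) : ℝ) - 1) = Real.log 2 := by
      norm_num
    rw [h1, Real.exp_log (by norm_num)]
    norm_num
  · intro p hp hp2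
    have h1 : Nat.Coprime (2 ^ a) p := by
      refine Nat.Coprime.pow_left _ ?_
      rw [Nat.coprime_primes Nat.prime_two hp]
      intro h
      exact hp2 (by simp [← h])
    have h2 : IsCoprime ((2 ^ a : ℕ) : ℤ) (p : ℤ) := Nat.isCoprime_iff_coprime.mpr h1
    have h3 := h2.map (Int.castRingHom R)
    simpa using h3
  · intro m hm
    obtain ⟨Q, hQ⟩ := hfac m hm
    refine ⟨Q, fun z hz => ?_⟩
    have h1 := hQ z hz
    push_cast
    exact h1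

end FacC
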