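import Pool.Agent.Lib.FacC.CoreZ
import Pool.Agent.Lib.FacC.Scal
import Pool.Agent.Lib.FacC.GMap
import Pool.Agent.Lib.FacC.Bridge
import Pool.Agent.Lib.FacC.Lev

/-!
THE GENERAL THEOREM WITH LEVELS over a subring R of ℂ, finite over ℤ (assembly; compare Main.lean).
-/

open Polynomial Filter Topology

namespace FacC

private lemma toR_CJ (R : Subring ℂ) (E : ℤ[X]) :
    (E.map (Int.castRingHom R)).map R.subtype = toC E := by
  unfold toC
  rw [Polynomial.map_map]
  congr 1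

private lemma bridgeJ (R : Subring ℂ) (n : ℕ) (E : ℤ[X]) (B : Matrix (Fin n) (Fin n) R[X])
    (A : ℂ → Matrix (Fin n) (Fin n) ℂ)
    (hA : ∀ z, (toC E).eval z ≠ 0 →
      (toC E).eval z • A z = (B.map (Polynomial.map R.subtype)).map (eval z))
    (m : ℕ) (z : ℂ) (hz : (toC E).eval z ≠ 0) (i j : Fin n) :
    ((toC E).eval z) ^ m * Aseq A m z i j
      = ((Gm (E.map (Int.castRingHom R)) B m i j).map R.subtype).eval z := by
  have h1 := bridge (toC E) (B.map (Polynomial.map R.subtype)) A hA m z hz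
  have h2 := congrFun (congrFun h1 i) j
  rw [Matrix.smul_apply, smul_eq_mul] at h2
  rw [h2]
  have h3 := Gm_map R.subtype (E.map (Int.castRingHom R)) B m
  rw [toR_CJ] at h3
  rw [← h3]
  rfl

/-- `lev p = j`: factorial cancellation at `p` for `m = p^i`, `i ≤ j`, up to a factor `N` prime to `p`
(`j = 0`: nothing; `j = 1`: vanishing `p`-curvature; `j = ⊤`: for all `m`, also up to a constant
`c`). -/
theorem mainJ (R : Subring ℂ) [Module.Finite ℤ R] (n : ℕ) (E : ℤ[X]) (hE0 : E.eval 0 ≠ 0)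
    (hEp : ∀ p : ℕ, p.Prime → E.map (Int.castRingHom (ZMod p)) ≠ 0)
    (B : Matrix (Fin n) (Fin n) R[X]) (A : ℂ → Matrix (Fin n) (Fin n) ℂ)
    (hA : ∀ z, (toC E).eval z ≠ 0 →
      (toC E).eval z • A z = (B.map (Polynomial.map R.subtype)).map (eval z))
    (β : ℕ∞) (hβ : ∀ i j, ((B i j).natDegree : ℕ∞) ≤ β)
    (g h : ℂ → ℂ) (hg : DifferentiableOn ℂ g (Metric.ball 0 1))
    (hh : DifferentiableOn ℂ h (Metric.ball 0 1)) (hg0 : g 0 = 0) (hh0 : h 0 = 1)
    (hpull : PullOK E β g h) (κ : ℝ)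
    (hκ : Real.exp κ * |((E.eval 0 : ℤ) : ℝ)| < ‖deriv g 0‖) (lev : ℕ → ℕ∞)
    (hS : ∀ F : Finset ℕ, (∀ p ∈ F, p.Prime) → ∑ p ∈ F, wl lev p * Real.log p ≤ κ)
    (c : ℕ) (hc : c ≠ 0)
    (hfac : ∀ p : ℕ, p.Prime → ∃ N : R, IsCoprime N (p : R) ∧
      ∀ m : ℕ, 1 ≤ m → (∀ j : ℕ, lev p = j → ∃ i ≤ j, m = p ^ i) →
        ∃ Q : Matrix (Fin n) (Fin n) R[X], ∀ z, (toC E).eval z ≠ 0 →
          ((if lev p = ⊤ then (c : ℂ) else 1) * ((N : ℂ) * (toC E).eval z) ^ m) • Aseq A m z =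
            ((p ^ padicValNat p m.factorial : ℕ) : ℂ) •
              (Q.map (Polynomial.map R.subtype)).map (eval z)) :
    AllAlg (toC E) (B.map (Polynomial.map R.subtype)) := by
  classical
  have hEC : toC E ≠ 0 := by
    intro h
    have h3 : (toC E).eval 0 = ((E.eval 0 : ℤ) : ℂ) := by
      unfold toC
      rw [eval_map, eval₂_at_zero, ← coeff_zero_eq_eval_zero]
      simp
    rw [h, eval_zero] at h3
    exact hE0 (by exact_mod_cast h3.symm)
  obtain ⟨d, B', hdeg, hdvd, halg⟩ := scal R n E B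
  apply halg
  have hβ' : ∀ i j, ((B' i j).natDegree : ℕ∞) ≤ β := by
    intro i j
    induction β using ENat.recTopCoe with
    | top => exact le_top
    | coe b =>
      have h3 : ∀ i j, (B i j).natDegree ≤ b := fun i j => by
        have := hβ i j
        exact_mod_cast this
      have h4 := hdeg b h3 i j
      exact_mod_cast h4
  -- the divisibility at `p` over ℤ
  have hdiv : ∀ p : ℕ, p.Prime → ∀ m : ℕ, (∀ j : ℕ, lev p = j → ∃ i ≤ j, m = p ^ i) → ∀ c' : ℕ,
      c' = (if lev p = ⊤ then c else 1) → ∀ i j,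
      ((p ^ padicValNat p m.factorial : ℕ) : ℤ[X]) ∣ (c' : ℤ[X]) * Gm E B' m i j := by
    intro p hp m hm c' hc' i j
    rcases Nat.eq_zero_or_pos m with rfl | hm0
    · simp
    obtain ⟨N, hN, hf⟩ := hfac p hp
    obtain ⟨Q, hQ⟩ := hf m hm0 hm
    refine hdvd m c' _ ?_ i j
    intro i j
    have hpoly : C (N ^ m) * ((c' : R[X]) * Gm (E.map (Int.castRingHom R)) B m i j)
        = ((p ^ padicValNat p m.factorial : ℕ) : R[X]) * Q i j := by
      refine poly_of_fun R (toC E) hEC _ _ ?_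
      intro z hz
      have h3 := congrFun (congrFun (hQ z hz) i) j
      have h4 := bridgeJ R n E B A hA m z hz i j
      have h5 : (if lev p = ⊤ then (c : ℂ) else 1) = (c' : ℂ) := by
        rw [hc']
        split_ifs <;> simp
      rw [h5, Matrix.smul_apply, Matrix.smul_apply, smul_eq_mul, smul_eq_mul] at h3
      rw [Polynomial.map_mul, Polynomial.map_mul, Polynomial.map_mul, Polynomial.map_C, eval_mul,
        eval_mul, eval_mul, eval_C, Polynomial.map_natCast, Polynomial.map_natCast, eval_natCast,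
        eval_natCast, ← h4]
      have h6 : (((p ^ padicValNat p m.factorial : ℕ) : ℂ) *
          (Q.map (Polynomial.map R.subtype)).map (eval z) i j) =
          ((p ^ padicValNat p m.factorial : ℕ) : ℂ) * ((Q i j).map R.subtype).eval z := rfl
      rw [h6] at h3
      rw [← h3]
      have h7 : R.subtype (N ^ m) = (N : ℂ) ^ m := by simp
      rw [h7]
      ring
    exact cop N p hN m _ _ (Q i j) hpoly
  obtain ⟨A1, hA1d, hA1e⟩ := hpull n d B' hβ'
  refine coreZ E hE0 B' (wl lev) (wl_nonneg lev) κ hS c hc ?_ g h hg hh hg0 hh0 hκ A1 hA1d hA1e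
  intro p hp m i j
  by_cases htop : lev p = ⊤
  · have h1 := hdiv p hp m (fun j hj => by rw [htop] at hj; exact absurd hj (by simp)) c
      (by rw [if_pos htop]) i j
    exact h1.mul_left _
  · obtain ⟨J, hJ⟩ := ENat.ne_top_iff_exists.mp htop
    have hq : 0 < p ^ J := Nat.pow_pos hp.pos
    have h0 : ∀ m ≤ p ^ J, ∀ i j,
        ((p ^ padicValNat p m.factorial : ℕ) : ℤ[X]) ∣ Gm E B' m i j := by
      refine gintP E B' p hp (hEp p hp) J fun r hr i j => ?_
      have h1 := hdiv p hp (p ^ r) (fun j hj => by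
        rw [← hJ] at hj
        have : J = j := by exact_mod_cast hj
        exact ⟨r, by omega, rfl⟩) 1 (by rw [if_neg htop]) i j
      rwa [Nat.cast_one, one_mul] at h1
    obtain ⟨G', hG'⟩ := gintJ E B' p hp (hEp p hp) (p ^ J) hq h0 m i j
    have hw : wl lev p = 1 / ((p : ℝ) ^ J * ((p : ℝ) - 1)) := by
      unfold wl
      rw [if_pos ⟨hp, htop⟩, ← hJ, ENat.toNat_coe]
    rw [hw, hG', ← mul_assoc, mul_comm (((p ^ ⌊(1 / ((p : ℝ) ^ J * ((p : ℝ) - 1))) * m⌋₊ : ℕ) : ℤ[X]))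
      (c : ℤ[X]), mul_assoc, ← mul_assoc (((p ^ ⌊(1 / ((p : ℝ) ^ J * ((p : ℝ) - 1))) * m⌋₊ : ℕ) : ℤ[X])),
      ← Nat.cast_mul, ← pow_add]
    exact ((Nat.cast_dvd_cast (pow_dvd_pow p (wt_lev p hp J m))).mul_right _).mul_left _

end FacC
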