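import Pool.Agent.Lib.FacC.CoreK
import Pool.Agent.Lib.FacC.Scal
import Pool.Agent.Lib.FacC.GInt
import Pool.Agent.Lib.FacC.Bridge

/-!
THE GENERAL THEOREM OVER A SUBRING R OF ℂ, FINITE OVER ℤ, base points σ(a), a an algebraic integer
of a number field (assembly; compare Main.lean).
-/

open Polynomial Filter Topology NumberField

namespace FacC

private lemma toR_CK (R : Subring ℂ) (E : ℤ[X]) :
    (E.map (Int.castRingHom R)).map R.subtype = toC E := by
  unfold toC
  rw [Polynomial.map_map]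
  congr 1

private lemma bridgeK (R : Subring ℂ) (n : ℕ) (E : ℤ[X]) (B : Matrix (Fin n) (Fin n) R[X])
    (A : ℂ → Matrix (Fin n) (Fin n) ℂ)
    (hA : ∀ z, (toC E).eval z ≠ 0 →
      (toC E).eval z • A z = (B.map (Polynomial.map R.subtype)).map (eval z))
    (m : ℕ) (z : ℂ) (hz : (toC E).eval z ≠ 0) (i j : Fin n) :
    ((toC E).eval z) ^ m * Aseq A m z i j
      = ((Gm (E.map (Int.castRingHom R)) B m i j).map R.subtype).eval z := by
  have h1 := bridge (toC E) (B.map (Polynomial.map R.subtype)) A hA m z hz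
  have h2 := congrFun (congrFun h1 i) j
  rw [Matrix.smul_apply, smul_eq_mul] at h2
  rw [h2]
  have h3 := Gm_map R.subtype (E.map (Int.castRingHom R)) B m
  rw [toR_CK] at h3
  rw [← h3]
  rfl

/-- `S`: primes without hypothesis; `T`: vanishing `p`-curvature; the other primes:
factorial cancellation, up to a factor `N` prime to `p`. -/
theorem mainK {K : Type*} [Field K] [NumberField K] (a v : 𝓞 K)
    (R : Subring ℂ) [Module.Finite ℤ R] (n : ℕ) (E : ℤ[X])
    (hE0 : ∀ σ : K →+* ℂ, (toC E).eval (σ (a : K)) * σ (v : K) = 1)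
    (B : Matrix (Fin n) (Fin n) R[X]) (A : ℂ → Matrix (Fin n) (Fin n) ℂ)
    (hA : ∀ z, (toC E).eval z ≠ 0 →
      (toC E).eval z • A z = (B.map (Polynomial.map R.subtype)).map (eval z))
    (g : (K →+* ℂ) → ℂ → ℂ) (hg : ∀ σ, DifferentiableOn ℂ (g σ) (Metric.ball 0 1))
    (hg0 : ∀ σ, g σ 0 = 0)
    (hgE : ∀ σ, ∀ x ∈ Metric.ball (0 : ℂ) 1, (toC E).eval (σ (a : K) + g σ x) ≠ 0)
    (κ M : ℝ) (hM : Real.exp κ < M) (hg1 : ∀ σ, M ≤ ‖deriv (g σ) 0‖) (S T : Set ℕ)
    (hS : ∀ F : Finset ℕ, (∀ p ∈ F, p.Prime) → ∑ p ∈ F, wt S T p * Real.log p ≤ κ)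
    (h1 : ∀ p : ℕ, p.Prime → p ∉ S → p ∈ T →
      E.map (Int.castRingHom (ZMod p)) ≠ 0 ∧ ∃ Q : Matrix (Fin n) (Fin n) R[X],
        ∀ z, (toC E).eval z ≠ 0 → ((toC E).eval z) ^ p • Aseq A p z =
          (p : ℂ) • (Q.map (Polynomial.map R.subtype)).map (eval z))
    (h2 : ∀ p : ℕ, p.Prime → p ∉ S → p ∉ T → ∃ N : R, IsCoprime N (p : R) ∧
      ∀ m : ℕ, 1 ≤ m → ∃ Q : Matrix (Fin n) (Fin n) R[X], ∀ z, (toC E).eval z ≠ 0 →
        ((N : ℂ) * (toC E).eval z) ^ m • Aseq A m z =
          ((p ^ padicValNat p m.factorial : ℕ) : ℂ) •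
            (Q.map (Polynomial.map R.subtype)).map (eval z)) :
    AllAlg (toC E) (B.map (Polynomial.map R.subtype)) := by
  classical
  obtain ⟨σ0⟩ : Nonempty (K →+* ℂ) := inferInstance
  have hEC : toC E ≠ 0 := by
    intro h
    have h3 := hE0 σ0
    rw [h, eval_zero, zero_mul] at h3
    exact zero_ne_one h3
  obtain ⟨d, B', -, hdvd, halg⟩ := scal R n E B
  apply halg
  refine coreK a v E hE0 B' (wt S T) ?_ κ hS 1 one_ne_zero ?_ g hg hg0 M hM hg1 hgE
  · intro p
    unfold wt
    split_ifs with hp hpS hpS1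
    · have h2 : (1 : ℝ) ≤ p := by exact_mod_cast hp.one_le
      exact div_nonneg zero_le_one (by linarith)
    · have h2 : (1 : ℝ) ≤ p := by exact_mod_cast hp.one_le
      exact div_nonneg zero_le_one (mul_nonneg (by linarith) (by linarith))
    · exact le_rfl
    · exact le_rfl
  · intro p hp m i j
    unfold wt
    rw [if_neg (not_not.mpr hp)]
    split_ifs with hpS hpS1
    · exact Dvd.dvd.mul_right (Nat.cast_dvd_cast (pow_dvd_pow p (wt_triv p m hp))) _
    · obtain ⟨hEp, Q, hQ⟩ := h1 p hp hpS hpS1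
      have hG : ∀ i j, (p : ℤ[X]) ∣ Gm E B' p i j := by
        have h3 := hdvd p 1 p (by
          intro i j
          refine ⟨Q i j, ?_⟩
          refine poly_of_fun R (toC E) hEC _ _ ?_
          intro z hz
          have h3 := congrFun (congrFun (hQ z hz) i) j
          rw [Matrix.smul_apply, Matrix.smul_apply, smul_eq_mul, smul_eq_mul,
            bridgeK R n E B A hA p z hz i j] at h3
          rw [Polynomial.map_mul, eval_mul, Polynomial.map_mul, eval_mul, Polynomial.map_natCast,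
            eval_natCast, Polynomial.map_natCast, eval_natCast, Nat.cast_one, one_mul]
          exact h3)
        intro i j
        have h4 := h3 i j
        rwa [Nat.cast_one, one_mul] at h4
      have h7 := gint E B' p hp hEp hG m i j
      obtain ⟨G', hG'⟩ := h7
      have h8 : ((p ^ ⌊(1 / ((p : ℝ) * ((p : ℝ) - 1))) * m⌋₊ : ℕ) : ℤ[X]) *
          (((1 : ℕ) : ℤ[X]) * Gm E B' m i j)
          = ((p ^ (⌊(1 / ((p : ℝ) * ((p : ℝ) - 1))) * m⌋₊ + m / p) : ℕ) : ℤ[X]) * G' := by
        rw [hG', pow_add]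
        push_cast
        ring
      rw [h8]
      exact Dvd.dvd.mul_right (Nat.cast_dvd_cast (pow_dvd_pow p (wt_curv p m hp))) _
    · rw [zero_mul, Nat.floor_zero, pow_zero, Nat.cast_one, one_mul]
      rcases Nat.eq_zero_or_pos m with rfl | hm
      · simp
      have h9 := hdvd m 1 (p ^ padicValNat p m.factorial)
      rw [Nat.cast_one] at h9
      refine h9 ?_ i j
      intro i j
      obtain ⟨N, hN, hfac⟩ := h2 p hp hpS hpS1
      obtain ⟨Q, hQ⟩ := hfac m hm
      rw [one_mul]
      have hpoly : C (N ^ m) * Gm (E.map (Int.castRingHom R)) B m i j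
          = ((p ^ padicValNat p m.factorial : ℕ) : R[X]) * Q i j := by
        refine poly_of_fun R (toC E) hEC _ _ ?_
        intro z hz
        have h3 := congrFun (congrFun (hQ z hz) i) j
        rw [Matrix.smul_apply, Matrix.smul_apply, smul_eq_mul, smul_eq_mul, mul_pow, mul_assoc,
          bridgeK R n E B A hA m z hz i j] at h3
        rw [Polynomial.map_mul, Polynomial.map_mul, Polynomial.map_C, eval_mul, eval_mul, eval_C,
          Polynomial.map_natCast, eval_natCast]
        simpa using h3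
      exact cop N p hN m _ _ (Q i j) hpoly

end FacC
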