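import Pool.Agent.Lib.FacC.Defs

/-!
LINEAR ODE ON A DISC: existence of the fundamental matrix (only Mathlib), by power series in a Banach
algebra: `(m+1) Y_(m+1) = sum_(i+j=m) a_i Y_j` (helper18).
-/

open Polynomial Filter Topology

namespace FacC

section Alg

variable {E : Type*} [NormedRing E] [NormedAlgebra ℂ E] [CompleteSpace E]

/-- coefficients of the fundamental matrix -/
noncomputable def odeCoef (a : ℕ → E) : ℕ → E
  | 0 => 1
  | m + 1 => ((m : ℂ) + 1)⁻¹ • ∑ i : Fin (m + 1), a (m - i) * odeCoef a i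

private lemma odeCoef_zero (a : ℕ → E) : odeCoef a 0 = 1 := by
  unfold odeCoef; rfl

private lemma odeCoef_succ (a : ℕ → E) (m : ℕ) :
    ((m : ℂ) + 1) • odeCoef a (m + 1) =
      ∑ kl ∈ Finset.HasAntidiagonal.antidiagonal m, a kl.1 * odeCoef a kl.2 := by
  rw [odeCoef, smul_inv_smul₀ (by exact_mod_cast Nat.succ_ne_zero m),
    Finset.Nat.antidiagonal_eq_map', Finset.sum_map]
  rw [Finset.sum_range]
  rfl

private lemma odeCoef_bound (a : ℕ → E) (ρ : ℝ) (hρ : 0 ≤ ρ)
    (ha : Summable fun m => ‖a m‖ * ρ ^ m) :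
    ∃ M : ℝ, ∀ m, ‖odeCoef a m‖ * ρ ^ m ≤ M := by
  set S := ∑' m, ‖a m‖ * ρ ^ m with hS
  obtain ⟨m0, hm0⟩ := exists_nat_ge (ρ * S)
  set M := ∑ j ∈ Finset.range (m0 + 1), ‖odeCoef a j‖ * ρ ^ j with hM
  have hM0 : 0 ≤ M := Finset.sum_nonneg fun j _ => by positivity
  refine ⟨M, fun m => ?_⟩
  induction m using Nat.strong_induction_on with
  | _ m ih =>
    rcases le_or_gt m m0 with h | h
    · exact Finset.single_le_sum (f := fun j => ‖odeCoef a j‖ * ρ ^ j)
        (fun j _ => by positivity) (Finset.mem_range.2 (by omega))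
    · obtain ⟨k, rfl⟩ : ∃ k, m = k + 1 := ⟨m - 1, by omega⟩
      have hk : (m0 : ℝ) ≤ (k : ℝ) := by exact_mod_cast (by omega : m0 ≤ k)
      have h1 : ((k : ℝ) + 1) * ‖odeCoef a (k + 1)‖ ≤
          ∑ kl ∈ Finset.HasAntidiagonal.antidiagonal k, ‖a kl.1‖ * ‖odeCoef a kl.2‖ := by
        have h2 := congrArg norm (odeCoef_succ a k)
        rw [norm_smul] at h2
        have h3 : ‖(k : ℂ) + 1‖ = (k : ℝ) + 1 := by
          have : ((k : ℂ) + 1) = ((k + 1 : ℕ) : ℂ) := by push_cast; ring
          rw [this, Complex.norm_natCast]; push_cast; ring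
        rw [h3] at h2
        rw [h2]
        exact (norm_sum_le _ _).trans (Finset.sum_le_sum fun kl _ => norm_mul_le _ _)
      have h4 : ((k : ℝ) + 1) * (‖odeCoef a (k + 1)‖ * ρ ^ (k + 1)) ≤ ρ * (S * M) := by
        calc ((k : ℝ) + 1) * (‖odeCoef a (k + 1)‖ * ρ ^ (k + 1))
            = ((k : ℝ) + 1) * ‖odeCoef a (k + 1)‖ * ρ ^ (k + 1) := by ring
          _ ≤ (∑ kl ∈ Finset.HasAntidiagonal.antidiagonal k, ‖a kl.1‖ * ‖odeCoef a kl.2‖) *
                ρ ^ (k + 1) := by gcongr
          _ = ρ * ∑ kl ∈ Finset.HasAntidiagonal.antidiagonal k,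
                (‖a kl.1‖ * ρ ^ kl.1) * (‖odeCoef a kl.2‖ * ρ ^ kl.2) := by
              rw [Finset.sum_mul, Finset.mul_sum]
              refine Finset.sum_congr rfl fun kl hkl => ?_
              rw [Finset.HasAntidiagonal.mem_antidiagonal] at hkl
              rw [← hkl]; ring
          _ ≤ ρ * ∑ kl ∈ Finset.HasAntidiagonal.antidiagonal k, (‖a kl.1‖ * ρ ^ kl.1) * M := by
              gcongr with kl hkl
              rw [Finset.HasAntidiagonal.mem_antidiagonal] at hkl
              exact ih kl.2 (by omega)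
          _ = ρ * ((∑ j ∈ Finset.range (k + 1), ‖a j‖ * ρ ^ j) * M) := by
              rw [← Finset.sum_mul, Finset.Nat.sum_antidiagonal_eq_sum_range_succ
                (fun i _ => ‖a i‖ * ρ ^ i)]
          _ ≤ ρ * (S * M) := by
              gcongr
              exact ha.sum_le_tsum _ fun j _ => by positivity
      have h5 : ρ * (S * M) ≤ ((k : ℝ) + 1) * M := by
        have : ρ * S ≤ (k : ℝ) + 1 := by linarith
        calc ρ * (S * M) = (ρ * S) * M := by ring
          _ ≤ ((k : ℝ) + 1) * M := by gcongr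
      have h6 := h4.trans h5
      exact le_of_mul_le_mul_left h6 (by positivity)

theorem ode_alg (c : ℂ) (r : ℝ) (a : ℕ → E) (B : ℂ → E)
    (ha : ∀ ρ, 0 ≤ ρ → ρ < r → Summable fun m => ‖a m‖ * ρ ^ m)
    (hB : ∀ z ∈ Metric.ball c r, HasSum (fun m => (z - c) ^ m • a m) (B z)) :
    ∃ Y : ℂ → E, Y c = 1 ∧ ∀ z ∈ Metric.ball c r, HasDerivAt Y (B z * Y z) z := by
  refine ⟨fun z => ∑' m, (z - c) ^ m • odeCoef a m, ?_, ?_⟩
  · simp only [sub_self]
    rw [tsum_eq_single 0]
    · simp [odeCoef_zero]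
    · intro m hm
      simp [hm]
  · intro z hz
    rw [← (hB z hz).tsum_eq]
    rw [Metric.mem_ball] at hz
    obtain ⟨ρ, hρ1, hρ2⟩ := exists_between hz
    obtain ⟨σ, hσ1, hσ2⟩ := exists_between hρ2
    have hρ0 : 0 < ρ := lt_of_le_of_lt dist_nonneg hρ1
    have hσ0 : 0 < σ := hρ0.trans hσ1
    obtain ⟨M, hM⟩ := odeCoef_bound a σ hσ0.le (ha σ hσ0.le hσ2)
    have hM0 : 0 ≤ M := le_trans (by positivity) (hM 0)
    have hq : ρ / σ < 1 := (div_lt_one hσ0).2 hσ1
    have hq0 : 0 ≤ ρ / σ := by positivity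
    have hb : ∀ m, ‖odeCoef a m‖ * ρ ^ m ≤ M * (ρ / σ) ^ m := by
      intro m
      calc ‖odeCoef a m‖ * ρ ^ m = (‖odeCoef a m‖ * σ ^ m) * (ρ / σ) ^ m := by
            rw [div_pow]; field_simp
        _ ≤ M * (ρ / σ) ^ m := by gcongr; exact hM m
    have hs0 : Summable fun m => ‖odeCoef a m‖ * ρ ^ m :=
      Summable.of_nonneg_of_le (fun m => by positivity) hb
        ((summable_geometric_of_lt_one hq0 hq).mul_left M)
    have hs1 : Summable fun m : ℕ => (m : ℝ) * (‖odeCoef a m‖ * ρ ^ m) / ρ := by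
      refine Summable.div_const ?_ ρ
      refine Summable.of_nonneg_of_le (fun m => by positivity)
        (g := fun m : ℕ => (m : ℝ) * (‖odeCoef a m‖ * ρ ^ m)) (f := fun m : ℕ => M * ((m : ℝ) ^ 1 * (ρ / σ) ^ m))
        (fun m => ?_) ?_
      · calc (m : ℝ) * (‖odeCoef a m‖ * ρ ^ m) ≤ (m : ℝ) * (M * (ρ / σ) ^ m) :=
              mul_le_mul_of_nonneg_left (hb m) (Nat.cast_nonneg m)
          _ = _ := by ring
      · refine Summable.mul_left M ?_
        exact summable_pow_mul_geometric_of_norm_lt_one 1 (by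
          rw [Real.norm_of_nonneg hq0]; exact hq)
    have hzmem : z ∈ Metric.ball c ρ := by rw [Metric.mem_ball]; exact hρ1
    have key := hasDerivAt_tsum_of_isPreconnected (𝕜 := ℂ) (F := E)
      (g := fun (m : ℕ) z => (z - c) ^ m • odeCoef a m)
      (g' := fun (m : ℕ) z => ((m : ℂ) * (z - c) ^ (m - 1)) • odeCoef a m)
      (t := Metric.ball c ρ) (y₀ := c) (y := z) hs1 Metric.isOpen_ball
      (convex_ball c ρ).isPreconnected
      (fun m y _ => by
        have h1 : HasDerivAt (fun z : ℂ => (z - c) ^ m) ((m : ℂ) * (y - c) ^ (m - 1)) y := by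
          have := ((hasDerivAt_id y).sub_const c).fun_pow m
          simpa using this
        exact h1.smul_const (odeCoef a m))
      (fun m y hy => by
        rw [Metric.mem_ball, dist_eq_norm] at hy
        rw [norm_smul, norm_mul, norm_pow, Complex.norm_natCast]
        rcases Nat.eq_zero_or_pos m with rfl | hm
        · simp
        · obtain ⟨k, rfl⟩ : ∃ k, m = k + 1 := ⟨m - 1, by omega⟩
          simp only [Nat.add_sub_cancel]
          rw [pow_succ ρ k]
          calc ((k + 1 : ℕ) : ℝ) * ‖y - c‖ ^ k * ‖odeCoef a (k + 1)‖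
              ≤ ((k + 1 : ℕ) : ℝ) * ρ ^ k * ‖odeCoef a (k + 1)‖ := by gcongr
            _ = _ := by field_simp)
      (Metric.mem_ball_self hρ0)
      (by
        refine summable_of_ne_finset_zero (s := {0}) fun m hm => ?_
        rw [Finset.mem_singleton] at hm
        simp [hm])
      hzmem
    have hzn : ‖z - c‖ ≤ ρ := by rw [← dist_eq_norm]; exact hρ1.le
    have hsa : Summable fun m => ‖(z - c) ^ m • a m‖ := by
      refine Summable.of_nonneg_of_le (fun m => norm_nonneg _) (fun m => ?_) (ha ρ hρ0.le hρ2)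
      rw [norm_smul, norm_pow, mul_comm]
      gcongr
    have hsY : Summable fun m => ‖(z - c) ^ m • odeCoef a m‖ := by
      refine Summable.of_nonneg_of_le (fun m => norm_nonneg _) (fun m => ?_) hs0
      rw [norm_smul, norm_pow, mul_comm]
      gcongr
    have hval : (∑' m : ℕ, ((m : ℂ) * (z - c) ^ (m - 1)) • odeCoef a m) =
        (∑' m, (z - c) ^ m • a m) * ∑' m, (z - c) ^ m • odeCoef a m := by
      rw [tsum_mul_tsum_eq_tsum_sum_antidiagonal_of_summable_norm hsa hsY]
      have hsum : Summable fun m : ℕ => ((m : ℂ) * (z - c) ^ (m - 1)) • odeCoef a m := by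
        refine Summable.of_norm (Summable.of_nonneg_of_le (fun m => norm_nonneg _) (fun m => ?_) hs1)
        rw [norm_smul, norm_mul, norm_pow, Complex.norm_natCast]
        rcases Nat.eq_zero_or_pos m with rfl | hm
        · simp
        · obtain ⟨k, rfl⟩ : ∃ k, m = k + 1 := ⟨m - 1, by omega⟩
          simp only [Nat.add_sub_cancel]
          rw [pow_succ ρ k]
          calc ((k + 1 : ℕ) : ℝ) * ‖z - c‖ ^ k * ‖odeCoef a (k + 1)‖
              ≤ ((k + 1 : ℕ) : ℝ) * ρ ^ k * ‖odeCoef a (k + 1)‖ := by gcongr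
            _ = _ := by field_simp
      rw [hsum.tsum_eq_zero_add]
      simp only [Nat.cast_zero, zero_mul, zero_smul, zero_add, Nat.add_sub_cancel]
      refine tsum_congr fun m => ?_
      have h1 := odeCoef_succ a m
      calc (((m + 1 : ℕ) : ℂ) * (z - c) ^ m) • odeCoef a (m + 1)
          = (z - c) ^ m • (((m : ℂ) + 1) • odeCoef a (m + 1)) := by
            rw [smul_smul]; congr 1; push_cast; ring
        _ = _ := by
            rw [h1, Finset.smul_sum]
            refine Finset.sum_congr rfl fun kl hkl => ?_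
            rw [Finset.HasAntidiagonal.mem_antidiagonal] at hkl
            rw [smul_mul_smul_comm, ← pow_add, hkl]
    rw [← hval]
    exact key

end Alg

section Mat

attribute [local instance] Matrix.linftyOpNormedRing Matrix.linftyOpNormedAlgebra

private lemma norm_le_sum {ι : Type*} [Fintype ι] [DecidableEq ι] (M : Matrix ι ι ℂ) :
    ‖M‖ ≤ ∑ i, ∑ j, ‖M i j‖ := by
  rw [Matrix.linfty_opNorm_def]
  have h : (Finset.univ.sup fun i => ∑ j, ‖M i j‖₊) ≤ ∑ i, ∑ j, ‖M i j‖₊ :=
    Finset.sup_le fun i _ =>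
      Finset.single_le_sum (f := fun i => ∑ j, ‖M i j‖₊) (fun _ _ => bot_le) (Finset.mem_univ i)
  have h2 : ((Finset.univ.sup fun i => ∑ j, ‖M i j‖₊ : NNReal) : ℝ) ≤
      ((∑ i, ∑ j, ‖M i j‖₊ : NNReal) : ℝ) := by exact_mod_cast h
  refine h2.trans ?_
  push_cast
  exact le_rfl

theorem ode_exists {ι : Type*} [Fintype ι] [DecidableEq ι] (c : ℂ) (r : ℝ) (hr : 0 < r)
    (A : ℂ → Matrix ι ι ℂ) (hA : ∀ i j, DifferentiableOn ℂ (fun z => A z i j) (Metric.ball c r)) :
    ∃ Y : ℂ → Matrix ι ι ℂ, Y c = 1 ∧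
      ∀ z ∈ Metric.ball c r, ∀ i j, HasDerivAt (fun x => Y x i j) ((A z * Y z) i j) z := by
  have hcomp : CompleteSpace (Matrix ι ι ℂ) := FiniteDimensional.complete ℂ _
  set a : ℕ → Matrix ι ι ℂ := fun m => Matrix.of fun i j =>
    ((m.factorial : ℂ))⁻¹ * iteratedDeriv m (fun z => A z i j) c with ha
  have hsum : ∀ i j, ∀ z ∈ Metric.ball c r,
      HasSum (fun m => (z - c) ^ m * a m i j) (A z i j) := by
    intro i j z hz
    have h := Complex.hasSum_taylorSeries_on_ball (hA i j) hz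
    have h2 : (fun n : ℕ => ((n.factorial : ℂ))⁻¹ • (z - c) ^ n •
        iteratedDeriv n (fun z => A z i j) c) = fun m => (z - c) ^ m * a m i j := by
      funext m
      simp only [ha, Matrix.of_apply, smul_eq_mul]
      ring
    rw [h2] at h
    exact h
  have hS : ∀ ρ, 0 ≤ ρ → ρ < r → Summable fun m => ‖a m‖ * ρ ^ m := by
    intro ρ h0 h1
    have h2 : ∀ i j, Summable fun m => ‖a m i j‖ * ρ ^ m := by
      intro i j
      have h3 := (hsum i j (c + ρ) (by
        rw [Metric.mem_ball, dist_eq_norm, add_sub_cancel_left, Complex.norm_real,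
          Real.norm_of_nonneg h0]
        exact h1)).summable.norm
      refine h3.congr fun m => ?_
      rw [add_sub_cancel_left, norm_mul, norm_pow, Complex.norm_real, Real.norm_of_nonneg h0,
        mul_comm]
    have h4 : Summable fun m => ∑ i, ∑ j, ‖a m i j‖ * ρ ^ m :=
      summable_sum fun i _ => summable_sum fun j _ => h2 i j
    refine Summable.of_nonneg_of_le (fun m => by positivity) (fun m => ?_) h4
    calc ‖a m‖ * ρ ^ m ≤ (∑ i, ∑ j, ‖a m i j‖) * ρ ^ m := by
          gcongr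
          exact norm_le_sum _
      _ = ∑ i, ∑ j, ‖a m i j‖ * ρ ^ m := by
          rw [Finset.sum_mul]
          exact Finset.sum_congr rfl fun i _ => Finset.sum_mul _ _ _
  obtain ⟨Y, hY0, hY⟩ := ode_alg c r a A hS (fun z hz => by
    refine Pi.hasSum.2 fun i => Pi.hasSum.2 fun j => ?_
    have := hsum i j z hz
    simpa using this)
  refine ⟨Y, hY0, fun z hz i j => ?_⟩
  have h := hY z hz
  have h1 := (hasDerivAt_pi.1 (hasDerivAt_pi.1 h i)) j
  exact h1

end Mat

end FacC
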