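import Mathlib

/-!
# PS7: `∑_{q ≥ 7 prime} log q / (q(q-1)) ≤ 0.152`

Primes below 200 by hand (`q^100 ≤ 2^b`), the tail by blocks of six and telescoping with
`(log x + 1.01)/x`.
-/

set_option autoImplicit false

namespace FacC

open Finset

/-- `log n / (n (n-1))` -/
noncomputable def ff (n : ℕ) : ℝ := Real.log n / ((n : ℝ) * ((n : ℝ) - 1))

/-- `ff q` for the primes `q ≥ 7`, zero otherwise -/
noncomputable def ff7 (q : ℕ) : ℝ := if q.Prime ∧ 7 ≤ q then ff q else 0

private noncomputable def FF (n : ℕ) : ℝ := (Real.log n + 1.01) / n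

private lemma PS7_lg (q b : ℕ) (hq : 2 ≤ q) (h : q ^ 100 ≤ 2 ^ b) :
    Real.log q ≤ (b : ℝ) / 100 * 0.6931471808 := by
  have hq' : (2 : ℝ) ≤ q := by exact_mod_cast hq
  have h1 : (100 : ℝ) * Real.log q ≤ b * Real.log 2 := by
    have h2 : Real.log ((q : ℝ) ^ 100) ≤ Real.log ((2 : ℝ) ^ b) := by
      apply Real.log_le_log (by positivity)
      exact_mod_cast h
    rw [Real.log_pow, Real.log_pow] at h2
    exact_mod_cast h2
  have h3 : Real.log 2 < 0.6931471808 := Real.log_two_lt_d9
  have h5 : (b : ℝ) * Real.log 2 ≤ b * 0.6931471808 :=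
    mul_le_mul_of_nonneg_left h3.le (by positivity)
  linarith

private lemma PS7_fb (q b : ℕ) (hq : 2 ≤ q) (h : q ^ 100 ≤ 2 ^ b) :
    ff q ≤ (b : ℝ) / 100 * 0.6931471808 / ((q : ℝ) * ((q : ℝ) - 1)) := by
  have hq' : (2 : ℝ) ≤ q := by exact_mod_cast hq
  have h4 := PS7_lg q b hq h
  unfold ff
  exact div_le_div_of_nonneg_right h4 (by nlinarith)

private lemma PS7_ff_nonneg (n : ℕ) : 0 ≤ ff n := by
  unfold ff
  rcases Nat.eq_zero_or_pos n with h | h
  · subst h; simp
  · have h1 : (1 : ℝ) ≤ n := by exact_mod_cast h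
    exact div_nonneg (Real.log_nonneg h1) (by nlinarith)

private lemma PS7_anti (n : ℕ) (hn : 2 ≤ n) : ff (n + 1) ≤ ff n := by
  have hn' : (2 : ℝ) ≤ n := by exact_mod_cast hn
  unfold ff
  push_cast
  have h1 : Real.log ((n : ℝ) + 1) ≤ Real.log n + 1 / n := by
    have h2 : ((n : ℝ) + 1) = n * (1 + 1 / n) := by field_simp
    rw [h2, Real.log_mul (by positivity) (by positivity)]
    have h3 := Real.log_le_sub_one_of_pos (x := 1 + 1 / (n : ℝ)) (by positivity)
    linarith
  have h2 : Real.log 2 ≤ Real.log n := Real.log_le_log (by norm_num) hn'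
  have h3 : (0.6931471803 : ℝ) < Real.log 2 := Real.log_two_gt_d9
  rw [div_le_div_iff₀ (by nlinarith) (by nlinarith)]
  have h4 : ((n : ℝ) - 1) * Real.log ((n : ℝ) + 1) ≤ ((n : ℝ) + 1) * Real.log n := by
    have h5 : ((n : ℝ) - 1) * Real.log ((n : ℝ) + 1) ≤ ((n : ℝ) - 1) * (Real.log n + 1 / n) :=
      mul_le_mul_of_nonneg_left h1 (by linarith)
    have h6 : ((n : ℝ) - 1) * (1 / n) ≤ 1 := by
      rw [mul_one_div, div_le_one (by positivity)]
      linarith
    nlinarith
  have h7 : Real.log ((n : ℝ) + 1) * ((n : ℝ) * ((n : ℝ) - 1)) =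
      (n : ℝ) * (((n : ℝ) - 1) * Real.log ((n : ℝ) + 1)) := by ring
  have h8 : Real.log n * (((n : ℝ) + 1) * ((n : ℝ) + 1 - 1)) =
      (n : ℝ) * (((n : ℝ) + 1) * Real.log n) := by ring
  rw [h7, h8]
  exact mul_le_mul_of_nonneg_left h4 (by positivity)

private lemma PS7_tel (n : ℕ) (hn : 100 ≤ n) : ff (n + 1) ≤ FF n - FF (n + 1) := by
  have hn' : (100 : ℝ) ≤ n := by exact_mod_cast hn
  unfold ff FF
  push_cast
  have h1 : Real.log ((n : ℝ) + 1) ≤ Real.log n + 1 / n := by
    have h2 : ((n : ℝ) + 1) = n * (1 + 1 / n) := by field_simp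
    rw [h2, Real.log_mul (by positivity) (by positivity)]
    have h3 := Real.log_le_sub_one_of_pos (x := 1 + 1 / (n : ℝ)) (by positivity)
    linarith
  have h2 : (Real.log n + 1.01) / n - (Real.log ((n : ℝ) + 1) + 1.01) / ((n : ℝ) + 1) =
      (((n : ℝ) + 1) * Real.log n - n * Real.log ((n : ℝ) + 1) + 1.01) /
        (((n : ℝ) + 1) * n) := by
    field_simp
    ring
  have h3 : ((n : ℝ) + 1) * ((n : ℝ) + 1 - 1) = ((n : ℝ) + 1) * n := by ring
  rw [h2, h3]
  apply div_le_div_of_nonneg_right _ (by positivity)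
  have h4 : ((n : ℝ) + 1) * Real.log ((n : ℝ) + 1) ≤ ((n : ℝ) + 1) * (Real.log n + 1 / n) :=
    mul_le_mul_of_nonneg_left h1 (by positivity)
  have h5 : ((n : ℝ) + 1) * (1 / n) ≤ 1.01 := by
    rw [mul_one_div, div_le_iff₀ (by positivity)]
    linarith
  linarith

private lemma PS7_ff7_le (q : ℕ) : ff7 q ≤ ff q := by
  unfold ff7
  split_ifs
  · exact le_rfl
  · exact PS7_ff_nonneg q

private lemma PS7_zero2 (q : ℕ) (h : 2 ∣ q) : ff7 q = 0 := by
  unfold ff7
  rw [if_neg]
  rintro ⟨hp, h7⟩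
  have := (Nat.prime_dvd_prime_iff_eq Nat.prime_two hp).mp h
  omega

private lemma PS7_zero3 (q : ℕ) (h : 3 ∣ q) : ff7 q = 0 := by
  unfold ff7
  rw [if_neg]
  rintro ⟨hp, h7⟩
  have := (Nat.prime_dvd_prime_iff_eq Nat.prime_three hp).mp h
  omega

private lemma PS7_base : ∑ q ∈ range 200, ff7 q ≤ 0.14069 := by
  have hset : (range 200).filter (fun q => q.Prime ∧ 7 ≤ q) =
      ({7, 11, 13, 17, 19, 23, 29, 31, 37, 41, 43, 47, 53, 59, 61, 67, 71, 73, 79, 83, 89, 97, 101, 103, 107, 109, 113, 127, 131, 137, 139, 149, 151, 157, 163, 167, 173, 179, 181, 191, 193, 197, 199} : Finset ℕ) := by decide +kernel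
  have h0 : ∑ q ∈ range 200, ff7 q = ∑ q ∈ (range 200).filter (fun q => q.Prime ∧ 7 ≤ q), ff q := by
    rw [sum_filter]
    rfl
  rw [h0, hset]
  have g7 := PS7_fb 7 281 (by norm_num) (by decide +kernel)
  have g11 := PS7_fb 11 346 (by norm_num) (by decide +kernel)
  have g13 := PS7_fb 13 371 (by norm_num) (by decide +kernel)
  have g17 := PS7_fb 17 409 (by norm_num) (by decide +kernel)
  have g19 := PS7_fb 19 425 (by norm_num) (by decide +kernel)
  have g23 := PS7_fb 23 453 (by norm_num) (by decide +kernel)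
  have g29 := PS7_fb 29 486 (by norm_num) (by decide +kernel)
  have g31 := PS7_fb 31 496 (by norm_num) (by decide +kernel)
  have g37 := PS7_fb 37 521 (by norm_num) (by decide +kernel)
  have g41 := PS7_fb 41 536 (by norm_num) (by decide +kernel)
  have g43 := PS7_fb 43 543 (by norm_num) (by decide +kernel)
  have g47 := PS7_fb 47 556 (by norm_num) (by decide +kernel)
  have g53 := PS7_fb 53 573 (by norm_num) (by decide +kernel)
  have g59 := PS7_fb 59 589 (by norm_num) (by decide +kernel)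
  have g61 := PS7_fb 61 594 (by norm_num) (by decide +kernel)
  have g67 := PS7_fb 67 607 (by norm_num) (by decide +kernel)
  have g71 := PS7_fb 71 615 (by norm_num) (by decide +kernel)
  have g73 := PS7_fb 73 619 (by norm_num) (by decide +kernel)
  have g79 := PS7_fb 79 631 (by norm_num) (by decide +kernel)
  have g83 := PS7_fb 83 638 (by norm_num) (by decide +kernel)
  have g89 := PS7_fb 89 648 (by norm_num) (by decide +kernel)
  have g97 := PS7_fb 97 660 (by norm_num) (by decide +kernel)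
  have g101 := PS7_fb 101 666 (by norm_num) (by decide +kernel)
  have g103 := PS7_fb 103 669 (by norm_num) (by decide +kernel)
  have g107 := PS7_fb 107 675 (by norm_num) (by decide +kernel)
  have g109 := PS7_fb 109 677 (by norm_num) (by decide +kernel)
  have g113 := PS7_fb 113 683 (by norm_num) (by decide +kernel)
  have g127 := PS7_fb 127 699 (by norm_num) (by decide +kernel)
  have g131 := PS7_fb 131 704 (by norm_num) (by decide +kernel)
  have g137 := PS7_fb 137 710 (by norm_num) (by decide +kernel)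
  have g139 := PS7_fb 139 712 (by norm_num) (by decide +kernel)
  have g149 := PS7_fb 149 722 (by norm_num) (by decide +kernel)
  have g151 := PS7_fb 151 724 (by norm_num) (by decide +kernel)
  have g157 := PS7_fb 157 730 (by norm_num) (by decide +kernel)
  have g163 := PS7_fb 163 735 (by norm_num) (by decide +kernel)
  have g167 := PS7_fb 167 739 (by norm_num) (by decide +kernel)
  have g173 := PS7_fb 173 744 (by norm_num) (by decide +kernel)
  have g179 := PS7_fb 179 749 (by norm_num) (by decide +kernel)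
  have g181 := PS7_fb 181 750 (by norm_num) (by decide +kernel)
  have g191 := PS7_fb 191 758 (by norm_num) (by decide +kernel)
  have g193 := PS7_fb 193 760 (by norm_num) (by decide +kernel)
  have g197 := PS7_fb 197 763 (by norm_num) (by decide +kernel)
  have g199 := PS7_fb 199 764 (by norm_num) (by decide +kernel)
  push_cast at *
  repeat rw [Finset.sum_insert (by decide)]
  rw [Finset.sum_singleton]
  norm_num at *
  linarith

private lemma PS7_step (K : ℕ) (hK : 33 ≤ K) :
    ∑ q ∈ range (6 * K + 8), ff7 q ≤ ∑ q ∈ range (6 * K + 2), ff7 q +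
      1 / 3 * (FF (6 * K + 1) - FF (6 * K + 7)) := by
  have e : 6 * K + 8 = (6 * K + 2) + 1 + 1 + 1 + 1 + 1 + 1 := by ring
  rw [e, sum_range_succ, sum_range_succ, sum_range_succ, sum_range_succ, sum_range_succ,
    sum_range_succ]
  have a2 : ff7 (6 * K + 2) = 0 := PS7_zero2 _ (by omega)
  have a3 : ff7 (6 * K + 2 + 1) = 0 := PS7_zero3 _ (by omega)
  have a4 : ff7 (6 * K + 2 + 1 + 1) = 0 := PS7_zero2 _ (by omega)
  have a5 : ff7 (6 * K + 2 + 1 + 1 + 1) ≤ ff (6 * K + 5) := PS7_ff7_le _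
  have a6 : ff7 (6 * K + 2 + 1 + 1 + 1 + 1) = 0 := PS7_zero2 _ (by omega)
  have a7 : ff7 (6 * K + 2 + 1 + 1 + 1 + 1 + 1) ≤ ff (6 * K + 7) := PS7_ff7_le _
  have b2 := PS7_tel (6 * K + 1) (by omega)
  have b3 := PS7_tel (6 * K + 2) (by omega)
  have b4 := PS7_tel (6 * K + 3) (by omega)
  have b5 := PS7_tel (6 * K + 4) (by omega)
  have b6 := PS7_tel (6 * K + 5) (by omega)
  have b7 := PS7_tel (6 * K + 6) (by omega)
  have c2 := PS7_anti (6 * K + 2) (by omega)
  have c3 := PS7_anti (6 * K + 3) (by omega)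
  have c4 := PS7_anti (6 * K + 4) (by omega)
  have c5 := PS7_anti (6 * K + 5) (by omega)
  have c6 := PS7_anti (6 * K + 6) (by omega)
  simp only [Nat.add_assoc, Nat.reduceAdd] at *
  linarith

private lemma PS7_all (K : ℕ) :
    ∑ q ∈ range (6 * (K + 33) + 2), ff7 q ≤ 0.14069 + 1 / 3 * (FF 199 - FF (6 * (K + 33) + 1)) := by
  induction K with
  | zero =>
    have h := PS7_base
    norm_num at *
    linarith
  | succ K ih =>
    have h := PS7_step (K + 33) (by omega)
    have e1 : 6 * (K + 1 + 33) + 2 = 6 * (K + 33) + 8 := by ring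
    have e2 : 6 * (K + 1 + 33) + 1 = 6 * (K + 33) + 7 := by ring
    rw [e1, e2]
    linarith

private lemma PS7_F199 : FF 199 ≤ 0.0318 := by
  unfold FF
  have h : Real.log (199 : ℕ) ≤ (764 : ℝ) / 100 * 0.6931471808 :=
    PS7_lg 199 764 (by norm_num) (by decide +kernel)
  push_cast at *
  rw [div_le_iff₀ (by norm_num)]
  norm_num at *
  linarith

/-- The sum of `log q / (q(q-1))` over the primes `7 ≤ q < X` is at most `0.152`. -/
theorem ps7 (X : ℕ) : ∑ q ∈ (range X).filter (fun q => q.Prime ∧ 7 ≤ q),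
    Real.log q / ((q : ℝ) * ((q : ℝ) - 1)) ≤ 0.152 := by
  have h0 : ∑ q ∈ (range X).filter (fun q => q.Prime ∧ 7 ≤ q),
      Real.log q / ((q : ℝ) * ((q : ℝ) - 1)) = ∑ q ∈ range X, ff7 q := by
    rw [sum_filter]
    rfl
  rw [h0]
  have h1 : ∑ q ∈ range X, ff7 q ≤ ∑ q ∈ range (6 * (X + 33) + 2), ff7 q := by
    apply sum_le_sum_of_subset_of_nonneg
    · intro q hq
      rw [mem_range] at *
      omega
    · intro q _ _
      unfold ff7
      split_ifs
      · exact PS7_ff_nonneg q
      · exact le_rfl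
  have h2 := PS7_all X
  have h3 := PS7_F199
  have h4 : 0 ≤ FF (6 * (X + 33) + 1) := by
    unfold FF
    have : (1 : ℝ) ≤ ((6 * (X + 33) + 1 : ℕ) : ℝ) := by
      exact_mod_cast (by omega : 1 ≤ 6 * (X + 33) + 1)
    have h5 := Real.log_nonneg this
    positivity
  norm_num at *
  linarith

end FacC
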