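import Mathlib

/-!
# Root: holomorphic roots of nonvanishing functions on the unit disc, and the map `w h(w^D)`

`exists_root`: a nonvanishing holomorphic function on the unit disc has a holomorphic `D`-th root
with prescribed value at `0`.
`exists_phi`: if `L` is holomorphic and nonvanishing on the unit disc and `q L(q) ≠ 1` there, then
`φ(w) = w h(w^D)`, `h^D = L`, is holomorphic on the unit disc, `φ(0) = 0`, `φ'(0)^D = L 0` and
`φ^D ≠ 1`.
-/

set_option autoImplicit false

namespace FacC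

open Complex Metric Set

theorem exists_root {L : ℂ → ℂ} (hL : DifferentiableOn ℂ L (ball 0 1))
    (h0 : ∀ q ∈ ball (0 : ℂ) 1, L q ≠ 0) {D : ℕ} (hD : 0 < D) {c : ℂ} (hc : c ^ D = L 0) :
    ∃ h : ℂ → ℂ, DifferentiableOn ℂ h (ball 0 1) ∧ h 0 = c ∧
      ∀ q ∈ ball (0 : ℂ) 1, h q ^ D = L q := by
  have hmem : (0 : ℂ) ∈ ball (0 : ℂ) 1 := mem_ball_self one_pos
  have hL' : DifferentiableOn ℂ (deriv L) (ball 0 1) := hL.deriv isOpen_ball
  have hl : DifferentiableOn ℂ (fun q => deriv L q / L q) (ball 0 1) := hL'.div hL h0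
  obtain ⟨g, hg0, hg⟩ := hl.isExactOn_ball.with_val_at 0 0
  have hDc : (D : ℂ) ≠ 0 := by exact_mod_cast hD.ne'
  have hgd : ∀ q ∈ ball (0 : ℂ) 1, HasDerivAt g (deriv L q / L q) q := fun q hq => hg q hq
  refine ⟨fun q => c * exp (g q / D), ?_, by simp [hg0], ?_⟩
  · intro q hq
    have h1 : DifferentiableAt ℂ g q := (hgd q hq).differentiableAt
    have h2 : DifferentiableAt ℂ (fun q => c * exp (g q / D)) q := by fun_prop
    exact h2.differentiableWithinAt
  · have key : ∀ q ∈ ball (0 : ℂ) 1, HasDerivAt (fun q => exp (g q) / L q) 0 q := by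
      intro q hq
      have h1 := (hgd q hq).cexp
      have h2 : HasDerivAt L (deriv L q) q :=
        (hL.differentiableAt (isOpen_ball.mem_nhds hq)).hasDerivAt
      have h3 := h1.div h2 (h0 q hq)
      have h4 : (exp (g q) * (deriv L q / L q) * L q - exp (g q) * deriv L q) / L q ^ 2 = 0 := by
        have := h0 q hq
        rw [div_eq_zero_iff]
        left
        rw [mul_assoc, div_mul_cancel₀ _ this, sub_self]
      rw [h4] at h3
      exact h3
    have hconst : ∀ q ∈ ball (0 : ℂ) 1, exp (g q) / L q = exp (g 0) / L 0 := by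
      intro q hq
      have hd : DifferentiableOn ℂ (fun q => exp (g q) / L q) (ball 0 1) :=
        fun x hx => (key x hx).differentiableAt.differentiableWithinAt
      exact (convex_ball (0 : ℂ) 1).is_const_of_fderivWithin_eq_zero hd (fun x hx => by
        rw [fderivWithin_of_isOpen isOpen_ball hx]
        have h4 := (key x hx).hasFDerivAt.fderiv
        rw [h4]
        ext
        simp) hq hmem
    intro q hq
    have h1 := hconst q hq
    have hLq := h0 q hq
    have hL0 := h0 0 hmem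
    rw [hg0, exp_zero] at h1
    have h2 : (c * exp (g q / D)) ^ D = c ^ D * exp (g q) := by
      rw [mul_pow, ← exp_nat_mul]
      congr 2
      field_simp
    simp only
    rw [h2, hc]
    field_simp at h1
    linear_combination h1

theorem exists_phi {L : ℂ → ℂ} (hL : DifferentiableOn ℂ L (ball 0 1))
    (h0 : ∀ q ∈ ball (0 : ℂ) 1, L q ≠ 0) (h1 : ∀ q ∈ ball (0 : ℂ) 1, q * L q ≠ 1) {D : ℕ}
    (hD : 0 < D) {c : ℂ} (hc : c ^ D = L 0) :
    ∃ φ : ℂ → ℂ, DifferentiableOn ℂ φ (ball 0 1) ∧ φ 0 = 0 ∧ deriv φ 0 = c ∧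
      ∀ w ∈ ball (0 : ℂ) 1, φ w ^ D ≠ 1 := by
  obtain ⟨h, hd, hh0, hh⟩ := exists_root hL h0 hD hc
  have hmem : (0 : ℂ) ∈ ball (0 : ℂ) 1 := mem_ball_self one_pos
  have hpow : ∀ w ∈ ball (0 : ℂ) 1, w ^ D ∈ ball (0 : ℂ) 1 := by
    intro w hw
    rw [mem_ball_zero_iff] at hw ⊢
    rw [norm_pow]
    exact pow_lt_one₀ (norm_nonneg _) hw hD.ne'
  have hcomp : ∀ w ∈ ball (0 : ℂ) 1, DifferentiableAt ℂ (fun w => h (w ^ D)) w := by
    intro w hw
    have h2 : DifferentiableAt ℂ h (w ^ D) :=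
      hd.differentiableAt (isOpen_ball.mem_nhds (hpow w hw))
    have h3 : DifferentiableAt ℂ (fun w : ℂ => w ^ D) w := by fun_prop
    exact h2.comp w h3
  refine ⟨fun w => w * h (w ^ D), ?_, by simp, ?_, ?_⟩
  · intro w hw
    exact (differentiableAt_id.mul (hcomp w hw)).differentiableWithinAt
  · have h2 := (hasDerivAt_id (0 : ℂ)).mul (hcomp 0 hmem).hasDerivAt
    have h3 := h2.deriv
    have h4 : deriv (fun w => w * h (w ^ D)) 0 = deriv (id * fun w => h (w ^ D)) 0 := rfl
    rw [h4, h3]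
    simp [hD.ne', hh0]
  · intro w hw
    simp only
    rw [mul_pow, hh _ (hpow w hw)]
    exact h1 _ (hpow w hw)

end FacC
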