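import Pool.Agent.Lib.FacC.ThN
import Pool.Agent.Lib.FacC.Root

/-!
# Phi0: the map `φ = w h(w^e)`, `h^e = 16 ps^4 / t3^4`, of the disc onto the complement of the
`e`-th roots of unity; `φ^e = lam(w^e)`.
-/

open Metric

namespace FacC

theorem phi0_exists (e : ℕ) (he : 1 ≤ e) :
    ∃ φ : ℂ → ℂ, DifferentiableOn ℂ φ (Metric.ball 0 1) ∧ φ 0 = 0 ∧
      (∀ w ∈ Metric.ball (0 : ℂ) 1, φ w ^ e ≠ 1) ∧ ‖deriv φ 0‖ ^ e = 16 := by
  have hmem : ∀ q ∈ Metric.ball (0 : ℂ) 1, ‖q‖ < 1 := fun q hq => mem_ball_zero_iff.mp hq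
  set L : ℂ → ℂ := fun q => 16 * ps q ^ 4 / t3 q ^ 4 with hL
  have hLd : DifferentiableOn ℂ L (Metric.ball 0 1) := by
    refine DifferentiableOn.div ((differentiableOn_const 16).mul (ps_diff.pow 4)) (t3_diff.pow 4) ?_
    intro z hz
    exact pow_ne_zero 4 (t3_ne z (hmem z hz))
  have hL0 : ∀ q ∈ Metric.ball (0 : ℂ) 1, L q ≠ 0 := by
    intro q hq
    exact div_ne_zero (mul_ne_zero (by norm_num) (pow_ne_zero 4 (ps_ne q (hmem q hq))))
      (pow_ne_zero 4 (t3_ne q (hmem q hq)))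
  have hL1 : ∀ q ∈ Metric.ball (0 : ℂ) 1, q * L q ≠ 1 := by
    intro q hq
    rcases eq_or_ne q 0 with h | h
    · subst h; simp
    · have h1 := (lam_ne q (hmem q hq) h).2
      have h2 : lam q = q * L q := by
        rw [hL]
        unfold lam
        ring
      rwa [h2] at h1
  obtain ⟨c, hc⟩ := IsAlgClosed.exists_pow_nat_eq (16 : ℂ) (Nat.lt_of_lt_of_le Nat.zero_lt_one he)
  have hL16 : L 0 = 16 := by
    rw [hL]
    simp [ps_zero, t3_zero]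
  obtain ⟨φ, h1, h2, h3, h4⟩ := exists_phi hLd hL0 hL1 (Nat.lt_of_lt_of_le Nat.zero_lt_one he)
    (hc.trans hL16.symm)
  refine ⟨φ, h1, h2, h4, ?_⟩
  rw [h3, ← norm_pow, hc]
  norm_num

end FacC
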