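import Pool.Agent.Lib.FacC.PhiR
import Pool.Agent.Lib.FacC.Root
import Mathlib.NumberTheory.NumberField.Cyclotomic.Basic

/-!
THE MAPS w ↦ x + g(w) of the disc which avoid 0 and the e-th roots of unity, for all x with x^e a
primitive 6-th root of unity: e-th roots of the map of PhiR (or of 1 minus this map).
-/

open Polynomial Filter Topology

namespace FacC

theorem phiK_exists : ∃ M0 : ℝ, 5.63 < M0 ∧ ∀ (e : ℕ), 1 ≤ e → ∀ x : ℂ,
    (x ^ e) ^ 2 - x ^ e + 1 = 0 →
    ∃ g : ℂ → ℂ, DifferentiableOn ℂ g (Metric.ball 0 1) ∧ g 0 = 0 ∧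
      (∀ w ∈ Metric.ball (0 : ℂ) 1, x + g w ≠ 0 ∧ (x + g w) ^ e ≠ 1) ∧
      M0 / e ≤ ‖deriv g 0‖ := by
  obtain ⟨g0, hg0d, hg00, hg0n, hg0'⟩ := phiR_exists
  have h0mem : (0 : ℂ) ∈ Metric.ball (0 : ℂ) 1 := Metric.mem_ball_self one_pos
  refine ⟨‖deriv g0 0‖, hg0', ?_⟩
  intro e he x hx
  have hg0a : DifferentiableAt ℂ g0 0 := hg0d.differentiableAt (Metric.isOpen_ball.mem_nhds h0mem)
  -- the map for x^e
  obtain ⟨G, hGd, hG0, hGn, hG'⟩ : ∃ G : ℂ → ℂ, DifferentiableOn ℂ G (Metric.ball 0 1) ∧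
      G 0 = x ^ e ∧ (∀ w ∈ Metric.ball (0 : ℂ) 1, G w ≠ 0 ∧ G w ≠ 1) ∧
      ‖deriv G 0‖ = ‖deriv g0 0‖ := by
    have h1 : (x ^ e - tau0) * (x ^ e - (1 - tau0)) = 0 := by
      linear_combination hx - tau0_eq
    rcases mul_eq_zero.mp h1 with h2 | h2
    · refine ⟨fun w => tau0 + g0 w, (differentiableOn_const tau0).fun_add hg0d, ?_,
        hg0n, ?_⟩
      · show tau0 + g0 0 = x ^ e
        rw [hg00]
        linear_combination -h2
      · have h3 := (hg0a.hasDerivAt.const_add tau0).deriv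
        rw [h3]
    · refine ⟨fun w => 1 - (tau0 + g0 w),
        (differentiableOn_const 1).fun_sub ((differentiableOn_const tau0).fun_add hg0d), ?_,
        ?_, ?_⟩
      · show 1 - (tau0 + g0 0) = x ^ e
        rw [hg00]
        linear_combination -h2
      · intro w hw
        obtain ⟨h3, h4⟩ := hg0n w hw
        refine ⟨sub_ne_zero.mpr h4.symm, ?_⟩
        intro h5
        apply h3
        linear_combination -h5
      · have h3 := ((hg0a.hasDerivAt.const_add tau0).const_sub 1).deriv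
        rw [h3, norm_neg]
  obtain ⟨h, hhd, hh0, hhe⟩ := exists_root hGd (fun q hq => (hGn q hq).1)
    (Nat.lt_of_lt_of_le Nat.zero_lt_one he) hG0.symm
  refine ⟨fun w => h w - x, hhd.fun_sub (differentiableOn_const x), ?_, ?_, ?_⟩
  · show h 0 - x = 0
    rw [hh0, sub_self]
  · intro w hw
    have e1 : x + (h w - x) = h w := by ring
    show x + (h w - x) ≠ 0 ∧ (x + (h w - x)) ^ e ≠ 1
    rw [e1, hhe w hw]
    refine ⟨?_, (hGn w hw).2⟩
    intro h1
    apply (hGn w hw).1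
    rw [← hhe w hw, h1]
    exact zero_pow (by omega)
  · have hha : DifferentiableAt ℂ h 0 := hhd.differentiableAt (Metric.isOpen_ball.mem_nhds h0mem)
    have h1 : HasDerivAt (fun w => h w - x) (deriv h 0) 0 := hha.hasDerivAt.sub_const x
    rw [h1.deriv]
    have h2 : HasDerivAt (fun w => h w ^ e) ((e : ℂ) * h 0 ^ (e - 1) * deriv h 0) 0 :=
      hha.hasDerivAt.fun_pow e
    have h3 : (fun w => h w ^ e) =ᶠ[𝓝 0] G := by
      filter_upwards [Metric.isOpen_ball.mem_nhds h0mem] with w hw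
      exact hhe w hw
    have h4 : deriv G 0 = (e : ℂ) * h 0 ^ (e - 1) * deriv h 0 := by
      rw [← h3.deriv_eq]
      exact h2.deriv
    have hx1 : ‖x‖ = 1 := by
      have h5 : ‖x ^ e‖ = 1 := by
        have h6 : (x ^ e) ^ 6 = 1 := by
          linear_combination ((x ^ e) ^ 4 + (x ^ e) ^ 3 - x ^ e - 1) * hx
        exact Complex.norm_eq_one_of_pow_eq_one h6 (by norm_num)
      rw [norm_pow] at h5
      exact (pow_eq_one_iff_of_nonneg (norm_nonneg x) (by omega)).mp h5
    rw [← hG', h4, norm_mul, norm_mul, norm_pow, hh0, hx1, one_pow, mul_one, Complex.norm_natCast]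
    have he0 : (0 : ℝ) < e := by exact_mod_cast he
    rw [mul_div_assoc, mul_comm, div_mul_cancel₀ _ he0.ne']

open NumberField in
/-- A number field with an algebraic integer all of whose conjugates are primitive `6e`-th roots
of unity. -/
theorem cycK (e : ℕ) (he : 1 ≤ e) : ∃ (K : Type) (_ : Field K) (_ : NumberField K) (a : 𝓞 K),
    ∀ σ : K →+* ℂ, IsPrimitiveRoot (σ (a : K)) (6 * e) := by
  have hne : NeZero (6 * e) := ⟨by omega⟩
  have hne' : NeZero (((6 * e : ℕ)) : ℚ) := ⟨by exact_mod_cast hne.out⟩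
  have hc : IsCyclotomicExtension {6 * e} ℚ (CyclotomicField (6 * e) ℚ) :=
    CyclotomicField.isCyclotomicExtension _ _
  have hz := IsCyclotomicExtension.zeta_spec (6 * e) ℚ (CyclotomicField (6 * e) ℚ)
  refine ⟨CyclotomicField (6 * e) ℚ, inferInstance, inferInstance, hz.toInteger, ?_⟩
  intro σ
  exact hz.map_of_injective σ.injective

/-- `ρ^2 - ρ + 1 = 0` for primitive 6-th roots of unity. -/
theorem prim6 {ρ : ℂ} (h : IsPrimitiveRoot ρ 6) : ρ ^ 2 - ρ + 1 = 0 := by
  have h6 : ρ ^ 6 = 1 := h.pow_eq_one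
  have h3 : ρ ^ 3 ≠ 1 := fun h1 => by
    have := h.dvd_of_pow_eq_one 3 h1
    omega
  have h2 : ρ ^ 2 ≠ 1 := fun h1 => by
    have := h.dvd_of_pow_eq_one 2 h1
    omega
  have h4 : (ρ ^ 3 - 1) * ((ρ + 1) * (ρ ^ 2 - ρ + 1)) = 0 := by
    linear_combination h6
  rcases mul_eq_zero.mp h4 with h5 | h5
  · exact absurd (sub_eq_zero.mp h5) h3
  · rcases mul_eq_zero.mp h5 with h7 | h7
    · exfalso
      apply h2
      have h8 : ρ = -1 := by linear_combination h7
      rw [h8]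
      norm_num
    · exact h7

end FacC
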