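import Pool.Agent.Lib.FacC.ThR
import Pool.Agent.Lib.FacC.ThN

/-!
THE MAP w ↦ τ0 + g(w) : unit disc -> ℂ minus {0, 1}, g(0) = 0, |g'(0)| > 5.63, τ0 = exp(π i / 3).

τ(w) = (τ0 - conj τ0 w)/(1-w), Q(w) = exp(πi τ(w)); Q(0) = Q3, Q'(0) = -π √3 Q3.
τ0 + g(w) = λ(τ(w)) = 1 - t3(-Q)^4 / t3(Q)^4, at w = 0: 1 - (-i τ0)^2 = 1 + τ0^2 = τ0.
|g'(0)| = 8 π √3 (c S - s C)/(c^2 + s^2) in the notation of ThR.
-/

open Polynomial Filter Topology

namespace FacC

private theorem tau0_form : tau0 = 1 / 2 + ((Real.sqrt 3 / 2 : ℝ) : ℂ) * Complex.I := by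
  apply Complex.ext
  · simp [tau0]
  · simp [tau0]

private noncomputable def tauR (w : ℂ) : ℂ := (tau0 - (1 - tau0) * w) / (1 - w)

private noncomputable def QR (w : ℂ) : ℂ := Complex.exp (Real.pi * Complex.I * tauR w)

private lemma one_sub_neR {w : ℂ} (hw : w ∈ Metric.ball (0 : ℂ) 1) : 1 - w ≠ 0 := by
  intro h
  have h1 : w = 1 := (sub_eq_zero.mp h).symm
  rw [h1] at hw
  simp at hw

private lemma tauR_im {w : ℂ} (hw : w ∈ Metric.ball (0 : ℂ) 1) : 0 < (tauR w).im := by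
  have h1 : 1 - w ≠ 0 := one_sub_neR hw
  have h2 : 0 < Complex.normSq (1 - w) := Complex.normSq_pos.mpr h1
  unfold tauR
  rw [Complex.div_im]
  have h3 : Complex.normSq w < 1 := by
    rw [Complex.normSq_eq_norm_sq]
    have h4 : ‖w‖ < 1 := by simpa using hw
    nlinarith [norm_nonneg w]
  rw [Complex.normSq_apply] at h3
  have h5 : ((tau0 - (1 - tau0) * w).im * (1 - w).re / Complex.normSq (1 - w)
      - (tau0 - (1 - tau0) * w).re * (1 - w).im / Complex.normSq (1 - w))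
      = (Real.sqrt 3 / 2) * (1 - (w.re * w.re + w.im * w.im)) / Complex.normSq (1 - w) := by
    rw [← sub_div]
    congr 1
    simp [tau0]
    ring
  rw [h5]
  have h6 : 0 < Real.sqrt 3 := Real.sqrt_pos.mpr (by norm_num)
  exact div_pos (mul_pos (by positivity) (by linarith)) h2

private lemma QR_norm {w : ℂ} (hw : w ∈ Metric.ball (0 : ℂ) 1) : ‖QR w‖ < 1 := by
  unfold QR
  rw [Complex.norm_exp, Real.exp_lt_one_iff]
  have h1 := tauR_im hw
  have h2 : (Real.pi * Complex.I * tauR w).re = -(Real.pi * (tauR w).im) := by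
    simp [Complex.mul_re]
  rw [h2]
  have := Real.pi_pos
  have h3 : 0 < Real.pi * (tauR w).im := by positivity
  linarith

private lemma QR_ne (w : ℂ) : QR w ≠ 0 := Complex.exp_ne_zero _

private lemma tauR_hd {w : ℂ} (hw : w ∈ Metric.ball (0 : ℂ) 1) :
    HasDerivAt tauR ((2 * tau0 - 1) / (1 - w) ^ 2) w := by
  have h1 : 1 - w ≠ 0 := one_sub_neR hw
  have h2 : HasDerivAt (fun w : ℂ => tau0 - (1 - tau0) * w) (-(1 - tau0)) w := by
    have := ((hasDerivAt_id w).const_mul (1 - tau0)).const_sub tau0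
    simpa using this
  have h3 : HasDerivAt (fun w : ℂ => 1 - w) (-1) w := by
    simpa using (hasDerivAt_id w).const_sub 1
  have h4 := h2.fun_div h3 h1
  have h5 : (-(1 - tau0) * (1 - w) - (tau0 - (1 - tau0) * w) * -1)
      / (1 - w) ^ 2 = (2 * tau0 - 1) / (1 - w) ^ 2 := by
    congr 1
    ring
  rw [h5] at h4
  exact h4

private lemma QR_hd {w : ℂ} (hw : w ∈ Metric.ball (0 : ℂ) 1) :
    HasDerivAt QR (QR w * (Real.pi * Complex.I * ((2 * tau0 - 1) / (1 - w) ^ 2))) w := by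
  have h1 := (tauR_hd hw).const_mul (Real.pi * Complex.I)
  exact h1.cexp

private lemma QR_zero : QR 0 = Q3 := by
  unfold QR tauR
  rw [Q3_exp]
  congr 1
  simp

private lemma valR : 1 - t3 (-Q3) ^ 4 / t3 Q3 ^ 4 = tau0 := by
  have h0 : t3 Q3 ≠ 0 := t3_ne _ (lt_trans Q3_norm (by norm_num))
  have h1 := t3_funct
  have h2 : t3 (-Q3) ^ 4 = (-(tau0 ^ 2)) * t3 Q3 ^ 4 := by
    calc t3 (-Q3) ^ 4 = (t3 (-Q3) ^ 2) ^ 2 := by ring
      _ = (Complex.I * Complex.I) * tau0 ^ 2 * t3 Q3 ^ 4 := by rw [h1]; ring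
      _ = _ := by rw [Complex.I_mul_I]; ring
  rw [h2, mul_div_assoc, div_self (pow_ne_zero 4 h0)]
  linear_combination tau0_eq

private lemma numR (c s C S : ℝ) (hc : 1 ≤ c)
    (h1 : (1 - Real.sqrt 3 / 2) * (c ^ 2 - s ^ 2) = c * s) (hs : 0 ≤ s) (hsS : s ≤ S)
    (hC0 : 0 ≤ C) (hC : C ≤ 0.0004) :
    5.63 * (c ^ 2 + s ^ 2) < 8 * (Real.pi * Real.sqrt 3) * (c * S - s * C) := by
  have hpi : 3.14159 < Real.pi := by have := Real.pi_gt_d6; linarith
  have h3a : 1.73205 < Real.sqrt 3 := by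
    rw [Real.lt_sqrt (by norm_num)]; norm_num
  have h3b : Real.sqrt 3 < 1.732051 := by
    rw [Real.sqrt_lt' (by norm_num)]; norm_num
  -- y = s/c
  set y : ℝ := s / c with hy
  have hc0 : 0 < c := by linarith
  have hsy : s = y * c := by rw [hy]; field_simp
  have hy0 : 0 ≤ y := by positivity
  have h2 : (1 - Real.sqrt 3 / 2) * (1 - y ^ 2) = y := by
    have h3 : (1 - Real.sqrt 3 / 2) * (1 - y ^ 2) * c ^ 2 = y * c ^ 2 := by
      rw [hsy] at h1
      linear_combination h1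
    exact mul_right_cancel₀ (by positivity) h3
  have hy1 : y < 1 := by
    by_contra h
    push Not at h
    have h4 : 1 - y ^ 2 ≤ 0 := by nlinarith
    have h5 : 0 < 1 - Real.sqrt 3 / 2 := by linarith
    have h6 : (1 - Real.sqrt 3 / 2) * (1 - y ^ 2) ≤ 0 := by
      exact mul_nonpos_of_nonneg_of_nonpos h5.le h4
    linarith
  have hylo : 0.13165 < y := by
    by_contra h
    push Not at h
    have h4 : y ^ 2 ≤ 0.13165 ^ 2 := pow_le_pow_left₀ hy0 h 2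
    have h5 : (0.1339745 : ℝ) ≤ 1 - Real.sqrt 3 / 2 := by linarith
    have h6 : (0.1339745 : ℝ) * (1 - 0.13165 ^ 2) ≤ (1 - Real.sqrt 3 / 2) * (1 - y ^ 2) := by
      apply mul_le_mul h5 (by linarith) (by norm_num) (by linarith)
    norm_num at h6
    linarith
  -- the main estimate
  have h7 : 0.9996 * (y * c ^ 2) ≤ c * S - s * C := by
    have h8 : c * s ≤ c * S := mul_le_mul_of_nonneg_left hsS hc0.le
    have h9 : s * C ≤ 0.0004 * (y * c ^ 2) := by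
      have h10 : s * C ≤ s * 0.0004 := mul_le_mul_of_nonneg_left hC hs
      have h11 : s ≤ y * c ^ 2 := by
        rw [hsy]
        have : y * c * 1 ≤ y * c * c := mul_le_mul_of_nonneg_left hc (by positivity)
        nlinarith
      nlinarith
    have h12 : c * s = y * c ^ 2 := by rw [hsy]; ring
    linarith
  have h13 : 43.5311 < 8 * (Real.pi * Real.sqrt 3) := by nlinarith
  have h14 : 5.63 * (1 + y ^ 2) < 43.5311 * (0.9996 * y) := by nlinarith
  have h15 : 5.63 * (c ^ 2 + s ^ 2) < 43.5311 * (0.9996 * (y * c ^ 2)) := by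
    have h16 : 5.63 * (c ^ 2 + s ^ 2) = 5.63 * (1 + y ^ 2) * c ^ 2 := by rw [hsy]; ring
    have h17 : 43.5311 * (0.9996 * (y * c ^ 2)) = 43.5311 * (0.9996 * y) * c ^ 2 := by ring
    rw [h16, h17]
    exact mul_lt_mul_of_pos_right h14 (by positivity)
  have h18 : 0 ≤ c * S - s * C := le_trans (by positivity) h7
  calc 5.63 * (c ^ 2 + s ^ 2) < 43.5311 * (0.9996 * (y * c ^ 2)) := h15
    _ ≤ 43.5311 * (c * S - s * C) := by linarith
    _ ≤ _ := mul_le_mul_of_nonneg_right h13.le h18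

theorem phiR_exists : ∃ g : ℂ → ℂ, DifferentiableOn ℂ g (Metric.ball 0 1) ∧ g 0 = 0 ∧
    (∀ w ∈ Metric.ball (0 : ℂ) 1, tau0 + g w ≠ 0 ∧ tau0 + g w ≠ 1) ∧ 5.63 < ‖deriv g 0‖ := by
  obtain ⟨c, s, C, S, hc, hcs, hs0, hsS, hC0, hC, ht, ht', hd, hd'⟩ := thR
  have h0mem : (0 : ℂ) ∈ Metric.ball (0 : ℂ) 1 := Metric.mem_ball_self one_pos
  have hI : Complex.I * Complex.I = -1 := Complex.I_mul_I
  have ht3d : ∀ q : ℂ, ‖q‖ < 1 → HasDerivAt t3 (deriv t3 q) q := fun q hq =>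
    (t3_diff.differentiableAt (Metric.isOpen_ball.mem_nhds (by simpa using hq))).hasDerivAt
  have hneg : ∀ w ∈ Metric.ball (0 : ℂ) 1, ‖-QR w‖ < 1 := fun w hw => by
    rw [norm_neg]; exact QR_norm hw
  have hne : ∀ w ∈ Metric.ball (0 : ℂ) 1, t3 (QR w) ^ 4 ≠ 0 := fun w hw =>
    pow_ne_zero 4 (t3_ne _ (QR_norm hw))
  have hAd : ∀ w ∈ Metric.ball (0 : ℂ) 1, HasDerivAt (fun w => t3 (QR w))
      (deriv t3 (QR w) * (QR w * (Real.pi * Complex.I * ((2 * tau0 - 1) / (1 - w) ^ 2)))) w :=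
    fun w hw => (ht3d _ (QR_norm hw)).comp w (QR_hd hw)
  have hBd : ∀ w ∈ Metric.ball (0 : ℂ) 1, HasDerivAt (fun w => t3 (-QR w))
      (deriv t3 (-QR w) *
        (-(QR w * (Real.pi * Complex.I * ((2 * tau0 - 1) / (1 - w) ^ 2))))) w :=
    fun w hw => HasDerivAt.comp (h₂ := t3) (h := fun w => -QR w) w (ht3d _ (hneg w hw))
      (QR_hd hw).fun_neg
  have hGd := fun w (hw : w ∈ Metric.ball (0 : ℂ) 1) =>
    ((((hBd w hw).fun_pow 4).fun_div ((hAd w hw).fun_pow 4) (hne w hw)).const_sub 1).sub_const tau0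
  refine ⟨fun w => 1 - t3 (-QR w) ^ 4 / t3 (QR w) ^ 4 - tau0, ?_, ?_, ?_, ?_⟩
  · intro w hw
    exact (hGd w hw).differentiableAt.differentiableWithinAt
  · show 1 - t3 (-QR 0) ^ 4 / t3 (QR 0) ^ 4 - tau0 = 0
    rw [QR_zero, valR, sub_self]
  · intro w hw
    have hq := QR_norm hw
    have hj := jacobi (QR w) hq
    have h2 : t3 (-QR w) ≠ 0 := t3_ne _ (hneg w hw)
    have h3 : ps (QR w) ≠ 0 := ps_ne _ hq
    have h4 := QR_ne w
    have e1 : tau0 + (1 - t3 (-QR w) ^ 4 / t3 (QR w) ^ 4 - tau0)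
        = 1 - t3 (-QR w) ^ 4 / t3 (QR w) ^ 4 := by ring
    show tau0 + (1 - t3 (-QR w) ^ 4 / t3 (QR w) ^ 4 - tau0) ≠ 0 ∧
      tau0 + (1 - t3 (-QR w) ^ 4 / t3 (QR w) ^ 4 - tau0) ≠ 1
    rw [e1]
    constructor
    · intro h
      have h5 : t3 (-QR w) ^ 4 / t3 (QR w) ^ 4 = 1 := by linear_combination -h
      rw [div_eq_one_iff_eq (hne w hw)] at h5
      rw [h5, sub_self] at hj
      exact (mul_ne_zero (mul_ne_zero (by norm_num) h4) (pow_ne_zero 4 h3)) hj.symm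
    · intro h
      have h5 : t3 (-QR w) ^ 4 / t3 (QR w) ^ 4 = 0 := by linear_combination -h
      exact (div_ne_zero (pow_ne_zero 4 h2) (hne w hw)) h5
  · rw [(hGd 0 h0mem).deriv]
    simp only [QR_zero]
    have e0 : (2 * tau0 - 1 : ℂ) = ((Real.sqrt 3 : ℝ) : ℂ) * Complex.I := by
      rw [tau0_form]
      push_cast
      ring
    have e1 : (Q3 * (Real.pi * Complex.I * ((2 * tau0 - 1) / (1 - 0) ^ 2)) : ℂ)
        = -((Real.pi * Real.sqrt 3 : ℝ) : ℂ) * Q3 := by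
      rw [sub_zero, one_pow, div_one, e0]
      push_cast
      linear_combination (Real.pi * (Real.sqrt 3 : ℝ) * Q3 : ℂ) * hI
    rw [e1]
    set K : ℝ := Real.pi * Real.sqrt 3 with hK
    have e2 : deriv t3 Q3 * (-(K : ℂ) * Q3) = -(K : ℂ) * (C + S * Complex.I) := by
      rw [← hd]; ring
    have e3 : deriv t3 (-Q3) * (-(-(K : ℂ) * Q3)) = -(K : ℂ) * (C - S * Complex.I) := by
      rw [← hd']; ring
    rw [e2, e3]
    have hn1 : ‖t3 Q3‖ ^ 2 = c ^ 2 + s ^ 2 := by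
      rw [ht, ← Complex.normSq_eq_norm_sq, Complex.normSq_apply]
      simp
      ring
    have hn2 : ‖t3 (-Q3)‖ ^ 2 = c ^ 2 + s ^ 2 := by
      rw [ht', ← Complex.normSq_eq_norm_sq, Complex.normSq_apply]
      simp
      ring
    have hN0 : 0 < c ^ 2 + s ^ 2 := by positivity
    have ht0 : t3 Q3 ≠ 0 := t3_ne _ (lt_trans Q3_norm (by norm_num))
    have e4 : -((((4 : ℕ) : ℂ) * t3 (-Q3) ^ (4 - 1) * (-(K : ℂ) * (C - S * Complex.I)) * t3 Q3 ^ 4 -
        t3 (-Q3) ^ 4 * (((4 : ℕ) : ℂ) * t3 Q3 ^ (4 - 1) * (-(K : ℂ) * (C + S * Complex.I))))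
          / (t3 Q3 ^ 4) ^ 2)
        = (((8 * K * (c * S - s * C) : ℝ) : ℂ) * -Complex.I) * (t3 (-Q3) ^ 3 / t3 Q3 ^ 5) := by
      have e5 : (C - S * Complex.I : ℂ) * t3 Q3 - t3 (-Q3) * (C + S * Complex.I)
          = (-2 * (c * S - s * C) : ℂ) * Complex.I := by
        rw [ht, ht']
        ring
      field_simp
      push_cast
      linear_combination (4 * (K : ℂ) * t3 (-Q3) ^ 3 * t3 Q3 ^ 3) * e5
    rw [e4]
    have hnum := numR c s C S hc hcs hs0 hsS hC0 hC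
    rw [← hK] at hnum
    have hpos : 0 < 8 * K * (c * S - s * C) := lt_trans (by positivity) hnum
    have hT : ‖t3 (-Q3)‖ = ‖t3 Q3‖ := by
      have h1 : ‖t3 (-Q3)‖ ^ 2 = ‖t3 Q3‖ ^ 2 := by rw [hn1, hn2]
      exact (pow_left_inj₀ (norm_nonneg _) (norm_nonneg _) two_ne_zero).mp h1
    have hT0 : 0 < ‖t3 Q3‖ := norm_pos_iff.mpr ht0
    rw [norm_mul, norm_mul, norm_neg, Complex.norm_I, mul_one, norm_div, norm_pow, norm_pow, hT,
      Complex.norm_real, Real.norm_eq_abs, abs_of_pos hpos]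
    have hq : ‖t3 Q3‖ ^ 3 / ‖t3 Q3‖ ^ 5 = (c ^ 2 + s ^ 2)⁻¹ := by
      rw [← hn1]
      field_simp
    rw [hq, ← div_eq_mul_inv, lt_div_iff₀ hN0]
    exact hnum

end FacC
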