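import Pool.Agent.Lib.FacC.Zr

/-!
POWERS of the power series f (Mathlib, and `inZ_*` of Zr.lean).

Hypotheses: D a * D b | D (a+b), D_m > 0 (so D 0 = 1), D_m * coeff m f in ℤ+ℤρ.
`pow_int`: the same for f^j, j >= 0 (induction on j, `PowerSeries.coeff_mul`:
  coeff m (f^j * f) = sum over antidiagonal (a,b), and D_m = D_a D_b c with c natural).
  For j = 0: f^0 = 1, coefficients 0 or 1.
`pow_int'`: D_m * coeff m (X^i * f^j) in ℤ+ℤρ (`PowerSeries.coeff_X_pow_mul'`; D (m-i) | D m).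
`pow_bd`: if ‖coeff m f‖ <= C b^m with C >= 1, b > 0, then ‖coeff m (f^j)‖ <= (2C)^j (2b)^m:
  induction: sum over a+c = m of (2C)^j (2b)^a C b^c <= (2C)^j C (2b)^m * sum 2^(-c) <= (2C)^(j+1) (2b)^m.
-/

open Polynomial

namespace FacC

private lemma D_one (D : ℕ → ℕ) (hD1 : ∀ m, 0 < D m) (hDm : ∀ a b, D a * D b ∣ D (a + b)) :
    D 0 = 1 := by
  have h := Nat.le_of_dvd (hD1 _) (hDm 0 0)
  rw [Nat.add_zero] at h
  have h1 := hD1 0
  nlinarith

theorem pow_int {ρ : ℂ} (hρ : ρ ^ 2 - ρ + 1 = 0) (f : PowerSeries ℂ) (D : ℕ → ℕ)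
    (hD1 : ∀ m, 0 < D m) (hDm : ∀ a b, D a * D b ∣ D (a + b))
    (hint : ∀ m, InZ ρ ((D m : ℂ) * PowerSeries.coeff m f)) (j m : ℕ) :
    InZ ρ ((D m : ℂ) * PowerSeries.coeff m (f ^ j)) := by
  induction j generalizing m with
  | zero =>
    rw [pow_zero, PowerSeries.coeff_one]
    split_ifs
    · exact ⟨D m, 0, by simp⟩
    · exact ⟨0, 0, by simp⟩
  | succ j ih =>
    rw [pow_succ, PowerSeries.coeff_mul, Finset.mul_sum]
    refine inZ_sum _ _ fun x hx => ?_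
    rw [Finset.HasAntidiagonal.mem_antidiagonal] at hx
    obtain ⟨c, hc⟩ := hDm x.1 x.2
    rw [hx] at hc
    have h1 : (D m : ℂ) * (PowerSeries.coeff x.1 (f ^ j) * PowerSeries.coeff x.2 f)
        = ((c : ℤ) : ℂ) * (((D x.1 : ℂ) * PowerSeries.coeff x.1 (f ^ j)) *
          ((D x.2 : ℂ) * PowerSeries.coeff x.2 f)) := by
      rw [hc]; push_cast; ring
    rw [h1]
    exact inZ_mul hρ (inZ_int _) (inZ_mul hρ (ih x.1) (hint x.2))

theorem pow_int' {ρ : ℂ} (hρ : ρ ^ 2 - ρ + 1 = 0) (f : PowerSeries ℂ) (D : ℕ → ℕ)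
    (hD1 : ∀ m, 0 < D m) (hDm : ∀ a b, D a * D b ∣ D (a + b))
    (hint : ∀ m, InZ ρ ((D m : ℂ) * PowerSeries.coeff m f)) (i j m : ℕ) :
    InZ ρ ((D m : ℂ) * PowerSeries.coeff m (PowerSeries.X ^ i * f ^ j)) := by
  rw [PowerSeries.coeff_X_pow_mul']
  split_ifs with h
  · obtain ⟨c, hc⟩ := hDm (m - i) i
    rw [Nat.sub_add_cancel h] at hc
    have h1 : (D m : ℂ) * PowerSeries.coeff (m - i) (f ^ j)
        = ((D i * c : ℕ) : ℤ) * ((D (m - i) : ℂ) * PowerSeries.coeff (m - i) (f ^ j)) := by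
      rw [hc]; push_cast; ring
    rw [h1]
    exact inZ_mul hρ (inZ_int _) (pow_int hρ f D hD1 hDm hint j (m - i))
  · exact ⟨0, 0, by simp⟩

theorem pow_bd (f : PowerSeries ℂ) (C b : ℝ) (hC : 1 ≤ C) (hb : 0 < b)
    (hf : ∀ m, ‖PowerSeries.coeff m f‖ ≤ C * b ^ m) (j m : ℕ) :
    ‖PowerSeries.coeff m (f ^ j)‖ ≤ (2 * C) ^ j * (2 * b) ^ m := by
  induction j generalizing m with
  | zero =>
    rw [pow_zero, pow_zero, PowerSeries.coeff_one, one_mul]
    split_ifs with h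
    · rw [h]; simp
    · simp; positivity
  | succ j ih =>
    rw [pow_succ, PowerSeries.coeff_mul]
    have h1 : ∀ x ∈ Finset.HasAntidiagonal.antidiagonal m,
        ‖PowerSeries.coeff x.1 (f ^ j) * PowerSeries.coeff x.2 f‖
          ≤ (2 * C) ^ j * C * (2 * b) ^ m * (1 / 2) ^ x.2 := by
      intro x hx
      rw [Finset.HasAntidiagonal.mem_antidiagonal] at hx
      rw [norm_mul]
      calc ‖PowerSeries.coeff x.1 (f ^ j)‖ * ‖PowerSeries.coeff x.2 f‖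
          ≤ ((2 * C) ^ j * (2 * b) ^ x.1) * (C * b ^ x.2) :=
            mul_le_mul (ih x.1) (hf x.2) (norm_nonneg _) (by positivity)
        _ = _ := by
            rw [← hx, pow_add, mul_pow 2 b x.2, one_div, inv_pow]
            have : (2 : ℝ) ^ x.2 ≠ 0 := by positivity
            field_simp
    refine (norm_sum_le_of_le _ h1).trans ?_
    rw [← Finset.mul_sum]
    have h2 : ∑ x ∈ Finset.HasAntidiagonal.antidiagonal m, ((1 : ℝ) / 2) ^ x.2 ≤ 2 := by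
      rw [Finset.Nat.sum_antidiagonal_eq_sum_range_succ_mk]
      have h3 := Finset.sum_range_reflect (fun i : ℕ => ((1 : ℝ) / 2) ^ i) (m + 1)
      have h4 : ∑ k ∈ Finset.range m.succ, ((1 : ℝ) / 2) ^ (m - k)
          = ∑ j ∈ Finset.range (m + 1), ((1 : ℝ) / 2) ^ (m + 1 - 1 - j) := by
        simp
      show ∑ k ∈ Finset.range m.succ, ((1 : ℝ) / 2) ^ (m - k) ≤ 2
      rw [h4, h3, geom_sum_eq (by norm_num)]
      have h5 : (0 : ℝ) < (1 / 2) ^ (m + 1) := by positivity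
      have h6 : (((1 : ℝ) / 2) ^ (m + 1) - 1) / (1 / 2 - 1) = 2 * (1 - (1 / 2) ^ (m + 1)) := by
        ring
      rw [h6]
      linarith
    calc (2 * C) ^ j * C * (2 * b) ^ m * ∑ x ∈ Finset.HasAntidiagonal.antidiagonal m, ((1 : ℝ) / 2) ^ x.2
        ≤ (2 * C) ^ j * C * (2 * b) ^ m * 2 := by gcongr
      _ = (2 * C) ^ (j + 1) * (2 * b) ^ m := by ring

end FacC
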