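import Pool.Agent.Lib.FacC.Defs

/-!
PULL BACK by a holomorphic map of the disc which avoids the zeros of E (no condition at infinity).
-/

open Polynomial Filter Topology

namespace FacC

theorem pull1 (E : ℤ[X]) (φ : ℂ → ℂ) (hφ : DifferentiableOn ℂ φ (Metric.ball 0 1))
    (hφE : ∀ w ∈ Metric.ball (0 : ℂ) 1, (toC E).eval (φ w) ≠ 0) :
    PullOK E ⊤ φ (fun _ => 1) := by
  intro n d B _
  set BC := B.map (Polynomial.map (Int.castRingHom ℂ)) with hBC
  refine ⟨fun w => deriv φ w • (((toC E).eval (φ w))⁻¹ • BC.map (eval (φ w))), ?_, ?_⟩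
  · intro i j
    have h1 : DifferentiableOn ℂ (deriv φ) (Metric.ball 0 1) := hφ.deriv Metric.isOpen_ball
    have h2 : DifferentiableOn ℂ (fun w => ((toC E).eval (φ w))⁻¹) (Metric.ball 0 1) := by
      have h3 : DifferentiableOn ℂ (fun w => (toC E).eval (φ w)) (Metric.ball 0 1) :=
        fun w hw => ((toC E).differentiable.differentiableAt.comp w
          (hφ.differentiableAt (Metric.isOpen_ball.mem_nhds hw))).differentiableWithinAt
      exact h3.fun_inv hφE
    have h4 : DifferentiableOn ℂ (fun w => (BC i j).eval (φ w)) (Metric.ball 0 1) :=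
      fun w hw => ((BC i j).differentiable.differentiableAt.comp w
        (hφ.differentiableAt (Metric.isOpen_ball.mem_nhds hw))).differentiableWithinAt
    exact h1.fun_mul (h2.fun_mul h4)
  · refine Filter.Eventually.of_forall fun w => ?_
    simp only [div_one]

end FacC
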