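import Pool.Agent.Lib.FacC.Pow

/-!
SIEGEL'S LEMMA for the auxiliary series (Mathlib: `Int.Matrix.exists_ne_zero_int_vec_norm_le`).

We want integers p_ij, i < L, j <= d, not all zero, with coeff m (aux p f) = 0 for m < T.
For m < T and (i,j) write (pow_int') D_T * coeff m (X^i f^j) = a_(m,i,j) + b_(m,i,j) ρ
(D_m | D_T because D_m D_(T-m) | D_T, so D_T * coeff is an integer multiple of D_m * coeff), a, b integers,
|a|, |b| <= 2 ‖D_T coeff m (X^i f^j)‖ <= 2 e^(κT) (2C)^d (2b)^T =: Y (inZ_coord, pow_bd, and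
coeff m (X^i f^j) is 0 or coeff (m-i) (f^j); 1 <= 2C, 1 <= 2b).
The integer matrix A has rows (m, 0/1) (index Fin T × Bool or Fin T × Fin 2, 2T rows), columns
Fin L × Fin (d+1) (L(d+1) columns); sup norm ‖A‖ <= Y (`Matrix.norm_le_iff`; in the file of
Siegel's lemma the norm is `Matrix.seminormedAddCommGroup` as a local instance: copy
`attribute [local instance] Matrix.seminormedAddCommGroup`), Y >= 1.
A t = 0 gives sum_(i,j) t_ij (a + b ρ) = 0, so D_T * coeff m (aux t f) = 0.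
-/

open Polynomial

namespace FacC

attribute [local instance] Matrix.seminormedAddCommGroup

private lemma coef_bd (f : PowerSeries ℂ) (C b : ℝ) (hC : 1 ≤ C) (hb : 1 ≤ b)
    (hf : ∀ m, ‖PowerSeries.coeff m f‖ ≤ C * b ^ m) (d T i j m : ℕ) (hj : j ≤ d) (hm : m < T) :
    ‖PowerSeries.coeff m (PowerSeries.X ^ i * f ^ j)‖ ≤ (2 * C) ^ d * (2 * b) ^ T := by
  rw [PowerSeries.coeff_X_pow_mul']
  split_ifs with h
  · refine (pow_bd f C b hC (by linarith) hf j (m - i)).trans ?_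
    have h1 : (2 * C) ^ j ≤ (2 * C) ^ d := pow_le_pow_right₀ (by linarith) hj
    have h2 : (2 * b) ^ (m - i) ≤ (2 * b) ^ T := pow_le_pow_right₀ (by linarith) (by omega)
    exact mul_le_mul h1 h2 (by positivity) (by positivity)
  · rw [norm_zero]; positivity

private lemma coef_int {ρ : ℂ} (hρ : ρ ^ 2 - ρ + 1 = 0) (f : PowerSeries ℂ) (D : ℕ → ℕ)
    (hD1 : ∀ m, 0 < D m) (hDm : ∀ a b, D a * D b ∣ D (a + b))
    (hint : ∀ m, InZ ρ ((D m : ℂ) * PowerSeries.coeff m f)) (T i j m : ℕ) (hm : m < T) :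
    InZ ρ ((D T : ℂ) * PowerSeries.coeff m (PowerSeries.X ^ i * f ^ j)) := by
  obtain ⟨c, hc⟩ := hDm m (T - m)
  have e : m + (T - m) = T := by omega
  rw [e] at hc
  have h1 : (D T : ℂ) * PowerSeries.coeff m (PowerSeries.X ^ i * f ^ j)
      = ((D (T - m) * c : ℕ) : ℤ) * ((D m : ℂ) *
        PowerSeries.coeff m (PowerSeries.X ^ i * f ^ j)) := by
    rw [hc]; push_cast; ring
  rw [h1]
  exact inZ_mul hρ (inZ_int _) (pow_int' hρ f D hD1 hDm hint i j m)

theorem siegel {ρ : ℂ} (hρ : ρ ^ 2 - ρ + 1 = 0) (f : PowerSeries ℂ) (D : ℕ → ℕ)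
    (hD1 : ∀ m, 0 < D m) (hDm : ∀ a b, D a * D b ∣ D (a + b)) (κ : ℝ) (hκ : 0 ≤ κ)
    (hDk : ∀ m, (D m : ℝ) ≤ Real.exp (κ * m))
    (hint : ∀ m, InZ ρ ((D m : ℂ) * PowerSeries.coeff m f)) (C b : ℝ) (hC : 1 ≤ C) (hb : 1 ≤ b)
    (hf : ∀ m, ‖PowerSeries.coeff m f‖ ≤ C * b ^ m) (L d T : ℕ) (hT : 1 ≤ T)
    (hLT : 2 * T < L * (d + 1)) :
    ∃ p : Fin L → Fin (d + 1) → ℤ, p ≠ 0 ∧
      (∀ m < T, PowerSeries.coeff m (aux p f) = 0) ∧
      ∀ i j, |(p i j : ℝ)| ≤
        ((L * (d + 1) : ℝ) * (2 * Real.exp (κ * T) * (2 * C) ^ d * (2 * b) ^ T)) ^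
          ((2 * T : ℝ) / (L * (d + 1) - 2 * T)) := by
  set Y : ℝ := 2 * Real.exp (κ * T) * (2 * C) ^ d * (2 * b) ^ T with hY
  have hY1 : 1 ≤ Y := by
    have h1 : 1 ≤ Real.exp (κ * T) := Real.one_le_exp (by positivity)
    have h2 : 1 ≤ (2 * C) ^ d := one_le_pow₀ (by linarith)
    have h3 : 1 ≤ (2 * b) ^ T := one_le_pow₀ (by linarith)
    have h4 : 1 ≤ Real.exp (κ * T) * (2 * C) ^ d := one_le_mul_of_one_le_of_one_le h1 h2
    have h5 : 1 ≤ Real.exp (κ * T) * (2 * C) ^ d * (2 * b) ^ T :=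
      one_le_mul_of_one_le_of_one_le h4 h3
    rw [hY]
    calc (1 : ℝ) ≤ 2 * (Real.exp (κ * T) * (2 * C) ^ d * (2 * b) ^ T) := by linarith
      _ = _ := by ring
  have hcoef : ∀ (m : Fin T) (i : Fin L) (j : Fin (d + 1)),
      ∃ a c : ℤ, (D T : ℂ) * PowerSeries.coeff (m : ℕ) (PowerSeries.X ^ (i : ℕ) * f ^ (j : ℕ))
        = a + c * ρ := fun m i j => coef_int hρ f D hD1 hDm hint T i j m m.2
  choose a c hac using hcoef
  have hab : ∀ m i j, |(a m i j : ℝ)| ≤ Y ∧ |(c m i j : ℝ)| ≤ Y := by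
    intro m i j
    have h1 := inZ_coord hρ (a m i j) (c m i j)
    rw [← hac] at h1
    have h2 : 2 * ‖(D T : ℂ) * PowerSeries.coeff (m : ℕ)
        (PowerSeries.X ^ (i : ℕ) * f ^ (j : ℕ))‖ ≤ Y := by
      rw [norm_mul, Complex.norm_natCast]
      have h3 := coef_bd f C b hC hb hf d T i j m (by have := j.2; omega) m.2
      have h4 := mul_le_mul (hDk T) h3 (norm_nonneg _) (Real.exp_pos _).le
      rw [hY]
      calc _ ≤ 2 * (Real.exp (κ * T) * ((2 * C) ^ d * (2 * b) ^ T)) := by linarith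
        _ = _ := by ring
    exact ⟨h1.1.trans h2, h1.2.trans h2⟩
  let A : Matrix (Fin T × Bool) (Fin L × Fin (d + 1)) ℤ :=
    fun r s => if r.2 then a r.1 s.1 s.2 else c r.1 s.1 s.2
  have hcα : Fintype.card (Fin T × Bool) = 2 * T := by
    rw [Fintype.card_prod, Fintype.card_fin, Fintype.card_bool]; ring
  have hcβ : Fintype.card (Fin L × Fin (d + 1)) = L * (d + 1) := by
    rw [Fintype.card_prod, Fintype.card_fin, Fintype.card_fin]
  obtain ⟨t, ht0, htA, htn⟩ := Int.Matrix.exists_ne_zero_int_vec_norm_le A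
    (by rw [hcα, hcβ]; exact hLT) (by rw [hcα]; omega)
  have hA : ‖A‖ ≤ Y := by
    rw [Matrix.norm_le_iff (by linarith)]
    intro r s
    rw [Int.norm_eq_abs]
    show |((if r.2 then a r.1 s.1 s.2 else c r.1 s.1 s.2 : ℤ) : ℝ)| ≤ Y
    split_ifs
    · exact (hab _ _ _).1
    · exact (hab _ _ _).2
  have hmax : max 1 ‖A‖ ≤ Y := max_le hY1 hA
  refine ⟨fun i j => t (i, j), ?_, ?_, ?_⟩
  · intro h
    apply ht0
    funext s
    exact congrFun (congrFun h s.1) s.2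
  · intro m hm
    have hD : (D T : ℂ) ≠ 0 := by exact_mod_cast (hD1 T).ne'
    have h1 : (D T : ℂ) * PowerSeries.coeff m (aux (fun i j => t (i, j)) f) = 0 := by
      have e1 : ∑ s : Fin L × Fin (d + 1), a ⟨m, hm⟩ s.1 s.2 * t s = 0 := by
        have := congrFun htA (⟨m, hm⟩, true)
        simpa [Matrix.mulVec, dotProduct, A] using this
      have e2 : ∑ s : Fin L × Fin (d + 1), c ⟨m, hm⟩ s.1 s.2 * t s = 0 := by
        have := congrFun htA (⟨m, hm⟩, false)
        simpa [Matrix.mulVec, dotProduct, A] using this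
      have e3 : PowerSeries.coeff m (aux (fun i j => t (i, j)) f)
          = ∑ s : Fin L × Fin (d + 1), ((t s : ℤ) : ℂ) *
            PowerSeries.coeff m (PowerSeries.X ^ (s.1 : ℕ) * f ^ (s.2 : ℕ)) := by
        rw [aux, map_sum, Fintype.sum_prod_type]
        refine Finset.sum_congr rfl fun i _ => ?_
        rw [map_sum]
        refine Finset.sum_congr rfl fun j _ => ?_
        rw [mul_assoc, PowerSeries.coeff_C_mul]
      rw [e3, Finset.mul_sum]
      have e4 : ∀ s : Fin L × Fin (d + 1), (D T : ℂ) * (((t s : ℤ) : ℂ) *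
            PowerSeries.coeff m (PowerSeries.X ^ (s.1 : ℕ) * f ^ (s.2 : ℕ)))
          = ((a ⟨m, hm⟩ s.1 s.2 * t s : ℤ) : ℂ) + ((c ⟨m, hm⟩ s.1 s.2 * t s : ℤ) : ℂ) * ρ := by
        intro s
        have := hac ⟨m, hm⟩ s.1 s.2
        push_cast
        linear_combination ((t s : ℤ) : ℂ) * this
      rw [Finset.sum_congr rfl fun s _ => e4 s, Finset.sum_add_distrib, ← Finset.sum_mul,
        ← Int.cast_sum, ← Int.cast_sum, e1, e2]
      simp
    exact (mul_eq_zero.mp h1).resolve_left hD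
  · intro i j
    have h1 : |(t (i, j) : ℝ)| ≤ ‖t‖ := by
      rw [← Int.norm_eq_abs]; exact norm_le_pi_norm t (i, j)
    refine h1.trans (htn.trans ?_)
    rw [hcα, hcβ]
    push_cast
    apply Real.rpow_le_rpow (by positivity)
    · exact mul_le_mul_of_nonneg_left hmax (by positivity)
    · have h2 : ((2 * T : ℕ) : ℝ) < ((L * (d + 1) : ℕ) : ℝ) := by exact_mod_cast hLT
      push_cast at h2
      apply div_nonneg (by positivity)
      linarith

end FacC
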