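import Pool.Agent.Lib.FacC.IntK
import Pool.Agent.Lib.FacC.Par
import Mathlib.NumberTheory.SiegelsLemma

/-!
SIEGEL'S LEMMA for the auxiliary series, number field version (compare Sieg.lean): one integral
p_ij for all embeddings σ of K at once, n T equations, n = number of embeddings.
-/

open Polynomial NumberField

namespace FacC

attribute [local instance] Matrix.seminormedAddCommGroup

variable (K : Type*) [Field K] [NumberField K]

/-- coordinates of algebraic integers are bounded by the conjugates -/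
theorem coordK : ∃ (c : ℝ) (bas : Module.Basis (K →+* ℂ) ℤ (𝓞 K)), 1 ≤ c ∧
    ∀ (y : 𝓞 K) (Y : ℝ), 0 ≤ Y → (∀ σ : K →+* ℂ, ‖σ (y : K)‖ ≤ Y) →
      ∀ r, |((bas.repr y r : ℤ) : ℝ)| ≤ c * Y := by
  classical
  obtain ⟨c0, hc0⟩ : ∃ c0 : ℝ, ∀ (y : 𝓞 K) (r : K →+* ℂ),
      ‖(((integralBasis K).reindex (equivReindex K).symm).repr y r : ℂ)‖ ≤
        c0 * house (algebraMap (𝓞 K) K y) :=
    ⟨_, fun y r => house.basis_repr_norm_le_const_mul_house K y r⟩
  refine ⟨max 1 c0, (RingOfIntegers.basis K).reindex (equivReindex K).symm, le_max_left 1 _, ?_⟩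
  intro y Y hY hy r
  have h1 := hc0 y r
  have h2 : house (algebraMap (𝓞 K) K y) ≤ Y := by
    unfold house
    rw [pi_norm_le_iff_of_nonneg hY]
    intro σ
    exact hy σ
  have h3 : ((((integralBasis K).reindex (equivReindex K).symm).repr y r : ℚ) : ℂ)
      = ((((RingOfIntegers.basis K).reindex (equivReindex K).symm).repr y r : ℤ) : ℂ) := by
    simp only [Module.Basis.repr_reindex_apply]
    rw [integralBasis_repr_apply]
    simp
  rw [h3, Complex.norm_intCast] at h1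
  refine h1.trans ?_
  have h4 : 0 ≤ house (algebraMap (𝓞 K) K y) := house_nonneg _
  exact mul_le_mul (le_max_right 1 _) h2 h4 (le_trans zero_le_one (le_max_left _ _))

private lemma coef_bdK (f : PowerSeries ℂ) (C b : ℝ) (hC : 1 ≤ C) (hb : 1 ≤ b)
    (hf : ∀ m, ‖PowerSeries.coeff m f‖ ≤ C * b ^ m) (d T i j m : ℕ) (hj : j ≤ d) (hm : m < T) :
    ‖PowerSeries.coeff m (PowerSeries.X ^ i * f ^ j)‖ ≤ (2 * C) ^ d * (2 * b) ^ T := by
  rw [PowerSeries.coeff_X_pow_mul']
  split_ifs with h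
  · refine (pow_bd f C b hC (by linarith) hf j (m - i)).trans ?_
    have h1 : (2 * C) ^ j ≤ (2 * C) ^ d := pow_le_pow_right₀ (by linarith) hj
    have h2 : (2 * b) ^ (m - i) ≤ (2 * b) ^ T := pow_le_pow_right₀ (by linarith) (by omega)
    exact mul_le_mul h1 h2 (by positivity) (by positivity)
  · rw [norm_zero]; positivity

theorem siegelK : ∃ cK : ℝ, 1 ≤ cK ∧ ∀ (f : (K →+* ℂ) → PowerSeries ℂ) (D : ℕ → ℕ)
    (_hD1 : ∀ m, 0 < D m) (_hDm : ∀ a b, D a * D b ∣ D (a + b)) (κ : ℝ) (_hκ : 0 ≤ κ)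
    (_hDk : ∀ m, (D m : ℝ) ≤ Real.exp (κ * m))
    (_hint : ∀ m, IntK fun σ => (D m : ℂ) * PowerSeries.coeff m (f σ)) (C b : ℝ)
    (_hC : 1 ≤ C) (_hb : 1 ≤ b)
    (_hf : ∀ σ m, ‖PowerSeries.coeff m (f σ)‖ ≤ C * b ^ m) (L d T : ℕ) (_hT : 1 ≤ T)
    (_hLT : Fintype.card (K →+* ℂ) * T < L * (d + 1)),
    ∃ p : Fin L → Fin (d + 1) → ℤ, p ≠ 0 ∧
      (∀ σ, ∀ m < T, PowerSeries.coeff m (aux p (f σ)) = 0) ∧
      ∀ i j, |(p i j : ℝ)| ≤
        ((L * (d + 1) : ℝ) * (cK * Real.exp (κ * T) * (2 * C) ^ d * (2 * b) ^ T)) ^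
          (((Fintype.card (K →+* ℂ) : ℕ) * T : ℝ) /
            (L * (d + 1) - (Fintype.card (K →+* ℂ) : ℕ) * T)) := by
  classical
  obtain ⟨cK, bas, hcK, hbas⟩ := coordK K
  refine ⟨cK, hcK, ?_⟩
  intro f D hD1 hDm κ hκ hDk hint C b hC hb hf L d T hT hLT
  set n : ℕ := Fintype.card (K →+* ℂ) with hn
  set Y : ℝ := cK * Real.exp (κ * T) * (2 * C) ^ d * (2 * b) ^ T with hY
  have hY1 : 1 ≤ Y := by
    have h1 : 1 ≤ Real.exp (κ * T) := Real.one_le_exp (by positivity)
    have h2 : 1 ≤ (2 * C) ^ d := one_le_pow₀ (by linarith)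
    have h3 : 1 ≤ (2 * b) ^ T := one_le_pow₀ (by linarith)
    exact one_le_mul_of_one_le_of_one_le (one_le_mul_of_one_le_of_one_le
      (one_le_mul_of_one_le_of_one_le hcK h1) h2) h3
  have hcoef : ∀ (m : Fin T) (s : Fin L × Fin (d + 1)),
      ∃ y : 𝓞 K, ∀ σ : K →+* ℂ, (D T : ℂ) *
        PowerSeries.coeff (m : ℕ) (PowerSeries.X ^ (s.1 : ℕ) * f σ ^ (s.2 : ℕ)) = σ (y : K) :=
    fun m s => coef_intK f D hDm hint T s.1 s.2 m m.2
  choose y hy using hcoef
  have hab : ∀ m s r, |((bas.repr (y m s) r : ℤ) : ℝ)| ≤ Y := by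
    intro m s r
    have h0 : 0 ≤ Real.exp (κ * T) * ((2 * C) ^ d * (2 * b) ^ T) := by
      have : 0 ≤ 2 * C := by linarith
      have : 0 ≤ 2 * b := by linarith
      positivity
    have h1 := hbas (y m s) (Real.exp (κ * T) * ((2 * C) ^ d * (2 * b) ^ T)) h0 (by
      intro σ
      rw [← hy, norm_mul, Complex.norm_natCast]
      have h3 := coef_bdK (f σ) C b hC hb (hf σ) d T s.1 s.2 m (by have := s.2.2; omega) m.2
      exact mul_le_mul (hDk T) h3 (norm_nonneg _) (Real.exp_pos _).le) r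
    refine h1.trans (le_of_eq ?_)
    rw [hY]
    ring
  let A : Matrix (Fin T × (K →+* ℂ)) (Fin L × Fin (d + 1)) ℤ :=
    fun r s => bas.repr (y r.1 s) r.2
  have hcα : Fintype.card (Fin T × (K →+* ℂ)) = n * T := by
    rw [Fintype.card_prod, Fintype.card_fin]; ring
  have hcβ : Fintype.card (Fin L × Fin (d + 1)) = L * (d + 1) := by
    rw [Fintype.card_prod, Fintype.card_fin, Fintype.card_fin]
  have hn0 : 0 < n := Fintype.card_pos
  obtain ⟨t, ht0, htA, htn⟩ := Int.Matrix.exists_ne_zero_int_vec_norm_le A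
    (by rw [hcα, hcβ]; exact hLT) (by rw [hcα]; exact Nat.mul_pos hn0 hT)
  have hA : ‖A‖ ≤ Y := by
    rw [Matrix.norm_le_iff (by linarith)]
    intro r s
    rw [Int.norm_eq_abs]
    exact hab _ _ _
  have hmax : max 1 ‖A‖ ≤ Y := max_le hY1 hA
  refine ⟨fun i j => t (i, j), ?_, ?_, ?_⟩
  · intro h
    apply ht0
    funext s
    exact congrFun (congrFun h s.1) s.2
  · intro σ m hm
    have hD : (D T : ℂ) ≠ 0 := by exact_mod_cast (hD1 T).ne'
    have h1 : (D T : ℂ) * PowerSeries.coeff m (aux (fun i j => t (i, j)) (f σ)) = 0 := by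
      have e1 : ∑ s : Fin L × Fin (d + 1), (t s) • y ⟨m, hm⟩ s = 0 := by
        apply bas.ext_elem
        intro r
        have := congrFun htA (⟨m, hm⟩, r)
        rw [map_sum, map_zero, Finsupp.finsetSum_apply]
        simp only [map_zsmul, Finsupp.coe_smul, Pi.smul_apply, smul_eq_mul, Finsupp.coe_zero,
          Pi.zero_apply]
        simp only [Matrix.mulVec, dotProduct, A, Pi.zero_apply] at this
        rw [← this]
        exact Finset.sum_congr rfl fun s _ => mul_comm _ _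
      have e3 : PowerSeries.coeff m (aux (fun i j => t (i, j)) (f σ))
          = ∑ s : Fin L × Fin (d + 1), ((t s : ℤ) : ℂ) *
            PowerSeries.coeff m (PowerSeries.X ^ (s.1 : ℕ) * f σ ^ (s.2 : ℕ)) := by
        rw [aux, map_sum, Fintype.sum_prod_type]
        refine Finset.sum_congr rfl fun i _ => ?_
        rw [map_sum]
        refine Finset.sum_congr rfl fun j _ => ?_
        rw [mul_assoc, PowerSeries.coeff_C_mul]
      rw [e3, Finset.mul_sum]
      have e4 : ∀ s : Fin L × Fin (d + 1), (D T : ℂ) * (((t s : ℤ) : ℂ) *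
            PowerSeries.coeff m (PowerSeries.X ^ (s.1 : ℕ) * f σ ^ (s.2 : ℕ)))
          = ((t s : ℤ) : ℂ) * σ (y ⟨m, hm⟩ s : K) := by
        intro s
        have := hy ⟨m, hm⟩ s σ
        linear_combination ((t s : ℤ) : ℂ) * this
      rw [Finset.sum_congr rfl fun s _ => e4 s]
      have e5 := congrArg (fun x : 𝓞 K => σ (x : K)) e1
      simp only [map_sum, zsmul_eq_mul, map_mul, map_intCast, map_zero] at e5
      exact e5
    exact (mul_eq_zero.mp h1).resolve_left hD
  · intro i j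
    have h1 : |(t (i, j) : ℝ)| ≤ ‖t‖ := by
      rw [← Int.norm_eq_abs]; exact norm_le_pi_norm t (i, j)
    refine h1.trans (htn.trans ?_)
    rw [hcα, hcβ]
    push_cast
    apply Real.rpow_le_rpow (by positivity)
    · exact mul_le_mul_of_nonneg_left hmax (by positivity)
    · have h2 : ((n * T : ℕ) : ℝ) < ((L * (d + 1) : ℕ) : ℝ) := by exact_mod_cast hLT
      push_cast at h2
      apply div_nonneg (by positivity)
      linarith

end FacC
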