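import Pool.Agent.Lib.FacC.ThS

/-!
THETA IDENTITIES, part A (ThS and Mathlib).  All for ‖q‖ < 1.

Note t3 (-q) = ∑ (-1)^n q^(n^2)  because (-1)^(n^2) = (-1)^n.  Double sums over ℤ × ℤ:
t3(q)^2 = ∑_(m,n) q^(m^2+n^2)  (`tsum_mul_tsum_of_summable_norm`).
(A1) t3(q)^2 + t3(-q)^2 = 2 t3(q^2)^2:  the left side is ∑ (1 + (-1)^(m+n)) q^(m^2+n^2), i.e. twice the sum
 over the pairs with m+n even; m = a+b, n = a-b (injection ℤ×ℤ -> ℤ×ℤ with this image):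
 m^2+n^2 = 2(a^2+b^2).
(A2) t3(q) t3(-q) = t3(-q^2)^2: the left side is ∑ (-1)^n q^(m^2+n^2); the pairs with m+n odd cancel
 (exchange m and n: (-1)^n + (-1)^m = 0); m = a+b, n = a-b: (-1)^(a-b) q^(2a^2+2b^2) =
 (-1)^a (q^2)^(a^2) (-1)^b (q^2)^(b^2); and t3(-q^2) = ∑ (-1)^a (q^2)^(a^2).
Technique: `Function.Injective.tsum_eq` for the map (a,b) ↦ (a+b,a-b) when the summand vanishes outside the
range (multiply by the parity factor first); powers with natAbs: (a+b).natAbs^2 + (a-b).natAbs^2 =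
2 (a.natAbs^2 + b.natAbs^2) (zify, `Int.natAbs_sq`, ring).
-/

open Polynomial Filter Topology

namespace FacC

private def ThA_g (z : ℤ × ℤ) : ℤ × ℤ := (z.1 + z.2, z.1 - z.2)

private theorem ThA_inj : Function.Injective ThA_g := by
  rintro ⟨a, b⟩ ⟨c, d⟩ h
  unfold ThA_g at h
  rw [Prod.mk.injEq] at h
  obtain ⟨h1, h2⟩ := h
  simp only at h1 h2
  rw [Prod.mk.injEq]
  constructor <;> omega

private theorem ThA_nsq (a b : ℤ) : (a + b).natAbs ^ 2 + (a - b).natAbs ^ 2 =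
    2 * (a.natAbs ^ 2 + b.natAbs ^ 2) := by
  have h : (((a + b).natAbs ^ 2 + (a - b).natAbs ^ 2 : ℕ) : ℤ) =
      ((2 * (a.natAbs ^ 2 + b.natAbs ^ 2) : ℕ) : ℤ) := by
    push_cast
    rw [sq_abs, sq_abs, sq_abs, sq_abs]
    ring
  exact_mod_cast h

private theorem ThA_ev (a : ℤ) : Even (a.natAbs ^ 2) ↔ Even a := by
  rw [Nat.even_pow, Int.natAbs_even]
  simp

private theorem ThA_neg (m n : ℕ) (h : Even m ↔ Even n) : (-1 : ℂ) ^ m = (-1) ^ n := by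
  by_cases hm : Even m
  · rw [hm.neg_one_pow, (h.1 hm).neg_one_pow]
  · rw [(Nat.not_even_iff_odd.1 hm).neg_one_pow,
      (Nat.not_even_iff_odd.1 (fun hn => hm (h.2 hn))).neg_one_pow]

private theorem ThA_range (z : ℤ × ℤ) (h : Even (z.1.natAbs ^ 2) ↔ Even (z.2.natAbs ^ 2)) :
    z ∈ Set.range ThA_g := by
  rw [ThA_ev, ThA_ev] at h
  have h1 : Even (z.1 + z.2) := Int.even_add.2 h
  obtain ⟨c, hc⟩ := h1
  refine ⟨(c, z.1 - c), ?_⟩
  unfold ThA_g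
  refine Prod.ext ?_ ?_
  · change c + (z.1 - c) = z.1
    ring
  · change c - (z.1 - c) = z.2
    omega

private theorem ThA_mul (p q : ℂ) (hp : ‖p‖ < 1) (hq : ‖q‖ < 1) :
    t3 p * t3 q = ∑' z : ℤ × ℤ, p ^ (z.1.natAbs ^ 2) * q ^ (z.2.natAbs ^ 2) := by
  unfold t3
  exact tsum_mul_tsum_of_summable_norm (t3_summable p hp) (t3_summable q hq)

private theorem ThA_sum (p q : ℂ) (hp : ‖p‖ < 1) (hq : ‖q‖ < 1) :
    Summable fun z : ℤ × ℤ => p ^ (z.1.natAbs ^ 2) * q ^ (z.2.natAbs ^ 2) := by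
  have h := summable_mul_of_summable_norm (f := fun n : ℤ => p ^ (n.natAbs ^ 2))
    (g := fun n : ℤ => q ^ (n.natAbs ^ 2)) (t3_summable p hp) (t3_summable q hq)
  exact h

private theorem ThA_sq (q : ℂ) (hq : ‖q‖ < 1) : ‖q ^ 2‖ < 1 := by
  rw [norm_pow]
  exact pow_lt_one₀ (norm_nonneg q) hq two_ne_zero

theorem thA1 (q : ℂ) (hq : ‖q‖ < 1) : t3 q ^ 2 + t3 (-q) ^ 2 = 2 * t3 (q ^ 2) ^ 2 := by
  have hn : ‖-q‖ < 1 := by rwa [norm_neg]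
  have h2 := ThA_sq q hq
  rw [pow_two, pow_two, pow_two (t3 (q ^ 2)), ThA_mul q q hq hq, ThA_mul _ _ hn hn,
    ThA_mul _ _ h2 h2, ← (ThA_sum q q hq hq).tsum_add (ThA_sum _ _ hn hn), ← tsum_mul_left]
  rw [← ThA_inj.tsum_eq (f := fun z : ℤ × ℤ => q ^ (z.1.natAbs ^ 2) * q ^ (z.2.natAbs ^ 2) +
    (-q) ^ (z.1.natAbs ^ 2) * (-q) ^ (z.2.natAbs ^ 2))]
  · refine tsum_congr fun z => ?_
    have h3 := ThA_nsq z.1 z.2
    have h4 : (-1 : ℂ) ^ (2 * (z.1.natAbs ^ 2 + z.2.natAbs ^ 2)) = 1 := by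
      rw [pow_mul, neg_one_sq, one_pow]
    change q ^ ((z.1 + z.2).natAbs ^ 2) * q ^ ((z.1 - z.2).natAbs ^ 2) +
      (-q) ^ ((z.1 + z.2).natAbs ^ 2) * (-q) ^ ((z.1 - z.2).natAbs ^ 2) =
      2 * ((q ^ 2) ^ (z.1.natAbs ^ 2) * (q ^ 2) ^ (z.2.natAbs ^ 2))
    rw [← pow_add, ← pow_add, ← pow_add, h3, neg_pow, h4, one_mul, ← two_mul, pow_mul]
  · intro z hz
    apply ThA_range
    rw [Function.mem_support] at hz
    by_contra hc
    apply hz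
    rw [← pow_add, ← pow_add, neg_pow]
    have h5 : Odd (z.1.natAbs ^ 2 + z.2.natAbs ^ 2) := by
      rw [← Nat.not_even_iff_odd, Nat.even_add]
      exact hc
    rw [h5.neg_one_pow]
    ring

theorem thA2 (q : ℂ) (hq : ‖q‖ < 1) : t3 q * t3 (-q) = t3 (-q ^ 2) ^ 2 := by
  have hn : ‖-q‖ < 1 := by rwa [norm_neg]
  have h2 : ‖-q ^ 2‖ < 1 := by
    rw [norm_neg]
    exact ThA_sq q hq
  have h6 : 2 * (t3 q * t3 (-q)) = 2 * t3 (-q ^ 2) ^ 2 := by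
    have h7 : 2 * (t3 q * t3 (-q)) = t3 q * t3 (-q) + t3 (-q) * t3 q := by ring
    rw [h7, pow_two, ThA_mul q (-q) hq hn, ThA_mul (-q) q hn hq, ThA_mul _ _ h2 h2,
      ← (ThA_sum q (-q) hq hn).tsum_add (ThA_sum (-q) q hn hq), ← tsum_mul_left]
    rw [← ThA_inj.tsum_eq (f := fun z : ℤ × ℤ => q ^ (z.1.natAbs ^ 2) * (-q) ^ (z.2.natAbs ^ 2) +
      (-q) ^ (z.1.natAbs ^ 2) * q ^ (z.2.natAbs ^ 2))]
    · refine tsum_congr fun z => ?_
      have h3 := ThA_nsq z.1 z.2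
      change q ^ ((z.1 + z.2).natAbs ^ 2) * (-q) ^ ((z.1 - z.2).natAbs ^ 2) +
        (-q) ^ ((z.1 + z.2).natAbs ^ 2) * q ^ ((z.1 - z.2).natAbs ^ 2) =
        2 * ((-q ^ 2) ^ (z.1.natAbs ^ 2) * (-q ^ 2) ^ (z.2.natAbs ^ 2))
      have h4 : (-1 : ℂ) ^ ((z.1 + z.2).natAbs ^ 2) = (-1) ^ (z.1.natAbs ^ 2 + z.2.natAbs ^ 2) := by
        apply ThA_neg
        rw [Nat.even_add, ThA_ev, ThA_ev, ThA_ev, Int.even_add]
      have h5 : (-1 : ℂ) ^ ((z.1 - z.2).natAbs ^ 2) = (-1) ^ (z.1.natAbs ^ 2 + z.2.natAbs ^ 2) := by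
        apply ThA_neg
        rw [Nat.even_add, ThA_ev, ThA_ev, ThA_ev, Int.even_sub]
      rw [neg_pow q, neg_pow q, h4, h5, ← pow_add (-q ^ 2), neg_pow (q ^ 2), ← pow_mul, ← h3,
        pow_add q]
      ring
    · intro z hz
      apply ThA_range
      rw [Function.mem_support] at hz
      by_contra hc
      apply hz
      rw [neg_pow q, neg_pow q]
      have h8 : (-1 : ℂ) ^ (z.2.natAbs ^ 2) + (-1) ^ (z.1.natAbs ^ 2) = 0 := by
        by_cases h9 : Even (z.1.natAbs ^ 2)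
        · have h10 : ¬ Even (z.2.natAbs ^ 2) := fun h => hc ⟨fun _ => h, fun _ => h9⟩
          rw [h9.neg_one_pow, (Nat.not_even_iff_odd.1 h10).neg_one_pow]
          ring
        · have h10 : Even (z.2.natAbs ^ 2) := by
            by_contra h
            exact hc ⟨fun h' => absurd h' h9, fun h' => absurd h' h⟩
          rw [h10.neg_one_pow, (Nat.not_even_iff_odd.1 h9).neg_one_pow]
          ring
      have h11 : q ^ (z.1.natAbs ^ 2) * ((-1) ^ (z.2.natAbs ^ 2) * q ^ (z.2.natAbs ^ 2)) +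
          (-1) ^ (z.1.natAbs ^ 2) * q ^ (z.1.natAbs ^ 2) * q ^ (z.2.natAbs ^ 2) =
          ((-1 : ℂ) ^ (z.2.natAbs ^ 2) + (-1) ^ (z.1.natAbs ^ 2)) *
            (q ^ (z.1.natAbs ^ 2) * q ^ (z.2.natAbs ^ 2)) := by ring
      rw [h11, h8, zero_mul]
  exact mul_left_cancel₀ two_ne_zero h6

end FacC
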