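import Pool.Agent.Lib.FacC.ThS

/-!
VALUES OF θ_3 AND OF ITS DERIVATIVE at ± i exp(-π/2)  (ThS and Mathlib; independent of ThA, ThB, ThN).

E = exp(-π/2) (real), Q4 = i E.  For an integer n: (iE)^(n^2) = E^(n^2) if n is even (4 | n^2) and i E^(n^2) if n
is odd (n^2 = 1 mod 4); for -iE: E^(n^2), resp. -i E^(n^2).  Put (sums over n in ℤ, n.natAbs^2 in t3)
 c = ∑_(n even) E^(n^2), s = ∑_(n odd) E^(n^2), C = ∑_(n even) n^2 E^(n^2), S = ∑_(n odd) n^2 E^(n^2).
Then t3(±iE) = c ± i s and, differentiating termwise (`Complex.hasSum_deriv_of_summable_norm` on a ball of radius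
r < 1 containing ±iE; the derivative of q^k is k q^(k-1)), q t3'(q) = ∑ n^2 q^(n^2) = C ± i S at q = ±iE.
(1) 1 <= c : the term n = 0 is 1, the others are >= 0.  s <= S: n^2 >= 1 for odd n.  0 <= C.
(2) C <= 0.0202: n = 2m: C = ∑_(m ∈ ℤ) 4 m^2 x^(m^2), x = E^4 = exp(-2π) <= exp(-6) < 0.00248;
 m^2 x^(m^2) <= |m| x^|m|  (for m != 0: |m| x^(m^2-|m|) <= 1), so C <= 8 ∑_(m>=1) m x^m = 8 x/(1-x)^2
 (`tsum_coe_mul_geometric_of_norm_lt_one`) <= 8 * 0.00248/0.99504^2... <= 0.0202.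
(3) c + s = sqrt 2 * c: c + s = ∑_n E^(n^2) = ∑_n exp(-π n^2 / 2) and c = ∑_m exp(-2π m^2) (n = 2m); by
 `Real.tsum_exp_neg_mul_int_sq` with a = 1/2:
 ∑ exp(-π (1/2) n^2) = (1/(1/2)^(1/2)) ∑ exp(-π/(1/2) n^2) = sqrt 2 ∑ exp(-2π n^2).
-/

open Polynomial Filter Topology

namespace FacC

/-- `i exp(-π/2)`. -/
noncomputable def Q4 : ℂ := Complex.I * (Real.exp (-(Real.pi / 2)) : ℝ)

private theorem ThD_E_lt : Real.exp (-(Real.pi / 2)) < 1 / 2 := by
  have h1 : (2.7 : ℝ) < Real.exp 1 := by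
    have := Real.exp_one_gt_d9
    linarith
  have h2 : Real.exp 1 ≤ Real.exp (Real.pi / 2) := by
    apply Real.exp_le_exp.2
    have := Real.pi_gt_three
    linarith
  rw [Real.exp_neg, inv_lt_comm₀ (Real.exp_pos _) (by norm_num)]
  norm_num
  linarith

private theorem ThD_x_lt : Real.exp (-(Real.pi / 2)) ^ 4 < 0.00248 := by
  have h1 : (2.7182 : ℝ) < Real.exp 1 := by
    have := Real.exp_one_gt_d9
    linarith
  have h2 : Real.exp (-(Real.pi / 2)) ^ 4 = (Real.exp (2 * Real.pi))⁻¹ := by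
    rw [← Real.exp_nat_mul, ← Real.exp_neg]
    congr 1
    push_cast
    ring
  rw [h2]
  have h3 : Real.exp 1 ^ 6 ≤ Real.exp (2 * Real.pi) := by
    rw [← Real.exp_nat_mul]
    apply Real.exp_le_exp.2
    have := Real.pi_gt_three
    push_cast
    linarith
  have h4 : (2.7182 : ℝ) ^ 6 < Real.exp 1 ^ 6 :=
    pow_lt_pow_left₀ h1 (by norm_num) (by norm_num)
  have h5 : ((0.00248 : ℝ))⁻¹ < 2.7182 ^ 6 := by norm_num
  rw [inv_lt_comm₀ (Real.exp_pos _) (by norm_num)]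
  linarith

private theorem ThD_odd_sq (n : ℤ) (h : ¬ Even n) : ∃ k : ℕ, n.natAbs ^ 2 = 4 * k + 1 := by
  rw [Int.not_even_iff_odd] at h
  obtain ⟨m, hm⟩ : Odd n.natAbs := by rwa [Int.natAbs_odd]
  exact ⟨m ^ 2 + m, by rw [hm]; ring⟩

private theorem ThD_even_sq (n : ℤ) (h : Even n) : ∃ k : ℕ, n.natAbs ^ 2 = 4 * k := by
  obtain ⟨m, hm⟩ : Even n.natAbs := by rwa [Int.natAbs_even]
  exact ⟨m ^ 2, by rw [hm]; ring⟩

private noncomputable def ThD_ev (E : ℝ) (n : ℤ) : ℝ :=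
  if Even n then E ^ (n.natAbs ^ 2) else 0

private noncomputable def ThD_od (E : ℝ) (n : ℤ) : ℝ :=
  if Even n then 0 else E ^ (n.natAbs ^ 2)

private theorem ThD_pow (E : ℝ) (n : ℤ) (e : ℝ) (he : e = 1 ∨ e = -1) :
    ((e : ℂ) * (Complex.I * (E : ℂ))) ^ (n.natAbs ^ 2) =
      (ThD_ev E n : ℂ) + ((e * ThD_od E n : ℝ) : ℂ) * Complex.I := by
  have he4 : ((e : ℂ) * Complex.I) ^ 4 = 1 := by
    have h0 : ((e : ℂ) * Complex.I) ^ 4 = ((e : ℂ) ^ 2) ^ 2 * (Complex.I ^ 2) ^ 2 := by ring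
    have he2 : ((e : ℂ)) ^ 2 = 1 := by
      rcases he with rfl | rfl <;> norm_num
    rw [h0, he2, Complex.I_sq]
    norm_num
  unfold ThD_ev ThD_od
  rw [← mul_assoc, mul_pow]
  by_cases h : Even n
  · rw [if_pos h, if_pos h]
    obtain ⟨k, hk⟩ := ThD_even_sq n h
    rw [hk, pow_mul, he4, one_pow]
    push_cast
    ring
  · rw [if_neg h, if_neg h]
    obtain ⟨k, hk⟩ := ThD_odd_sq n h
    rw [hk]
    have h1 : ((e : ℂ) * Complex.I) ^ (4 * k + 1) = (e : ℂ) * Complex.I := by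
      rw [pow_succ, pow_mul, he4, one_pow, one_mul]
    rw [h1]
    push_cast
    ring

private theorem ThD_hasSum (q : ℂ) (hq : ‖q‖ < 1) :
    HasSum (fun n : ℤ => q ^ (n.natAbs ^ 2)) (t3 q) := by
  have h1 : Summable (fun n : ℤ => q ^ (n.natAbs ^ 2)) := (t3_summable q hq).of_norm
  exact h1.hasSum

private theorem ThD_sq (n : ℤ) : ((n.natAbs ^ 2 : ℕ) : ℂ) = (n : ℂ) ^ 2 := by
  have h1 : ((n.natAbs ^ 2 : ℕ) : ℤ) = n ^ 2 := by
    push_cast
    exact sq_abs n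
  have h2 : (((n.natAbs ^ 2 : ℕ) : ℤ) : ℂ) = ((n ^ 2 : ℤ) : ℂ) := by rw [h1]
  rw [Int.cast_natCast] at h2
  rw [h2]
  push_cast
  ring

private theorem ThD_hasSum_deriv (q : ℂ) (hq : ‖q‖ < 1 / 2) :
    HasSum (fun n : ℤ => ((n : ℂ) ^ 2) * q ^ (n.natAbs ^ 2)) (q * deriv t3 q) := by
  have hu : Summable (fun n : ℤ => (1 / 2 : ℝ) ^ (n.natAbs ^ 2)) := by
    have h1 := t3_summable (1 / 2 : ℂ) (by norm_num)
    refine h1.congr fun n => ?_
    rw [norm_pow]
    norm_num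
  have h2 := Complex.hasSum_deriv_of_summable_norm (U := Metric.ball (0 : ℂ) (1 / 2))
    (F := fun (n : ℤ) (w : ℂ) => w ^ (n.natAbs ^ 2)) (z := q) hu
    (fun n => (differentiable_pow (n.natAbs ^ 2)).differentiableOn) Metric.isOpen_ball
    (fun n w hw => by
      rw [norm_pow]
      refine pow_le_pow_left₀ (norm_nonneg _) ?_ _
      rw [Metric.mem_ball, dist_zero_right] at hw
      exact hw.le) (by rw [Metric.mem_ball, dist_zero_right]; exact hq)
  have h3 : (fun w : ℂ => ∑' n : ℤ, w ^ (n.natAbs ^ 2)) = t3 := rfl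
  rw [h3] at h2
  have h4 := h2.mul_left q
  have h5 : (fun n : ℤ => q * deriv (fun w : ℂ => w ^ (n.natAbs ^ 2)) q) =
      fun n : ℤ => ((n : ℂ) ^ 2) * q ^ (n.natAbs ^ 2) := by
    funext n
    rw [← ThD_sq n]
    have h6 : deriv (fun w : ℂ => w ^ (n.natAbs ^ 2)) q =
        ((n.natAbs ^ 2 : ℕ) : ℂ) * q ^ (n.natAbs ^ 2 - 1) := by
      simp
    rw [h6]
    rcases Nat.eq_zero_or_pos (n.natAbs ^ 2) with h0 | h0
    · rw [h0]; simp
    · have h7 : q ^ (n.natAbs ^ 2) = q * q ^ (n.natAbs ^ 2 - 1) := by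
        rw [← pow_succ']
        congr 1
        omega
      rw [h7]
      ring
  rw [h5] at h4
  exact h4

private theorem ThD_term (k : ℕ) (x : ℝ) (hx0 : 0 < x) (hx : x < 1 / 4) :
    (k : ℝ) ^ 2 * x ^ (k ^ 2) ≤ (k : ℝ) * x ^ k := by
  rcases Nat.eq_zero_or_pos k with h | h
  · subst h; simp
  · have h1 : x ^ (k ^ 2) = x ^ k * x ^ (k * (k - 1)) := by
      rw [← pow_add]
      congr 1
      obtain ⟨j, rfl⟩ : ∃ j, k = j + 1 := ⟨k - 1, by omega⟩
      simp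
      ring
    have h2 : (k : ℝ) * x ^ (k * (k - 1)) ≤ 1 := by
      have h3 : x ^ (k * (k - 1)) ≤ x ^ (k - 1) := by
        apply pow_le_pow_of_le_one hx0.le (by linarith)
        exact Nat.le_mul_of_pos_left _ h
      have h4 : x ^ (k - 1) ≤ (1 / 2 : ℝ) ^ (k - 1) :=
        pow_le_pow_left₀ hx0.le (by linarith) _
      have h5 : (k : ℝ) ≤ 2 ^ (k - 1) := by
        have h6 : k ≤ 2 ^ (k - 1) := by
          have := Nat.lt_two_pow_self (n := k - 1)
          omega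
        exact_mod_cast h6
      calc (k : ℝ) * x ^ (k * (k - 1)) ≤ 2 ^ (k - 1) * (1 / 2 : ℝ) ^ (k - 1) := by
            apply mul_le_mul h5 (h3.trans h4) (by positivity) (by positivity)
        _ = 1 := by rw [← mul_pow]; norm_num
    rw [h1]
    have h7 : (k : ℝ) ^ 2 * (x ^ k * x ^ (k * (k - 1))) =
        ((k : ℝ) * x ^ k) * ((k : ℝ) * x ^ (k * (k - 1))) := by ring
    rw [h7]
    exact mul_le_of_le_one_right (by positivity) h2

private theorem ThD_natAbs_sq (n : ℤ) : ((n.natAbs : ℝ)) ^ 2 = (n : ℝ) ^ 2 := by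
  have h1 : ((n.natAbs : ℤ)) ^ 2 = n ^ 2 := by
    rw [Int.natCast_natAbs]
    exact sq_abs n
  have h2 : (((n.natAbs : ℤ)) : ℝ) ^ 2 = (n : ℝ) ^ 2 := by
    have := congrArg (fun z : ℤ => (z : ℝ)) h1
    simp only [Int.cast_pow] at this
    exact this
  rw [← h2, Int.cast_natCast]

private theorem ThD_bound (E : ℝ) (hE : 0 < E) (hE4 : E ^ 4 < 0.00248) (C : ℝ)
    (hC : HasSum (fun n : ℤ => (n : ℝ) ^ 2 * ThD_ev E n) C) : C ≤ 0.0202 := by
  have hinj : Function.Injective (fun m : ℤ => 2 * m) := by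
    intro a b h
    simp only at h
    omega
  have hz : ∀ n : ℤ, n ∉ Set.range (fun m : ℤ => 2 * m) → (n : ℝ) ^ 2 * ThD_ev E n = 0 := by
    intro n hn
    have h1 : ¬ Even n := by
      rintro ⟨m, hm⟩
      exact hn ⟨m, by simp only; omega⟩
    rw [ThD_ev, if_neg h1, mul_zero]
  have h2 := (Function.Injective.hasSum_iff hinj hz).2 hC
  have hx0 : 0 < E ^ 4 := by positivity
  have h3 : HasSum (fun n : ℤ => 4 * ((n.natAbs : ℝ) * (E ^ 4) ^ n.natAbs))
      (4 * (E ^ 4 / (1 - E ^ 4) ^ 2) + 4 * (E ^ 4 / (1 - E ^ 4) ^ 2)) := by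
    have h4 : HasSum (fun n : ℕ => (n : ℝ) * (E ^ 4) ^ n) (E ^ 4 / (1 - E ^ 4) ^ 2) := by
      apply hasSum_coe_mul_geometric_of_norm_lt_one
      rw [Real.norm_eq_abs, abs_of_pos hx0]
      linarith
    have h5 : HasSum (fun n : ℕ => ((n + 1 : ℕ) : ℝ) * (E ^ 4) ^ (n + 1))
        (E ^ 4 / (1 - E ^ 4) ^ 2) := by
      have h6 := (hasSum_nat_add_iff' (f := fun n : ℕ => (n : ℝ) * (E ^ 4) ^ n) 1).2 h4
      simpa using h6
    apply HasSum.of_nat_of_neg_add_one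
    · simpa using h4.mul_left 4
    · have h7 := h5.mul_left 4
      have h8 : (fun n : ℕ => 4 * (((-((n : ℤ) + 1)).natAbs : ℝ) *
          (E ^ 4) ^ (-((n : ℤ) + 1)).natAbs)) =
          fun n : ℕ => 4 * (((n + 1 : ℕ) : ℝ) * (E ^ 4) ^ (n + 1)) := by
        funext n
        have h9 : (-((n : ℤ) + 1)).natAbs = n + 1 := by omega
        rw [h9]
      rw [h8]
      exact h7
  have h10 : C ≤ 4 * (E ^ 4 / (1 - E ^ 4) ^ 2) + 4 * (E ^ 4 / (1 - E ^ 4) ^ 2) := by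
    refine hasSum_le (fun m => ?_) h2 h3
    simp only [Function.comp]
    have h11 : Even (2 * m) := even_two_mul m
    rw [ThD_ev, if_pos h11]
    have h12 : (2 * m).natAbs ^ 2 = 4 * m.natAbs ^ 2 := by
      rw [Int.natAbs_mul]
      simp
      ring
    rw [h12, pow_mul]
    have h13 := ThD_term m.natAbs (E ^ 4) hx0 (by linarith)
    have h14 : (((2 * m : ℤ)) : ℝ) ^ 2 = 4 * (m.natAbs : ℝ) ^ 2 := by
      rw [ThD_natAbs_sq]
      push_cast
      ring
    rw [h14]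
    linarith
  have h15 : E ^ 4 / (1 - E ^ 4) ^ 2 ≤ 0.002525 := by
    have h16 : (0.9975 : ℝ) ^ 2 ≤ (1 - E ^ 4) ^ 2 := by
      apply pow_le_pow_left₀ (by norm_num)
      linarith
    have h17 : 0 < (1 - E ^ 4) ^ 2 := lt_of_lt_of_le (by norm_num) h16
    rw [div_le_iff₀ h17]
    nlinarith
  linarith

private theorem ThD_funct (c d : ℝ) (hc : HasSum (fun n : ℤ => ThD_ev (Real.exp (-(Real.pi / 2))) n) c)
    (hd : HasSum (fun n : ℤ => ThD_ev (Real.exp (-(Real.pi / 2))) n +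
      ThD_od (Real.exp (-(Real.pi / 2))) n) d) : d = Real.sqrt 2 * c := by
  set E : ℝ := Real.exp (-(Real.pi / 2)) with hE
  have hinj : Function.Injective (fun m : ℤ => 2 * m) := by
    intro a b h
    simp only at h
    omega
  have hz : ∀ n : ℤ, n ∉ Set.range (fun m : ℤ => 2 * m) → ThD_ev E n = 0 := by
    intro n hn
    have h1 : ¬ Even n := by
      rintro ⟨m, hm⟩
      exact hn ⟨m, by simp only; omega⟩
    rw [ThD_ev, if_neg h1]
  have h2 := (Function.Injective.hasSum_iff hinj hz).2 hc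
  have h3 : ((fun n : ℤ => ThD_ev E n) ∘ fun m : ℤ => 2 * m) =
      fun n : ℤ => Real.exp (-Real.pi / (1 / 2) * (n : ℝ) ^ 2) := by
    funext m
    simp only [Function.comp]
    rw [ThD_ev, if_pos (even_two_mul m), hE, ← Real.exp_nat_mul]
    congr 1
    have h4 : (((2 * m).natAbs ^ 2 : ℕ) : ℝ) = 4 * (m : ℝ) ^ 2 := by
      push_cast
      rw [ThD_natAbs_sq]
      push_cast
      ring
    rw [h4]
    ring
  rw [h3] at h2
  have h5 : (fun n : ℤ => ThD_ev E n + ThD_od E n) =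
      fun n : ℤ => Real.exp (-Real.pi * (1 / 2) * (n : ℝ) ^ 2) := by
    funext n
    have h6 : ThD_ev E n + ThD_od E n = E ^ (n.natAbs ^ 2) := by
      unfold ThD_ev ThD_od
      split_ifs <;> simp
    rw [h6, hE, ← Real.exp_nat_mul]
    congr 1
    push_cast
    rw [ThD_natAbs_sq]
    ring
  rw [h5] at hd
  have h7 := Real.tsum_exp_neg_mul_int_sq (a := 1 / 2) (by norm_num)
  rw [hd.tsum_eq, h2.tsum_eq] at h7
  rw [h7]
  congr 1
  rw [← Real.sqrt_eq_rpow, one_div, ← Real.sqrt_inv]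
  norm_num

theorem thD : ∃ c s C S : ℝ, 1 ≤ c ∧ c + s = Real.sqrt 2 * c ∧ s ≤ S ∧ 0 ≤ C ∧ C ≤ 0.0202 ∧
    t3 Q4 = c + s * Complex.I ∧ t3 (-Q4) = c - s * Complex.I ∧
    Q4 * deriv t3 Q4 = C + S * Complex.I ∧ -Q4 * deriv t3 (-Q4) = C - S * Complex.I := by
  set E : ℝ := Real.exp (-(Real.pi / 2)) with hE
  have hE0 : 0 < E := Real.exp_pos _
  have hE1 : E < 1 / 2 := ThD_E_lt
  have hE4 : E ^ 4 < 0.00248 := ThD_x_lt
  have hQ : Q4 = ((1 : ℝ) : ℂ) * (Complex.I * (E : ℂ)) := by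
    unfold Q4
    rw [← hE]
    push_cast
    ring
  have hQ' : -Q4 = ((-1 : ℝ) : ℂ) * (Complex.I * (E : ℂ)) := by
    unfold Q4
    rw [← hE]
    push_cast
    ring
  have hn : ‖Q4‖ = E := by
    rw [hQ]
    simp [abs_of_pos hE0]
  have hn' : ‖-Q4‖ = E := by rw [norm_neg, hn]
  have key : ∀ (e : ℝ), (e = 1 ∨ e = -1) → ∀ q : ℂ, q = (e : ℂ) * (Complex.I * (E : ℂ)) →
      ‖q‖ = E → HasSum (fun n : ℤ => ThD_ev E n) (t3 q).re ∧
      HasSum (fun n : ℤ => e * ThD_od E n) (t3 q).im ∧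
      HasSum (fun n : ℤ => (n : ℝ) ^ 2 * ThD_ev E n) (q * deriv t3 q).re ∧
      HasSum (fun n : ℤ => e * ((n : ℝ) ^ 2 * ThD_od E n)) (q * deriv t3 q).im := by
    intro e he q hq hqn
    have h1 := ThD_hasSum q (by rw [hqn]; linarith)
    have h2 := ThD_hasSum_deriv q (by rw [hqn]; exact hE1)
    have h3 : ∀ n : ℤ, q ^ (n.natAbs ^ 2) =
        (ThD_ev E n : ℂ) + ((e * ThD_od E n : ℝ) : ℂ) * Complex.I := by
      intro n
      rw [hq]
      exact ThD_pow E n e he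
    rw [Complex.hasSum_iff] at h1 h2
    refine ⟨?_, ?_, ?_, ?_⟩
    · have := h1.1
      simp only [h3] at this
      simpa using this
    · have := h1.2
      simp only [h3] at this
      simpa using this
    · have := h2.1
      have h4 : ∀ n : ℤ, ((n : ℂ) ^ 2 * q ^ (n.natAbs ^ 2)).re = (n : ℝ) ^ 2 * ThD_ev E n := by
        intro n
        rw [h3]
        have h5 : ((n : ℂ) ^ 2) = (((n : ℝ) ^ 2 : ℝ) : ℂ) := by push_cast; ring
        rw [h5, Complex.re_ofReal_mul]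
        simp
      simp only [h4] at this
      exact this
    · have := h2.2
      have h4 : ∀ n : ℤ, ((n : ℂ) ^ 2 * q ^ (n.natAbs ^ 2)).im =
          e * ((n : ℝ) ^ 2 * ThD_od E n) := by
        intro n
        rw [h3]
        have h5 : ((n : ℂ) ^ 2) = (((n : ℝ) ^ 2 : ℝ) : ℂ) := by push_cast; ring
        rw [h5, Complex.im_ofReal_mul]
        simp
        ring
      simp only [h4] at this
      exact this
  obtain ⟨a1, a2, a3, a4⟩ := key 1 (Or.inl rfl) Q4 hQ hn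
  obtain ⟨b1, b2, b3, b4⟩ := key (-1) (Or.inr rfl) (-Q4) hQ' hn'
  simp only [one_mul] at a2 a4
  have ev0 : ∀ n : ℤ, 0 ≤ ThD_ev E n := by
    intro n; unfold ThD_ev; split_ifs <;> positivity
  have od0 : ∀ n : ℤ, 0 ≤ ThD_od E n := by
    intro n; unfold ThD_od; split_ifs <;> positivity
  refine ⟨(t3 Q4).re, (t3 Q4).im, (Q4 * deriv t3 Q4).re, (Q4 * deriv t3 Q4).im, ?_, ?_, ?_, ?_,
    ?_, ?_, ?_, ?_, ?_⟩
  · have h1 := le_hasSum a1 0 fun n _ => ev0 n
    have h2 : ThD_ev E 0 = 1 := by simp [ThD_ev]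
    rw [h2] at h1
    exact h1
  · exact ThD_funct _ _ a1 (a1.add a2)
  · refine hasSum_le (fun n => ?_) a2 a4
    by_cases h : Even n
    · simp [ThD_od, h]
    · have h1 : (1 : ℝ) ≤ (n : ℝ) ^ 2 := by
        have h2 : n ≠ 0 := by
          rintro rfl
          exact h (by simp)
        have h3 : (1 : ℤ) ≤ n ^ 2 := by
          have := sq_pos_of_ne_zero h2
          omega
        exact_mod_cast h3
      exact le_mul_of_one_le_left (od0 n) h1
  · exact HasSum.nonneg (fun n => mul_nonneg (sq_nonneg _) (ev0 n)) a3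
  · exact ThD_bound E hE0 hE4 _ a3
  · exact (Complex.re_add_im _).symm
  · have h1 : (t3 (-Q4)).re = (t3 Q4).re := b1.unique a1
    have h2 : (t3 (-Q4)).im = -(t3 Q4).im := by
      have := a2.mul_left (-1)
      have h3 := b2.unique this
      rw [h3]; ring
    apply Complex.ext
    · simp [h1]
    · simp [h2]
  · exact (Complex.re_add_im _).symm
  · have h1 : (-Q4 * deriv t3 (-Q4)).re = (Q4 * deriv t3 Q4).re := b3.unique a3
    have h2 : (-Q4 * deriv t3 (-Q4)).im = -(Q4 * deriv t3 Q4).im := by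
      have := a4.mul_left (-1)
      have h3 := b4.unique this
      rw [h3]; ring
    apply Complex.ext
    · rw [h1]; simp
    · rw [h2]; simp

end FacC
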