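import Pool.Agent.Lib.FacC.ThS

/-!
VALUES OF θ_3 AND OF ITS DERIVATIVE at ± q, q = i exp(-π √3 / 2) = exp(π i τ0), τ0 = exp(π i / 3)
(ThS and Mathlib; compare ThD.lean for τ = 1 + i).

t3(±q) = c ± i s and q t3'(q) = C ± i S with real c, s, C, S (n even resp. odd in the series);
1 <= c, s <= S, 0 <= C <= 0.0004; the functional equation θ(-1/τ) = (-iτ)^(1/2) θ(τ) with
-1/τ0 = τ0 - 1 gives t3(-q)^2 = -i τ0 t3(q)^2.
-/

open Polynomial Filter Topology

namespace FacC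

/-- `exp(π i / 3)`. -/
noncomputable def tau0 : ℂ := ⟨1 / 2, Real.sqrt 3 / 2⟩

/-- `i exp(-π √3 / 2)`. -/
noncomputable def Q3 : ℂ := Complex.I * (Real.exp (-(Real.pi * (Real.sqrt 3 / 2))) : ℝ)

private theorem sqrt3_lo : (1.73205 : ℝ) < Real.sqrt 3 := by
  rw [Real.lt_sqrt (by norm_num)]; norm_num

private theorem ThR_arg : (2.5 : ℝ) ≤ Real.pi * (Real.sqrt 3 / 2) := by
  have h1 := sqrt3_lo
  have h2 : (3 : ℝ) < Real.pi := Real.pi_gt_three
  have h3 : (3 : ℝ) * (1.73205 / 2) ≤ Real.pi * (Real.sqrt 3 / 2) := by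
    apply mul_le_mul h2.le (by linarith) (by norm_num) Real.pi_pos.le
  linarith

private theorem ThR_E_lt : Real.exp (-(Real.pi * (Real.sqrt 3 / 2))) < 1 / 2 := by
  have h1 : (2.7 : ℝ) < Real.exp 1 := by
    have := Real.exp_one_gt_d9
    linarith
  have h2 : Real.exp 1 ≤ Real.exp (Real.pi * (Real.sqrt 3 / 2)) := by
    apply Real.exp_le_exp.2
    have := ThR_arg
    linarith
  rw [Real.exp_neg, inv_lt_comm₀ (Real.exp_pos _) (by norm_num)]
  norm_num
  linarith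

private theorem ThR_x_lt : Real.exp (-(Real.pi * (Real.sqrt 3 / 2))) ^ 4 < 0.0000487 := by
  have h1 : (2.7 : ℝ) < Real.exp 1 := by
    have := Real.exp_one_gt_d9
    linarith
  have h2 : Real.exp (-(Real.pi * (Real.sqrt 3 / 2))) ^ 4 =
      (Real.exp (4 * (Real.pi * (Real.sqrt 3 / 2))))⁻¹ := by
    rw [← Real.exp_nat_mul, ← Real.exp_neg]
    congr 1
    push_cast
    ring
  rw [h2]
  have h3 : Real.exp 1 ^ 10 ≤ Real.exp (4 * (Real.pi * (Real.sqrt 3 / 2))) := by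
    rw [← Real.exp_nat_mul]
    apply Real.exp_le_exp.2
    have := ThR_arg
    push_cast
    linarith
  have h4 : (2.7 : ℝ) ^ 10 < Real.exp 1 ^ 10 :=
    pow_lt_pow_left₀ h1 (by norm_num) (by norm_num)
  have h5 : ((0.0000487 : ℝ))⁻¹ < 2.7 ^ 10 := by norm_num
  rw [inv_lt_comm₀ (Real.exp_pos _) (by norm_num)]
  linarith

private theorem ThR_odd_sq (n : ℤ) (h : ¬ Even n) : ∃ k : ℕ, n.natAbs ^ 2 = 4 * k + 1 := by
  rw [Int.not_even_iff_odd] at h
  obtain ⟨m, hm⟩ : Odd n.natAbs := by rwa [Int.natAbs_odd]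
  exact ⟨m ^ 2 + m, by rw [hm]; ring⟩

private theorem ThR_even_sq (n : ℤ) (h : Even n) : ∃ k : ℕ, n.natAbs ^ 2 = 4 * k := by
  obtain ⟨m, hm⟩ : Even n.natAbs := by rwa [Int.natAbs_even]
  exact ⟨m ^ 2, by rw [hm]; ring⟩

private noncomputable def ThR_ev (E : ℝ) (n : ℤ) : ℝ :=
  if Even n then E ^ (n.natAbs ^ 2) else 0

private noncomputable def ThR_od (E : ℝ) (n : ℤ) : ℝ :=
  if Even n then 0 else E ^ (n.natAbs ^ 2)

private theorem ThR_pow (E : ℝ) (n : ℤ) (e : ℝ) (he : e = 1 ∨ e = -1) :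
    ((e : ℂ) * (Complex.I * (E : ℂ))) ^ (n.natAbs ^ 2) =
      (ThR_ev E n : ℂ) + ((e * ThR_od E n : ℝ) : ℂ) * Complex.I := by
  have he4 : ((e : ℂ) * Complex.I) ^ 4 = 1 := by
    have h0 : ((e : ℂ) * Complex.I) ^ 4 = ((e : ℂ) ^ 2) ^ 2 * (Complex.I ^ 2) ^ 2 := by ring
    have he2 : ((e : ℂ)) ^ 2 = 1 := by
      rcases he with rfl | rfl <;> norm_num
    rw [h0, he2, Complex.I_sq]
    norm_num
  unfold ThR_ev ThR_od
  rw [← mul_assoc, mul_pow]
  by_cases h : Even n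
  · rw [if_pos h, if_pos h]
    obtain ⟨k, hk⟩ := ThR_even_sq n h
    rw [hk, pow_mul, he4, one_pow]
    push_cast
    ring
  · rw [if_neg h, if_neg h]
    obtain ⟨k, hk⟩ := ThR_odd_sq n h
    rw [hk]
    have h1 : ((e : ℂ) * Complex.I) ^ (4 * k + 1) = (e : ℂ) * Complex.I := by
      rw [pow_succ, pow_mul, he4, one_pow, one_mul]
    rw [h1]
    push_cast
    ring

private theorem ThR_hasSum (q : ℂ) (hq : ‖q‖ < 1) :
    HasSum (fun n : ℤ => q ^ (n.natAbs ^ 2)) (t3 q) := by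
  have h1 : Summable (fun n : ℤ => q ^ (n.natAbs ^ 2)) := (t3_summable q hq).of_norm
  exact h1.hasSum

private theorem ThR_sq (n : ℤ) : ((n.natAbs ^ 2 : ℕ) : ℂ) = (n : ℂ) ^ 2 := by
  have h1 : ((n.natAbs ^ 2 : ℕ) : ℤ) = n ^ 2 := by
    push_cast
    exact sq_abs n
  have h2 : (((n.natAbs ^ 2 : ℕ) : ℤ) : ℂ) = ((n ^ 2 : ℤ) : ℂ) := by rw [h1]
  rw [Int.cast_natCast] at h2
  rw [h2]
  push_cast
  ring

private theorem ThR_hasSum_deriv (q : ℂ) (hq : ‖q‖ < 1 / 2) :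
    HasSum (fun n : ℤ => ((n : ℂ) ^ 2) * q ^ (n.natAbs ^ 2)) (q * deriv t3 q) := by
  have hu : Summable (fun n : ℤ => (1 / 2 : ℝ) ^ (n.natAbs ^ 2)) := by
    have h1 := t3_summable (1 / 2 : ℂ) (by norm_num)
    refine h1.congr fun n => ?_
    rw [norm_pow]
    norm_num
  have h2 := Complex.hasSum_deriv_of_summable_norm (U := Metric.ball (0 : ℂ) (1 / 2))
    (F := fun (n : ℤ) (w : ℂ) => w ^ (n.natAbs ^ 2)) (z := q) hu
    (fun n => (differentiable_pow (n.natAbs ^ 2)).differentiableOn) Metric.isOpen_ball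
    (fun n w hw => by
      rw [norm_pow]
      refine pow_le_pow_left₀ (norm_nonneg _) ?_ _
      rw [Metric.mem_ball, dist_zero_right] at hw
      exact hw.le) (by rw [Metric.mem_ball, dist_zero_right]; exact hq)
  have h3 : (fun w : ℂ => ∑' n : ℤ, w ^ (n.natAbs ^ 2)) = t3 := rfl
  rw [h3] at h2
  have h4 := h2.mul_left q
  have h5 : (fun n : ℤ => q * deriv (fun w : ℂ => w ^ (n.natAbs ^ 2)) q) =
      fun n : ℤ => ((n : ℂ) ^ 2) * q ^ (n.natAbs ^ 2) := by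
    funext n
    rw [← ThR_sq n]
    have h6 : deriv (fun w : ℂ => w ^ (n.natAbs ^ 2)) q =
        ((n.natAbs ^ 2 : ℕ) : ℂ) * q ^ (n.natAbs ^ 2 - 1) := by
      simp
    rw [h6]
    rcases Nat.eq_zero_or_pos (n.natAbs ^ 2) with h0 | h0
    · rw [h0]; simp
    · have h7 : q ^ (n.natAbs ^ 2) = q * q ^ (n.natAbs ^ 2 - 1) := by
        rw [← pow_succ']
        congr 1
        omega
      rw [h7]
      ring
  rw [h5] at h4
  exact h4

private theorem ThR_term (k : ℕ) (x : ℝ) (hx0 : 0 < x) (hx : x < 1 / 4) :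
    (k : ℝ) ^ 2 * x ^ (k ^ 2) ≤ (k : ℝ) * x ^ k := by
  rcases Nat.eq_zero_or_pos k with h | h
  · subst h; simp
  · have h1 : x ^ (k ^ 2) = x ^ k * x ^ (k * (k - 1)) := by
      rw [← pow_add]
      congr 1
      obtain ⟨j, rfl⟩ : ∃ j, k = j + 1 := ⟨k - 1, by omega⟩
      simp
      ring
    have h2 : (k : ℝ) * x ^ (k * (k - 1)) ≤ 1 := by
      have h3 : x ^ (k * (k - 1)) ≤ x ^ (k - 1) := by
        apply pow_le_pow_of_le_one hx0.le (by linarith)
        exact Nat.le_mul_of_pos_left _ h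
      have h4 : x ^ (k - 1) ≤ (1 / 2 : ℝ) ^ (k - 1) :=
        pow_le_pow_left₀ hx0.le (by linarith) _
      have h5 : (k : ℝ) ≤ 2 ^ (k - 1) := by
        have h6 : k ≤ 2 ^ (k - 1) := by
          have := Nat.lt_two_pow_self (n := k - 1)
          omega
        exact_mod_cast h6
      calc (k : ℝ) * x ^ (k * (k - 1)) ≤ 2 ^ (k - 1) * (1 / 2 : ℝ) ^ (k - 1) := by
            apply mul_le_mul h5 (h3.trans h4) (by positivity) (by positivity)
        _ = 1 := by rw [← mul_pow]; norm_num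
    rw [h1]
    have h7 : (k : ℝ) ^ 2 * (x ^ k * x ^ (k * (k - 1))) =
        ((k : ℝ) * x ^ k) * ((k : ℝ) * x ^ (k * (k - 1))) := by ring
    rw [h7]
    exact mul_le_of_le_one_right (by positivity) h2

private theorem ThR_natAbs_sq (n : ℤ) : ((n.natAbs : ℝ)) ^ 2 = (n : ℝ) ^ 2 := by
  have h1 : ((n.natAbs : ℤ)) ^ 2 = n ^ 2 := by
    rw [Int.natCast_natAbs]
    exact sq_abs n
  have h2 : (((n.natAbs : ℤ)) : ℝ) ^ 2 = (n : ℝ) ^ 2 := by
    have := congrArg (fun z : ℤ => (z : ℝ)) h1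
    simp only [Int.cast_pow] at this
    exact this
  rw [← h2, Int.cast_natCast]

private theorem ThR_bound (E : ℝ) (hE : 0 < E) (hE4 : E ^ 4 < 0.0000487) (C : ℝ)
    (hC : HasSum (fun n : ℤ => (n : ℝ) ^ 2 * ThR_ev E n) C) : C ≤ 0.0004 := by
  have hinj : Function.Injective (fun m : ℤ => 2 * m) := by
    intro a b h
    simp only at h
    omega
  have hz : ∀ n : ℤ, n ∉ Set.range (fun m : ℤ => 2 * m) → (n : ℝ) ^ 2 * ThR_ev E n = 0 := by
    intro n hn
    have h1 : ¬ Even n := by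
      rintro ⟨m, hm⟩
      exact hn ⟨m, by simp only; omega⟩
    rw [ThR_ev, if_neg h1, mul_zero]
  have h2 := (Function.Injective.hasSum_iff hinj hz).2 hC
  have hx0 : 0 < E ^ 4 := by positivity
  have h3 : HasSum (fun n : ℤ => 4 * ((n.natAbs : ℝ) * (E ^ 4) ^ n.natAbs))
      (4 * (E ^ 4 / (1 - E ^ 4) ^ 2) + 4 * (E ^ 4 / (1 - E ^ 4) ^ 2)) := by
    have h4 : HasSum (fun n : ℕ => (n : ℝ) * (E ^ 4) ^ n) (E ^ 4 / (1 - E ^ 4) ^ 2) := by
      apply hasSum_coe_mul_geometric_of_norm_lt_one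
      rw [Real.norm_eq_abs, abs_of_pos hx0]
      linarith
    have h5 : HasSum (fun n : ℕ => ((n + 1 : ℕ) : ℝ) * (E ^ 4) ^ (n + 1))
        (E ^ 4 / (1 - E ^ 4) ^ 2) := by
      have h6 := (hasSum_nat_add_iff' (f := fun n : ℕ => (n : ℝ) * (E ^ 4) ^ n) 1).2 h4
      simpa using h6
    apply HasSum.of_nat_of_neg_add_one
    · simpa using h4.mul_left 4
    · have h7 := h5.mul_left 4
      have h8 : (fun n : ℕ => 4 * (((-((n : ℤ) + 1)).natAbs : ℝ) *
          (E ^ 4) ^ (-((n : ℤ) + 1)).natAbs)) =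
          fun n : ℕ => 4 * (((n + 1 : ℕ) : ℝ) * (E ^ 4) ^ (n + 1)) := by
        funext n
        have h9 : (-((n : ℤ) + 1)).natAbs = n + 1 := by omega
        rw [h9]
      rw [h8]
      exact h7
  have h10 : C ≤ 4 * (E ^ 4 / (1 - E ^ 4) ^ 2) + 4 * (E ^ 4 / (1 - E ^ 4) ^ 2) := by
    refine hasSum_le (fun m => ?_) h2 h3
    simp only [Function.comp]
    have h11 : Even (2 * m) := even_two_mul m
    rw [ThR_ev, if_pos h11]
    have h12 : (2 * m).natAbs ^ 2 = 4 * m.natAbs ^ 2 := by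
      rw [Int.natAbs_mul]
      simp
      ring
    rw [h12, pow_mul]
    have h13 := ThR_term m.natAbs (E ^ 4) hx0 (by linarith)
    have h14 : (((2 * m : ℤ)) : ℝ) ^ 2 = 4 * (m.natAbs : ℝ) ^ 2 := by
      rw [ThR_natAbs_sq]
      push_cast
      ring
    rw [h14]
    linarith
  have h15 : E ^ 4 / (1 - E ^ 4) ^ 2 ≤ 0.00005 := by
    have h16 : (0.9999 : ℝ) ^ 2 ≤ (1 - E ^ 4) ^ 2 := by
      apply pow_le_pow_left₀ (by norm_num)
      linarith
    have h17 : 0 < (1 - E ^ 4) ^ 2 := lt_of_lt_of_le (by norm_num) h16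
    rw [div_le_iff₀ h17]
    nlinarith
  linarith

theorem Q3_norm : ‖Q3‖ < 1 / 2 := by
  unfold Q3
  rw [norm_mul, Complex.norm_I, one_mul, Complex.norm_real, Real.norm_eq_abs,
    abs_of_pos (Real.exp_pos _)]
  exact ThR_E_lt

theorem Q3_exp : Q3 = Complex.exp (Real.pi * Complex.I * tau0) := by
  have ht : tau0 = 1 / 2 + ((Real.sqrt 3 / 2 : ℝ) : ℂ) * Complex.I := by
    apply Complex.ext
    · simp [tau0]
    · simp [tau0]
  have h1 : (Real.pi * Complex.I * tau0 : ℂ)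
      = Real.pi / 2 * Complex.I + ((-(Real.pi * (Real.sqrt 3 / 2)) : ℝ) : ℂ) := by
    rw [ht]
    push_cast
    linear_combination (Real.pi * (Real.sqrt 3 / 2) : ℂ) * Complex.I_mul_I
  rw [h1, Complex.exp_add, Complex.exp_pi_div_two_mul_I]
  unfold Q3
  rw [Complex.ofReal_exp]

theorem tau0_eq : tau0 ^ 2 - tau0 + 1 = 0 := by
  have h3 : Real.sqrt 3 * Real.sqrt 3 = 3 := Real.mul_self_sqrt (by norm_num)
  apply Complex.ext
  · simp [tau0, pow_two]
    nlinarith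
  · simp [tau0, pow_two]
    ring

theorem tau0_ne : tau0 ≠ 0 := by
  intro h
  have := tau0_eq
  rw [h] at this
  norm_num at this

private theorem t3_jac (τ : ℂ) : t3 (Complex.exp (Real.pi * Complex.I * τ)) = jacobiTheta₂ 0 τ := by
  unfold t3 jacobiTheta₂
  refine tsum_congr fun n => ?_
  rw [jacobiTheta₂_term, ← Complex.exp_nat_mul, ThR_sq]
  congr 1
  ring

/-- `θ(-1/τ0) = (-i τ0)^(1/2) θ(τ0)`, `-1/τ0 = τ0 - 1`. -/
theorem t3_funct : t3 (-Q3) ^ 2 = -Complex.I * tau0 * t3 Q3 ^ 2 := by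
  have h1 := jacobiTheta₂_functional_equation 0 tau0
  have h2 : -1 / tau0 = tau0 - 1 := by
    rw [div_eq_iff tau0_ne]
    linear_combination -tau0_eq
  have h3 : Complex.exp (Real.pi * Complex.I * (tau0 - 1)) = -Q3 := by
    rw [mul_sub, mul_one, Complex.exp_sub, Complex.exp_pi_mul_I, ← Q3_exp]
    ring
  have h4 : -Complex.I * tau0 ≠ 0 := mul_ne_zero (neg_ne_zero.mpr Complex.I_ne_zero) tau0_ne
  have h5 : (-Complex.I * tau0) ^ (1 / 2 : ℂ) ≠ 0 := by
    rw [Ne, Complex.cpow_eq_zero_iff, not_and_or]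
    exact Or.inl h4
  have h6 : ((-Complex.I * tau0) ^ (1 / 2 : ℂ)) ^ 2 = -Complex.I * tau0 := by
    rw [← Complex.cpow_nat_mul]
    norm_num
  rw [h2, zero_div, ← t3_jac, ← t3_jac, h3, ← Q3_exp] at h1
  have h7 : Complex.exp (-Real.pi * Complex.I * 0 ^ 2 / tau0) = 1 := by
    norm_num
  rw [h7, mul_one] at h1
  have h8 : t3 (-Q3) = (-Complex.I * tau0) ^ (1 / 2 : ℂ) * t3 Q3 := by
    rw [h1, ← mul_assoc, mul_one_div_cancel h5, one_mul]
  rw [h8, mul_pow, h6]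

theorem thR : ∃ c s C S : ℝ, 1 ≤ c ∧ (1 - Real.sqrt 3 / 2) * (c ^ 2 - s ^ 2) = c * s ∧ 0 ≤ s ∧
    s ≤ S ∧ 0 ≤ C ∧ C ≤ 0.0004 ∧
    t3 Q3 = c + s * Complex.I ∧ t3 (-Q3) = c - s * Complex.I ∧
    Q3 * deriv t3 Q3 = C + S * Complex.I ∧ -Q3 * deriv t3 (-Q3) = C - S * Complex.I := by
  set E : ℝ := Real.exp (-(Real.pi * (Real.sqrt 3 / 2))) with hE
  have hE0 : 0 < E := Real.exp_pos _
  have hE1 : E < 1 / 2 := ThR_E_lt
  have hE4 : E ^ 4 < 0.0000487 := ThR_x_lt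
  have hQ : Q3 = ((1 : ℝ) : ℂ) * (Complex.I * (E : ℂ)) := by
    unfold Q3
    rw [← hE]
    push_cast
    ring
  have hQ' : -Q3 = ((-1 : ℝ) : ℂ) * (Complex.I * (E : ℂ)) := by
    unfold Q3
    rw [← hE]
    push_cast
    ring
  have hn : ‖Q3‖ = E := by
    rw [hQ]
    simp [abs_of_pos hE0]
  have hn' : ‖-Q3‖ = E := by rw [norm_neg, hn]
  have key : ∀ (e : ℝ), (e = 1 ∨ e = -1) → ∀ q : ℂ, q = (e : ℂ) * (Complex.I * (E : ℂ)) →
      ‖q‖ = E → HasSum (fun n : ℤ => ThR_ev E n) (t3 q).re ∧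
      HasSum (fun n : ℤ => e * ThR_od E n) (t3 q).im ∧
      HasSum (fun n : ℤ => (n : ℝ) ^ 2 * ThR_ev E n) (q * deriv t3 q).re ∧
      HasSum (fun n : ℤ => e * ((n : ℝ) ^ 2 * ThR_od E n)) (q * deriv t3 q).im := by
    intro e he q hq hqn
    have h1 := ThR_hasSum q (by rw [hqn]; linarith)
    have h2 := ThR_hasSum_deriv q (by rw [hqn]; exact hE1)
    have h3 : ∀ n : ℤ, q ^ (n.natAbs ^ 2) =
        (ThR_ev E n : ℂ) + ((e * ThR_od E n : ℝ) : ℂ) * Complex.I := by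
      intro n
      rw [hq]
      exact ThR_pow E n e he
    rw [Complex.hasSum_iff] at h1 h2
    refine ⟨?_, ?_, ?_, ?_⟩
    · have := h1.1
      simp only [h3] at this
      simpa using this
    · have := h1.2
      simp only [h3] at this
      simpa using this
    · have := h2.1
      have h4 : ∀ n : ℤ, ((n : ℂ) ^ 2 * q ^ (n.natAbs ^ 2)).re = (n : ℝ) ^ 2 * ThR_ev E n := by
        intro n
        rw [h3]
        have h5 : ((n : ℂ) ^ 2) = (((n : ℝ) ^ 2 : ℝ) : ℂ) := by push_cast; ring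
        rw [h5, Complex.re_ofReal_mul]
        simp
      simp only [h4] at this
      exact this
    · have := h2.2
      have h4 : ∀ n : ℤ, ((n : ℂ) ^ 2 * q ^ (n.natAbs ^ 2)).im =
          e * ((n : ℝ) ^ 2 * ThR_od E n) := by
        intro n
        rw [h3]
        have h5 : ((n : ℂ) ^ 2) = (((n : ℝ) ^ 2 : ℝ) : ℂ) := by push_cast; ring
        rw [h5, Complex.im_ofReal_mul]
        simp
        ring
      simp only [h4] at this
      exact this
  obtain ⟨a1, a2, a3, a4⟩ := key 1 (Or.inl rfl) Q3 hQ hn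
  obtain ⟨b1, b2, b3, b4⟩ := key (-1) (Or.inr rfl) (-Q3) hQ' hn'
  simp only [one_mul] at a2 a4
  have ev0 : ∀ n : ℤ, 0 ≤ ThR_ev E n := by
    intro n; unfold ThR_ev; split_ifs <;> positivity
  have od0 : ∀ n : ℤ, 0 ≤ ThR_od E n := by
    intro n; unfold ThR_od; split_ifs <;> positivity
  have e1 : t3 Q3 = ((t3 Q3).re : ℂ) + ((t3 Q3).im : ℂ) * Complex.I :=
    (Complex.re_add_im _).symm
  have e2 : t3 (-Q3) = ((t3 Q3).re : ℂ) - ((t3 Q3).im : ℂ) * Complex.I := by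
    have h1 : (t3 (-Q3)).re = (t3 Q3).re := b1.unique a1
    have h2 : (t3 (-Q3)).im = -(t3 Q3).im := by
      have := a2.mul_left (-1)
      have h3 := b2.unique this
      rw [h3]; ring
    apply Complex.ext
    · simp [h1]
    · simp [h2]
  refine ⟨(t3 Q3).re, (t3 Q3).im, (Q3 * deriv t3 Q3).re, (Q3 * deriv t3 Q3).im, ?_, ?_, ?_, ?_,
    ?_, ?_, e1, e2, ?_, ?_⟩
  · have h1 := le_hasSum a1 0 fun n _ => ev0 n
    have h2 : ThR_ev E 0 = 1 := by simp [ThR_ev]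
    rw [h2] at h1
    exact h1
  · have h1 := t3_funct
    rw [e2] at h1
    have h2 := congrArg Complex.re h1
    set x := (t3 Q3).re
    set y := (t3 Q3).im
    rw [e1] at h2
    simp [tau0, pow_two] at h2
    nlinarith [h2]
  · exact HasSum.nonneg od0 a2
  · refine hasSum_le (fun n => ?_) a2 a4
    by_cases h : Even n
    · simp [ThR_od, h]
    · have h1 : (1 : ℝ) ≤ (n : ℝ) ^ 2 := by
        have h2 : n ≠ 0 := by
          rintro rfl
          exact h (by simp)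
        have h3 : (1 : ℤ) ≤ n ^ 2 := by
          have := sq_pos_of_ne_zero h2
          omega
        exact_mod_cast h3
      exact le_mul_of_one_le_left (od0 n) h1
  · exact HasSum.nonneg (fun n => mul_nonneg (sq_nonneg _) (ev0 n)) a3
  · exact ThR_bound E hE0 hE4 _ a3
  · exact (Complex.re_add_im _).symm
  · have h1 : (-Q3 * deriv t3 (-Q3)).re = (Q3 * deriv t3 Q3).re := b3.unique a3
    have h2 : (-Q3 * deriv t3 (-Q3)).im = -(Q3 * deriv t3 Q3).im := by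
      have := a4.mul_left (-1)
      have h3 := b4.unique this
      rw [h3]; ring
    apply Complex.ext
    · rw [h1]; simp
    · rw [h2]; simp

end FacC
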