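import Pool.Agent.Lib.FacC.Defs

/-!
THETA SERIES: summability, holomorphy, values at 0 (only Mathlib).

`t3 q = ∑' n : ℤ, q^(n.natAbs^2)`, `ps q = ∑' n : ℕ, q^(n(n+1))`, ‖q‖ < 1.
Summability of the norms: ‖q‖^(n^2) <= ‖q‖^|n| (`summable_int_iff_summable_nat_and_neg`, geometric series),
‖q‖^(n(n+1)) <= ‖q‖^n.
`t3_nat`: t3 q = 1 + 2 ∑' n : ℕ, q^((n+1)^2) (`tsum_int_eq_...`, e.g. `HasSum.of_nat_of_neg_add_one`
 or `tsum_of_nat_of_neg_add_one`).
Holomorphy on the unit disc: `differentiableOn_tsum_of_summable_norm` on every smaller ball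
(bound ‖q‖^n <= r^n) or `AnalyticOnNhd`; DifferentiableOn on the open ball follows pointwise.
-/

open Polynomial Filter Topology

namespace FacC

private theorem ths_nat (r : ℝ) (h0 : 0 ≤ r) (h1 : r < 1) :
    Summable (fun n : ℕ => r ^ (n ^ 2)) := by
  refine Summable.of_nonneg_of_le (fun n => pow_nonneg h0 _) (fun n => ?_)
    (summable_geometric_of_lt_one h0 h1)
  exact pow_le_pow_of_le_one h0 h1.le (by nlinarith [Nat.zero_le n, Nat.le_self_pow two_ne_zero n])

private theorem ths_int (r : ℝ) (h0 : 0 ≤ r) (h1 : r < 1) :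
    Summable (fun n : ℤ => r ^ (n.natAbs ^ 2)) := by
  refine Summable.of_nat_of_neg ?_ ?_
  · simpa using ths_nat r h0 h1
  · simpa using ths_nat r h0 h1

private theorem ths_ps (r : ℝ) (h0 : 0 ≤ r) (h1 : r < 1) :
    Summable (fun n : ℕ => r ^ (n * (n + 1))) := by
  refine Summable.of_nonneg_of_le (fun n => pow_nonneg h0 _) (fun n => ?_)
    (summable_geometric_of_lt_one h0 h1)
  exact pow_le_pow_of_le_one h0 h1.le (by nlinarith [Nat.zero_le n])

theorem t3_summable (q : ℂ) (hq : ‖q‖ < 1) :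
    Summable (fun n : ℤ => ‖q ^ (n.natAbs ^ 2)‖) := by
  simpa [norm_pow] using ths_int ‖q‖ (norm_nonneg q) hq

theorem ps_summable (q : ℂ) (hq : ‖q‖ < 1) :
    Summable (fun n : ℕ => ‖q ^ (n * (n + 1))‖) := by
  simpa [norm_pow] using ths_ps ‖q‖ (norm_nonneg q) hq

theorem t3_nat (q : ℂ) (hq : ‖q‖ < 1) :
    HasSum (fun n : ℕ => 2 * q ^ ((n + 1) ^ 2)) (t3 q - 1) := by
  have hs0 : Summable (fun n : ℕ => q ^ (n ^ 2)) :=
    Summable.of_norm (by simpa [norm_pow] using ths_nat ‖q‖ (norm_nonneg q) hq)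
  have hs1 : Summable (fun n : ℕ => q ^ ((n + 1) ^ 2)) :=
    (summable_nat_add_iff (f := fun n : ℕ => q ^ (n ^ 2)) 1).2 hs0
  obtain ⟨s, hs⟩ := hs1
  have h0 : HasSum (fun n : ℕ => q ^ (n ^ 2)) (s + 1) := by
    have := (hasSum_nat_add_iff (f := fun n : ℕ => q ^ (n ^ 2)) 1).1 hs
    simpa using this
  have h2 : HasSum (fun n : ℤ => q ^ (n.natAbs ^ 2)) ((s + 1) + s) := by
    refine HasSum.of_nat_of_neg_add_one ?_ ?_
    · simpa using h0
    · have he : ∀ n : ℕ, (-((n : ℤ) + 1)).natAbs = n + 1 := fun n => by omega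
      simp only [he]
      exact hs
  have h3 : t3 q = (s + 1) + s := h2.tsum_eq
  have h4 : t3 q - 1 = 2 * s := by rw [h3]; ring
  rw [h4]
  exact hs.mul_left 2

theorem t3_zero : t3 0 = 1 := by
  have h := t3_nat 0 (by simp)
  have h1 : HasSum (fun n : ℕ => 2 * (0 : ℂ) ^ ((n + 1) ^ 2)) 0 := by
    have : (fun n : ℕ => 2 * (0 : ℂ) ^ ((n + 1) ^ 2)) = fun _ => 0 := by
      funext n
      rw [zero_pow (by positivity), mul_zero]
    rw [this]
    exact hasSum_zero
  have h2 := h.unique h1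
  linear_combination h2

theorem ps_zero : ps 0 = 1 := by
  unfold ps
  rw [tsum_eq_single 0]
  · simp
  · intro n hn
    exact zero_pow (by positivity)

theorem t3_diff : DifferentiableOn ℂ t3 (Metric.ball 0 1) := by
  intro q hq
  have hq1 : ‖q‖ < 1 := by simpa using hq
  obtain ⟨r, hr1, hr2⟩ := exists_between hq1
  have h0 : 0 ≤ r := (norm_nonneg q).trans hr1.le
  have hd : DifferentiableOn ℂ (fun w : ℂ => ∑' n : ℤ, w ^ (n.natAbs ^ 2)) (Metric.ball 0 r) := by
    refine Complex.differentiableOn_tsum_of_summable_norm (ths_int r h0 hr2) (fun i => ?_)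
      Metric.isOpen_ball (fun i w hw => ?_)
    · exact (differentiable_id.pow _).differentiableOn
    · have hw' : ‖w‖ < r := by simpa using hw
      rw [norm_pow]
      exact pow_le_pow_left₀ (norm_nonneg w) hw'.le _
  exact (hd.differentiableAt (Metric.isOpen_ball.mem_nhds (by simpa using hr1))).differentiableWithinAt

theorem ps_diff : DifferentiableOn ℂ ps (Metric.ball 0 1) := by
  intro q hq
  have hq1 : ‖q‖ < 1 := by simpa using hq
  obtain ⟨r, hr1, hr2⟩ := exists_between hq1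
  have h0 : 0 ≤ r := (norm_nonneg q).trans hr1.le
  have hd : DifferentiableOn ℂ (fun w : ℂ => ∑' n : ℕ, w ^ (n * (n + 1))) (Metric.ball 0 r) := by
    refine Complex.differentiableOn_tsum_of_summable_norm (ths_ps r h0 hr2) (fun i => ?_)
      Metric.isOpen_ball (fun i w hw => ?_)
    · exact (differentiable_id.pow _).differentiableOn
    · have hw' : ‖w‖ < r := by simpa using hw
      rw [norm_pow]
      exact pow_le_pow_left₀ (norm_nonneg w) hw'.le _
  exact (hd.differentiableAt (Metric.isOpen_ball.mem_nhds (by simpa using hr1))).differentiableWithinAt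

end FacC
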