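import Pool.Agent.Lib.FacC.Defs

/-!
THE RING ℤ + ℤρ, ρ^2 - ρ + 1 = 0 (only Mathlib).

`inZ_int`, `inZ_add`, `inZ_mul` ((a+bρ)(c+dρ) = ac - bd + (ad + bc + bd)ρ), `inZ_sum`, `inZ_pow`.
`inZ_eval`: P(ρ) for P in ℤ[X] (`Polynomial.induction_on`, or `eval_eq_sum_range`).
`inZ_norm`: a nonzero element has norm >= 1:  ρ = (1 ± i sqrt 3)/2, |a+bρ|^2 = a^2+ab+b^2 is a positive
  integer.  (ρ.re = 1/2 and ρ.im^2 = 3/4 follow from the equation: imaginary part (2 re - 1) im = 0,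
  real part re^2 - im^2 - re + 1 = 0.)
`inZ_coord`: |a| <= 2 ‖a+bρ‖, |b| <= 2 ‖a+bρ‖ : a^2+ab+b^2 >= (3/4) a^2 and >= (3/4) b^2.
-/

open Polynomial

namespace FacC

variable {ρ : ℂ}

theorem inZ_int (n : ℤ) : InZ ρ (n : ℂ) := ⟨n, 0, by simp⟩

theorem inZ_add {x y : ℂ} (hx : InZ ρ x) (hy : InZ ρ y) : InZ ρ (x + y) := by
  obtain ⟨a, b, rfl⟩ := hx
  obtain ⟨c, d, rfl⟩ := hy
  exact ⟨a + c, b + d, by push_cast; ring⟩

theorem inZ_mul (hρ : ρ ^ 2 - ρ + 1 = 0) {x y : ℂ} (hx : InZ ρ x) (hy : InZ ρ y) :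
    InZ ρ (x * y) := by
  obtain ⟨a, b, rfl⟩ := hx
  obtain ⟨c, d, rfl⟩ := hy
  refine ⟨a * c - b * d, a * d + b * c + b * d, ?_⟩
  push_cast
  linear_combination ((b : ℂ) * d) * hρ

theorem inZ_sum {α : Type*} (s : Finset α) (f : α → ℂ) (h : ∀ i ∈ s, InZ ρ (f i)) :
    InZ ρ (∑ i ∈ s, f i) := by
  classical
  induction s using Finset.induction_on with
  | empty => exact ⟨0, 0, by simp⟩
  | insert a s ha ih =>
    rw [Finset.sum_insert ha]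
    exact inZ_add (h a (Finset.mem_insert_self a s))
      (ih fun i hi => h i (Finset.mem_insert_of_mem hi))

private lemma inZ_pow (hρ : ρ ^ 2 - ρ + 1 = 0) {x : ℂ} (hx : InZ ρ x) (n : ℕ) :
    InZ ρ (x ^ n) := by
  induction n with
  | zero => exact ⟨1, 0, by simp⟩
  | succ n ih => rw [pow_succ]; exact inZ_mul hρ ih hx

private lemma inZ_rho : InZ ρ ρ := ⟨0, 1, by simp⟩

theorem inZ_eval (hρ : ρ ^ 2 - ρ + 1 = 0) (P : ℤ[X]) :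
    InZ ρ ((P.map (Int.castRingHom ℂ)).eval ρ) := by
  rw [eval_map, eval₂_eq_sum_range]
  exact inZ_sum _ _ fun i _ => inZ_mul hρ (by simpa using inZ_int _) (inZ_pow hρ inZ_rho i)

private lemma rho_re (hρ : ρ ^ 2 - ρ + 1 = 0) : ρ.re = 1 / 2 ∧ ρ.im ^ 2 = 3 / 4 := by
  have h1 := congrArg Complex.re hρ
  have h2 := congrArg Complex.im hρ
  simp [pow_two] at h1 h2
  have h3 : ρ.im * (2 * ρ.re - 1) = 0 := by linarith
  rcases mul_eq_zero.mp h3 with h | h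
  · rw [h] at h1
    nlinarith [sq_nonneg (ρ.re - 1 / 2)]
  · have h4 : ρ.re = 1 / 2 := by linarith
    rw [h4] at h1
    exact ⟨h4, by nlinarith⟩

private lemma nsq (hρ : ρ ^ 2 - ρ + 1 = 0) (a b : ℤ) :
    ‖(a : ℂ) + b * ρ‖ ^ 2 = (a : ℝ) ^ 2 + a * b + b ^ 2 := by
  obtain ⟨h1, h2⟩ := rho_re hρ
  rw [← Complex.normSq_eq_norm_sq, Complex.normSq_apply]
  simp only [Complex.add_re, Complex.mul_re, Complex.add_im, Complex.mul_im, Complex.intCast_re,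
    Complex.intCast_im]
  rw [h1]
  nlinarith [h2]

theorem inZ_norm (hρ : ρ ^ 2 - ρ + 1 = 0) {x : ℂ} (hx : InZ ρ x) (h0 : x ≠ 0) : 1 ≤ ‖x‖ := by
  obtain ⟨a, b, rfl⟩ := hx
  have h1 := nsq hρ a b
  have h2 : 0 < ‖(a : ℂ) + b * ρ‖ ^ 2 := by positivity
  rw [h1] at h2
  have h3 : (0 : ℤ) < a ^ 2 + a * b + b ^ 2 := by exact_mod_cast h2
  have h4 : (1 : ℤ) ≤ a ^ 2 + a * b + b ^ 2 := h3
  have h5 : (1 : ℝ) ≤ (a : ℝ) ^ 2 + a * b + b ^ 2 := by exact_mod_cast h4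
  rw [← h1] at h5
  nlinarith [norm_nonneg ((a : ℂ) + b * ρ)]

theorem inZ_coord (hρ : ρ ^ 2 - ρ + 1 = 0) (a b : ℤ) :
    |(a : ℝ)| ≤ 2 * ‖(a : ℂ) + b * ρ‖ ∧ |(b : ℝ)| ≤ 2 * ‖(a : ℂ) + b * ρ‖ := by
  have h1 := nsq hρ a b
  constructor
  · apply abs_le_of_sq_le_sq
    · rw [mul_pow, h1]; nlinarith [sq_nonneg ((a : ℝ) + 2 * b), sq_nonneg (a : ℝ)]
    · positivity
  · apply abs_le_of_sq_le_sq
    · rw [mul_pow, h1]; nlinarith [sq_nonneg (2 * (a : ℝ) + b), sq_nonneg (b : ℝ)]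
    · positivity

theorem rho_indep (hρ : ρ ^ 2 - ρ + 1 = 0) (a b : ℤ) (h : (a : ℂ) + b * ρ = 0) :
    a = 0 ∧ b = 0 := by
  obtain ⟨h1, h2⟩ := inZ_coord hρ a b
  rw [h, norm_zero, mul_zero] at h1 h2
  have h3 : (a : ℝ) = 0 := abs_nonpos_iff.mp h1
  have h4 : (b : ℝ) = 0 := abs_nonpos_iff.mp h2
  exact ⟨by exact_mod_cast h3, by exact_mod_cast h4⟩

end FacC
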